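import Pool.Agent.Lib.H62w.Defs

set_option autoImplicit false

/-!
Words, end points, weights. Chunk P.
-/

open Finset

namespace H62w

theorem mem_words {M k : ℕ} {l : List ℕ} :
    l ∈ words M k ↔ l.length = k ∧ ∀ a ∈ l, 1 ≤ a ∧ a ≤ M := by
  induction k generalizing l with
  | zero =>
    simp only [words, mem_singleton, List.length_eq_zero_iff]
    constructor
    · rintro rfl
      simp
    · exact fun h => h.1
  | succ k ih =>
    simp only [words, mem_image, mem_product, mem_Icc, Prod.exists]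
    constructor
    · rintro ⟨a, b, ⟨ha, hb⟩, rfl⟩
      rw [ih] at hb
      refine ⟨by simp [hb.1], ?_⟩
      intro c hc
      rcases List.mem_cons.1 hc with rfl | hc
      · exact ha
      · exact hb.2 c hc
    · rintro ⟨h1, h2⟩
      cases l with
      | nil => simp at h1
      | cons a b =>
        refine ⟨a, b, ⟨h2 a List.mem_cons_self, ?_⟩, rfl⟩
        rw [ih]
        exact ⟨by simpa using h1, fun c hc => h2 c (List.mem_cons_of_mem _ hc)⟩

theorem va_en_iff (l : List ℕ) (y : ℕ) :
    (va l y → 2 ^ l.sum * y = 3 ^ l.length * en l y + cc l) ∧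
      (va l y ↔ 2 ^ l.sum * y ≡ cc l [MOD 3 ^ l.length]) := by
  induction l generalizing y with
  | nil =>
    constructor
    · intro _
      simp [en, cc]
    · simp [va, cc, Nat.modEq_one]
  | cons a l ih =>
    have h2 : ∀ s : ℕ, 2 ^ s % 3 = 1 ∨ 2 ^ s % 3 = 2 := by
      intro s
      induction s with
      | zero => left; norm_num
      | succ s ih => rw [pow_succ]; omega
    have key : va (a :: l) y →
        2 ^ (a :: l).sum * y = 3 ^ (a :: l).length * en (a :: l) y + cc (a :: l) := by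
      intro h
      have h1 : 2 ^ a * y % 3 = 1 := h.1
      have h3 := (ih (nx a y)).1 h.2
      have hnx : 3 * nx a y + 1 = 2 ^ a * y := by
        unfold nx
        omega
      rw [List.sum_cons, List.length_cons, pow_add, pow_succ]
      show 2 ^ a * 2 ^ l.sum * y = 3 ^ l.length * 3 * en l (nx a y) + (2 ^ l.sum + 3 * cc l)
      calc 2 ^ a * 2 ^ l.sum * y = 2 ^ l.sum * (2 ^ a * y) := by ring
        _ = 2 ^ l.sum * (3 * nx a y + 1) := by rw [hnx]
        _ = 3 * (2 ^ l.sum * nx a y) + 2 ^ l.sum := by ring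
        _ = 3 * (3 ^ l.length * en l (nx a y) + cc l) + 2 ^ l.sum := by rw [h3]
        _ = _ := by ring
    refine ⟨key, ?_⟩
    constructor
    · intro h
      have h1 := key h
      unfold Nat.ModEq
      rw [h1, Nat.mul_add_mod]
    · intro h
      have hmod : 2 ^ (a :: l).sum * y ≡ cc (a :: l) [MOD 3 ^ (l.length + 1)] := h
      rw [List.sum_cons, pow_add 2 a l.sum] at hmod
      have hcc : cc (a :: l) = 2 ^ l.sum + 3 * cc l := rfl
      rw [hcc] at hmod
      -- modulo 3
      have h3 : 2 ^ a * 2 ^ l.sum * y ≡ 2 ^ l.sum + 3 * cc l [MOD 3] :=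
        hmod.of_dvd (dvd_pow_self 3 (Nat.succ_ne_zero _))
      have h1 : 2 ^ a * y % 3 = 1 := by
        unfold Nat.ModEq at h3
        have e1 : 2 ^ a * 2 ^ l.sum * y % 3 = ((2 ^ a * y) % 3) * (2 ^ l.sum % 3) % 3 := by
          rw [← Nat.mul_mod]
          congr 1
          ring
        have e2 : (2 ^ l.sum + 3 * cc l) % 3 = 2 ^ l.sum % 3 := by omega
        rw [e1, e2] at h3
        have h4 : (2 ^ a * y) % 3 < 3 := Nat.mod_lt _ (by norm_num)
        rcases h2 l.sum with h5 | h5 <;> rw [h5] at h3 <;> omega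
      have hnx : 3 * nx a y + 1 = 2 ^ a * y := by
        unfold nx
        omega
      refine ⟨h1, ?_⟩
      rw [(ih (nx a y)).2]
      have h5 : 2 ^ l.sum + 3 * (2 ^ l.sum * nx a y) ≡ 2 ^ l.sum + 3 * cc l
          [MOD 3 ^ (l.length + 1)] := by
        have e : 2 ^ l.sum + 3 * (2 ^ l.sum * nx a y) = 2 ^ a * 2 ^ l.sum * y := by
          calc 2 ^ l.sum + 3 * (2 ^ l.sum * nx a y) = 2 ^ l.sum * (3 * nx a y + 1) := by ring
            _ = _ := by rw [hnx]; ring
        rw [e]
        exact hmod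
      have h6 : 3 * (2 ^ l.sum * nx a y) ≡ 3 * cc l [MOD 3 * 3 ^ l.length] := by
        have := Nat.ModEq.add_left_cancel' _ h5
        rwa [pow_succ, mul_comm (3 ^ l.length) 3] at this
      exact Nat.ModEq.mul_left_cancel' (by norm_num) h6

theorem va_iff (l : List ℕ) (y : ℕ) : va l y ↔ 2 ^ l.sum * y ≡ cc l [MOD 3 ^ l.length] :=
  (va_en_iff l y).2

theorem en_eq (l : List ℕ) (y : ℕ) (h : va l y) :
    2 ^ l.sum * y = 3 ^ l.length * en l y + cc l := (va_en_iff l y).1 h

theorem en_add (l : List ℕ) (y u : ℕ) (h : va l y) :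
    va l (y + 3 ^ (l.length + 1) * u) ∧
      en l (y + 3 ^ (l.length + 1) * u) = en l y + 3 * 2 ^ l.sum * u := by
  have h1 := en_eq l y h
  have h2 : 2 ^ l.sum * (y + 3 ^ (l.length + 1) * u) =
      3 ^ l.length * (en l y + 3 * 2 ^ l.sum * u) + cc l := by
    rw [mul_add, h1, pow_succ]
    ring
  have h3 : va l (y + 3 ^ (l.length + 1) * u) := by
    rw [va_iff]
    unfold Nat.ModEq
    rw [h2, Nat.mul_add_mod]
  refine ⟨h3, ?_⟩
  have h4 := en_eq l _ h3
  rw [h2] at h4
  have h5 := Nat.add_right_cancel h4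
  exact (Nat.eq_of_mul_eq_mul_left (pow_pos (by norm_num) _) h5).symm

theorem va_append (l l' : List ℕ) (y : ℕ) : va (l ++ l') y ↔ va l y ∧ va l' (en l y) := by
  induction l generalizing y with
  | nil => simp [va, en]
  | cons a l ih =>
    show (2 ^ a * y % 3 = 1 ∧ va (l ++ l') (nx a y)) ↔ (2 ^ a * y % 3 = 1 ∧ va l (nx a y)) ∧ _
    rw [ih, and_assoc]
    rfl

theorem en_append (l l' : List ℕ) (y : ℕ) : en (l ++ l') y = en l' (en l y) := by
  induction l generalizing y with
  | nil => rfl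
  | cons a l ih => exact ih (nx a y)

theorem cc_append (l l' : List ℕ) : cc (l ++ l') = 2 ^ l'.sum * cc l + 3 ^ l.length * cc l' := by
  induction l with
  | nil => simp [cc]
  | cons a l ih =>
    show 2 ^ (l ++ l').sum + 3 * cc (l ++ l') = 2 ^ l'.sum * (2 ^ l.sum + 3 * cc l) +
      3 ^ (l.length + 1) * cc l'
    rw [ih, List.sum_append, pow_add, pow_succ]
    ring

theorem cc_odd {l : List ℕ} (hne : l ≠ []) (hp : ∀ a ∈ l, 1 ≤ a) : cc l % 2 = 1 := by
  induction l with
  | nil => exact absurd rfl hne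
  | cons a l ih =>
    show (2 ^ l.sum + 3 * cc l) % 2 = 1
    by_cases hl : l = []
    · subst hl
      simp [cc]
    · have h1 := ih hl fun b hb => hp b (List.mem_cons_of_mem _ hb)
      obtain ⟨b, l', rfl⟩ := List.exists_cons_of_ne_nil hl
      have h2 : 1 ≤ b := hp b (List.mem_cons_of_mem _ List.mem_cons_self)
      have h3 : 2 ^ (b :: l').sum % 2 = 0 := by
        rw [List.sum_cons]
        obtain ⟨c, rfl⟩ := Nat.exists_eq_add_of_le h2
        rw [show 1 + c + l'.sum = (c + l'.sum) + 1 by ring, pow_succ]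
        omega
      omega

/-- Peeling off powers of two. -/
theorem two_pow_odd_inj {s t a b : ℕ} (ha : a % 2 = 1) (hb : b % 2 = 1)
    (h : 2 ^ s * a = 2 ^ t * b) : s = t ∧ a = b := by
  wlog hst : s ≤ t generalizing s t a b
  · have := this hb ha h.symm (by omega)
    exact ⟨this.1.symm, this.2.symm⟩
  obtain ⟨c, rfl⟩ := Nat.exists_eq_add_of_le hst
  rw [pow_add, mul_assoc] at h
  have h1 := Nat.eq_of_mul_eq_mul_left (pow_pos (by norm_num) _) h
  cases c with
  | zero => exact ⟨rfl, by simpa using h1⟩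
  | succ c =>
    exfalso
    rw [pow_succ] at h1
    have : a % 2 = 0 := by
      rw [h1, show 2 ^ c * 2 * b = 2 * (2 ^ c * b) by ring]
      exact Nat.mul_mod_right _ _
    omega

theorem cc_concat (l : List ℕ) (a : ℕ) : cc (l ++ [a]) = 2 ^ a * cc l + 3 ^ l.length := by
  rw [cc_append]
  simp [cc]

theorem cc_inj {l l' : List ℕ} (hlen : l.length = l'.length) (hs : l.sum = l'.sum)
    (hp : ∀ a ∈ l, 1 ≤ a) (hp' : ∀ a ∈ l', 1 ≤ a) (hc : cc l = cc l') : l = l' := by
  induction l using List.reverseRecOn generalizing l' with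
  | nil =>
    symm
    rw [← List.length_eq_zero_iff, ← hlen]
    rfl
  | append_singleton l a ih =>
    rcases List.eq_nil_or_concat l' with rfl | ⟨m, b, rfl⟩
    · simp at hlen
    · rw [List.concat_eq_append] at *
      have hlen' : l.length = m.length := by simpa using hlen
      rw [cc_concat, cc_concat, hlen'] at hc
      have hc' := Nat.add_right_cancel hc
      have hpl : ∀ c ∈ l, 1 ≤ c := fun c hc => hp c (List.mem_append_left _ hc)
      have hpm : ∀ c ∈ m, 1 ≤ c := fun c hc => hp' c (List.mem_append_left _ hc)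
      by_cases hl : l = []
      · subst hl
        have hm : m = [] := by
          rw [← List.length_eq_zero_iff, ← hlen']
          rfl
        subst hm
        simp at hs
        rw [hs]
      · have hm : m ≠ [] := by
          intro h
          subst h
          exact hl (List.length_eq_zero_iff.1 hlen')
        obtain ⟨h1, h2⟩ := two_pow_odd_inj (cc_odd hl hpl) (cc_odd hm hpm) hc'
        subst h1
        have hs' : l.sum = m.sum := by
          rw [List.sum_append, List.sum_append] at hs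
          exact Nat.add_right_cancel hs
        rw [ih hlen' hs' hpl hpm h2]

theorem en_inj {l l' : List ℕ} {y : ℕ} (hlen : l.length = l'.length) (hs : l.sum = l'.sum)
    (hp : ∀ a ∈ l, 1 ≤ a) (hp' : ∀ a ∈ l', 1 ≤ a) (hv : va l y) (hv' : va l' y)
    (he : en l y = en l' y) : l = l' := by
  apply cc_inj hlen hs hp hp'
  have h1 := en_eq l y hv
  have h2 := en_eq l' y hv'
  rw [hs, he, hlen, h2] at h1
  exact (Nat.add_left_cancel h1).symm

theorem en_le (l : List ℕ) (y : ℕ) (h : va l y) : 3 ^ l.length * en l y ≤ 2 ^ l.sum * y := by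
  rw [en_eq l y h]
  exact Nat.le_add_right _ _

/-- Each word is valid at exactly one class mod `3^N`. -/
theorem exists_unique_class (l : List ℕ) (N : ℕ) :
    ∃ r, r < 3 ^ N ∧ ∀ y, (2 ^ l.sum * y ≡ cc l [MOD 3 ^ N] ↔ y % 3 ^ N = r) := by
  rcases Nat.eq_zero_or_pos N with rfl | hN
  · refine ⟨0, by norm_num, fun y => ?_⟩
    simp [Nat.modEq_one, Nat.mod_one]
  have hcop : Nat.Coprime (2 ^ l.sum) (3 ^ N) := Nat.Coprime.pow _ _ (by norm_num)
  have hone : 1 < 3 ^ N := Nat.one_lt_pow hN.ne' (by norm_num)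
  obtain ⟨m, -, hm⟩ := Nat.exists_mul_mod_eq_one_of_coprime hcop hone
  have hm' : 2 ^ l.sum * m ≡ 1 [MOD 3 ^ N] := by
    unfold Nat.ModEq
    rw [hm, Nat.mod_eq_of_lt hone]
  refine ⟨m * cc l % 3 ^ N, Nat.mod_lt _ (by omega), fun y => ?_⟩
  constructor
  · intro h
    have h1 : m * (2 ^ l.sum * y) ≡ m * cc l [MOD 3 ^ N] := h.mul_left m
    have h2 : m * (2 ^ l.sum * y) ≡ y [MOD 3 ^ N] := by
      have h3 := hm'.mul_right y
      rw [one_mul] at h3
      have e : m * (2 ^ l.sum * y) = 2 ^ l.sum * m * y := by ring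
      rw [e]
      exact h3
    exact h2.symm.trans h1
  · intro h
    have h1 : y ≡ m * cc l [MOD 3 ^ N] := by
      unfold Nat.ModEq
      rw [h]
    have h2 : 2 ^ l.sum * y ≡ 2 ^ l.sum * (m * cc l) [MOD 3 ^ N] := h1.mul_left _
    have h3 : 2 ^ l.sum * (m * cc l) ≡ cc l [MOD 3 ^ N] := by
      have h4 := hm'.mul_right (cc l)
      rw [one_mul] at h4
      have e : 2 ^ l.sum * (m * cc l) = 2 ^ l.sum * m * cc l := by ring
      rw [e]
      exact h4
    exact h2.trans h3

end H62w
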