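import Pool.Agent.Lib.H62w.Growth

/-!
Chunk G3: number of non-atomic digits.
-/

set_option autoImplicit false
open Finset
namespace H62w
namespace G2

theorem KK_le_log {α β : Type} [DecidableEq β] (s : Finset α) (f : α → β) (T : Finset β) (hT : ∀ a ∈ s, f a ∈ T)
    (hT0 : T.Nonempty) : KK s f ≤ s.card * Real.log T.card := by
  rcases s.eq_empty_or_nonempty with rfl | hs
  · simp [KK]
  have hN : (0 : ℝ) < s.card := by exact_mod_cast Finset.card_pos.2 hs
  have ht : (0 : ℝ) < T.card := by exact_mod_cast Finset.card_pos.2 hT0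
  set N : ℝ := (s.card : ℝ) with hNdef
  set t : ℝ := (T.card : ℝ) with htdef
  set nx : β → ℝ := fun x => ((s.filter (fun a => f a = x)).card : ℝ) with hnx
  have e3 : ∑ x ∈ T, nx x = N := by
    have := Finset.card_eq_sum_card_fiberwise (f := f) (s := s) (t := T) hT
    simp only [hnx, hNdef]
    rw [this]
    push_cast
    rfl
  have h1 : KK s f = ∑ x ∈ T, nx x * (Real.log N - Real.log (nx x)) := by
    rw [KK_eq _ f T hT]
    simp only [mul_sub, Finset.sum_sub_distrib, ← Finset.sum_mul, e3]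
    rfl
  have h2 : ∀ x ∈ T, nx x * (Real.log N - Real.log (nx x)) ≤ nx x * Real.log t + (N / t - nx x) := by
    intro x _
    rcases (show 0 ≤ nx x by simp only [hnx]; positivity).eq_or_lt with h0 | h0
    · rw [← h0]
      have : 0 ≤ N / t := by positivity
      simpa using this
    · have h := Real.log_le_sub_one_of_pos (show 0 < N / (nx x * t) by positivity)
      rw [Real.log_div hN.ne' (by positivity), Real.log_mul h0.ne' ht.ne'] at h
      have h3 := mul_le_mul_of_nonneg_left h h0.le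
      have h4 : nx x * (N / (nx x * t) - 1) = N / t - nx x := by
        field_simp
      rw [h4] at h3
      linarith [h3]
  rw [h1]
  refine (Finset.sum_le_sum h2).trans (le_of_eq ?_)
  rw [Finset.sum_add_distrib, Finset.sum_sub_distrib, ← Finset.sum_mul, e3, Finset.sum_const, nsmul_eq_mul,
    ← htdef]
  field_simp
  ring

theorem negMulLog_le (p : ℝ) (hp : 0 ≤ p) : Real.negMulLog p ≤ 1 - p := by
  rcases hp.eq_or_lt with rfl | hp
  · simp
  · have h := Real.one_sub_inv_le_log_of_pos hp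
    have h3 := mul_le_mul_of_nonneg_left h hp.le
    unfold Real.negMulLog
    have h4 : p * (1 - p⁻¹) = p - 1 := by field_simp
    rw [h4] at h3
    linarith

theorem exists_delta (φ : ℝ) (hφ : 0 < φ) : ∃ δ : ℝ, 0 < δ ∧ δ ≤ φ / 4 ∧ ∀ p : ℝ, 0 ≤ p → p ≤ δ → Real.negMulLog p ≤ φ / 4 := by
  have h1 : Filter.Tendsto Real.negMulLog (nhds 0) (nhds (Real.negMulLog 0)) :=
    Real.continuous_negMulLog.tendsto 0
  rw [Real.negMulLog_zero] at h1
  have h2 := (Metric.tendsto_nhds_nhds.1 h1) (φ / 4) (by positivity)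
  obtain ⟨d, hd, h3⟩ := h2
  refine ⟨min (d / 2) (φ / 4), by positivity, min_le_right _ _, fun p hp hpd => ?_⟩
  have h4 : dist p 0 < d := by
    rw [Real.dist_eq, sub_zero, abs_of_nonneg hp]
    have := hpd.trans (min_le_left _ _)
    linarith
  have h5 := h3 h4
  rw [Real.dist_eq, sub_zero] at h5
  exact (le_abs_self _).trans h5.le

theorem digit_iff (i a b u : ℕ) (ha : a % 3 ^ i = u) (hb : b % 3 ^ i = u) :
    b % 3 ^ (i + 1) = a % 3 ^ (i + 1) ↔ b / 3 ^ i % 3 = a / 3 ^ i % 3 := by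
  have h1 : b % 3 ^ (i + 1) = b % 3 ^ i + 3 ^ i * (b / 3 ^ i % 3) := by
    rw [pow_succ, Nat.mod_mul]
  have h2 : a % 3 ^ (i + 1) = a % 3 ^ i + 3 ^ i * (a / 3 ^ i % 3) := by
    rw [pow_succ, Nat.mod_mul]
  rw [h1, h2, ha, hb]
  constructor
  · intro h
    exact Nat.eq_of_mul_eq_mul_left (pow_pos (by norm_num) i) (Nat.add_left_cancel h)
  · intro h
    rw [h]

theorem KK_digit (B : Finset ℕ) (i u : ℕ) :
    KK (cl B i u) (fun x => x % 3 ^ (i + 1)) = KK (cl B i u) (fun x => x / 3 ^ i % 3) := by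
  apply KK_congr
  intro a ha b hb
  exact digit_iff i a b u (Finset.mem_filter.1 ha).2 (Finset.mem_filter.1 hb).2

theorem KK_digit_le (B : Finset ℕ) (i u : ℕ) :
    KK (cl B i u) (fun x => x / 3 ^ i % 3) ≤ (cl B i u).card * Real.log 3 := by
  have := KK_le_log (cl B i u) (fun x => x / 3 ^ i % 3) (range 3)
    (fun x _ => Finset.mem_range.2 (Nat.mod_lt _ (by norm_num))) ⟨0, by simp⟩
  simpa using this

theorem KK_digit_atom (B : Finset ℕ) (i : ℕ) {φ δ : ℝ} (hφ : 0 < φ) (h1 : δ ≤ φ / 4)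
    (h2 : ∀ p : ℝ, 0 ≤ p → p ≤ δ → Real.negMulLog p ≤ φ / 4) (hn : ¬ nonat B i δ) :
    KK B (fun x => x / 3 ^ i % 3) ≤ B.card * φ := by
  rcases B.eq_empty_or_nonempty with rfl | hs
  · simp [KK]
  have hN : (0 : ℝ) < B.card := by exact_mod_cast Finset.card_pos.2 hs
  rw [KK_neg B (fun x => x / 3 ^ i % 3) (range 3) (fun x _ => Finset.mem_range.2 (Nat.mod_lt _ (by norm_num)))]
  refine mul_le_mul_of_nonneg_left ?_ hN.le
  unfold nonat at hn
  push Not at hn
  obtain ⟨d, hd, hd2⟩ := hn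
  set p : ℕ → ℝ := fun x => ((B.filter (fun a => a / 3 ^ i % 3 = x)).card : ℝ) / B.card with hp
  have hp0 : ∀ x, 0 ≤ p x := fun x => by simp only [hp]; positivity
  have hsum : ∑ x ∈ range 3, p x = 1 := by
    have := Finset.card_eq_sum_card_fiberwise (f := fun x => x / 3 ^ i % 3) (s := B) (t := range 3)
      (fun x _ => Finset.mem_coe.2 (Finset.mem_range.2 (Nat.mod_lt _ (by norm_num))))
    simp only [hp]
    rw [← Finset.sum_div, div_eq_one_iff_eq hN.ne', this]
    push_cast
    rfl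
  have hpd : 1 - δ < p d := by
    simp only [hp]
    rw [lt_div_iff₀ hN]
    exact hd2
  have key : ∀ x ∈ range 3, Real.negMulLog (p x) ≤ φ / 4 := by
    intro x hx
    by_cases hxd : x = d
    · subst hxd
      have := negMulLog_le (p x) (hp0 x)
      linarith
    · apply h2 _ (hp0 x)
      have h3 : p x + p d ≤ ∑ x ∈ range 3, p x := by
        have := Finset.sum_le_sum_of_subset_of_nonneg (s := {x, d}) (t := range 3) (f := p)
          (by
            intro y hy
            rcases Finset.mem_insert.1 hy with rfl | hy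
            · exact hx
            · rw [Finset.mem_singleton.1 hy]; exact hd) (fun y _ _ => hp0 y)
        rwa [Finset.sum_pair hxd] at this
      linarith
  have := Finset.sum_le_sum key
  refine this.trans ?_
  rw [Finset.sum_const, Finset.card_range, nsmul_eq_mul]
  push_cast
  linarith

theorem KK_incr (B : Finset ℕ) (i : ℕ) {φ δ : ℝ} (hφ : 0 < φ) (h1 : δ ≤ φ / 4)
    (h2 : ∀ p : ℝ, 0 ≤ p → p ≤ δ → Real.negMulLog p ≤ φ / 4) :
    KK B (fun x => x % 3 ^ (i + 1)) - KK B (fun x => x % 3 ^ i)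
      ≤ Real.log 3 * (nat1 B i δ).card + φ * B.card := by
  classical
  have h3 := KK_chain B (fun x => x % 3 ^ (i + 1)) (fun x => x % 3 ^ i) (range (3 ^ i))
    (fun x _ => Finset.mem_range.2 (Nat.mod_lt _ (by positivity)))
  have e2 : (fun x : ℕ => x % 3 ^ (i + 1) % 3 ^ i) = (fun x => x % 3 ^ i) := by
    funext p
    exact Nat.mod_mod_of_dvd _ (pow_dvd_pow 3 (Nat.le_add_right i 1))
  rw [e2] at h3
  rw [h3, ← card_nonat B i δ, card_cl B i, Finset.mul_sum, Finset.mul_sum, ← Finset.sum_add_distrib]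
  refine Finset.sum_le_sum (fun u _ => ?_)
  have h4 : B.filter (fun a => a % 3 ^ (i + 1) % 3 ^ i = u) = cl B i u := by
    unfold cl
    refine Finset.filter_congr (fun x _ => ?_)
    rw [Nat.mod_mod_of_dvd _ (pow_dvd_pow 3 (Nat.le_add_right i 1))]
  rw [h4, KK_digit]
  split_ifs with h5
  · have := KK_digit_le B i u
    have h6 : 0 ≤ φ * ((cl B i u).card : ℝ) := by positivity
    linarith
  · have := KK_digit_atom (cl B i u) i hφ h1 h2 h5
    linarith

end G2

theorem nonatomic_count (φ : ℝ) (hφ : 0 < φ) :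
    ∃ δ : ℝ, 0 < δ ∧ ∀ (h : ℕ) (B : Finset ℕ), B ⊆ range (3 ^ h) → B.Nonempty →
      Real.log (B.card : ℝ) ≤ Real.log 3 * ∑ i ∈ range h, (((nat1 B i δ).card : ℝ) / B.card) + φ * h := by
  obtain ⟨δ, hδ, h1, h2⟩ := G2.exists_delta φ hφ
  refine ⟨δ, hδ, fun h B hBh hB => ?_⟩
  have hN : (0 : ℝ) < B.card := by exact_mod_cast Finset.card_pos.2 hB
  have h3 : ∑ i ∈ range h, (G2.KK B (fun x => x % 3 ^ (i + 1)) - G2.KK B (fun x => x % 3 ^ i))
      = G2.KK B (fun x => x % 3 ^ h) - G2.KK B (fun x => x % 3 ^ 0) :=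
    Finset.sum_range_sub (fun i => G2.KK B (fun x => x % 3 ^ i)) h
  have h4 : G2.KK B (fun x => x % 3 ^ 0) = 0 := by
    apply G2.KK_const
    intro a _ b _
    simp [Nat.mod_one]
  have h5 : G2.KK B (fun x => x % 3 ^ h) = B.card * Real.log B.card := by
    rw [G2.KK_inj]
    · rfl
    · intro a ha b hb hab
      have ha' := Finset.mem_range.1 (hBh ha)
      have hb' := Finset.mem_range.1 (hBh hb)
      have hab' : b % 3 ^ h = a % 3 ^ h := hab
      rw [Nat.mod_eq_of_lt ha', Nat.mod_eq_of_lt hb'] at hab'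
      exact hab'
  have h6 := Finset.sum_le_sum (s := range h) (fun i _ => G2.KK_incr B i hφ h1 h2)
  rw [h3, h4, h5, sub_zero, Finset.sum_add_distrib, ← Finset.mul_sum, Finset.sum_const, Finset.card_range,
    nsmul_eq_mul] at h6
  rw [← Finset.sum_div]
  have h7 : (B.card : ℝ) * Real.log B.card
      ≤ B.card * (Real.log 3 * ((∑ i ∈ range h, ((nat1 B i δ).card : ℝ)) / B.card) + φ * h) := by
    refine h6.trans (le_of_eq ?_)
    have h8 : ∀ L S N t H : ℝ, N ≠ 0 → L * S + H * (t * N) = N * (L * (S / N) + t * H) := by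
      intro L S N t H hN0
      field_simp
    exact h8 _ _ _ _ _ hN.ne'
  exact le_of_mul_le_mul_left h7 hN

end H62w
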