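import Pool.Agent.Lib.H62w.Paths

set_option autoImplicit false

/-!
Certificate with a large ratio: words all of ratio at least `D`, total weight at least `2`.
-/

open Finset

namespace H62w

theorem wt_lower {β : ℝ} (hβ : 0 < β) {k : ℕ} {l : List ℕ} (h1 : l.length = k)
    (h2 : ∀ a ∈ l, 2 ≤ a ∧ a ≤ 7) : ((3 / 128 : ℝ) ^ β) ^ k ≤ wt β k l := by
  have hs := sum_bounds h2
  rw [h1] at hs
  unfold wt
  rw [← Real.rpow_natCast, ← Real.rpow_mul (by norm_num), mul_comm, Real.rpow_mul (by norm_num),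
    Real.rpow_natCast]
  apply Real.rpow_le_rpow (by positivity) _ hβ.le
  rw [div_pow]
  have h6 : (128 : ℝ) ^ k = 2 ^ (7 * k) := by rw [pow_mul]; norm_num
  rw [h6]
  gcongr
  · norm_num
  · exact hs.2

theorem exists_ratio (D : ℕ) : ∃ j : ℕ, D * 3 ^ j ≤ 4 ^ j := by
  obtain ⟨j, hj⟩ := pow_unbounded_of_one_lt (D : ℝ) (show (1 : ℝ) < 4 / 3 by norm_num)
  refine ⟨j, ?_⟩
  rw [div_pow, lt_div_iff₀ (by positivity)] at hj
  exact_mod_cast hj.le

theorem exists_mm_large {β : ℝ} (hβ : 0 < β) (hβ1 : β ≤ 1) {M : ℕ} (hM : 7 ≤ M)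
    (hR : 0 < RR β M) (A : ℝ) : ∃ k : ℕ, 1 ≤ k ∧ A ≤ mm β M k := by
  obtain ⟨C, hC0, hC⟩ := log_mm_ge hβ hβ1 hM (half_pos hR)
  obtain ⟨k, hk⟩ := exists_nat_ge ((Real.log (max A 1) + C) / (RR β M / 2))
  refine ⟨k + 1, by omega, ?_⟩
  have h1 := hC (k + 1)
  rw [div_le_iff₀ (half_pos hR)] at hk
  push_cast at h1
  have h2 : Real.log (max A 1) ≤ Real.log (mm β M (k + 1)) := by nlinarith
  have h3 := (Real.log_le_log_iff (lt_of_lt_of_le one_pos (le_max_right A 1))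
    (mm_pos hβ hβ1 hM (k + 1))).1 h2
  exact (le_max_left A 1).trans h3

theorem cert_top {β : ℝ} {M : ℕ} (hβ : 0 < β) (hβ1 : β ≤ 1) (hM : 7 ≤ M) (hR : 0 < RR β M)
    (D : ℕ) : ∃ n : ℕ, 1 ≤ n ∧ ∀ y : ℕ, y % 3 ≠ 0 →
      2 ≤ ∑ l ∈ (PP M n y).filter (fun l => D * 3 ^ n ≤ 2 ^ l.sum), wt β n l := by
  classical
  obtain ⟨j, hj⟩ := exists_ratio D
  set c : ℝ := ((3 / 128 : ℝ) ^ β) ^ j with hc
  have hc0 : 0 < c := by positivity
  obtain ⟨k, hk1, hk⟩ := exists_mm_large hβ hβ1 hM hR (2 / c)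
  refine ⟨j + k, by omega, fun y hy => ?_⟩
  obtain ⟨u, hu1, hu2, hu3, hu4⟩ := exists_word j y hy
  have hus := sum_bounds hu2
  rw [hu1] at hus
  have hu5 : D * 3 ^ j ≤ 2 ^ u.sum := hj.trans (by
    calc 4 ^ j = 2 ^ (2 * j) := by rw [pow_mul]; norm_num
      _ ≤ 2 ^ u.sum := Nat.pow_le_pow_right (by norm_num) hus.1)
  have huP : u ∈ PP M j y := by
    rw [mem_PP]
    refine ⟨⟨hu1, fun a ha => ⟨by have := hu2 a ha; omega, by have := hu2 a ha; omega⟩⟩, hu3, hu4, ?_⟩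
    calc 3 ^ j ≤ 4 ^ j := Nat.pow_le_pow_left (by norm_num) j
      _ = 2 ^ (2 * j) := by rw [pow_mul]; norm_num
      _ ≤ 2 ^ u.sum := Nat.pow_le_pow_right (by norm_num) hus.1
  have hinj : Set.InjOn (fun l : List ℕ => u ++ l) (PP M k (en u y) : Set (List ℕ)) := by
    intro a _ b _ h
    exact List.append_cancel_left h
  have h1 : (PP M k (en u y)).image (fun l => u ++ l) ⊆
      (PP M (j + k) y).filter (fun l => D * 3 ^ (j + k) ≤ 2 ^ l.sum) := by
    intro z hz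
    rw [mem_image] at hz
    obtain ⟨l, hl, rfl⟩ := hz
    rw [mem_filter]
    refine ⟨append_mem_PP huP hl, ?_⟩
    rw [List.sum_append, pow_add, pow_add, ← mul_assoc]
    exact Nat.mul_le_mul hu5 (mem_PP.1 hl).2.2.2
  have h2 : ∑ l ∈ (PP M k (en u y)).image (fun l => u ++ l), wt β (j + k) l =
      wt β j u * W β M k (en u y) := by
    rw [Finset.sum_image hinj]
    unfold W
    rw [Finset.mul_sum]
    exact Finset.sum_congr rfl fun l _ => wt_append β j k u l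
  calc (2 : ℝ) = c * (2 / c) := by field_simp
    _ ≤ wt β j u * W β M k (en u y) := by
        refine mul_le_mul (wt_lower hβ hu1 hu2) (hk.trans (mm_le β M k _ hu4)) (by positivity)
          (wt_pos β j u).le
    _ = ∑ l ∈ (PP M k (en u y)).image (fun l => u ++ l), wt β (j + k) l := h2.symm
    _ ≤ _ := Finset.sum_le_sum_of_subset_of_nonneg h1 fun l _ _ => (wt_pos _ _ _).le

end H62w
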