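import Pool.Agent.Lib.H62w.SkPaths
import Pool.Agent.Lib.H62w.SkThmB
import Pool.Agent.Lib.H62w.SkTyp

set_option autoImplicit false
open Finset
namespace H62w

/-! Chunk Z: continuity in beta and the certificate. -/

/-- Weights decrease in beta. -/
theorem Z_W_anti {β β' : ℝ} (h : β ≤ β') (M k y : ℕ) : W β' M k y ≤ W β M k y := by
  unfold W
  refine sum_le_sum fun l hl => ?_
  unfold PP at hl
  rw [mem_filter] at hl
  unfold wt
  have h1 : (3 : ℝ) ^ k / 2 ^ l.sum ≤ 1 := by
    rw [div_le_one (by positivity)]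
    exact_mod_cast hl.2.2.2
  exact Real.rpow_le_rpow_of_exponent_ge (by positivity) h1 h

theorem Z_sum_le {M k : ℕ} {l : List ℕ} (hl : l ∈ words M k) : l.sum ≤ M * k := by
  rw [mem_words] at hl
  have h := List.sum_le_card_nsmul l M (fun a ha => (hl.2 a ha).2)
  rw [hl.1, smul_eq_mul, mul_comm] at h
  exact h

/-- Lipschitz continuity in beta. -/
theorem Z_W_lip {β β' : ℝ} (h : β ≤ β') (M k y : ℕ) :
    Real.exp (-((β' - β) * (M * Real.log 2) * k)) * W β M k y ≤ W β' M k y := by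
  unfold W
  rw [mul_sum]
  refine sum_le_sum fun l hl => ?_
  unfold PP at hl
  rw [mem_filter] at hl
  have hs := Z_sum_le hl.1
  unfold wt
  have hpos : (0 : ℝ) < 3 ^ k / 2 ^ l.sum := by positivity
  have h1 : ((3 : ℝ) ^ k / 2 ^ l.sum) ^ β' = ((3 : ℝ) ^ k / 2 ^ l.sum) ^ (β' - β) * ((3 : ℝ) ^ k / 2 ^ l.sum) ^ β := by
    rw [← Real.rpow_add hpos]
    congr 1
    ring
  rw [h1]
  refine mul_le_mul_of_nonneg_right ?_ (by positivity)
  rw [Real.rpow_def_of_pos hpos]
  refine Real.exp_le_exp.mpr ?_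
  have h2 : -(M * k * Real.log 2) ≤ Real.log ((3 : ℝ) ^ k / 2 ^ l.sum) := by
    rw [Real.log_div (by positivity) (by positivity), Real.log_pow, Real.log_pow]
    have h3 : (0 : ℝ) ≤ k * Real.log 3 := by
      have := Real.log_nonneg (by norm_num : (1 : ℝ) ≤ 3)
      positivity
    have h4 : (l.sum : ℝ) * Real.log 2 ≤ M * k * Real.log 2 := by
      refine mul_le_mul_of_nonneg_right ?_ (Real.log_nonneg (by norm_num))
      exact_mod_cast hs
    linarith
  have h5 : 0 ≤ β' - β := by linarith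
  nlinarith

theorem Z_RR_lip {β β' : ℝ} (hβ : 0 < β) (h : β ≤ β') (hβ1 : β' ≤ 1) {M : ℕ} (hM : 7 ≤ M) :
    RR β M - (β' - β) * (M * Real.log 2) ≤ RR β' M := by
  refine le_of_forall_pos_le_add fun ε hε => ?_
  obtain ⟨C, hC, hge⟩ := log_mm_ge hβ (le_trans h hβ1) hM (ε := ε / 2) (by positivity)
  obtain ⟨k, hk⟩ := exists_nat_gt (C / (ε / 2))
  have hk0 : (0 : ℝ) < k := lt_of_le_of_lt (by positivity) hk
  have h1 := hge k
  have h2 : Real.log (mm β M k) - (β' - β) * (M * Real.log 2) * k ≤ Real.log (mm β' M k) := by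
    obtain ⟨y, hy, hyW⟩ := exists_mm β' M k
    have hy3 : y % 3 ≠ 0 := by
      unfold U at hy
      rw [mem_filter] at hy
      exact hy.2
    have h3 : Real.exp (-((β' - β) * (M * Real.log 2) * k)) * mm β M k ≤ mm β' M k := by
      rw [← hyW]
      exact le_trans (mul_le_mul_of_nonneg_left (mm_le β M k y hy3) (Real.exp_pos _).le) (Z_W_lip h M k y)
    have h4 := mm_pos hβ (le_trans h hβ1) hM k
    have h5 := Real.log_le_log (by positivity) h3
    rw [Real.log_mul (Real.exp_pos _).ne' h4.ne', Real.log_exp] at h5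
    linarith
  have h6 := log_mm_le (lt_of_lt_of_le hβ h) hβ1 hM k
  rw [div_lt_iff₀ (by positivity)] at hk
  have h7 : (RR β M - (β' - β) * (M * Real.log 2)) * k ≤ (RR β' M + ε) * k := by
    nlinarith
  exact le_of_mul_le_mul_right h7 hk0

/-- Mean growth from typical growth. -/
theorem Z_AA {β β1 : ℝ} (hβ : 0 < β1) (hβ1 : β1 < 1) (h : β ≤ β1) {M : ℕ} (hM : 7 ≤ M) {g : ℝ} (hg : 0 < g)
    (htyp : ∀ η : ℝ, 0 < η → ∃ n0 : ℕ, ∀ n : ℕ, n0 ≤ n → ∀ v : ℕ, v = 1 ∨ v = 2 →
        (((range (3 ^ (n + 1))).filter (fun y => y % 3 = v ∧ W β1 M n y < Real.exp (g * n))).card : ℝ)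
          ≤ η * 3 ^ n) :
    ∃ n0 : ℕ, ∀ n : ℕ, n0 ≤ n → g / 2 * n ≤ AA β M n := by
  obtain ⟨C, hC, hbd⟩ := W_bound hβ hβ1.le hM
  obtain ⟨n0, hn0⟩ := htyp (g / (2 * (g + C))) (by positivity)
  refine ⟨n0, fun n hn => ?_⟩
  have key : ∀ v : ℕ, v = 1 ∨ v = 2 → g / 2 * n ≤ av β M n v := by
    intro v hv
    unfold av
    rw [le_div_iff₀ (by positivity)]
    set S := (range (3 ^ (n + 1))).filter (fun y => y % 3 = v) with hS
    set Bd := (range (3 ^ (n + 1))).filter (fun y => y % 3 = v ∧ W β1 M n y < Real.exp (g * n)) with hBd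
    have hSc : (S.card : ℝ) = 3 ^ n := by
      have := Y_count_class (m := n) (v := v) (by omega)
      rw [hS, this]
      push_cast
      rfl
    have hBc := hn0 n hn v hv
    rw [← hBd] at hBc
    have hlow : ∀ y ∈ S, g * n - (g + C) * n * (if y ∈ Bd then (1 : ℝ) else 0) ≤ Real.log (W β M n y) := by
      intro y hy
      rw [hS, mem_filter] at hy
      have hy3 : y % 3 ≠ 0 := by omega
      obtain ⟨hWpos, hWabs⟩ := hbd n y hy3
      have h1 : Real.log (W β1 M n y) ≤ Real.log (W β M n y) := Real.log_le_log hWpos (Z_W_anti h M n y)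
      refine le_trans ?_ h1
      by_cases hyB : y ∈ Bd
      · rw [if_pos hyB]
        have := (abs_le.mp hWabs).1
        linarith
      · rw [if_neg hyB, mul_zero, sub_zero]
        rw [hBd, mem_filter] at hyB
        have h2 : Real.exp (g * n) ≤ W β1 M n y := by
          by_contra hcon
          push Not at hcon
          exact hyB ⟨hy.1, hy.2, hcon⟩
        rw [Real.le_log_iff_exp_le hWpos]
        exact h2
    have hsum := sum_le_sum hlow
    rw [sum_sub_distrib, sum_const, nsmul_eq_mul, hSc, ← mul_sum] at hsum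
    have hind : ∑ y ∈ S, (if y ∈ Bd then (1 : ℝ) else 0) = Bd.card := by
      rw [← Y_card_sum]
      congr 2
      ext y
      rw [mem_filter, hS, hBd, mem_filter, mem_filter]
      tauto
    rw [hind] at hsum
    refine le_trans ?_ hsum
    have h3 : (g + C) * n * (Bd.card : ℝ) ≤ (g + C) * n * (g / (2 * (g + C)) * 3 ^ n) :=
      mul_le_mul_of_nonneg_left hBc (by positivity)
    have h4 : (g + C) * n * (g / (2 * (g + C)) * 3 ^ n) = g / 2 * n * (3 : ℝ) ^ n := by
      field_simp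
    rw [h4] at h3
    have h5 : g / 2 * n * (3 : ℝ) ^ n + g / 2 * n * (3 : ℝ) ^ n = 3 ^ n * (g * n) := by ring
    linarith
  unfold AA
  exact le_min (key 1 (Or.inl rfl)) (key 2 (Or.inr rfl))

/-- Base case: two letters. -/
theorem Z_base {M : ℕ} (hM : 7 ≤ M) : 0 < RR (1 / 8) M := by
  have hmm : 1 < mm (1 / 8) M 1 := by
    obtain ⟨y, hy, hyW⟩ := exists_mm (1 / 8) M 1
    have hy3 : y % 3 ≠ 0 := by
      unfold U at hy
      rw [mem_filter] at hy
      exact hy.2
    rw [← hyW]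
    obtain ⟨l1, hl1, he1, hw1⟩ := Y_path (β := 1 / 8) (by norm_num) hM (le_refl 1) hy3 (Or.inl rfl : (1 : ℕ) = 1 ∨ (1 : ℕ) = 2)
    obtain ⟨l2, hl2, he2, hw2⟩ := Y_path (β := 1 / 8) (by norm_num) hM (le_refl 1) hy3 (Or.inr rfl : (2 : ℕ) = 1 ∨ (2 : ℕ) = 2)
    have hne : l1 ≠ l2 := by
      intro h
      rw [h, he2] at he1
      omega
    have h1 : wt (1 / 8) 1 l1 + wt (1 / 8) 1 l2 ≤ W (1 / 8) M 1 y := by
      unfold W
      rw [← sum_pair hne]
      refine sum_le_sum_of_subset_of_nonneg ?_ fun l _ _ => (wt_pos _ _ _).le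
      intro l hl
      rw [mem_insert, mem_singleton] at hl
      rcases hl with rfl | rfl
      · exact hl1
      · exact hl2
    have h2 : (1 : ℝ) / 2 < Yw (1 / 8) 1 := by
      unfold Yw
      rw [pow_one]
      have h3 : ((1 : ℝ) / 2) = (((1 : ℝ) / 2) ^ (8 : ℝ)) ^ ((1 : ℝ) / 8) := by
        rw [← Real.rpow_mul (by norm_num)]
        norm_num
      rw [h3]
      refine Real.rpow_lt_rpow (by positivity) ?_ (by norm_num)
      have h4 : ((1 : ℝ) / 2) ^ (8 : ℝ) = (1 / 2) ^ (8 : ℕ) := by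
        rw [← Real.rpow_natCast]
        norm_num
      rw [h4]
      norm_num
    linarith
  have h := log_mm_le (β := 1 / 8) (by norm_num) (by norm_num) hM 1
  have h1 := Real.log_pos hmm
  push_cast at h
  linarith

theorem Z_pos {β1 : ℝ} (hβ : 1 / 8 ≤ β1) (hβ1 : β1 < 1) : ∃ M : ℕ, 7 ≤ M ∧ 0 < RR β1 M := by
  obtain ⟨g, hg, M0, htyp⟩ := typical (by linarith : 0 < β1) hβ1
  set M := max 7 M0 with hMdef
  have hM : 7 ≤ M := le_max_left _ _
  refine ⟨M, hM, ?_⟩
  have hjump : ∀ β : ℝ, 1 / 8 ≤ β → β ≤ β1 → 0 < RR β M → g / 2 ≤ RR β M := by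
    intro β hβ8 hββ1 hR
    obtain ⟨n0, hn0⟩ := Z_AA (β := β) (by linarith : 0 < β1) hβ1 hββ1 hM hg (htyp M (le_max_right _ _))
    refine le_of_forall_pos_le_add fun ε hε => ?_
    obtain ⟨n1, hn1⟩ := thmB (by linarith : 0 < β) (by linarith : β ≤ 1) hM hR ε hε
    set n := max 1 (max n0 n1) with hn
    have h1 : 1 ≤ n := le_max_left _ _
    have h2 : n0 ≤ n := le_trans (le_max_left _ _) (le_max_right _ _)
    have h3 : n1 ≤ n := le_trans (le_max_right _ _) (le_max_right _ _)
    have h4 := le_trans (hn0 n h2) (hn1 n h3)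
    have h5 : (0 : ℝ) < n := by exact_mod_cast h1
    exact le_of_mul_le_mul_right h4 h5
  have hlog2 : 0 < Real.log 2 := Real.log_pos (by norm_num)
  have hMpos : (0 : ℝ) < M := by
    have : 0 < M := by omega
    exact_mod_cast this
  set h : ℝ := g / (4 * (M * Real.log 2)) with hh
  have hhpos : 0 < h := by positivity
  have hiter : ∀ j : ℕ, 0 < RR (min (1 / 8 + j * h) β1) M := by
    intro j
    induction j with
    | zero =>
      have : min (1 / 8 + ((0 : ℕ) : ℝ) * h) β1 = 1 / 8 := by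
        rw [min_eq_left]
        · push_cast; ring
        · push_cast; linarith
      rw [this]
      exact Z_base hM
    | succ j ih =>
      set b := min (1 / 8 + (j : ℝ) * h) β1 with hb
      set b' := min (1 / 8 + ((j + 1 : ℕ) : ℝ) * h) β1 with hb'
      have hjh : (0 : ℝ) ≤ j * h := by positivity
      have hb8 : 1 / 8 ≤ b := le_min (by linarith) hβ
      have hbb1 : b ≤ β1 := min_le_right _ _
      have hle : b ≤ b' := by
        refine min_le_min_right _ ?_
        push_cast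
        linarith
      have hle2 : b' ≤ b + h := by
        rw [hb, ← min_add_add_right, hb']
        refine le_min ?_ ?_
        · refine le_trans (min_le_left _ _) ?_
          push_cast
          linarith
        · refine le_trans (min_le_right _ _) ?_
          linarith
      have h1 := hjump b hb8 hbb1 ih
      have h2 := Z_RR_lip (by linarith : 0 < b) hle (le_trans (min_le_right _ _) hβ1.le) hM
      have h3 : (b' - b) * (M * Real.log 2) ≤ g / 4 := by
        calc (b' - b) * (M * Real.log 2) ≤ h * (M * Real.log 2) :=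
              mul_le_mul_of_nonneg_right (by linarith) (by positivity)
          _ = g / 4 := by rw [hh]; field_simp
      linarith
  obtain ⟨j, hj⟩ := exists_nat_gt (1 / h)
  have h1 : 1 / 8 + (j : ℝ) * h ≥ β1 := by
    rw [div_lt_iff₀ hhpos] at hj
    linarith
  have h2 := hiter j
  rwa [min_eq_right h1] at h2

theorem exists_cert {β : ℝ} (hβ : 0 < β) (hβ1 : β < 1) :
    ∃ M n : ℕ, 1 ≤ n ∧ ∀ y : ℕ, y % 3 ≠ 0 → 2 ≤ W β M n y := by
  set β1 := max (1 / 8) β with hβ1def
  have h8 : 1 / 8 ≤ β1 := le_max_left _ _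
  have hlt : β1 < 1 := max_lt (by norm_num) hβ1
  obtain ⟨M, hM, hR⟩ := Z_pos h8 hlt
  obtain ⟨C, hC, hge⟩ := log_mm_ge (by linarith : 0 < β1) hlt.le hM (ε := RR β1 M / 2) (by positivity)
  obtain ⟨k, hk⟩ := exists_nat_gt ((C + Real.log 2) / (RR β1 M / 2))
  have hlog2 : 0 < Real.log 2 := Real.log_pos (by norm_num)
  have hk0 : (0 : ℝ) < k := lt_of_le_of_lt (by positivity) hk
  refine ⟨M, k, by exact_mod_cast hk0, fun y hy => ?_⟩
  have h1 := hge k
  rw [div_lt_iff₀ (by positivity)] at hk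
  have h2 : Real.log 2 ≤ Real.log (mm β1 M k) := by linarith
  have h3 : 2 ≤ mm β1 M k := (Real.log_le_log_iff (by norm_num) (mm_pos (by linarith : 0 < β1) hlt.le hM k)).mp h2
  calc (2 : ℝ) ≤ mm β1 M k := h3
    _ ≤ W β1 M k y := mm_le β1 M k y hy
    _ ≤ W β M k y := Z_W_anti (le_max_right _ _) M k y

end H62w
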