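import Pool.Agent.Lib.H62w.SkPaths

/-!
Counting (chunks C1, C2): from `2 ≤ W` at one level to `x ^ β` predecessors.
-/

set_option autoImplicit false
open Finset
namespace H62w
namespace Cnt

/-- the map on the integers -/
def tz (m : ℤ) : ℤ := if m % 2 = 0 then m / 2 else (3 * m + 1) / 2

/-- the map on the naturals -/
def tn (m : ℕ) : ℕ := if m % 2 = 0 then m / 2 else (3 * m + 1) / 2

theorem tn_cast (m : ℕ) : ((tn m : ℕ) : ℤ) = tz m := by
  unfold tn tz
  split_ifs <;> omega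

theorem tn_iter_cast (k m : ℕ) : ((tn^[k] m : ℕ) : ℤ) = tz^[k] (m : ℤ) := by
  induction k generalizing m with
  | zero => rfl
  | succ k ih => rw [Function.iterate_succ_apply, Function.iterate_succ_apply, ih, tn_cast]

theorem tz_nonpos {z : ℤ} (h : z ≤ 0) : tz z ≤ 0 := by
  unfold tz
  split_ifs <;> omega

theorem iter_nonpos {z : ℤ} (h : z ≤ 0) (k : ℕ) : tz^[k] z ≤ 0 := by
  induction k generalizing z with
  | zero => exact h
  | succ k ih => rw [Function.iterate_succ_apply]; exact ih (tz_nonpos h)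

theorem pos_of_iter {z y : ℤ} {k : ℕ} (h : tz^[k] z = y) (hy : 0 < y) : 0 < z := by
  by_contra hz
  have := iter_nonpos (not_lt.1 hz) k
  omega

/-- number of odd terms among the first `k` terms of the orbit -/
def oc : ℤ → ℕ → ℕ
  | _, 0 => 0
  | z, k + 1 => (if z % 2 = 1 then 1 else 0) + oc (tz z) k

theorem oc_add (z : ℤ) (k j : ℕ) : oc z (k + j) = oc z k + oc (tz^[k] z) j := by
  induction k generalizing z with
  | zero => simp [oc]
  | succ k ih =>
    have e : k + 1 + j = (k + j) + 1 := by ring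
    rw [e, oc, ih, oc, Function.iterate_succ_apply, add_assoc]

theorem oc_pos {z : ℤ} (hz : z % 2 = 1) {k : ℕ} (hk : 0 < k) : 0 < oc z k := by
  cases k with
  | zero => omega
  | succ k => rw [oc, if_pos hz]; omega

/-- backward step -/
def nz (a : ℕ) (y : ℤ) : ℤ := (2 ^ a * y - 1) / 3

/-- end point -/
def ez : List ℕ → ℤ → ℤ
  | [], y => y
  | a :: l, y => ez l (nz a y)

/-- validity -/
def vz : List ℕ → ℤ → Prop
  | [], _ => True
  | a :: l, y => 2 ^ a * y % 3 = 1 ∧ vz l (nz a y)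

theorem nz_eq {a : ℕ} {y : ℤ} (h : 2 ^ a * y % 3 = 1) : 2 ^ a * y = 3 * nz a y + 1 := by
  unfold nz; omega

theorem two_iter (k : ℕ) (y : ℤ) : tz^[k] (2 ^ k * y) = y ∧ oc (2 ^ k * y) k = 0 := by
  induction k with
  | zero => simp [oc]
  | succ k ih =>
    have e : tz (2 ^ (k + 1) * y) = 2 ^ k * y := by
      have e1 : (2 : ℤ) ^ (k + 1) * y = 2 * (2 ^ k * y) := by ring
      rw [e1]
      unfold tz
      split_ifs <;> omega
    have e2 : ¬ ((2 : ℤ) ^ (k + 1) * y % 2 = 1) := by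
      have e1 : (2 : ℤ) ^ (k + 1) * y = 2 * (2 ^ k * y) := by ring
      rw [e1]; omega
    rw [Function.iterate_succ_apply, e, oc, e, if_neg e2, ih.2]
    exact ⟨ih.1, rfl⟩

theorem step_dyn {a : ℕ} (ha : 1 ≤ a) {y : ℤ} (h : 2 ^ a * y % 3 = 1) :
    nz a y % 2 = 1 ∧ tz^[a] (nz a y) = y ∧ oc (nz a y) a = 1 := by
  obtain ⟨k, rfl⟩ : ∃ k, a = k + 1 := ⟨a - 1, by omega⟩
  have h1 := nz_eq h
  have e1 : (2 : ℤ) ^ (k + 1) * y = 2 * (2 ^ k * y) := by ring
  rw [e1] at h1
  have hodd : nz (k + 1) y % 2 = 1 := by omega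
  have htz : tz (nz (k + 1) y) = 2 ^ k * y := by
    unfold tz
    rw [if_neg (by omega)]
    omega
  obtain ⟨h2, h3⟩ := two_iter k y
  refine ⟨hodd, ?_, ?_⟩
  · rw [Function.iterate_succ_apply, htz, h2]
  · rw [oc, if_pos hodd, htz, h3]

theorem ez_dyn (l : List ℕ) (hpos : ∀ a ∈ l, 1 ≤ a) (y : ℤ) (h : vz l y) :
    tz^[l.sum] (ez l y) = y ∧ oc (ez l y) l.sum = l.length ∧ (l ≠ [] → ez l y % 2 = 1) := by
  induction l generalizing y with
  | nil => simp [ez, oc]
  | cons a l ih =>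
    obtain ⟨h1, h2⟩ := h
    have ha := hpos a (by simp)
    obtain ⟨i1, i2, i3⟩ := ih (fun b hb => hpos b (by simp [hb])) (nz a y) h2
    obtain ⟨s1, s2, s3⟩ := step_dyn ha h1
    rw [List.sum_cons, List.length_cons, ez]
    refine ⟨?_, ?_, ?_⟩
    · rw [Function.iterate_add_apply, i1, s2]
    · rw [add_comm a, oc_add, i1, i2, s3]
    · intro _
      by_cases hl : l = []
      · subst hl; simpa [ez] using s1
      · exact i3 hl

theorem ez_eq (l : List ℕ) (y : ℤ) (h : vz l y) :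
    2 ^ l.sum * y = 3 ^ l.length * ez l y + (cc l : ℤ) := by
  induction l generalizing y with
  | nil => simp [ez, cc]
  | cons a l ih =>
    obtain ⟨h1, h2⟩ := h
    have i1 := ih (nz a y) h2
    have s1 := nz_eq h1
    rw [List.sum_cons, List.length_cons, ez, cc]
    push_cast
    have e : (2 : ℤ) ^ (a + l.sum) * y = 2 ^ l.sum * (2 ^ a * y) := by ring
    rw [e, s1]
    have e2 : (2 : ℤ) ^ l.sum * (3 * nz a y + 1) = 3 * (2 ^ l.sum * nz a y) + 2 ^ l.sum := by ring
    rw [e2, i1]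
    ring

theorem vz_iff (l : List ℕ) (y : ℤ) : vz l y ↔ ((3 : ℤ) ^ l.length ∣ 2 ^ l.sum * y - (cc l : ℤ)) := by
  induction l generalizing y with
  | nil => simp [vz]
  | cons a l ih =>
    rw [vz, ih, List.sum_cons, List.length_cons, cc]
    push_cast
    have key : (2 : ℤ) ^ (a + l.sum) * y - (2 ^ l.sum + 3 * (cc l : ℤ)) =
        2 ^ l.sum * (2 ^ a * y - 1) - 3 * (cc l : ℤ) := by ring
    rw [key]
    constructor
    · rintro ⟨h1, h2⟩
      have s1 := nz_eq h1
      have e : (2 : ℤ) ^ l.sum * (2 ^ a * y - 1) - 3 * (cc l : ℤ) =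
          3 * (2 ^ l.sum * nz a y - (cc l : ℤ)) := by rw [s1]; ring
      rw [e, pow_succ']
      exact mul_dvd_mul_left 3 h2
    · intro h
      have h3 : (3 : ℤ) ∣ 2 ^ l.sum * (2 ^ a * y - 1) - 3 * (cc l : ℤ) :=
        (dvd_pow_self 3 (Nat.succ_ne_zero _)).trans h
      have h4 : (3 : ℤ) ∣ 2 ^ l.sum * (2 ^ a * y - 1) := by
        have := dvd_add h3 (dvd_mul_right (3 : ℤ) (cc l : ℤ))
        simpa using this
      have hcop : IsCoprime (3 : ℤ) (2 ^ l.sum) := by
        apply IsCoprime.pow_right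
        exact ⟨1, -1, by norm_num⟩
      have h5 : (3 : ℤ) ∣ 2 ^ a * y - 1 := hcop.dvd_of_dvd_mul_left h4
      have h1 : 2 ^ a * y % 3 = 1 := by omega
      refine ⟨h1, ?_⟩
      have s1 := nz_eq h1
      have e : (2 : ℤ) ^ l.sum * (2 ^ a * y - 1) - 3 * (cc l : ℤ) =
          3 * (2 ^ l.sum * nz a y - (cc l : ℤ)) := by rw [s1]; ring
      rw [e, pow_succ'] at h
      exact (mul_dvd_mul_iff_left (by norm_num : (3 : ℤ) ≠ 0)).1 h

/-- the residue used for `y` -/
def hat (n : ℕ) (y : ℤ) : ℕ := (y % 3 ^ (n + 1)).toNat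

theorem hat_spec (n : ℕ) (y : ℤ) : ∃ u : ℤ, y = (hat n y : ℤ) + 3 ^ (n + 1) * u := by
  refine ⟨y / 3 ^ (n + 1), ?_⟩
  unfold hat
  rw [Int.toNat_of_nonneg (Int.emod_nonneg _ (by positivity))]
  have := Int.emod_add_mul_ediv y (3 ^ (n + 1))
  linarith

theorem hat_mod {n : ℕ} {y : ℤ} (hy : y % 3 ≠ 0) : hat n y % 3 ≠ 0 := by
  obtain ⟨u, hu⟩ := hat_spec n y
  have e : (3 : ℤ) ^ (n + 1) * u = 3 * (3 ^ n * u) := by ring
  rw [e] at hu
  omega

/-- admissible words at an integer -/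
def Pz (M n : ℕ) (y : ℤ) : Finset (List ℕ) := PP M n (hat n y)

theorem Pz_spec {M n : ℕ} {y : ℤ} {l : List ℕ} (hl : l ∈ Pz M n y) :
    l.length = n ∧ (∀ a ∈ l, 1 ≤ a ∧ a ≤ M) ∧ vz l y ∧ ez l y % 3 ≠ 0 ∧ 3 ^ n ≤ 2 ^ l.sum := by
  unfold Pz PP at hl
  rw [mem_filter, mem_words] at hl
  obtain ⟨⟨h1, h2⟩, h3, h4, h5⟩ := hl
  subst h1
  obtain ⟨u, hu⟩ := hat_spec l.length y
  have h6 := en_eq l _ h3
  have h6' : (2 : ℤ) ^ l.sum * (hat l.length y : ℤ) =
      3 ^ l.length * (en l (hat l.length y) : ℤ) + (cc l : ℤ) := by exact_mod_cast h6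
  have h7 : (2 : ℤ) ^ l.sum * y - (cc l : ℤ) =
      3 ^ l.length * ((en l (hat l.length y) : ℤ) + 3 * (2 ^ l.sum * u)) := by
    have e : (2 : ℤ) ^ l.sum * y = 2 ^ l.sum * (hat l.length y : ℤ) +
        2 ^ l.sum * (3 ^ (l.length + 1) * u) := by
      rw [← mul_add, ← hu]
    rw [e, h6']
    ring
  have hv : vz l y := by
    rw [vz_iff, h7]
    exact dvd_mul_right _ _
  refine ⟨rfl, h2, hv, ?_, h5⟩
  have h8 := ez_eq l y hv
  have h9 : (3 : ℤ) ^ l.length * ez l y =
      3 ^ l.length * ((en l (hat l.length y) : ℤ) + 3 * (2 ^ l.sum * u)) := by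
    rw [← h7, h8]; ring
  have h10 : ez l y = (en l (hat l.length y) : ℤ) + 3 * (2 ^ l.sum * u) :=
    mul_left_cancel₀ (by positivity) h9
  rw [h10]
  omega

theorem cc_le (l : List ℕ) (hpos : ∀ a ∈ l, 1 ≤ a) : cc l ≤ 3 ^ l.length * 2 ^ l.sum := by
  induction l with
  | nil => simp [cc]
  | cons a l ih =>
    have ha := hpos a (by simp)
    have i := ih (fun b hb => hpos b (by simp [hb]))
    rw [cc, List.length_cons, List.sum_cons, pow_succ, pow_add]
    obtain ⟨k, rfl⟩ : ∃ k, a = k + 1 := ⟨a - 1, by omega⟩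
    have h1 : 1 ≤ 2 ^ k := Nat.one_le_two_pow
    have h2 : 2 ^ l.sum ≤ 3 ^ l.length * 2 ^ l.sum := Nat.le_mul_of_pos_left _ (by positivity)
    calc 2 ^ l.sum + 3 * cc l ≤ 3 ^ l.length * 2 ^ l.sum + 3 * (3 ^ l.length * 2 ^ l.sum) := by
          omega
      _ ≤ 3 ^ l.length * 3 * (2 * 2 ^ l.sum) := by
          have : 3 ^ l.length * 3 * (2 * 2 ^ l.sum) = 6 * (3 ^ l.length * 2 ^ l.sum) := by ring
          omega
      _ ≤ 3 ^ l.length * 3 * (2 ^ (k + 1) * 2 ^ l.sum) := by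
          apply Nat.mul_le_mul_left
          apply Nat.mul_le_mul_right
          rw [pow_succ]; omega

/-- the constant `K = 2^(M n)` -/
def KK (M n : ℕ) : ℕ := 2 ^ (M * n)

/-- the additive constant of the size -/
def EC (M n : ℕ) : ℕ := 3 ^ n * KK M n

/-- size of an integer -/
def ph (M n : ℕ) (y : ℤ) : ℕ := y.natAbs + EC M n

theorem sum_le_of {M n : ℕ} {l : List ℕ} (h1 : l.length = n) (h2 : ∀ a ∈ l, 1 ≤ a ∧ a ≤ M) :
    l.sum ≤ M * n := by
  have := List.sum_le_card_nsmul l M (fun a ha => (h2 a ha).2)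
  rw [h1, smul_eq_mul, mul_comm] at this
  exact this

theorem ph_step {M n : ℕ} (hn : 1 ≤ n) {y : ℤ} {l : List ℕ} (hl : l ∈ Pz M n y) :
    3 ^ n * ph M n (ez l y) ≤ 2 ^ l.sum * ph M n y := by
  obtain ⟨h1, h2, h3, h4, h5⟩ := Pz_spec hl
  have hs := sum_le_of h1 h2
  have h6 := ez_eq l y h3
  rw [h1] at h6
  have h7 : 3 ^ n * (ez l y).natAbs ≤ 2 ^ l.sum * y.natAbs + cc l := by
    have e : (3 : ℤ) ^ n * ez l y = 2 ^ l.sum * y - (cc l : ℤ) := by rw [h6]; ring
    have e2 := congrArg Int.natAbs e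
    rw [Int.natAbs_mul, Int.natAbs_pow] at e2
    have e3 : (3 : ℤ).natAbs = 3 := rfl
    rw [e3] at e2
    rw [e2]
    refine (Int.natAbs_sub_le _ _).trans ?_
    rw [Int.natAbs_mul, Int.natAbs_pow]
    simp
  have h8 := cc_le l (fun a ha => (h2 a ha).1)
  rw [h1] at h8
  have h9 : 3 ^ n + 1 ≤ 2 ^ l.sum := by
    rcases Nat.lt_or_ge (3 ^ n) (2 ^ l.sum) with h | h
    · exact h
    · exfalso
      have he : 3 ^ n = 2 ^ l.sum := le_antisymm h5 h
      have hsum : 1 ≤ l.sum := by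
        cases l with
        | nil => simp at h1; omega
        | cons a l =>
          have := (h2 a (by simp)).1
          rw [List.sum_cons]; omega
      have ho : 3 ^ n % 2 = 1 := by
        rw [Nat.pow_mod]; norm_num
      rw [he] at ho
      obtain ⟨k, hk⟩ : ∃ k, l.sum = k + 1 := ⟨l.sum - 1, by omega⟩
      rw [hk, pow_succ] at ho
      omega
  have h10 : 2 ^ l.sum ≤ KK M n := Nat.pow_le_pow_right (by norm_num) hs
  unfold ph
  have h11 : 3 ^ n * 2 ^ l.sum ≤ EC M n := Nat.mul_le_mul_left _ h10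
  calc 3 ^ n * ((ez l y).natAbs + EC M n) = 3 ^ n * (ez l y).natAbs + 3 ^ n * EC M n := by ring
    _ ≤ 2 ^ l.sum * y.natAbs + EC M n + 3 ^ n * EC M n := by omega
    _ = 2 ^ l.sum * y.natAbs + (3 ^ n + 1) * EC M n := by ring
    _ ≤ 2 ^ l.sum * y.natAbs + 2 ^ l.sum * EC M n := by
        apply Nat.add_le_add_left
        exact Nat.mul_le_mul_right _ h9
    _ = 2 ^ l.sum * (y.natAbs + EC M n) := by ring

theorem ph_step' {M n : ℕ} (hn : 1 ≤ n) {y : ℤ} {l : List ℕ} (hl : l ∈ Pz M n y) :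
    ph M n (ez l y) ≤ KK M n * ph M n y := by
  have h := ph_step hn hl
  obtain ⟨h1, h2, h3, h4, h5⟩ := Pz_spec hl
  have hs := sum_le_of h1 h2
  calc ph M n (ez l y) ≤ 3 ^ n * ph M n (ez l y) := Nat.le_mul_of_pos_left _ (by positivity)
    _ ≤ 2 ^ l.sum * ph M n y := h
    _ ≤ KK M n * ph M n y := Nat.mul_le_mul_right _ (Nat.pow_le_pow_right (by norm_num) hs)

theorem cc_inj' {l l' : List ℕ} {n : ℕ} (h1 : l.length = n) (h1' : l'.length = n)
    (hp : ∀ a ∈ l, 1 ≤ a) (hp' : ∀ a ∈ l', 1 ≤ a) (hs : l.sum = l'.sum) {y : ℤ}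
    (hv : vz l y) (hv' : vz l' y) (he : ez l y = ez l' y) : l = l' := by
  apply cc_inj (h1.trans h1'.symm) hs hp hp'
  have e1 := ez_eq l y hv
  have e2 := ez_eq l' y hv'
  rw [h1, he, hs] at e1
  rw [h1'] at e2
  have : (cc l : ℤ) = cc l' := by linarith
  exact_mod_cast this

/-- two words whose end points lie on one orbit, at compatible times, are equal -/
theorem disj_aux {M n : ℕ} (hn : 1 ≤ n) {y z : ℤ} {l l' : List ℕ} (hl : l ∈ Pz M n y)
    (hl' : l' ∈ Pz M n y) {i j : ℕ} (hi : tz^[i] z = ez l y) (hj : tz^[j] z = ez l' y)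
    (hij : i + l.sum = j + l'.sum) (hle : i ≤ j) : l = l' := by
  obtain ⟨h1, h2, h3, -, -⟩ := Pz_spec hl
  obtain ⟨h1', h2', h3', -, -⟩ := Pz_spec hl'
  obtain ⟨d1, d2, d3⟩ := ez_dyn l (fun a ha => (h2 a ha).1) y h3
  obtain ⟨d1', d2', d3'⟩ := ez_dyn l' (fun a ha => (h2' a ha).1) y h3'
  obtain ⟨d, rfl⟩ : ∃ d, j = i + d := ⟨j - i, by omega⟩
  have e1 : tz^[d] (ez l y) = ez l' y := by
    rw [← hj, ← hi, ← Function.iterate_add_apply, add_comm]
  have e2 : l.sum = d + l'.sum := by omega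
  rw [e2, oc_add, e1, d2', h1, h1'] at d2
  have hd : d = 0 := by
    by_contra hd
    have hne : l ≠ [] := by
      intro h; subst h; simp at h1; omega
    have := oc_pos (d3 hne) (Nat.pos_of_ne_zero hd)
    omega
  subst hd
  have e3 : ez l y = ez l' y := e1
  exact cc_inj' h1 h1' (fun a ha => (h2 a ha).1) (fun a ha => (h2' a ha).1) (by omega) h3 h3' e3

theorem not_per_time {y z : ℤ} (hy : y ∉ Function.periodicPts tz) {p q : ℕ} (hp : tz^[p] z = y)
    (hq : tz^[q] z = y) : p = q := by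
  have key : ∀ p q : ℕ, p < q → tz^[p] z = y → tz^[q] z = y → False := by
    intro p q hpq hp hq
    apply hy
    refine ⟨q - p, by omega, ?_⟩
    have e : q = (q - p) + p := by omega
    rw [e, Function.iterate_add_apply, hp] at hq
    exact hq
  rcases lt_trichotomy p q with h | h | h
  · exact (key p q h hp hq).elim
  · exact h
  · exact (key q p h hq hp).elim

theorem disj {M n : ℕ} (hn : 1 ≤ n) {y z : ℤ} (hy : y ∉ Function.periodicPts tz) {l l' : List ℕ}
    (hl : l ∈ Pz M n y) (hl' : l' ∈ Pz M n y) {i j : ℕ} (hi : tz^[i] z = ez l y)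
    (hj : tz^[j] z = ez l' y) : l = l' := by
  obtain ⟨h1, h2, h3, -, -⟩ := Pz_spec hl
  obtain ⟨h1', h2', h3', -, -⟩ := Pz_spec hl'
  obtain ⟨d1, -, -⟩ := ez_dyn l (fun a ha => (h2 a ha).1) y h3
  obtain ⟨d1', -, -⟩ := ez_dyn l' (fun a ha => (h2' a ha).1) y h3'
  have p1 : tz^[l.sum + i] z = y := by rw [Function.iterate_add_apply, hi, d1]
  have p2 : tz^[l'.sum + j] z = y := by rw [Function.iterate_add_apply, hj, d1']
  have e := not_per_time hy p1 p2
  rcases le_total i j with h | h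
  · exact disj_aux hn hl hl' hi hj (by omega) h
  · exact (disj_aux hn hl' hl hj hi (by omega) h).symm

theorem per_iter {e : ℤ} (he : e ∈ Function.periodicPts tz) (k : ℕ) :
    tz^[k] e ∈ Function.periodicPts tz := by
  obtain ⟨p, hp, hper⟩ := he
  exact ⟨p, hp, hper.apply_iterate k⟩

theorem per_inj {e f : ℤ} (he : e ∈ Function.periodicPts tz) (hf : f ∈ Function.periodicPts tz)
    {k : ℕ} (h : tz^[k] e = tz^[k] f) : e = f := by
  obtain ⟨p, hp, hper⟩ := he
  obtain ⟨q, hq, hqer⟩ := hf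
  have h1 : tz^[p * q * k] e = e := (hper.mul_const (q * k)) |> fun h => by
    have : p * q * k = p * (q * k) := by ring
    rw [this]; exact h
  have h2 : tz^[p * q * k] f = f := (hqer.mul_const (p * k)) |> fun h => by
    have : p * q * k = q * (p * k) := by ring
    rw [this]; exact h
  have hk : p * q * k = (p * q * k - k) + k := by
    have : k ≤ p * q * k := Nat.le_mul_of_pos_left k (Nat.mul_pos hp hq)
    omega
  rw [← h1, ← h2, hk, Function.iterate_add_apply, Function.iterate_add_apply, h]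

/-- end points of words at non periodic points are non periodic -/
theorem ez_not_per {M n : ℕ} {y : ℤ} (hy : y ∉ Function.periodicPts tz) {l : List ℕ}
    (hl : l ∈ Pz M n y) : ez l y ∉ Function.periodicPts tz := by
  obtain ⟨h1, h2, h3, -, -⟩ := Pz_spec hl
  obtain ⟨d1, -, -⟩ := ez_dyn l (fun a ha => (h2 a ha).1) y h3
  intro h
  apply hy
  rw [← d1]
  exact per_iter h _

/-- at most one end point is periodic -/
theorem per_unique {M n : ℕ} (hn : 1 ≤ n) {y : ℤ} {l l' : List ℕ} (hl : l ∈ Pz M n y)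
    (hl' : l' ∈ Pz M n y) (he : ez l y ∈ Function.periodicPts tz)
    (he' : ez l' y ∈ Function.periodicPts tz) : l = l' := by
  have key : ∀ l l' : List ℕ, l ∈ Pz M n y → l' ∈ Pz M n y → ez l y ∈ Function.periodicPts tz →
      ez l' y ∈ Function.periodicPts tz → l.sum ≤ l'.sum → l' = l := by
    intro l l' hl hl' he he' hle
    obtain ⟨h1, h2, h3, -, -⟩ := Pz_spec hl
    obtain ⟨h1', h2', h3', -, -⟩ := Pz_spec hl'
    obtain ⟨d1, -, -⟩ := ez_dyn l (fun a ha => (h2 a ha).1) y h3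
    obtain ⟨d1', -, -⟩ := ez_dyn l' (fun a ha => (h2' a ha).1) y h3'
    have e0 : l'.sum = l.sum + (l'.sum - l.sum) := by omega
    have e1 : tz^[l'.sum - l.sum] (ez l' y) = ez l y := by
      apply per_inj (per_iter he' _) he (k := l.sum)
      rw [← Function.iterate_add_apply, ← e0, d1', d1]
    exact disj_aux hn hl' hl (z := ez l' y) (i := 0) (j := l'.sum - l.sum) rfl e1 (by omega)
      (by omega)
  rcases le_total l.sum l'.sum with h | h
  · exact (key l l' hl hl' he he' h).symm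
  · exact key l' l hl' hl he' he h

/-! ## The tree -/

open Classical in
/-- the finite tree above `y`, stopped at size `X` -/
noncomputable def tree (M n X : ℕ) : ℕ → ℤ → Finset ℤ
  | 0, y => {y}
  | t + 1, y => if KK M n * ph M n y ≤ X then (Pz M n y).biUnion (fun l => tree M n X t (ez l y))
      else {y}

theorem tree_size {M n : ℕ} (hn : 1 ≤ n) {X : ℕ} (t : ℕ) {y : ℤ} (hy : ph M n y ≤ X) {z : ℤ}
    (hz : z ∈ tree M n X t y) : ph M n z ≤ X := by
  induction t generalizing y with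
  | zero => rw [tree, mem_singleton] at hz; rw [hz]; exact hy
  | succ t ih =>
    rw [tree] at hz
    split_ifs at hz with h
    · rw [mem_biUnion] at hz
      obtain ⟨l, hl, hz⟩ := hz
      exact ih ((ph_step' hn hl).trans h) hz
    · rw [mem_singleton] at hz; rw [hz]; exact hy

theorem tree_time {M n X : ℕ} (t : ℕ) {y z : ℤ} (hz : z ∈ tree M n X t y) :
    ∃ k ≤ M * n * t, tz^[k] z = y := by
  induction t generalizing y with
  | zero => rw [tree, mem_singleton] at hz; exact ⟨0, by omega, by rw [hz]; rfl⟩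
  | succ t ih =>
    rw [tree] at hz
    split_ifs at hz with h
    · rw [mem_biUnion] at hz
      obtain ⟨l, hl, hz⟩ := hz
      obtain ⟨k, hk, hk2⟩ := ih hz
      obtain ⟨h1, h2, h3, -, -⟩ := Pz_spec hl
      obtain ⟨d1, -, -⟩ := ez_dyn l (fun a ha => (h2 a ha).1) y h3
      refine ⟨l.sum + k, ?_, ?_⟩
      · have := sum_le_of h1 h2
        rw [Nat.mul_succ]; omega
      · rw [Function.iterate_add_apply, hk2, d1]
    · rw [mem_singleton] at hz; exact ⟨0, Nat.zero_le _, by rw [hz]; rfl⟩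

theorem W_hat {β : ℝ} {M n : ℕ} (H : ∀ y : ℕ, y % 3 ≠ 0 → 2 ≤ W β M n y) {y : ℤ}
    (hy : y % 3 ≠ 0) : 2 ≤ ∑ l ∈ Pz M n y, wt β n l := H _ (hat_mod hy)

theorem tree_card {β : ℝ} (hβ : 0 < β) {M n : ℕ} (hn : 1 ≤ n)
    (H : ∀ y : ℕ, y % 3 ≠ 0 → 2 ≤ W β M n y) (X : ℕ) (t : ℕ) {y : ℤ} (hy : y % 3 ≠ 0)
    (hper : y ∉ Function.periodicPts tz) :
    ((KK M n : ℝ) ^ β)⁻¹ * min (((X : ℝ) / (ph M n y : ℝ)) ^ β) (2 ^ t) ≤
      ((tree M n X t y).card : ℝ) := by
  have hK1 : (1 : ℝ) ≤ (KK M n : ℝ) := by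
    have : 1 ≤ KK M n := Nat.one_le_two_pow
    exact_mod_cast this
  have hKβ : 1 ≤ (KK M n : ℝ) ^ β := Real.one_le_rpow hK1 hβ.le
  have hK0 : 0 < (KK M n : ℝ) ^ β := by linarith
  induction t generalizing y with
  | zero =>
    rw [tree, card_singleton, pow_zero, Nat.cast_one]
    have h1 : min (((X : ℝ) / (ph M n y : ℝ)) ^ β) 1 ≤ 1 := min_le_right _ _
    calc ((KK M n : ℝ) ^ β)⁻¹ * min (((X : ℝ) / (ph M n y : ℝ)) ^ β) 1 ≤
          ((KK M n : ℝ) ^ β)⁻¹ * 1 := mul_le_mul_of_nonneg_left h1 (by positivity)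
      _ ≤ 1 := by rw [mul_one]; exact inv_le_one_of_one_le₀ hKβ
  | succ t ih =>
    have hph : 0 < ph M n y := by
      unfold ph EC KK
      positivity
    have hph' : (0 : ℝ) < (ph M n y : ℝ) := by exact_mod_cast hph
    rw [tree]
    split_ifs with h
    · rw [card_biUnion]
      · push_cast
        set m : ℝ := min (((X : ℝ) / (ph M n y : ℝ)) ^ β) (2 ^ t) with hm
        have hm0 : 0 ≤ m := le_min (by positivity) (by positivity)
        have h1 : ∀ l ∈ Pz M n y, ((KK M n : ℝ) ^ β)⁻¹ * (wt β n l * m) ≤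
            ((tree M n X t (ez l y)).card : ℝ) := by
          intro l hl
          obtain ⟨h1, h2, h3, h4, h5⟩ := Pz_spec hl
          refine le_trans ?_ (ih h4 (ez_not_per hper hl))
          apply mul_le_mul_of_nonneg_left _ (by positivity)
          have hw1 : wt β n l ≤ 1 := wt_le_one hβ.le hl
          have hw0 : 0 < wt β n l := wt_pos β n l
          apply le_min
          · have hph2 : 0 < ph M n (ez l y) := by
              unfold ph EC KK
              positivity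
            have hph2' : (0 : ℝ) < (ph M n (ez l y) : ℝ) := by exact_mod_cast hph2
            have h6 : (3 : ℝ) ^ n * (ph M n (ez l y) : ℝ) ≤ 2 ^ l.sum * (ph M n y : ℝ) := by
              exact_mod_cast ph_step hn hl
            have h7 : (3 : ℝ) ^ n / 2 ^ l.sum * ((X : ℝ) / (ph M n y : ℝ)) ≤
                (X : ℝ) / (ph M n (ez l y) : ℝ) := by
              rw [div_mul_div_comm, div_le_div_iff₀ (by positivity) hph2']
              nlinarith [Nat.cast_nonneg (α := ℝ) X]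
            calc wt β n l * m ≤ wt β n l * ((X : ℝ) / (ph M n y : ℝ)) ^ β :=
                  mul_le_mul_of_nonneg_left (min_le_left _ _) hw0.le
              _ = ((3 : ℝ) ^ n / 2 ^ l.sum * ((X : ℝ) / (ph M n y : ℝ))) ^ β := by
                  rw [wt, Real.mul_rpow (by positivity) (by positivity)]
              _ ≤ _ := Real.rpow_le_rpow (by positivity) h7 hβ.le
          · calc wt β n l * m ≤ 1 * m := mul_le_mul_of_nonneg_right hw1 hm0
              _ ≤ 2 ^ t := by rw [one_mul]; exact min_le_right _ _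
        refine le_trans ?_ (sum_le_sum h1)
        rw [← mul_sum, ← sum_mul]
        apply mul_le_mul_of_nonneg_left _ (by positivity)
        have h2 := W_hat H hy
        calc min (((X : ℝ) / (ph M n y : ℝ)) ^ β) (2 ^ (t + 1)) ≤ 2 * m := by
              rw [hm, mul_min_of_nonneg _ _ (by norm_num : (0 : ℝ) ≤ 2)]
              apply min_le_min
              · have : 0 ≤ ((X : ℝ) / (ph M n y : ℝ)) ^ β := by positivity
                linarith
              · rw [pow_succ']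
          _ ≤ _ := mul_le_mul_of_nonneg_right h2 hm0
      · intro l hl l' hl' hne
        rw [Function.onFun, disjoint_left]
        intro z hz hz'
        obtain ⟨i, -, hi⟩ := tree_time t hz
        obtain ⟨j, -, hj⟩ := tree_time t hz'
        exact hne (disj hn hper hl hl' hi hj)
    · rw [card_singleton, Nat.cast_one]
      have hX : (X : ℝ) / (ph M n y : ℝ) ≤ (KK M n : ℝ) := by
        rw [div_le_iff₀ hph']
        exact_mod_cast (not_le.1 h).le
      have h1 : min (((X : ℝ) / (ph M n y : ℝ)) ^ β) (2 ^ (t + 1)) ≤ (KK M n : ℝ) ^ β :=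
        (min_le_left _ _).trans (Real.rpow_le_rpow (by positivity) hX hβ.le)
      calc _ ≤ ((KK M n : ℝ) ^ β)⁻¹ * (KK M n : ℝ) ^ β :=
            mul_le_mul_of_nonneg_left h1 (by positivity)
        _ = 1 := inv_mul_cancel₀ hK0.ne'

/-- a non periodic predecessor of bounded size -/
theorem exists_base {β : ℝ} (hβ : 0 < β) {M n : ℕ} (hn : 1 ≤ n)
    (H : ∀ y : ℕ, y % 3 ≠ 0 → 2 ≤ W β M n y) {a : ℤ} (ha : a % 3 ≠ 0) :
    ∃ b : ℤ, b % 3 ≠ 0 ∧ b ∉ Function.periodicPts tz ∧ ph M n b ≤ KK M n * ph M n a ∧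
      ∃ k ≤ M * n, tz^[k] b = a := by
  by_cases hper : a ∈ Function.periodicPts tz
  · have h1 := W_hat H ha
    have h2 : ∑ l ∈ Pz M n a, wt β n l ≤ ((Pz M n a).card : ℝ) := by
      have := sum_le_card_nsmul (Pz M n a) (wt β n) 1 (fun l hl => wt_le_one hβ.le hl)
      simpa using this
    have h3 : 1 < (Pz M n a).card := by
      have : (2 : ℝ) ≤ ((Pz M n a).card : ℝ) := h1.trans h2
      have : 2 ≤ (Pz M n a).card := by exact_mod_cast this
      omega
    obtain ⟨l, hl, l', hl', hne⟩ := one_lt_card.1 h3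
    have key : ∀ l ∈ Pz M n a, ez l a ∉ Function.periodicPts tz →
        ∃ b : ℤ, b % 3 ≠ 0 ∧ b ∉ Function.periodicPts tz ∧ ph M n b ≤ KK M n * ph M n a ∧
          ∃ k ≤ M * n, tz^[k] b = a := by
      intro l hl hnp
      obtain ⟨h1, h2, h3, h4, -⟩ := Pz_spec hl
      obtain ⟨d1, -, -⟩ := ez_dyn l (fun a ha => (h2 a ha).1) a h3
      exact ⟨ez l a, h4, hnp, ph_step' hn hl, l.sum, sum_le_of h1 h2, d1⟩
    by_cases hp : ez l a ∈ Function.periodicPts tz
    · by_cases hp' : ez l' a ∈ Function.periodicPts tz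
      · exact (hne (per_unique hn hl hl' hp hp')).elim
      · exact key l' hl' hp'
    · exact key l hl hp
  · refine ⟨a, ha, hper, ?_, 0, Nat.zero_le _, rfl⟩
    exact Nat.le_mul_of_pos_left _ (by unfold KK; positivity)

end Cnt

theorem count_int {β : ℝ} (hβ : 0 < β) (_hβ1 : β < 1) {M n : ℕ} (hn : 1 ≤ n)
    (H : ∀ y : ℕ, y % 3 ≠ 0 → 2 ≤ W β M n y) (a : ℤ) (ha : a % 3 ≠ 0) :
    ∃ c : ℝ, 0 < c ∧ ∃ x0 : ℕ, ∀ x : ℕ, x0 ≤ x → c * (x : ℝ) ^ β ≤
      (({m : ℤ | |m| ≤ (x : ℤ) ∧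
          ∃ k : ℕ, (fun m : ℤ => if m % 2 = 0 then m / 2 else (3 * m + 1) / 2)^[k] m = a}.ncard : ℕ) : ℝ) := by
  obtain ⟨b, hb3, hbp, hbs, k0, -, hk0⟩ := Cnt.exists_base hβ hn H ha
  have hK1 : (1 : ℝ) ≤ (Cnt.KK M n : ℝ) := by
    have : 1 ≤ Cnt.KK M n := Nat.one_le_two_pow
    exact_mod_cast this
  have hph : 0 < Cnt.ph M n b := by
    unfold Cnt.ph Cnt.EC Cnt.KK
    positivity
  have hph' : (0 : ℝ) < (Cnt.ph M n b : ℝ) := by exact_mod_cast hph
  refine ⟨((Cnt.KK M n : ℝ) ^ β)⁻¹ * ((Cnt.ph M n b : ℝ) ^ β)⁻¹, by positivity, Cnt.ph M n b,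
    fun x hx => ?_⟩
  obtain ⟨t, ht⟩ : ∃ t : ℕ, ((x : ℝ) / (Cnt.ph M n b : ℝ)) ^ β ≤ 2 ^ t := by
    obtain ⟨t, ht⟩ := pow_unbounded_of_one_lt (((x : ℝ) / (Cnt.ph M n b : ℝ)) ^ β)
      (by norm_num : (1 : ℝ) < 2)
    exact ⟨t, ht.le⟩
  have h1 := Cnt.tree_card hβ hn H x t hb3 hbp
  rw [min_eq_left ht, Real.div_rpow (by positivity) (by positivity)] at h1
  have h2 : ((Cnt.tree M n x t b).card : ℝ) ≤
      (({m : ℤ | |m| ≤ (x : ℤ) ∧
          ∃ k : ℕ, (fun m : ℤ => if m % 2 = 0 then m / 2 else (3 * m + 1) / 2)^[k] m = a}.ncard : ℕ) : ℝ) := by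
    rw [← Set.ncard_coe_finset]
    have hfin : ({m : ℤ | |m| ≤ (x : ℤ) ∧
          ∃ k : ℕ, (fun m : ℤ => if m % 2 = 0 then m / 2 else (3 * m + 1) / 2)^[k] m = a}).Finite := by
      apply (Set.finite_Icc (-(x : ℤ)) (x : ℤ)).subset
      rintro m ⟨hm, -⟩
      exact abs_le.1 hm
    have hsub : ((Cnt.tree M n x t b : Finset ℤ) : Set ℤ) ⊆ {m : ℤ | |m| ≤ (x : ℤ) ∧
          ∃ k : ℕ, (fun m : ℤ => if m % 2 = 0 then m / 2 else (3 * m + 1) / 2)^[k] m = a} := by
      intro z hz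
      have hz' : z ∈ Cnt.tree M n x t b := hz
      have s1 := Cnt.tree_size hn t hx hz'
      obtain ⟨k, -, hk⟩ := Cnt.tree_time t hz'
      refine ⟨?_, k0 + k, ?_⟩
      · have : z.natAbs ≤ x := by
          unfold Cnt.ph at s1
          omega
        rw [Int.abs_eq_natAbs]
        exact_mod_cast this
      · change Cnt.tz^[k0 + k] z = a
        rw [Function.iterate_add_apply, hk, hk0]
    exact_mod_cast Set.ncard_le_ncard hsub hfin
  refine le_trans (le_of_eq ?_) (h1.trans h2)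
  rw [div_eq_mul_inv]
  ring

theorem count_nat {β : ℝ} (hβ : 0 < β) (hβ1 : β < 1) {M n : ℕ} (hn : 1 ≤ n)
    (H : ∀ y : ℕ, y % 3 ≠ 0 → 2 ≤ W β M n y) :
    ∃ c C : ℝ, 0 < c ∧ 0 < C ∧ ∀ a x : ℕ, ¬ 3 ∣ a → a ≤ x →
      c * ((x : ℝ) / (a : ℝ)) ^ β ≤
        (Set.ncard {n : ℕ | 1 ≤ n ∧ n ≤ x ∧
          ∃ k : ℕ, (fun m : ℕ => if m % 2 = 0 then m / 2 else (3 * m + 1) / 2)^[k] n = a ∧
            (k : ℝ) ≤ C * Real.log (n : ℝ)} : ℝ) := by
  have hKn : 1 ≤ Cnt.KK M n := Nat.one_le_two_pow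
  have hK1 : (1 : ℝ) ≤ (Cnt.KK M n : ℝ) := by exact_mod_cast hKn
  set K' : ℕ := Cnt.KK M n * (1 + Cnt.EC M n) with hK'
  have hK'1 : 1 ≤ K' := Nat.mul_pos hKn (by omega)
  have hK'r : (1 : ℝ) ≤ (K' : ℝ) := by exact_mod_cast hK'1
  set c1 : ℝ := ((Cnt.KK M n : ℝ) ^ β)⁻¹ * ((K' : ℝ) ^ β)⁻¹ with hc1
  have hc1pos : 0 < c1 := by positivity
  set ρ0 : ℝ := max (max 2 (K' : ℝ)) ((2 / c1) ^ (2 / β)) with hρ0
  have hρ0pos : 0 < ρ0 := lt_of_lt_of_le (by norm_num) ((le_max_left _ _).trans (le_max_left _ _))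
  have hlog2 : 0 < Real.log 2 := Real.log_pos (by norm_num)
  refine ⟨min (ρ0 ^ β)⁻¹ (c1 / 2), 6 * (M * n + 1) / (β * Real.log 2), by positivity,
    by positivity, fun a x ha3 hax => ?_⟩
  set C : ℝ := 6 * (M * n + 1) / (β * Real.log 2) with hC
  set f : ℕ → ℕ := fun m : ℕ => if m % 2 = 0 then m / 2 else (3 * m + 1) / 2 with hf
  have hftn : f = Cnt.tn := rfl
  set S : Set ℕ := {n : ℕ | 1 ≤ n ∧ n ≤ x ∧ ∃ k : ℕ, f^[k] n = a ∧
    (k : ℝ) ≤ C * Real.log (n : ℝ)} with hS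
  have hfin : S.Finite := (Set.finite_Icc 1 x).subset (fun m hm => ⟨hm.1, hm.2.1⟩)
  have ha1 : 1 ≤ a := by
    rcases Nat.eq_zero_or_pos a with h | h
    · subst h; exact absurd (dvd_zero 3) ha3
    · exact h
  have har : (1 : ℝ) ≤ (a : ℝ) := by exact_mod_cast ha1
  have ha0 : (0 : ℝ) < (a : ℝ) := by linarith
  set ρ : ℝ := (x : ℝ) / (a : ℝ) with hρ
  have hρ1 : 1 ≤ ρ := by
    rw [hρ, one_le_div ha0]
    exact_mod_cast hax
  have hρpos : 0 < ρ := by linarith
  rcases lt_or_ge ρ ρ0 with hcase | hcase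
  · have hmem : a ∈ S := by
      refine ⟨ha1, hax, 0, rfl, ?_⟩
      have : 0 ≤ C * Real.log (a : ℝ) := mul_nonneg (by positivity) (Real.log_nonneg har)
      simpa using this
    have h1 : 1 ≤ S.ncard := by
      rw [Nat.one_le_iff_ne_zero, Ne, Set.ncard_eq_zero hfin]
      exact Set.nonempty_iff_ne_empty.1 ⟨a, hmem⟩
    have h2 : (1 : ℝ) ≤ (S.ncard : ℝ) := by exact_mod_cast h1
    refine le_trans ?_ h2
    calc min (ρ0 ^ β)⁻¹ (c1 / 2) * ρ ^ β ≤ (ρ0 ^ β)⁻¹ * ρ0 ^ β := by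
          apply mul_le_mul (min_le_left _ _) _ (by positivity) (by positivity)
          exact Real.rpow_le_rpow hρpos.le hcase.le hβ.le
      _ = 1 := inv_mul_cancel₀ (by positivity)
  · have hρ2 : 2 ≤ ρ := ((le_max_left _ _).trans (le_max_left _ _)).trans hcase
    have hρK : (K' : ℝ) ≤ ρ := ((le_max_right _ _).trans (le_max_left _ _)).trans hcase
    have hρc : (2 / c1) ^ (2 / β) ≤ ρ := (le_max_right _ _).trans hcase
    have haz : (a : ℤ) % 3 ≠ 0 := by
      intro h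
      apply ha3
      exact_mod_cast Int.dvd_of_emod_eq_zero h
    obtain ⟨b, hb3, hbp, hbs, k0, hk0n, hk0⟩ := Cnt.exists_base hβ hn H haz
    have hbs' : Cnt.ph M n b ≤ K' * a := by
      refine hbs.trans ?_
      rw [hK', mul_assoc]
      apply Nat.mul_le_mul_left
      unfold Cnt.ph
      have : (a : ℤ).natAbs = a := Int.natAbs_natCast a
      rw [this]
      have h3 : Cnt.EC M n ≤ Cnt.EC M n * a := Nat.le_mul_of_pos_right _ ha1
      nlinarith
    have hbx : Cnt.ph M n b ≤ x := by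
      have : ((K' * a : ℕ) : ℝ) ≤ (x : ℝ) := by
        push_cast
        rw [← le_div_iff₀ ha0]
        exact hρK
      exact hbs'.trans (by exact_mod_cast this)
    have hph : 0 < Cnt.ph M n b := by
      unfold Cnt.ph Cnt.EC Cnt.KK
      positivity
    have hph' : (0 : ℝ) < (Cnt.ph M n b : ℝ) := by exact_mod_cast hph
    set t : ℕ := ⌈Real.logb 2 ρ⌉₊ with ht
    have hlogb0 : 0 ≤ Real.logb 2 ρ := Real.logb_nonneg (by norm_num) hρ1
    have ht1 : ρ ≤ 2 ^ t := by
      have h1 : Real.logb 2 ρ ≤ (t : ℝ) := Nat.le_ceil _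
      have h2 := (Real.logb_le_iff_le_rpow (by norm_num : (1 : ℝ) < 2) hρpos).1 h1
      rwa [Real.rpow_natCast] at h2
    have ht2 : (t : ℝ) < Real.logb 2 ρ + 1 := Nat.ceil_lt_add_one hlogb0
    have hρβ : ρ ^ β ≤ ρ := by
      calc ρ ^ β ≤ ρ ^ (1 : ℝ) := Real.rpow_le_rpow_of_exponent_le hρ1 hβ1.le
        _ = ρ := Real.rpow_one ρ
    have h1 := Cnt.tree_card hβ hn H x t hb3 hbp
    set Tr := Cnt.tree M n x t b with hTr
    have h2 : c1 * ρ ^ β ≤ (Tr.card : ℝ) := by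
      refine le_trans ?_ h1
      rw [hc1, mul_assoc]
      apply mul_le_mul_of_nonneg_left _ (by positivity)
      apply le_min
      · have h3 : ρ / K' ≤ (x : ℝ) / (Cnt.ph M n b : ℝ) := by
          rw [hρ, div_div, div_le_div_iff_of_pos_left (by linarith [hax, (by exact_mod_cast (lt_of_lt_of_le ha1 hax) : (0 : ℝ) < x)]) (by positivity) hph']
          have : (Cnt.ph M n b : ℝ) ≤ ((K' * a : ℕ) : ℝ) := by exact_mod_cast hbs'
          push_cast at this
          linarith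
        calc ((K' : ℝ) ^ β)⁻¹ * ρ ^ β = (ρ / K') ^ β := by
              rw [Real.div_rpow hρpos.le (by positivity)]; ring
          _ ≤ _ := Real.rpow_le_rpow (by positivity) h3 hβ.le
      · have h3 : ((K' : ℝ) ^ β)⁻¹ ≤ 1 :=
          inv_le_one_of_one_le₀ (Real.one_le_rpow hK'r hβ.le)
        calc ((K' : ℝ) ^ β)⁻¹ * ρ ^ β ≤ 1 * ρ ^ β :=
              mul_le_mul_of_nonneg_right h3 (by positivity)
          _ ≤ 2 ^ t := by rw [one_mul]; exact hρβ.trans ht1
    -- positive elements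
    have hpos : ∀ z ∈ Tr, 0 < z := by
      intro z hz
      obtain ⟨k, -, hk⟩ := Cnt.tree_time t hz
      have : Cnt.tz^[k0 + k] z = (a : ℤ) := by
        rw [Function.iterate_add_apply, hk, hk0]
      exact Cnt.pos_of_iter this (by exact_mod_cast ha1)
    set Z0 : ℝ := ρ ^ (β / 2) with hZ0
    have hZ0pos : 0 < Z0 := by positivity
    have hZ0sq : Z0 * Z0 = ρ ^ β := by
      rw [hZ0, ← Real.rpow_add hρpos]
      congr 1
      ring
    set S1 := Tr.filter (fun z : ℤ => (z : ℝ) ≤ Z0) with hS1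
    set S2 := Tr.filter (fun z : ℤ => ¬ ((z : ℝ) ≤ Z0)) with hS2
    have hsplit : S1.card + S2.card = Tr.card := card_filter_add_card_filter_not _
    have hS1c : (S1.card : ℝ) ≤ Z0 := by
      have h3 : S1.card ≤ (Icc (1 : ℤ) ⌊Z0⌋).card := by
        apply card_le_card
        intro z hz
        rw [hS1, mem_filter] at hz
        rw [mem_Icc]
        exact ⟨hpos z hz.1, Int.le_floor.2 hz.2⟩
      rw [Int.card_Icc] at h3
      have h4 : (0 : ℤ) ≤ ⌊Z0⌋ := Int.floor_nonneg.2 hZ0pos.le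
      have h5 : ((S1.card : ℕ) : ℤ) ≤ ⌊Z0⌋ := by omega
      have h6 : ((S1.card : ℕ) : ℝ) ≤ ((⌊Z0⌋ : ℤ) : ℝ) := by exact_mod_cast h5
      exact h6.trans (Int.floor_le Z0)
    have hZc : 2 / c1 ≤ Z0 := by
      have h3 : ((2 / c1) ^ (2 / β)) ^ (β / 2) ≤ ρ ^ (β / 2) :=
        Real.rpow_le_rpow (by positivity) hρc (by positivity)
      rw [← Real.rpow_mul (by positivity)] at h3
      have h4 : 2 / β * (β / 2) = 1 := by field_simp
      rwa [h4, Real.rpow_one] at h3
    have hS2c : c1 / 2 * ρ ^ β ≤ (S2.card : ℝ) := by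
      have h3 : ((S1.card : ℝ)) + (S2.card : ℝ) = (Tr.card : ℝ) := by exact_mod_cast hsplit
      have h4 : Z0 ≤ c1 / 2 * ρ ^ β := by
        rw [← hZ0sq]
        have h5 : 1 ≤ c1 / 2 * Z0 := by
          rw [div_le_iff₀ hc1pos] at hZc
          linarith
        nlinarith
      linarith
    -- injection into S
    have hmaps : ∀ z ∈ S2, z.toNat ∈ S := by
      intro z hz
      rw [hS2, mem_filter] at hz
      obtain ⟨hzT, hzZ⟩ := hz
      have hz0 := hpos z hzT
      have hzz : ((z.toNat : ℕ) : ℤ) = z := Int.toNat_of_nonneg hz0.le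
      have hzr : ((z.toNat : ℕ) : ℝ) = (z : ℝ) := by exact_mod_cast congrArg (Int.cast (R := ℝ)) hzz
      have hsz := Cnt.tree_size hn t hbx hzT
      obtain ⟨k, hk1, hk⟩ := Cnt.tree_time t hzT
      refine ⟨by omega, ?_, k0 + k, ?_, ?_⟩
      · unfold Cnt.ph at hsz
        omega
      · rw [hftn]
        have h3 : Cnt.tz^[k0 + k] z = (a : ℤ) := by
          rw [Function.iterate_add_apply, hk, hk0]
        have h4 := Cnt.tn_iter_cast (k0 + k) z.toNat
        rw [hzz, h3] at h4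
        exact_mod_cast h4
      · rw [hzr]
        have h3 : β / 2 * Real.log ρ ≤ Real.log (z : ℝ) := by
          rw [← Real.log_rpow hρpos]
          exact Real.log_le_log hZ0pos (not_le.1 hzZ).le
        have h4 : ((k0 + k : ℕ) : ℝ) ≤ (M * n) * (t + 1) := by
          have : k0 + k ≤ M * n * (t + 1) := by
            rw [Nat.mul_succ]; omega
          exact_mod_cast this
        have h5 : 1 ≤ Real.logb 2 ρ := by
          rw [Real.le_logb_iff_rpow_le (by norm_num) hρpos, Real.rpow_one]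
          exact hρ2
        have h6 : (t : ℝ) + 1 ≤ 3 * Real.logb 2 ρ := by linarith
        have h7 : ((k0 + k : ℕ) : ℝ) ≤ (M * n + 1) * (3 * Real.logb 2 ρ) := by
          refine h4.trans ?_
          apply mul_le_mul _ h6 (by positivity) (by positivity)
          linarith
        refine h7.trans ?_
        calc ((M : ℝ) * n + 1) * (3 * Real.logb 2 ρ) = C * (β / 2 * Real.log ρ) := by
              rw [hC, Real.logb]
              field_simp
              ring
          _ ≤ C * Real.log (z : ℝ) := mul_le_mul_of_nonneg_left h3 (by positivity)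
    have hcard : S2.card ≤ S.ncard := by
      have h3 : (S2.image Int.toNat).card = S2.card := by
        apply card_image_of_injOn
        intro z hz w hw hzw
        have hz0 := hpos z (mem_filter.1 hz).1
        have hw0 := hpos w (mem_filter.1 hw).1
        have hzw' : z.toNat = w.toNat := hzw
        omega
      rw [← h3, ← Set.ncard_coe_finset]
      apply Set.ncard_le_ncard _ hfin
      intro m hm
      rw [mem_coe, mem_image] at hm
      obtain ⟨z, hz, rfl⟩ := hm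
      exact hmaps z hz
    have hcard' : (S2.card : ℝ) ≤ (S.ncard : ℝ) := by exact_mod_cast hcard
    refine le_trans ?_ hcard'
    refine le_trans ?_ hS2c
    exact mul_le_mul_of_nonneg_right (min_le_right _ _) (by positivity)

end H62w
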