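import Pool.Agent.Lib.H62w.Count

/-!
Counting, strong form: predecessors in `[c x, x]` with time `O(1 + log (n / a))`.
-/

set_option autoImplicit false
open Finset
namespace H62w
namespace Cnt

/-- admissible words with ratio at least `2` at an integer -/
def Qz (M n : ℕ) (y : ℤ) : Finset (List ℕ) := (Pz M n y).filter (fun l => 2 * 3 ^ n ≤ 2 ^ l.sum)

theorem Qz_sub {M n : ℕ} {y : ℤ} {l : List ℕ} (hl : l ∈ Qz M n y) : l ∈ Pz M n y :=
  (mem_filter.1 hl).1

theorem ez_ge {M n : ℕ} {y : ℤ} {l : List ℕ} (hl : l ∈ Qz M n y) (hy : 4 * 3 ^ n ≤ y) :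
    3 * y ≤ 2 * ez l y := by
  obtain ⟨hl1, hl2⟩ := mem_filter.1 hl
  obtain ⟨h1, h2, h3, -, -⟩ := Pz_spec hl1
  have h6 := ez_eq l y h3
  rw [h1] at h6
  have h8 := cc_le l (fun a ha => (h2 a ha).1)
  rw [h1] at h8
  have h8' : (cc l : ℤ) ≤ 3 ^ n * 2 ^ l.sum := by exact_mod_cast h8
  have hl2' : (2 : ℤ) * 3 ^ n ≤ 2 ^ l.sum := by exact_mod_cast hl2
  have h3n : (0 : ℤ) < 3 ^ n := by positivity
  have h9 : (3 : ℤ) ^ n * (2 * (y - 3 ^ n)) ≤ 3 ^ n * ez l y := by
    have h10 : (2 : ℤ) * 3 ^ n * (y - 3 ^ n) ≤ 2 ^ l.sum * (y - 3 ^ n) :=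
      mul_le_mul_of_nonneg_right hl2' (by linarith)
    nlinarith
  have h11 : 2 * (y - 3 ^ n) ≤ ez l y := le_of_mul_le_mul_left h9 h3n
  linarith

open Classical in
/-- the finite tree above `y`, stopped at size `X`, words of ratio at least `2` -/
noncomputable def tree2 (M n X : ℕ) : ℕ → ℤ → Finset ℤ
  | 0, y => {y}
  | t + 1, y => if KK M n * ph M n y ≤ X then (Qz M n y).biUnion (fun l => tree2 M n X t (ez l y))
      else {y}

theorem tree2_size {M n : ℕ} (hn : 1 ≤ n) {X : ℕ} (t : ℕ) {y : ℤ} (hy : ph M n y ≤ X) {z : ℤ}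
    (hz : z ∈ tree2 M n X t y) : ph M n z ≤ X := by
  induction t generalizing y with
  | zero => rw [tree2, mem_singleton] at hz; rw [hz]; exact hy
  | succ t ih =>
    rw [tree2] at hz
    split_ifs at hz with h
    · rw [mem_biUnion] at hz
      obtain ⟨l, hl, hz⟩ := hz
      exact ih ((ph_step' hn (Qz_sub hl)).trans h) hz
    · rw [mem_singleton] at hz; rw [hz]; exact hy

theorem tree2_time {M n X : ℕ} (t : ℕ) {y z : ℤ} (hy : 4 * 3 ^ n ≤ y)
    (hz : z ∈ tree2 M n X t y) :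
    ∃ k d : ℕ, k ≤ M * n * d ∧ tz^[k] z = y ∧ 3 ^ d * y ≤ 2 ^ d * z := by
  induction t generalizing y with
  | zero =>
    rw [tree2, mem_singleton] at hz
    exact ⟨0, 0, by omega, by rw [hz]; rfl, by rw [hz]; simp⟩
  | succ t ih =>
    rw [tree2] at hz
    split_ifs at hz with h
    · rw [mem_biUnion] at hz
      obtain ⟨l, hl, hz⟩ := hz
      have hge := ez_ge hl hy
      have h3n : (0 : ℤ) < 3 ^ n := by positivity
      obtain ⟨k, d, hk, hk2, hd⟩ := ih (by linarith) hz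
      obtain ⟨h1, h2, h3, -, -⟩ := Pz_spec (Qz_sub hl)
      obtain ⟨d1, -, -⟩ := ez_dyn l (fun a ha => (h2 a ha).1) y h3
      refine ⟨l.sum + k, d + 1, ?_, ?_, ?_⟩
      · have := sum_le_of h1 h2
        rw [Nat.mul_succ]; omega
      · rw [Function.iterate_add_apply, hk2, d1]
      · have e1 : (3 : ℤ) ^ (d + 1) * y = 3 ^ d * (3 * y) := by ring
        have e2 : (2 : ℤ) ^ (d + 1) * z = 2 * (2 ^ d * z) := by ring
        rw [e1, e2]
        have h4 : (3 : ℤ) ^ d * (3 * y) ≤ 3 ^ d * (2 * ez l y) :=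
          mul_le_mul_of_nonneg_left hge (by positivity)
        linarith
    · rw [mem_singleton] at hz
      exact ⟨0, 0, by omega, by rw [hz]; rfl, by rw [hz]; simp⟩

theorem tree2_leaf {M n X : ℕ} (t : ℕ) {y z : ℤ} (hy : 4 * 3 ^ n ≤ y)
    (ht : 2 ^ t * (X : ℤ) < 3 ^ t * y) (hz : z ∈ tree2 M n X t y) : X < KK M n * ph M n z := by
  induction t generalizing y with
  | zero =>
    rw [tree2, mem_singleton] at hz
    rw [hz]
    have h1 : (X : ℤ) < y := by simpa using ht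
    have h2 : 1 ≤ KK M n := Nat.one_le_two_pow
    have h3 : X < ph M n y := by unfold ph; omega
    exact lt_of_lt_of_le h3 (Nat.le_mul_of_pos_left _ h2)
  | succ t ih =>
    rw [tree2] at hz
    split_ifs at hz with h
    · rw [mem_biUnion] at hz
      obtain ⟨l, hl, hz⟩ := hz
      have hge := ez_ge hl hy
      have h3n : (0 : ℤ) < 3 ^ n := by positivity
      refine ih (by linarith) ?_ hz
      have e1 : (3 : ℤ) ^ (t + 1) * y = 3 ^ t * (3 * y) := by ring
      have e2 : (2 : ℤ) ^ (t + 1) * (X : ℤ) = 2 * (2 ^ t * X) := by ring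
      rw [e1, e2] at ht
      have h4 : (3 : ℤ) ^ t * (3 * y) ≤ 3 ^ t * (2 * ez l y) :=
        mul_le_mul_of_nonneg_left hge (by positivity)
      linarith
    · rw [mem_singleton] at hz
      rw [hz]
      exact not_le.1 h

theorem tree2_sub {M n X : ℕ} (t : ℕ) {y z : ℤ} (hz : z ∈ tree2 M n X t y) :
    ∃ k : ℕ, tz^[k] z = y := by
  induction t generalizing y with
  | zero => rw [tree2, mem_singleton] at hz; exact ⟨0, by rw [hz]; rfl⟩
  | succ t ih =>
    rw [tree2] at hz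
    split_ifs at hz with h
    · rw [mem_biUnion] at hz
      obtain ⟨l, hl, hz⟩ := hz
      obtain ⟨k, hk2⟩ := ih hz
      obtain ⟨h1, h2, h3, -, -⟩ := Pz_spec (Qz_sub hl)
      obtain ⟨d1, -, -⟩ := ez_dyn l (fun a ha => (h2 a ha).1) y h3
      exact ⟨l.sum + k, by rw [Function.iterate_add_apply, hk2, d1]⟩
    · rw [mem_singleton] at hz; exact ⟨0, by rw [hz]; rfl⟩

theorem tree2_card {β : ℝ} (hβ : 0 < β) {M n : ℕ} (hn : 1 ≤ n)
    (H : ∀ y : ℕ, y % 3 ≠ 0 →
      2 ≤ ∑ l ∈ (PP M n y).filter (fun l => 2 * 3 ^ n ≤ 2 ^ l.sum), wt β n l)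
    (X : ℕ) (t : ℕ) {y : ℤ} (hy : y % 3 ≠ 0) (hper : y ∉ Function.periodicPts tz) :
    ((KK M n : ℝ) ^ β)⁻¹ * min (((X : ℝ) / (ph M n y : ℝ)) ^ β) (2 ^ t) ≤
      ((tree2 M n X t y).card : ℝ) := by
  have hK1 : (1 : ℝ) ≤ (KK M n : ℝ) := by
    have : 1 ≤ KK M n := Nat.one_le_two_pow
    exact_mod_cast this
  have hKβ : 1 ≤ (KK M n : ℝ) ^ β := Real.one_le_rpow hK1 hβ.le
  have hK0 : 0 < (KK M n : ℝ) ^ β := by linarith
  induction t generalizing y with
  | zero =>
    rw [tree2, card_singleton, pow_zero, Nat.cast_one]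
    have h1 : min (((X : ℝ) / (ph M n y : ℝ)) ^ β) 1 ≤ 1 := min_le_right _ _
    calc ((KK M n : ℝ) ^ β)⁻¹ * min (((X : ℝ) / (ph M n y : ℝ)) ^ β) 1 ≤
          ((KK M n : ℝ) ^ β)⁻¹ * 1 := mul_le_mul_of_nonneg_left h1 (by positivity)
      _ ≤ 1 := by rw [mul_one]; exact inv_le_one_of_one_le₀ hKβ
  | succ t ih =>
    have hph : 0 < ph M n y := by
      unfold ph EC KK
      positivity
    have hph' : (0 : ℝ) < (ph M n y : ℝ) := by exact_mod_cast hph
    rw [tree2]
    split_ifs with h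
    · rw [card_biUnion]
      · push_cast
        set m : ℝ := min (((X : ℝ) / (ph M n y : ℝ)) ^ β) (2 ^ t) with hm
        have hm0 : 0 ≤ m := le_min (by positivity) (by positivity)
        have h1 : ∀ l ∈ Qz M n y, ((KK M n : ℝ) ^ β)⁻¹ * (wt β n l * m) ≤
            ((tree2 M n X t (ez l y)).card : ℝ) := by
          intro l hl'
          have hl := Qz_sub hl'
          obtain ⟨h1, h2, h3, h4, h5⟩ := Pz_spec hl
          refine le_trans ?_ (ih h4 (ez_not_per hper hl))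
          apply mul_le_mul_of_nonneg_left _ (by positivity)
          have hw1 : wt β n l ≤ 1 := wt_le_one hβ.le hl
          have hw0 : 0 < wt β n l := wt_pos β n l
          apply le_min
          · have hph2 : 0 < ph M n (ez l y) := by
              unfold ph EC KK
              positivity
            have hph2' : (0 : ℝ) < (ph M n (ez l y) : ℝ) := by exact_mod_cast hph2
            have h6 : (3 : ℝ) ^ n * (ph M n (ez l y) : ℝ) ≤ 2 ^ l.sum * (ph M n y : ℝ) := by
              exact_mod_cast ph_step hn hl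
            have h7 : (3 : ℝ) ^ n / 2 ^ l.sum * ((X : ℝ) / (ph M n y : ℝ)) ≤
                (X : ℝ) / (ph M n (ez l y) : ℝ) := by
              rw [div_mul_div_comm, div_le_div_iff₀ (by positivity) hph2']
              nlinarith [Nat.cast_nonneg (α := ℝ) X]
            calc wt β n l * m ≤ wt β n l * ((X : ℝ) / (ph M n y : ℝ)) ^ β :=
                  mul_le_mul_of_nonneg_left (min_le_left _ _) hw0.le
              _ = ((3 : ℝ) ^ n / 2 ^ l.sum * ((X : ℝ) / (ph M n y : ℝ))) ^ β := by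
                  rw [wt, Real.mul_rpow (by positivity) (by positivity)]
              _ ≤ _ := Real.rpow_le_rpow (by positivity) h7 hβ.le
          · calc wt β n l * m ≤ 1 * m := mul_le_mul_of_nonneg_right hw1 hm0
              _ ≤ 2 ^ t := by rw [one_mul]; exact min_le_right _ _
        refine le_trans ?_ (sum_le_sum h1)
        rw [← mul_sum, ← sum_mul]
        apply mul_le_mul_of_nonneg_left _ (by positivity)
        have h2 : 2 ≤ ∑ l ∈ Qz M n y, wt β n l := H _ (hat_mod hy)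
        calc min (((X : ℝ) / (ph M n y : ℝ)) ^ β) (2 ^ (t + 1)) ≤ 2 * m := by
              rw [hm, mul_min_of_nonneg _ _ (by norm_num : (0 : ℝ) ≤ 2)]
              apply min_le_min
              · have : 0 ≤ ((X : ℝ) / (ph M n y : ℝ)) ^ β := by positivity
                linarith
              · rw [pow_succ']
          _ ≤ _ := mul_le_mul_of_nonneg_right h2 hm0
      · intro l hl l' hl' hne
        rw [Function.onFun, disjoint_left]
        intro z hz hz'
        obtain ⟨i, hi⟩ := tree2_sub t hz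
        obtain ⟨j, hj⟩ := tree2_sub t hz'
        exact hne (disj hn hper (Qz_sub hl) (Qz_sub hl') hi hj)
    · rw [card_singleton, Nat.cast_one]
      have hX : (X : ℝ) / (ph M n y : ℝ) ≤ (KK M n : ℝ) := by
        rw [div_le_iff₀ hph']
        exact_mod_cast (not_le.1 h).le
      have h1 : min (((X : ℝ) / (ph M n y : ℝ)) ^ β) (2 ^ (t + 1)) ≤ (KK M n : ℝ) ^ β :=
        (min_le_left _ _).trans (Real.rpow_le_rpow (by positivity) hX hβ.le)
      calc _ ≤ ((KK M n : ℝ) ^ β)⁻¹ * (KK M n : ℝ) ^ β :=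
            mul_le_mul_of_nonneg_left h1 (by positivity)
        _ = 1 := inv_mul_cancel₀ hK0.ne'

/-- a large non periodic predecessor of bounded ratio -/
theorem exists_base2 {β : ℝ} (hβ : 0 < β) {M n : ℕ} (hn : 1 ≤ n)
    (H : ∀ y : ℕ, y % 3 ≠ 0 → 2 ≤ W β M n y) {a : ℤ} (ha : a % 3 ≠ 0) (ha0 : 0 < a) :
    ∃ b : ℤ, b % 3 ≠ 0 ∧ b ∉ Function.periodicPts tz ∧
      ph M n b ≤ 2 ^ (2 * n + 2) * (KK M n * ph M n a) ∧ 4 * 3 ^ n ≤ b ∧ a ≤ b ∧
      ∃ k ≤ M * n + (2 * n + 2), tz^[k] b = a := by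
  have h34 : (3 : ℤ) ^ n ≤ 4 ^ n := pow_le_pow_left₀ (by norm_num) (by norm_num) n
  have hJ : (2 : ℤ) ^ (2 * n + 2) = 4 * 4 ^ n := by rw [pow_add, pow_mul]; norm_num; ring
  have h3n : (0 : ℤ) < 3 ^ n := by positivity
  have key : ∀ b : ℤ, b % 3 ≠ 0 → b ∉ Function.periodicPts tz →
      ph M n b ≤ KK M n * ph M n a → 0 < b → a ≤ (1 + 3 ^ n) * b → (∃ k ≤ M * n, tz^[k] b = a) →
      ∃ b : ℤ, b % 3 ≠ 0 ∧ b ∉ Function.periodicPts tz ∧
      ph M n b ≤ 2 ^ (2 * n + 2) * (KK M n * ph M n a) ∧ 4 * 3 ^ n ≤ b ∧ a ≤ b ∧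
      ∃ k ≤ M * n + (2 * n + 2), tz^[k] b = a := by
    rintro b hb3 hbp hbs hb0 hab ⟨k0, hk0, hk⟩
    have hti := (two_iter (2 * n + 2) b).1
    refine ⟨2 ^ (2 * n + 2) * b, ?_, ?_, ?_, ?_, ?_, k0 + (2 * n + 2), by omega, ?_⟩
    · intro h
      have h1 : (3 : ℤ) ∣ 2 ^ (2 * n + 2) * b := Int.dvd_of_emod_eq_zero h
      have hcop : IsCoprime (3 : ℤ) (2 ^ (2 * n + 2)) := by
        apply IsCoprime.pow_right
        exact ⟨1, -1, by norm_num⟩
      have h2 := hcop.dvd_of_dvd_mul_left h1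
      omega
    · intro h
      apply hbp
      rw [← hti]
      exact per_iter h _
    · refine le_trans ?_ (Nat.mul_le_mul_left _ hbs)
      unfold ph
      rw [Int.natAbs_mul, Int.natAbs_pow]
      have e : (2 : ℤ).natAbs = 2 := rfl
      rw [e, mul_add]
      apply Nat.add_le_add_left
      exact Nat.le_mul_of_pos_left _ (by positivity)
    · rw [hJ]; nlinarith
    · rw [hJ]
      have h5 : (1 + (3 : ℤ) ^ n) * b ≤ 4 * 4 ^ n * b :=
        mul_le_mul_of_nonneg_right (by nlinarith) hb0.le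
      linarith
    · rw [Function.iterate_add_apply, hti, hk]
  by_cases hper : a ∈ Function.periodicPts tz
  · have h1 := W_hat H ha
    have h2 : ∑ l ∈ Pz M n a, wt β n l ≤ ((Pz M n a).card : ℝ) := by
      have := sum_le_card_nsmul (Pz M n a) (wt β n) 1 (fun l hl => wt_le_one hβ.le hl)
      simpa using this
    have h3 : 1 < (Pz M n a).card := by
      have : (2 : ℝ) ≤ ((Pz M n a).card : ℝ) := h1.trans h2
      have : 2 ≤ (Pz M n a).card := by exact_mod_cast this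
      omega
    obtain ⟨l, hl, l', hl', hne⟩ := one_lt_card.1 h3
    have key2 : ∃ l ∈ Pz M n a, ez l a ∉ Function.periodicPts tz := by
      by_cases hp : ez l a ∈ Function.periodicPts tz
      · by_cases hp' : ez l' a ∈ Function.periodicPts tz
        · exact (hne (per_unique hn hl hl' hp hp')).elim
        · exact ⟨l', hl', hp'⟩
      · exact ⟨l, hl, hp⟩
    obtain ⟨l, hl, hnp⟩ := key2
    obtain ⟨h1, h2, h3, h4, h5⟩ := Pz_spec hl
    obtain ⟨d1, -, -⟩ := ez_dyn l (fun a ha => (h2 a ha).1) a h3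
    have hb0 : 0 < ez l a := pos_of_iter d1 ha0
    refine key (ez l a) h4 hnp (ph_step' hn hl) hb0 ?_ ⟨l.sum, sum_le_of h1 h2, d1⟩
    have h6 := ez_eq l a h3
    rw [h1] at h6
    have h8 := cc_le l (fun a ha => (h2 a ha).1)
    rw [h1] at h8
    have h8' : (cc l : ℤ) ≤ 3 ^ n * 2 ^ l.sum := by exact_mod_cast h8
    have h5' : (3 : ℤ) ^ n ≤ 2 ^ l.sum := by exact_mod_cast h5
    have h2s : (0 : ℤ) < 2 ^ l.sum := by positivity
    have h9 : (2 : ℤ) ^ l.sum * a ≤ 2 ^ l.sum * ((1 + 3 ^ n) * ez l a) := by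
      rw [h6]
      have h10 : (3 : ℤ) ^ n * ez l a ≤ 2 ^ l.sum * ez l a :=
        mul_le_mul_of_nonneg_right h5' hb0.le
      have h11 : (3 : ℤ) ^ n * 2 ^ l.sum ≤ (3 ^ n * 2 ^ l.sum) * ez l a :=
        le_mul_of_one_le_right (by positivity) hb0
      calc (3 : ℤ) ^ n * ez l a + (cc l : ℤ) ≤ 2 ^ l.sum * ez l a + (3 ^ n * 2 ^ l.sum) * ez l a := by
            linarith
        _ = _ := by ring
    exact le_of_mul_le_mul_left h9 h2s
  · refine key a ha hper ?_ ha0 ?_ ⟨0, Nat.zero_le _, rfl⟩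
    · exact Nat.le_mul_of_pos_left _ (by unfold KK; positivity)
    · nlinarith

end Cnt

theorem count_top {β : ℝ} (hβ : 0 < β) {M n : ℕ} (hn : 1 ≤ n)
    (H : ∀ y : ℕ, y % 3 ≠ 0 →
      2 ≤ ∑ l ∈ (PP M n y).filter (fun l => 2 * 3 ^ n ≤ 2 ^ l.sum), wt β n l) :
    ∃ c C : ℝ, 0 < c ∧ 0 < C ∧ ∀ a x : ℕ, ¬ 3 ∣ a → a ≤ x →
      c * ((x : ℝ) / (a : ℝ)) ^ β ≤
        (Set.ncard {n : ℕ | n ≤ x ∧ c * (x : ℝ) ≤ (n : ℝ) ∧
          ∃ k : ℕ, (fun m : ℕ => if m % 2 = 0 then m / 2 else (3 * m + 1) / 2)^[k] n = a ∧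
            (k : ℝ) ≤ C * (1 + Real.log ((n : ℝ) / (a : ℝ)))} : ℝ) := by
  have H' : ∀ y : ℕ, y % 3 ≠ 0 → 2 ≤ W β M n y := fun y hy =>
    (H y hy).trans (sum_le_sum_of_subset_of_nonneg (filter_subset _ _)
      (fun l _ _ => (wt_pos β n l).le))
  have hKn : 1 ≤ Cnt.KK M n := Nat.one_le_two_pow
  have hK1 : (1 : ℝ) ≤ (Cnt.KK M n : ℝ) := by exact_mod_cast hKn
  set K' : ℕ := 2 ^ (2 * n + 2) * (Cnt.KK M n * (1 + Cnt.EC M n)) with hK'
  have hK'1 : 1 ≤ K' := Nat.mul_pos (by positivity) (Nat.mul_pos hKn (by omega))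
  have hK'r : (1 : ℝ) ≤ (K' : ℝ) := by exact_mod_cast hK'1
  set c1 : ℝ := ((Cnt.KK M n : ℝ) ^ β)⁻¹ * ((K' : ℝ) ^ β)⁻¹ with hc1
  have hc1pos : 0 < c1 := by positivity
  set ρ0 : ℝ := max (2 * (Cnt.KK M n : ℝ) * (Cnt.EC M n : ℝ)) (K' : ℝ) with hρ0
  have hρ0pos : 0 < ρ0 := lt_of_lt_of_le (by linarith) (le_max_right _ _)
  have hl15 : 0 < Real.log (3 / 2) := Real.log_pos (by norm_num)
  set c : ℝ := min (min (ρ0 ^ β)⁻¹ ρ0⁻¹) (min c1 (2 * (Cnt.KK M n : ℝ))⁻¹) with hc
  have hcpos : 0 < c := by positivity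
  set C : ℝ := ((M * n + (2 * n + 2) : ℕ) : ℝ) * (1 + 1 / Real.log (3 / 2)) with hC
  have hCpos : 0 < C := by
    have : (0 : ℝ) < ((M * n + (2 * n + 2) : ℕ) : ℝ) := by positivity
    positivity
  refine ⟨c, C, hcpos, hCpos, fun a x ha3 hax => ?_⟩
  set f : ℕ → ℕ := fun m : ℕ => if m % 2 = 0 then m / 2 else (3 * m + 1) / 2 with hf
  have hftn : f = Cnt.tn := rfl
  set S : Set ℕ := {n : ℕ | n ≤ x ∧ c * (x : ℝ) ≤ (n : ℝ) ∧ ∃ k : ℕ, f^[k] n = a ∧
    (k : ℝ) ≤ C * (1 + Real.log ((n : ℝ) / (a : ℝ)))} with hS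
  have hfin : S.Finite := (Set.finite_Iic x).subset (fun m hm => hm.1)
  have ha1 : 1 ≤ a := by
    rcases Nat.eq_zero_or_pos a with h | h
    · subst h; exact absurd (dvd_zero 3) ha3
    · exact h
  have har : (1 : ℝ) ≤ (a : ℝ) := by exact_mod_cast ha1
  have ha0 : (0 : ℝ) < (a : ℝ) := by linarith
  have hx0 : (0 : ℝ) < (x : ℝ) := by exact_mod_cast lt_of_lt_of_le ha1 hax
  set ρ : ℝ := (x : ℝ) / (a : ℝ) with hρ
  have hρ1 : 1 ≤ ρ := by
    rw [hρ, one_le_div ha0]
    exact_mod_cast hax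
  have hρpos : 0 < ρ := by linarith
  rcases lt_or_ge ρ ρ0 with hcase | hcase
  · have hmem : a ∈ S := by
      refine ⟨hax, ?_, 0, rfl, ?_⟩
      · have h1 : c ≤ ρ0⁻¹ := (min_le_left _ _).trans (min_le_right _ _)
        have h2 : (x : ℝ) ≤ ρ0 * a := by
          rw [hρ, div_lt_iff₀ ha0] at hcase
          exact hcase.le
        calc c * (x : ℝ) ≤ ρ0⁻¹ * (ρ0 * a) := mul_le_mul h1 h2 hx0.le (by positivity)
          _ = a := by rw [← mul_assoc, inv_mul_cancel₀ hρ0pos.ne', one_mul]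
      · rw [div_self ha0.ne', Real.log_one]
        simpa using hCpos.le
    have h1 : 1 ≤ S.ncard := by
      rw [Nat.one_le_iff_ne_zero, Ne, Set.ncard_eq_zero hfin]
      exact Set.nonempty_iff_ne_empty.1 ⟨a, hmem⟩
    have h2 : (1 : ℝ) ≤ (S.ncard : ℝ) := by exact_mod_cast h1
    refine le_trans ?_ h2
    calc c * ρ ^ β ≤ (ρ0 ^ β)⁻¹ * ρ0 ^ β := by
          apply mul_le_mul ((min_le_left _ _).trans (min_le_left _ _)) _ (by positivity)
            (by positivity)
          exact Real.rpow_le_rpow hρpos.le hcase.le hβ.le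
      _ = 1 := inv_mul_cancel₀ (by positivity)
  · have hρE : 2 * (Cnt.KK M n : ℝ) * (Cnt.EC M n : ℝ) ≤ ρ := (le_max_left _ _).trans hcase
    have hρK : (K' : ℝ) ≤ ρ := (le_max_right _ _).trans hcase
    have haz : (a : ℤ) % 3 ≠ 0 := by
      intro h
      apply ha3
      exact_mod_cast Int.dvd_of_emod_eq_zero h
    have haz0 : (0 : ℤ) < (a : ℤ) := by exact_mod_cast ha1
    obtain ⟨b, hb3, hbp, hbs, hb4, hab, k0, hk0n, hk0⟩ := Cnt.exists_base2 hβ hn H' haz haz0
    have hbs' : Cnt.ph M n b ≤ K' * a := by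
      refine hbs.trans ?_
      rw [hK', mul_assoc]
      apply Nat.mul_le_mul_left
      rw [mul_assoc]
      apply Nat.mul_le_mul_left
      unfold Cnt.ph
      have : (a : ℤ).natAbs = a := Int.natAbs_natCast a
      rw [this]
      have h3 : Cnt.EC M n ≤ Cnt.EC M n * a := Nat.le_mul_of_pos_right _ ha1
      nlinarith
    have hbx : Cnt.ph M n b ≤ x := by
      have : ((K' * a : ℕ) : ℝ) ≤ (x : ℝ) := by
        push_cast
        rw [← le_div_iff₀ ha0]
        exact hρK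
      exact hbs'.trans (by exact_mod_cast this)
    have hph : 0 < Cnt.ph M n b := by
      unfold Cnt.ph Cnt.EC Cnt.KK
      positivity
    have hph' : (0 : ℝ) < (Cnt.ph M n b : ℝ) := by exact_mod_cast hph
    have hb0 : 0 < b := lt_of_lt_of_le (by positivity) hb4
    -- fuel
    obtain ⟨t1, ht1⟩ := pow_unbounded_of_one_lt (((x : ℝ) / (Cnt.ph M n b : ℝ)) ^ β)
      (by norm_num : (1 : ℝ) < 2)
    obtain ⟨t2, ht2⟩ := pow_unbounded_of_one_lt (x : ℝ) (by norm_num : (1 : ℝ) < 3 / 2)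
    set t : ℕ := max t1 t2 with ht
    have ht1' : ((x : ℝ) / (Cnt.ph M n b : ℝ)) ^ β ≤ 2 ^ t :=
      ht1.le.trans (pow_le_pow_right₀ (by norm_num) (le_max_left _ _))
    have ht2' : 2 ^ t * (x : ℤ) < 3 ^ t * b := by
      have h1 : (x : ℝ) < (3 / 2) ^ t :=
        lt_of_lt_of_le ht2 (pow_le_pow_right₀ (by norm_num) (le_max_right _ _))
      rw [div_pow, lt_div_iff₀ (by positivity)] at h1
      have h2 : (x : ℤ) * 2 ^ t < 3 ^ t := by exact_mod_cast h1
      have h3 : (3 : ℤ) ^ t ≤ 3 ^ t * b := le_mul_of_one_le_right (by positivity) hb0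
      linarith
    have h1 := Cnt.tree2_card hβ hn H x t hb3 hbp
    rw [min_eq_left ht1'] at h1
    set Tr := Cnt.tree2 M n x t b with hTr
    have h2 : c1 * ρ ^ β ≤ (Tr.card : ℝ) := by
      refine le_trans ?_ h1
      rw [hc1, mul_assoc]
      apply mul_le_mul_of_nonneg_left _ (by positivity)
      have h3 : ρ / K' ≤ (x : ℝ) / (Cnt.ph M n b : ℝ) := by
        rw [hρ, div_div, div_le_div_iff_of_pos_left hx0 (by positivity) hph']
        have : (Cnt.ph M n b : ℝ) ≤ ((K' * a : ℕ) : ℝ) := by exact_mod_cast hbs'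
        push_cast at this
        linarith
      calc ((K' : ℝ) ^ β)⁻¹ * ρ ^ β = (ρ / K') ^ β := by
            rw [Real.div_rpow hρpos.le (by positivity)]; ring
        _ ≤ _ := Real.rpow_le_rpow (by positivity) h3 hβ.le
    have hpos : ∀ z ∈ Tr, 0 < z := by
      intro z hz
      obtain ⟨k, hk⟩ := Cnt.tree2_sub t hz
      have : Cnt.tz^[k0 + k] z = (a : ℤ) := by
        rw [Function.iterate_add_apply, hk, hk0]
      exact Cnt.pos_of_iter this haz0
    have hmaps : ∀ z ∈ Tr, z.toNat ∈ S := by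
      intro z hzT
      have hz0 := hpos z hzT
      have hz0r : (0 : ℝ) < (z : ℝ) := by exact_mod_cast hz0
      have hzz : ((z.toNat : ℕ) : ℤ) = z := Int.toNat_of_nonneg hz0.le
      have hzr : ((z.toNat : ℕ) : ℝ) = (z : ℝ) := by exact_mod_cast congrArg (Int.cast (R := ℝ)) hzz
      have hsz := Cnt.tree2_size hn t hbx hzT
      have hlf := Cnt.tree2_leaf t hb4 ht2' hzT
      obtain ⟨k, d, hk1, hk, hd⟩ := Cnt.tree2_time t hb4 hzT
      refine ⟨?_, ?_, k0 + k, ?_, ?_⟩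
      · unfold Cnt.ph at hsz
        omega
      · rw [hzr]
        have h3 : (x : ℝ) < (Cnt.KK M n : ℝ) * ((z : ℝ) + (Cnt.EC M n : ℝ)) := by
          have h4 : (x : ℝ) < (Cnt.KK M n : ℝ) * (Cnt.ph M n z : ℝ) := by exact_mod_cast hlf
          have h5 : (Cnt.ph M n z : ℝ) = (z : ℝ) + (Cnt.EC M n : ℝ) := by
            unfold Cnt.ph
            push_cast
            rw [Nat.cast_natAbs, Int.cast_abs, abs_of_pos hz0r]
          rwa [h5] at h4
        have h6 : 2 * (Cnt.KK M n : ℝ) * (Cnt.EC M n : ℝ) ≤ (x : ℝ) := by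
          refine hρE.trans ?_
          rw [hρ]
          exact div_le_self hx0.le har
        have h7 : c ≤ (2 * (Cnt.KK M n : ℝ))⁻¹ := (min_le_right _ _).trans (min_le_right _ _)
        calc c * (x : ℝ) ≤ (2 * (Cnt.KK M n : ℝ))⁻¹ * (2 * (Cnt.KK M n : ℝ) * (z : ℝ)) :=
              mul_le_mul h7 (by linarith) hx0.le (by positivity)
          _ = z := by rw [← mul_assoc, inv_mul_cancel₀ (by positivity), one_mul]
      · rw [hftn]
        have h3 : Cnt.tz^[k0 + k] z = (a : ℤ) := by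
          rw [Function.iterate_add_apply, hk, hk0]
        have h4 := Cnt.tn_iter_cast (k0 + k) z.toNat
        rw [hzz, h3] at h4
        exact_mod_cast h4
      · rw [hzr]
        have hza : (3 / 2 : ℝ) ^ d ≤ (z : ℝ) / (a : ℝ) := by
          rw [div_pow, div_le_div_iff₀ (by positivity) ha0]
          have h3 : (3 : ℤ) ^ d * (a : ℤ) ≤ z * 2 ^ d := by
            have h4 : (3 : ℤ) ^ d * (a : ℤ) ≤ 3 ^ d * b := mul_le_mul_of_nonneg_left hab (by positivity)
            linarith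
          exact_mod_cast h3
        have hdlog : (d : ℝ) * Real.log (3 / 2) ≤ Real.log ((z : ℝ) / (a : ℝ)) := by
          rw [← Real.log_pow]
          exact Real.log_le_log (by positivity) hza
        have hlog0 : 0 ≤ Real.log ((z : ℝ) / (a : ℝ)) :=
          le_trans (by positivity) hdlog
        have hd' : (d : ℝ) ≤ 1 / Real.log (3 / 2) * Real.log ((z : ℝ) / (a : ℝ)) := by
          rw [one_div, ← div_eq_inv_mul, le_div_iff₀ hl15]
          exact hdlog
        have h4 : ((k0 + k : ℕ) : ℝ) ≤ ((M * n + (2 * n + 2) : ℕ) : ℝ) * (1 + d) := by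
          have : k0 + k ≤ (M * n + (2 * n + 2)) * (1 + d) := by
            have h5 : M * n * d ≤ (M * n + (2 * n + 2)) * d := Nat.mul_le_mul_right _ (by omega)
            rw [mul_add, mul_one]
            omega
          exact_mod_cast this
        refine h4.trans ?_
        rw [hC, mul_assoc]
        apply mul_le_mul_of_nonneg_left _ (Nat.cast_nonneg _)
        have h6 : 0 ≤ 1 / Real.log (3 / 2) := by positivity
        nlinarith
    have hcard : Tr.card ≤ S.ncard := by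
      have h3 : (Tr.image Int.toNat).card = Tr.card := by
        apply card_image_of_injOn
        intro z hz w hw hzw
        have hz0 := hpos z hz
        have hw0 := hpos w hw
        have hzw' : z.toNat = w.toNat := hzw
        omega
      rw [← h3, ← Set.ncard_coe_finset]
      apply Set.ncard_le_ncard _ hfin
      intro m hm
      rw [mem_coe, mem_image] at hm
      obtain ⟨z, hz, rfl⟩ := hm
      exact hmaps z hz
    have hcard' : (Tr.card : ℝ) ≤ (S.ncard : ℝ) := by exact_mod_cast hcard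
    refine le_trans ?_ hcard'
    refine le_trans ?_ h2
    exact mul_le_mul_of_nonneg_right ((min_le_right _ _).trans (min_le_left _ _)) (by positivity)

end H62w
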