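import Mathlib

set_option autoImplicit false

/-!
Basic objects for the lower bound `x^(1-eps)` in the inverse tree of the `3x+1` map.
See PROOF.md in this folder.
-/

open Finset

namespace H62w

/-- One backward step with letter `a`: `y ↦ (2^a y - 1)/3`. -/
def nx (a y : ℕ) : ℕ := (2 ^ a * y - 1) / 3

/-- End point of a word. -/
def en : List ℕ → ℕ → ℕ
  | [], y => y
  | a :: l, y => en l (nx a y)

/-- Validity of a word at `y`. -/
def va : List ℕ → ℕ → Prop
  | [], _ => True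
  | a :: l, y => 2 ^ a * y % 3 = 1 ∧ va l (nx a y)

instance decVa : (l : List ℕ) → (y : ℕ) → Decidable (va l y)
  | [], _ => isTrue trivial
  | a :: l, y => @instDecidableAnd _ _ (inferInstance) (decVa l (nx a y))

/-- The constant of a word: `2^|l| y = 3^k (end point) + cc l`. -/
def cc : List ℕ → ℕ
  | [] => 0
  | _ :: l => 2 ^ l.sum + 3 * cc l

/-- Words of length `k` with letters in `{1,..,M}`. -/
def words (M : ℕ) : ℕ → Finset (List ℕ)
  | 0 => {[]}
  | k + 1 => ((Icc 1 M) ×ˢ (words M k)).image (fun p => p.1 :: p.2)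

/-- Residues mod `3^(k+1)` prime to `3`. -/
def U (k : ℕ) : Finset ℕ := (range (3 ^ (k + 1))).filter (fun y => y % 3 ≠ 0)

/-- Admissible words of length `k` at `y`. -/
def PP (M k y : ℕ) : Finset (List ℕ) :=
  (words M k).filter (fun l => va l y ∧ en l y % 3 ≠ 0 ∧ 3 ^ k ≤ 2 ^ l.sum)

/-- Weight. -/
noncomputable def wt (β : ℝ) (k : ℕ) (l : List ℕ) : ℝ := ((3 : ℝ) ^ k / (2 : ℝ) ^ l.sum) ^ β

/-- Weighted number of admissible words. -/
noncomputable def W (β : ℝ) (M k y : ℕ) : ℝ := ∑ l ∈ PP M k y, wt β k l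

theorem U_nonempty (k : ℕ) : (U k).Nonempty :=
  ⟨1, by simp only [U, mem_filter, mem_range]; exact ⟨Nat.one_lt_pow (by omega) (by norm_num), by norm_num⟩⟩

/-- Worst case. -/
noncomputable def mm (β : ℝ) (M k : ℕ) : ℝ := (U k).inf' (U_nonempty k) (W β M k)

/-- Worst case exponential growth rate. -/
noncomputable def RR (β : ℝ) (M : ℕ) : ℝ := sSup {x : ℝ | ∃ k : ℕ, 1 ≤ k ∧ x = Real.log (mm β M k) / k}

/-- Mean of `log W` over the class `v` mod `3`. -/
noncomputable def av (β : ℝ) (M n v : ℕ) : ℝ :=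
  (∑ y ∈ (range (3 ^ (n + 1))).filter (fun y => y % 3 = v), Real.log (W β M n y)) / 3 ^ n

/-- The smaller of the two class means. -/
noncomputable def AA (β : ℝ) (M n : ℕ) : ℝ := min (av β M n 1) (av β M n 2)

/-- Near-worst residues mod `3^(m+1)`. -/
noncomputable def EE (β : ℝ) (M m : ℕ) (ε : ℝ) : Finset ℕ :=
  (U m).filter (fun y => Real.log (W β M m y) ≤ (RR β M + ε) * m)

/-- Members of `E` in the same class mod `3^t` as `θ`. -/
def cls (E : Finset ℕ) (t θ : ℕ) : Finset ℕ := E.filter (fun x => x % 3 ^ t = θ % 3 ^ t)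

open Classical in
/-- The members `θ` of `E` for which the window `[t,t+n)` of base-3 digits is `η`-uniform in its class mod `3^t`. -/
noncomputable def full (E : Finset ℕ) (t n : ℕ) (η : ℝ) : Finset ℕ :=
  E.filter (fun θ => ∀ w ∈ range (3 ^ n),
    |(((cls E t θ).filter (fun x => x / 3 ^ t % 3 ^ n = w)).card : ℝ) / (cls E t θ).card - 1 / 3 ^ n| ≤ η)

open Classical in
/-- The members `b` of `B` for which the digit `i` has no atom of mass `> 1-δ` in the class of `b` mod `3^i`. -/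
noncomputable def nat1 (B : Finset ℕ) (i : ℕ) (δ : ℝ) : Finset ℕ :=
  B.filter (fun b => ∀ d ∈ range 3,
    (((cls B i b).filter (fun x => x / 3 ^ i % 3 = d)).card : ℝ) ≤ (1 - δ) * (cls B i b).card)

/-- Entropy of the law of `f` on a finite uniform space `s`. -/
noncomputable def entU {α : Type} (s : Finset α) (f : α → ℕ) : ℝ :=
  ∑ x ∈ s.image f, Real.negMulLog (((s.filter (fun a => f a = x)).card : ℝ) / s.card)

/-! Letter law. -/

/-- `p_a = 2^(-a)` for `a < M`, `p_M = 2^(-(M-1))`. -/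
noncomputable def pa (M a : ℕ) : ℝ := if a < M then (1 / 2) ^ a else (1 / 2) ^ (M - 1)

/-- Product law of a word. -/
noncomputable def pw (M : ℕ) (l : List ℕ) : ℝ := (l.map (pa M)).prod

/-- Mass of `{l_k = s, X_k = y mod 3^n}`. -/
noncomputable def jl (M k n s y : ℕ) : ℝ :=
  ∑ l ∈ (words M k).filter (fun l => l.sum = s ∧ 2 ^ l.sum * y ≡ cc l [MOD 3 ^ n]), pw M l

/-- Law of `X_n` mod `3^n`. -/
noncomputable def mu (M n y : ℕ) : ℝ :=
  ∑ l ∈ (words M n).filter (fun l => 2 ^ l.sum * y ≡ cc l [MOD 3 ^ n]), pw M l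

/-- `T_n`. -/
noncomputable def TT (M n : ℕ) : ℝ := ∑ y ∈ range (3 ^ (n + 1)), |mu M (n + 1) y - mu M n y / 3|

/-- `t_{k,n}`. -/
noncomputable def tt (M k n : ℕ) : ℝ :=
  ∑ s ∈ range (M * k + 1), ∑ y ∈ range (3 ^ (n + 1)), |jl M k (n + 1) s y - jl M k n s y / 3|

end H62w
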