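import Pool.Agent.Lib.H62w.Defs

set_option autoImplicit false
open Finset
namespace H62w

theorem nml_sum_le {α : Type} (S : Finset α) (F : α → ℝ) (hF : ∀ x ∈ S, 0 ≤ F x) :
    ∑ x ∈ S, Real.negMulLog (F x) ≤
      (∑ x ∈ S, F x) * Real.log (S.card : ℝ) + Real.negMulLog (∑ x ∈ S, F x) := by
  classical
  rcases S.eq_empty_or_nonempty with rfl | hS
  · simp
  have hc : (0 : ℝ) < S.card := by exact_mod_cast hS.card_pos
  have hq : 0 ≤ ∑ x ∈ S, F x := sum_nonneg hF
  have hj := Real.concaveOn_negMulLog.le_map_sum (t := S) (w := fun _ => 1 / (S.card : ℝ)) (p := F)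
    (fun _ _ => by positivity) (by simp [sum_const]; field_simp) (fun x hx => Set.mem_Ici.2 (hF x hx))
  simp only [smul_eq_mul, ← mul_sum] at hj
  have h2 : ∑ x ∈ S, Real.negMulLog (F x) ≤ S.card * Real.negMulLog (1 / (S.card : ℝ) * ∑ x ∈ S, F x) := by
    have := mul_le_mul_of_nonneg_left hj hc.le
    rwa [← mul_assoc, mul_one_div_cancel hc.ne', one_mul] at this
  refine h2.trans (le_of_eq ?_)
  rcases hq.eq_or_lt with h0 | h0
  · rw [← h0]; simp
  · rw [Real.negMulLog, Real.negMulLog, Real.log_mul (by positivity) h0.ne', one_div, Real.log_inv]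
    field_simp
    ring

theorem nml_two (p : ℝ) (hp : 0 ≤ p) (hp1 : p ≤ 1) :
    Real.negMulLog p + Real.negMulLog (1 - p) ≤ Real.log 2 := by
  have h := nml_sum_le (univ : Finset Bool) (fun b => if b then p else 1 - p)
    (by intro b _; cases b <;> simp <;> linarith)
  simp at h
  linarith

/-- Entropy bound from an approximate support. -/
theorem nml_support {α : Type} [DecidableEq α] (S S1 : Finset α) (F : α → ℝ) (hF : ∀ x ∈ S, 0 ≤ F x)
    (h1 : ∑ x ∈ S, F x = 1) (hS : S1 ⊆ S) (hne : S1.Nonempty) (p : ℝ)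
    (hp : ∑ x ∈ S \ S1, F x ≤ p) :
    ∑ x ∈ S, Real.negMulLog (F x) ≤ Real.log (S1.card : ℝ) + p * Real.log (S.card : ℝ) + Real.log 2 := by
  set q := ∑ x ∈ S \ S1, F x with hq
  have hsplit : ∑ x ∈ S1, F x = 1 - q := by
    have := sum_sdiff (f := F) hS
    linarith
  have hq0 : 0 ≤ q := sum_nonneg (fun x hx => hF x (mem_sdiff.1 hx).1)
  have hq1 : q ≤ 1 := by
    have : 0 ≤ ∑ x ∈ S1, F x := sum_nonneg (fun x hx => hF x (hS hx))
    linarith
  have hA := nml_sum_le S1 F (fun x hx => hF x (hS hx))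
  have hB := nml_sum_le (S \ S1) F (fun x hx => hF x (mem_sdiff.1 hx).1)
  rw [hsplit] at hA
  rw [← hq] at hB
  have hsum := sum_sdiff (f := fun x => Real.negMulLog (F x)) hS
  have h2 := nml_two q hq0 hq1
  have hc1 : (1 : ℝ) ≤ S1.card := by exact_mod_cast hne.card_pos
  have hlog1 : 0 ≤ Real.log (S1.card : ℝ) := Real.log_nonneg hc1
  have hcS : (1 : ℝ) ≤ S.card := by exact_mod_cast (hne.mono hS).card_pos
  have hlogS : 0 ≤ Real.log (S.card : ℝ) := Real.log_nonneg hcS
  have hlogd : Real.log ((S \ S1).card : ℝ) ≤ Real.log (S.card : ℝ) := by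
    rcases (S \ S1).eq_empty_or_nonempty with h | h
    · rw [h]; simpa using hlogS
    · apply Real.log_le_log (by exact_mod_cast h.card_pos)
      exact_mod_cast card_le_card sdiff_subset
  have e1 : (1 - q) * Real.log (S1.card : ℝ) ≤ Real.log (S1.card : ℝ) := by nlinarith
  have e2 : q * Real.log ((S \ S1).card : ℝ) ≤ p * Real.log (S.card : ℝ) := by
    calc q * Real.log ((S \ S1).card : ℝ) ≤ q * Real.log (S.card : ℝ) := mul_le_mul_of_nonneg_left hlogd hq0
      _ ≤ p * Real.log (S.card : ℝ) := mul_le_mul_of_nonneg_right hp hlogS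
  linarith

/-- Concavity of entropy for mixtures. -/
theorem nml_mix {ι α : Type} (I : Finset ι) (S : Finset α) (w : ι → ℝ) (L : ι → α → ℝ)
    (hw : ∀ i ∈ I, 0 ≤ w i) (hw1 : ∑ i ∈ I, w i = 1) (hL : ∀ i ∈ I, ∀ x ∈ S, 0 ≤ L i x) :
    ∑ i ∈ I, w i * ∑ x ∈ S, Real.negMulLog (L i x) ≤ ∑ x ∈ S, Real.negMulLog (∑ i ∈ I, w i * L i x) := by
  simp only [mul_sum]
  rw [sum_comm]
  refine sum_le_sum (fun x hx => ?_)
  have := Real.concaveOn_negMulLog.le_map_sum (t := I) (w := w) (p := fun i => L i x) hw hw1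
    (fun i hi => Set.mem_Ici.2 (hL i hi x hx))
  simpa only [smul_eq_mul] using this

end H62w
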