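import Pool.Agent.Lib.H62w.Cont
import Pool.Agent.Lib.H62w.Cert2
import Pool.Agent.Lib.H62w.Count2

set_option autoImplicit false
open Finset
namespace H62w

theorem final (ε : ℝ) (hε : 0 < ε) : ∃ c C : ℝ, 0 < c ∧ 0 < C ∧ ∀ a x : ℕ, ¬ 3 ∣ a → a ≤ x →
    c * ((x : ℝ) / (a : ℝ)) ^ (1 - ε) ≤
      (Set.ncard {n : ℕ | n ≤ x ∧ c * (x : ℝ) ≤ (n : ℝ) ∧
        ∃ k : ℕ, (fun m : ℕ => if m % 2 = 0 then m / 2 else (3 * m + 1) / 2)^[k] n = a ∧
          (k : ℝ) ≤ C * (1 + Real.log ((n : ℝ) / (a : ℝ)))} : ℝ) := by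
  set β : ℝ := max (1 / 8) (1 - ε) with hβ
  have h8 : 1 / 8 ≤ β := le_max_left _ _
  have hε' : 1 - ε ≤ β := le_max_right _ _
  have hlt : β < 1 := max_lt (by norm_num) (by linarith)
  obtain ⟨M, hM, hR⟩ := Z_pos h8 hlt
  obtain ⟨n, hn, H⟩ := cert_top (by linarith) hlt.le hM hR 2
  obtain ⟨c, C, hc, hC, key⟩ := count_top (β := β) (by linarith) hn (by
    intro y hy
    have := H y hy
    exact this)
  refine ⟨c, C, hc, hC, fun a x ha hx => le_trans ?_ (key a x ha hx)⟩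
  have ha0 : 0 < a := by
    rcases Nat.eq_zero_or_pos a with h | h
    · exact absurd (h ▸ dvd_zero 3) ha
    · exact h
  have ha' : (0 : ℝ) < a := by exact_mod_cast ha0
  have h1 : (1 : ℝ) ≤ (x : ℝ) / a := by
    rw [le_div_iff₀ ha', one_mul]
    exact_mod_cast hx
  exact mul_le_mul_of_nonneg_left (Real.rpow_le_rpow_of_exponent_le h1 hε') hc.le

end H62w
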