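import Pool.Agent.Lib.H62w.FullA

set_option autoImplicit false
open Finset
namespace H62w

/-- Index set of the mixture. -/
def IX (E : Finset ℕ) (M k : ℕ) : Finset (Σ _ : ℕ, ℕ × ℕ) :=
  (E.image (fun θ => θ % 3 ^ (k + 1))).sigma (fun r => keys M k r)

noncomputable def lam (β : ℝ) (E : Finset ℕ) (M k : ℕ) (i : Σ _ : ℕ, ℕ × ℕ) : ℝ :=
  ((Ar E k i.1).card : ℝ) / E.card * qq β M k i.1 i.2

noncomputable def LL (E : Finset ℕ) (M k Q : ℕ) (i : Σ _ : ℕ, ℕ × ℕ) (x : ℕ) : ℝ :=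
  (((Ar E k i.1 ×ˢ Br M k i.1 i.2).filter
    (fun q => i.2.2 + 3 * ((2 ^ i.2.1 * q.1 + q.2) % 3 ^ Q) = x)).card : ℝ) /
    ((Ar E k i.1 ×ˢ Br M k i.1 i.2).card : ℝ)

theorem Ar_nonempty {E : Finset ℕ} {k r : ℕ} (hr : r ∈ E.image (fun θ => θ % 3 ^ (k + 1))) :
    (Ar E k r).Nonempty := by
  obtain ⟨θ, hθ, rfl⟩ := mem_image.1 hr
  exact ⟨_, mem_image_of_mem _ (mem_filter.2 ⟨hθ, rfl⟩)⟩

theorem key_snd {M k r : ℕ} {p : ℕ × ℕ} (hp : p ∈ keys M k r) : p.2 < 3 ∧ p.2 ≠ 0 := by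
  obtain ⟨l, hl, rfl⟩ := mem_image.1 hp
  simp only [PP, mem_filter] at hl
  exact ⟨Nat.mod_lt _ (by norm_num), hl.2.2.1⟩

theorem lam_nonneg (β : ℝ) (E : Finset ℕ) (M k : ℕ) (i : Σ _ : ℕ, ℕ × ℕ) (hW : 0 < W β M k i.1) :
    0 ≤ lam β E M k i := by
  unfold lam
  have := qq_nonneg β M k i.1 hW i.2
  positivity

theorem lam_sum {β : ℝ} {E : Finset ℕ} {M k : ℕ} (hE : E.Nonempty)
    (hW : ∀ θ ∈ E, 0 < W β M k θ) : ∑ i ∈ IX E M k, lam β E M k i = 1 := by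
  have hc : (0 : ℝ) < E.card := by exact_mod_cast hE.card_pos
  unfold IX
  rw [sum_sigma]
  have h1 : ∀ r ∈ E.image (fun θ => θ % 3 ^ (k + 1)),
      ∑ p ∈ keys M k r, lam β E M k ⟨r, p⟩ = ∑ a ∈ Ar E k r, (1 / (E.card : ℝ)) := by
    intro r hr
    have hWr : 0 < W β M k r := by
      obtain ⟨θ, hθ, rfl⟩ := mem_image.1 hr
      rw [← W_mod]; exact hW θ hθ
    simp only [lam]
    rw [← mul_sum, qq_sum β M k r hWr, sum_const, nsmul_eq_mul]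
    ring
  rw [sum_congr rfl h1, sum_res E k (fun _ _ => 1 / (E.card : ℝ)), sum_const, nsmul_eq_mul]
  field_simp

theorem mod_calc (v s a b Q : ℕ) (hv : v < 3) :
    (v + 3 * b + 3 * 2 ^ s * a) % 3 ^ (Q + 1) = v + 3 * ((2 ^ s * a + b) % 3 ^ Q) := by
  rw [show v + 3 * b + 3 * 2 ^ s * a = v + 3 * (2 ^ s * a + b) by ring, pow_succ, mul_comm (3 ^ Q) 3,
    Nat.mod_mul]
  have h1 : (v + 3 * (2 ^ s * a + b)) % 3 = v := by omega
  have h2 : (v + 3 * (2 ^ s * a + b)) / 3 = 2 ^ s * a + b := by omega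
  rw [h1, h2]

theorem LL_test (E : Finset ℕ) (M k Q : ℕ) (i : Σ _ : ℕ, ℕ × ℕ) (hv : i.2.2 < 3) (φ : ℕ → ℝ) :
    ∑ x ∈ range (3 ^ (Q + 1)), LL E M k Q i x * φ x =
      (∑ a ∈ Ar E k i.1, ∑ b ∈ Br M k i.1 i.2, φ (i.2.2 + 3 * ((2 ^ i.2.1 * a + b) % 3 ^ Q))) /
        ((Ar E k i.1).card * (Br M k i.1 i.2).card) := by
  have hmaps : ∀ q ∈ Ar E k i.1 ×ˢ Br M k i.1 i.2,
      i.2.2 + 3 * ((2 ^ i.2.1 * q.1 + q.2) % 3 ^ Q) ∈ range (3 ^ (Q + 1)) := by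
    intro q _
    have : (2 ^ i.2.1 * q.1 + q.2) % 3 ^ Q < 3 ^ Q := Nat.mod_lt _ (by positivity)
    rw [mem_range, pow_succ]
    omega
  have h := sum_fiberwise_of_maps_to hmaps
    (fun q => φ (i.2.2 + 3 * ((2 ^ i.2.1 * q.1 + q.2) % 3 ^ Q)))
  rw [← sum_product', ← h, sum_div]
  refine sum_congr rfl (fun x _ => ?_)
  have h2 : ∑ q ∈ (Ar E k i.1 ×ˢ Br M k i.1 i.2).filter
      (fun q => i.2.2 + 3 * ((2 ^ i.2.1 * q.1 + q.2) % 3 ^ Q) = x),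
      φ (i.2.2 + 3 * ((2 ^ i.2.1 * q.1 + q.2) % 3 ^ Q)) =
      ((Ar E k i.1 ×ˢ Br M k i.1 i.2).filter
      (fun q => i.2.2 + 3 * ((2 ^ i.2.1 * q.1 + q.2) % 3 ^ Q) = x)).card * φ x := by
    rw [← nsmul_eq_mul, ← sum_const]
    refine sum_congr rfl (fun q hq => ?_)
    rw [(mem_filter.1 hq).2]
  rw [h2, LL, card_product]
  push_cast
  ring

theorem LL_ent (E : Finset ℕ) (M k Q : ℕ) (i : Σ _ : ℕ, ℕ × ℕ) (hv : i.2.2 < 3) :
    ∑ x ∈ range (3 ^ (Q + 1)), Real.negMulLog (LL E M k Q i x) =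
      entU (Ar E k i.1 ×ˢ Br M k i.1 i.2) (fun q => (2 ^ i.2.1 * q.1 + q.2) % 3 ^ Q) := by
  unfold entU
  have hinj : Function.Injective (fun y : ℕ => i.2.2 + 3 * y) := by
    intro y y' h; dsimp only at h; omega
  have himg := sum_image (f := fun x => Real.negMulLog (LL E M k Q i x)) (g := fun y : ℕ => i.2.2 + 3 * y)
    (s := (Ar E k i.1 ×ˢ Br M k i.1 i.2).image (fun q => (2 ^ i.2.1 * q.1 + q.2) % 3 ^ Q))
    (fun y _ y' _ h => hinj h)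
  have h1 : ∑ x ∈ range (3 ^ (Q + 1)), Real.negMulLog (LL E M k Q i x) =
      ∑ x ∈ ((Ar E k i.1 ×ˢ Br M k i.1 i.2).image (fun q => (2 ^ i.2.1 * q.1 + q.2) % 3 ^ Q)).image
        (fun y : ℕ => i.2.2 + 3 * y), Real.negMulLog (LL E M k Q i x) := by
    symm
    apply sum_subset
    · intro x hx
      obtain ⟨y, hy, rfl⟩ := mem_image.1 hx
      obtain ⟨q, _, rfl⟩ := mem_image.1 hy
      have : (2 ^ i.2.1 * q.1 + q.2) % 3 ^ Q < 3 ^ Q := Nat.mod_lt _ (by positivity)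
      rw [mem_range, pow_succ]
      omega
    · intro x _ hx
      have : (Ar E k i.1 ×ˢ Br M k i.1 i.2).filter
          (fun q => i.2.2 + 3 * ((2 ^ i.2.1 * q.1 + q.2) % 3 ^ Q) = x) = ∅ := by
        rw [filter_eq_empty_iff]
        intro q hq he
        exact hx (mem_image.2 ⟨_, mem_image_of_mem _ hq, he⟩)
      rw [LL, this]
      simp
  rw [h1, himg]
  refine sum_congr rfl (fun y hy => ?_)
  rw [LL]
  have h2 : (Ar E k i.1 ×ˢ Br M k i.1 i.2).filter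
      (fun q => i.2.2 + 3 * ((2 ^ i.2.1 * q.1 + q.2) % 3 ^ Q) = i.2.2 + 3 * y) =
      (Ar E k i.1 ×ˢ Br M k i.1 i.2).filter (fun q => (2 ^ i.2.1 * q.1 + q.2) % 3 ^ Q = y) := by
    apply filter_congr
    intro q _
    constructor
    · intro h; exact hinj h
    · intro h; rw [h]
  rw [h2]

end H62w
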