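import Pool.Agent.Lib.H62w.FullB

set_option autoImplicit false
open Finset
namespace H62w

/-- Disintegration of the joint law of `(θ, l)`. -/
theorem disint {β : ℝ} {E : Finset ℕ} {M k Q : ℕ} (φ : ℕ → ℝ) :
    ∑ i ∈ IX E M k, lam β E M k i * ∑ x ∈ range (3 ^ (Q + 1)), LL E M k Q i x * φ x =
      ∑ θ ∈ E, (1 / (E.card : ℝ)) * ∑ l ∈ PP M k θ,
        wt β k l / W β M k θ * φ (en l θ % 3 ^ (Q + 1)) := by
  unfold IX
  rw [sum_sigma]
  have h1 : ∀ r ∈ E.image (fun θ => θ % 3 ^ (k + 1)),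
      ∑ p ∈ keys M k r, lam β E M k ⟨r, p⟩ * ∑ x ∈ range (3 ^ (Q + 1)), LL E M k Q ⟨r, p⟩ x * φ x =
      ∑ a ∈ Ar E k r, (1 / (E.card : ℝ)) * ∑ l ∈ PP M k r,
        wt β k l / W β M k r * φ (en l r % 3 + 3 * ((2 ^ l.sum * a + en l r / 3) % 3 ^ Q)) := by
    intro r hr
    have hA : (0 : ℝ) < (Ar E k r).card := by exact_mod_cast (Ar_nonempty hr).card_pos
    have h2 : ∀ a ∈ Ar E k r, ∑ l ∈ PP M k r,
        wt β k l / W β M k r * φ (en l r % 3 + 3 * ((2 ^ l.sum * a + en l r / 3) % 3 ^ Q)) =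
        ∑ p ∈ keys M k r, ∑ b ∈ Br M k r p,
          ws β k p.1 / W β M k r * φ (p.2 + 3 * ((2 ^ p.1 * a + b) % 3 ^ Q)) := by
      intro a _
      rw [sum_keys M k r (fun p b => ws β k p.1 / W β M k r * φ (p.2 + 3 * ((2 ^ p.1 * a + b) % 3 ^ Q)))]
      rfl
    have h5 : ∑ a ∈ Ar E k r, (1 / (E.card : ℝ)) * ∑ l ∈ PP M k r,
        wt β k l / W β M k r * φ (en l r % 3 + 3 * ((2 ^ l.sum * a + en l r / 3) % 3 ^ Q)) =
        ∑ p ∈ keys M k r, (1 / (E.card : ℝ)) * ∑ a ∈ Ar E k r, ∑ b ∈ Br M k r p,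
          ws β k p.1 / W β M k r * φ (p.2 + 3 * ((2 ^ p.1 * a + b) % 3 ^ Q)) := by
      rw [← mul_sum, sum_congr rfl h2, sum_comm, mul_sum]
    rw [h5]
    refine sum_congr rfl (fun p hp => ?_)
    have hB : (0 : ℝ) < (Br M k r p).card := by exact_mod_cast (Br_nonempty hp).card_pos
    rw [LL_test E M k Q ⟨r, p⟩ (key_snd hp).1 φ]
    simp only [lam, qq]
    have h3 : ∀ a ∈ Ar E k r, ∑ b ∈ Br M k r p,
          ws β k p.1 / W β M k r * φ (p.2 + 3 * ((2 ^ p.1 * a + b) % 3 ^ Q)) =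
        ws β k p.1 / W β M k r * ∑ b ∈ Br M k r p, φ (p.2 + 3 * ((2 ^ p.1 * a + b) % 3 ^ Q)) :=
      fun a _ => by rw [mul_sum]
    rw [sum_congr rfl h3, ← mul_sum]
    field_simp
  rw [sum_congr rfl h1, sum_res E k (fun r a => (1 / (E.card : ℝ)) * ∑ l ∈ PP M k r,
        wt β k l / W β M k r * φ (en l r % 3 + 3 * ((2 ^ l.sum * a + en l r / 3) % 3 ^ Q)))]
  refine sum_congr rfl (fun θ _ => ?_)
  congr 1
  rw [PP_mod M k θ, W_mod β M k θ]
  refine sum_congr rfl (fun l hl => ?_)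
  congr 2
  have hl2 := hl
  simp only [PP, mem_filter, mem_words] at hl2
  obtain ⟨⟨hlen, _⟩, hv, _, _⟩ := hl2
  have h4 := (en_add l (θ % 3 ^ (k + 1)) (θ / 3 ^ (k + 1)) hv).2
  rw [hlen, Nat.mod_add_div] at h4
  rw [h4, ← mod_calc _ _ _ _ _ (Nat.mod_lt _ (by norm_num)), Nat.mod_add_div]

theorem LL_sum (E : Finset ℕ) (M k Q : ℕ) (i : Σ _ : ℕ, ℕ × ℕ) (hv : i.2.2 < 3)
    (hA : (Ar E k i.1).Nonempty) (hB : (Br M k i.1 i.2).Nonempty) :
    ∑ x ∈ range (3 ^ (Q + 1)), LL E M k Q i x = 1 := by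
  have h := LL_test E M k Q i hv (fun _ => 1)
  simp only [mul_one] at h
  have hA' : (0 : ℝ) < (Ar E k i.1).card := by exact_mod_cast hA.card_pos
  have hB' : (0 : ℝ) < (Br M k i.1 i.2).card := by exact_mod_cast hB.card_pos
  rw [h]
  simp only [sum_const, nsmul_eq_mul, mul_one]
  field_simp

theorem LL_nonneg (E : Finset ℕ) (M k Q : ℕ) (i : Σ _ : ℕ, ℕ × ℕ) (x : ℕ) : 0 ≤ LL E M k Q i x := by
  unfold LL; positivity

theorem IX_mem {E : Finset ℕ} {M k : ℕ} {i : Σ _ : ℕ, ℕ × ℕ} (hi : i ∈ IX E M k) :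
    (Ar E k i.1).Nonempty ∧ (Br M k i.1 i.2).Nonempty ∧ i.2.2 < 3 ∧
      i.1 ∈ E.image (fun θ => θ % 3 ^ (k + 1)) ∧ i.2 ∈ keys M k i.1 := by
  unfold IX at hi
  rw [mem_sigma] at hi
  exact ⟨Ar_nonempty hi.1, Br_nonempty hi.2, (key_snd hi.2).1, hi.1, hi.2⟩

/-- Entropy of the end point law: upper bound from the support, lower bound from the mixture. -/
theorem mix_ineq {β : ℝ} {E S1 : Finset ℕ} {M k Q : ℕ} (hE : E.Nonempty)
    (hW : ∀ θ ∈ E, 0 < W β M k θ) (hS : S1 ⊆ range (3 ^ (Q + 1))) (hne : S1.Nonempty) (p : ℝ)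
    (hp : ∀ θ ∈ E, ∑ l ∈ (PP M k θ).filter (fun l => en l θ % 3 ^ (Q + 1) ∉ S1),
      wt β k l / W β M k θ ≤ p) :
    ∑ i ∈ IX E M k, lam β E M k i *
        entU (Ar E k i.1 ×ˢ Br M k i.1 i.2) (fun q => (2 ^ i.2.1 * q.1 + q.2) % 3 ^ Q) ≤
      Real.log (S1.card : ℝ) + p * ((Q + 1) * Real.log 3) + Real.log 2 := by
  classical
  have hc : (0 : ℝ) < E.card := by exact_mod_cast hE.card_pos
  have hlam : ∀ i ∈ IX E M k, 0 ≤ lam β E M k i := by
    intro i hi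
    obtain ⟨_, _, _, h4, _⟩ := IX_mem hi
    apply lam_nonneg
    obtain ⟨θ, hθ, h⟩ := mem_image.1 h4
    rw [← h, ← W_mod]; exact hW θ hθ
  have hmix := nml_mix (IX E M k) (range (3 ^ (Q + 1))) (lam β E M k) (LL E M k Q) hlam
    (lam_sum hE hW) (fun i _ x _ => LL_nonneg E M k Q i x)
  have hsum1 : ∑ x ∈ range (3 ^ (Q + 1)), ∑ i ∈ IX E M k, lam β E M k i * LL E M k Q i x = 1 := by
    rw [sum_comm]
    simp only [← mul_sum]
    rw [← lam_sum hE hW]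
    refine sum_congr rfl (fun i hi => ?_)
    obtain ⟨h1, h2, h3, _, _⟩ := IX_mem hi
    rw [LL_sum E M k Q i h3 h1 h2, mul_one]
  have hout : ∑ x ∈ range (3 ^ (Q + 1)) \ S1, ∑ i ∈ IX E M k, lam β E M k i * LL E M k Q i x ≤ p := by
    have h1 := disint (β := β) (E := E) (M := M) (k := k) (Q := Q) (fun x => if x ∈ S1 then 0 else 1)
    have h2 : ∑ x ∈ range (3 ^ (Q + 1)) \ S1, ∑ i ∈ IX E M k, lam β E M k i * LL E M k Q i x =
        ∑ i ∈ IX E M k, lam β E M k i * ∑ x ∈ range (3 ^ (Q + 1)),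
          LL E M k Q i x * (if x ∈ S1 then (0 : ℝ) else 1) := by
      rw [sum_comm]
      refine sum_congr rfl (fun i _ => ?_)
      rw [← mul_sum]
      congr 1
      rw [sdiff_eq_filter, sum_filter]
      refine sum_congr rfl (fun x _ => ?_)
      by_cases hx : x ∈ S1 <;> simp [hx]
    rw [h2, h1]
    calc ∑ θ ∈ E, (1 / (E.card : ℝ)) * ∑ l ∈ PP M k θ,
          wt β k l / W β M k θ * (if en l θ % 3 ^ (Q + 1) ∈ S1 then (0 : ℝ) else 1)
        ≤ ∑ θ ∈ E, (1 / (E.card : ℝ)) * p := by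
          refine sum_le_sum (fun θ hθ => mul_le_mul_of_nonneg_left ?_ (by positivity))
          refine le_trans (le_of_eq ?_) (hp θ hθ)
          rw [sum_filter]
          refine sum_congr rfl (fun l _ => ?_)
          by_cases hx : en l θ % 3 ^ (Q + 1) ∈ S1 <;> simp [hx]
      _ = p := by rw [sum_const, nsmul_eq_mul]; field_simp
  have hsup := nml_support (range (3 ^ (Q + 1))) S1
    (fun x => ∑ i ∈ IX E M k, lam β E M k i * LL E M k Q i x)
    (fun x _ => sum_nonneg (fun i hi => mul_nonneg (hlam i hi) (LL_nonneg E M k Q i x))) hsum1 hS hne p hout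
  have hlog : Real.log ((range (3 ^ (Q + 1))).card : ℝ) = (Q + 1) * Real.log 3 := by
    rw [card_range]; push_cast; rw [Real.log_pow]; push_cast; ring
  rw [hlog] at hsup
  refine le_trans (le_of_eq ?_) (hmix.trans hsup)
  refine sum_congr rfl (fun i hi => ?_)
  rw [LL_ent E M k Q i (IX_mem hi).2.2.1]

end H62w
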