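import Pool.Agent.Lib.H62w.FullD
import Pool.Agent.Lib.H62w.SkGrowth

set_option autoImplicit false
open Finset
namespace H62w

theorem nat1_card_le (B : Finset ℕ) (i : ℕ) (δ : ℝ) : (nat1 B i δ).card ≤ B.card := by
  apply card_le_card
  intro x hx
  simp only [nat1, mem_filter] at hx
  exact hx.1

/-- Lower bound for the average number of non-atomic digits. -/
theorem nat_lower {β : ℝ} (hβ : 0 < β) (hβ1 : β ≤ 1) {M : ℕ} (hM : 7 ≤ M) {k : ℕ} {E : Finset ℕ}
    (hE : E.Nonempty) (hEU : ∀ θ ∈ E, θ % 3 ≠ 0) {φ δ : ℝ}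
    (hδ : ∀ (h : ℕ) (B : Finset ℕ), B ⊆ range (3 ^ h) → B.Nonempty →
      Real.log (B.card : ℝ) ≤ Real.log 3 * ∑ i ∈ range h, (((nat1 B i δ).card : ℝ) / B.card) + φ * h) :
    (Real.log (mm β M k) - Real.log (2 * ((M * k + 1 : ℕ) : ℝ)) - φ * ((M * k : ℕ) : ℝ)) / Real.log 3 ≤
      ∑ i ∈ IX E M k, lam β E M k i *
        ∑ j ∈ range (M * k), (((nat1 (Br M k i.1 i.2) j δ).card : ℝ) / (Br M k i.1 i.2).card) := by
  have hmm := mm_pos hβ hβ1 hM k
  have hc : (0 : ℝ) < E.card := by exact_mod_cast hE.card_pos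
  have hW : ∀ θ ∈ E, 0 < W β M k θ := fun θ hθ => hmm.trans_le (mm_le β M k θ (hEU θ hθ))
  have hl3 : 0 < Real.log 3 := Real.log_pos (by norm_num)
  have hlam : ∀ i ∈ IX E M k, 0 ≤ lam β E M k i := by
    intro i hi
    obtain ⟨_, _, _, h4, _⟩ := IX_mem hi
    apply lam_nonneg
    obtain ⟨θ, hθ, h⟩ := mem_image.1 h4
    rw [← h, ← W_mod]; exact hW θ hθ
  have h1 : ∀ i ∈ IX E M k, lam β E M k i * ((Real.log ((Br M k i.1 i.2).card : ℝ) - φ * ((M * k : ℕ) : ℝ)) /
      Real.log 3) ≤ lam β E M k i *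
        ∑ j ∈ range (M * k), (((nat1 (Br M k i.1 i.2) j δ).card : ℝ) / (Br M k i.1 i.2).card) := by
    intro i hi
    obtain ⟨_, h2, _, h4, _⟩ := IX_mem hi
    have hr : i.1 < 3 ^ (k + 1) := by
      obtain ⟨θ, hθ, h⟩ := mem_image.1 h4
      rw [← h]; exact Nat.mod_lt _ (by positivity)
    apply mul_le_mul_of_nonneg_left _ (hlam i hi)
    rw [div_le_iff₀ hl3]
    have := hδ (M * k) _ (Br_sub hr i.2) h2
    linarith
  refine le_trans ?_ (sum_le_sum h1)
  have h2 : ∑ i ∈ IX E M k, lam β E M k i * ((Real.log ((Br M k i.1 i.2).card : ℝ) - φ * ((M * k : ℕ) : ℝ)) /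
      Real.log 3) = (∑ i ∈ IX E M k, lam β E M k i * Real.log ((Br M k i.1 i.2).card : ℝ) -
        φ * ((M * k : ℕ) : ℝ)) / Real.log 3 := by
    have h3 : ∀ i ∈ IX E M k, lam β E M k i * ((Real.log ((Br M k i.1 i.2).card : ℝ) - φ * ((M * k : ℕ) : ℝ)) /
      Real.log 3) = lam β E M k i * Real.log ((Br M k i.1 i.2).card : ℝ) / Real.log 3 -
        lam β E M k i * (φ * ((M * k : ℕ) : ℝ) / Real.log 3) := by
      intro i _; ring
    rw [sum_congr rfl h3, sum_sub_distrib, ← sum_div, ← sum_mul, lam_sum hE hW]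
    ring
  rw [h2]
  apply div_le_div_of_nonneg_right _ hl3.le
  have h3 : Real.log (mm β M k) - Real.log (2 * ((M * k + 1 : ℕ) : ℝ)) ≤
      ∑ i ∈ IX E M k, lam β E M k i * Real.log ((Br M k i.1 i.2).card : ℝ) := by
    unfold IX
    rw [sum_sigma]
    have h5 : ∀ r ∈ E.image (fun θ => θ % 3 ^ (k + 1)),
        ((Ar E k r).card : ℝ) / E.card * (Real.log (mm β M k) - Real.log (2 * ((M * k + 1 : ℕ) : ℝ))) ≤
        ∑ p ∈ keys M k r, lam β E M k ⟨r, p⟩ * Real.log ((Br M k r p).card : ℝ) := by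
      intro r hr
      have hru : r % 3 ≠ 0 := by
        obtain ⟨θ, hθ, rfl⟩ := mem_image.1 hr
        rw [Nat.mod_mod_of_dvd _ (dvd_pow_self 3 (Nat.succ_ne_zero k))]
        exact hEU θ hθ
      have hWr : mm β M k ≤ W β M k r := mm_le β M k r hru
      have h6 := log_card_Br hβ.le M k r (hmm.trans_le hWr)
      have h7 := Real.log_le_log hmm hWr
      have e : ∀ p ∈ keys M k r, lam β E M k ⟨r, p⟩ * Real.log ((Br M k r p).card : ℝ) =
          ((Ar E k r).card : ℝ) / E.card * (qq β M k r p * Real.log ((Br M k r p).card : ℝ)) := by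
        intro p _; simp only [lam]; ring
      rw [sum_congr rfl e, ← mul_sum]
      apply mul_le_mul_of_nonneg_left _ (by positivity)
      push_cast
      linarith
    refine le_trans ?_ (sum_le_sum h5)
    rw [← sum_mul, ← sum_div, sum_Ar_card, div_self hc.ne', one_mul]
  linarith

theorem full_core {β : ℝ} (hβ : 0 < β) (hβ1 : β ≤ 1) {M : ℕ} (hM : 7 ≤ M) (φ : ℝ) (hφ : 0 < φ)
    (n : ℕ) (hn : 1 ≤ n) (η : ℝ) (hη : 0 < η) :
    ∃ γ : ℝ, 0 < γ ∧ ∀ (k Q : ℕ) (E S1 : Finset ℕ) (p : ℝ), 1 ≤ k → E.Nonempty → E ⊆ U (k + Q) →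
      S1 ⊆ range (3 ^ (Q + 1)) → S1.Nonempty →
      (∀ θ ∈ E, ∑ l ∈ (PP M k θ).filter (fun l => en l θ % 3 ^ (Q + 1) ∉ S1),
        wt β k l / W β M k θ ≤ p) →
      M * k + n ≤ Q + 1 →
      (Real.log (mm β M k) - Real.log (2 * ((M * k + 1 : ℕ) : ℝ)) - φ * ((M * k : ℕ) : ℝ)) / Real.log 3
        - n / γ * (Real.log (S1.card : ℝ) + p * ((Q + 1) * Real.log 3) + Real.log 2
            + Real.log ((E.image (fun θ => θ % 3 ^ (k + 1))).card : ℝ) - Real.log (E.card : ℝ))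
      ≤ ∑ j ∈ range (M * k), ((full E (k + 1 + j) n η).card : ℝ) / E.card := by
  obtain ⟨δ, hδ, hnat⟩ := nonatomic_count φ hφ
  obtain ⟨γ, hγ, hgr⟩ := growth n hn η δ hη hδ
  refine ⟨γ, hγ, fun k Q E S1 p hk hE hEU hS hne hp hkn => ?_⟩
  have hEu : ∀ θ ∈ E, θ % 3 ≠ 0 := fun θ hθ => (mem_U.1 (hEU hθ)).2
  have hEr : E ⊆ range (3 ^ (k + Q + 1)) := fun θ hθ => mem_range.2 (mem_U.1 (hEU hθ)).1
  have hmm := mm_pos hβ hβ1 hM k
  have hc : (0 : ℝ) < E.card := by exact_mod_cast hE.card_pos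
  have hn0 : (0 : ℝ) < n := by exact_mod_cast hn
  have hW : ∀ θ ∈ E, 0 < W β M k θ := fun θ hθ => hmm.trans_le (mm_le β M k θ (hEu θ hθ))
  have hlam : ∀ i ∈ IX E M k, 0 ≤ lam β E M k i := by
    intro i hi
    obtain ⟨_, _, _, h4, _⟩ := IX_mem hi
    apply lam_nonneg
    obtain ⟨θ, hθ, h⟩ := mem_image.1 h4
    rw [← h, ← W_mod]; exact hW θ hθ
  have hMk : 7 ≤ M * k := by nlinarith
  have hnQ : n ≤ Q := by omega
  have key : ∀ i ∈ IX E M k, lam β E M k i * Real.log ((Ar E k i.1).card : ℝ) + γ / n *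
      (lam β E M k i * ∑ j ∈ range (M * k), (((nat1 (Br M k i.1 i.2) j δ).card : ℝ) / (Br M k i.1 i.2).card)) -
      γ / n * (lam β E M k i * ∑ j ∈ range (M * k), ((full (Ar E k i.1) j n η).card : ℝ) / (Ar E k i.1).card) ≤
      lam β E M k i *
        entU (Ar E k i.1 ×ˢ Br M k i.1 i.2) (fun q => (2 ^ i.2.1 * q.1 + q.2) % 3 ^ Q) := by
    intro i hi
    obtain ⟨h1, h2, _, h4, _⟩ := IX_mem hi
    have hA : (0 : ℝ) < (Ar E k i.1).card := by exact_mod_cast h1.card_pos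
    have hB : (0 : ℝ) < (Br M k i.1 i.2).card := by exact_mod_cast h2.card_pos
    have h3 : 2 ^ i.2.1 % 3 ≠ 0 := by
      intro h
      have := Nat.Prime.dvd_of_dvd_pow Nat.prime_three (Nat.dvd_of_mod_eq_zero h)
      omega
    have h5 := hgr Q (2 ^ i.2.1) (Ar E k i.1) (Br M k i.1 i.2) h3 h1 h2 (Ar_sub hEr) hnQ
    have h6 : ∀ j, 0 ≤ (1 - ((full (Ar E k i.1) j n η).card : ℝ) / (Ar E k i.1).card) := by
      intro j
      rw [sub_nonneg, div_le_one hA]
      exact_mod_cast card_le_card (full_sub _ _ _ _)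
    have h7 : ∀ j, ((nat1 (Br M k i.1 i.2) j δ).card : ℝ) / (Br M k i.1 i.2).card ≤ 1 := by
      intro j
      rw [div_le_one hB]
      exact_mod_cast nat1_card_le _ _ _
    have h8 : ∑ j ∈ range (M * k), (((nat1 (Br M k i.1 i.2) j δ).card : ℝ) / (Br M k i.1 i.2).card) -
        ∑ j ∈ range (M * k), ((full (Ar E k i.1) j n η).card : ℝ) / (Ar E k i.1).card ≤
        ∑ j ∈ range (Q + 1 - n),
          (1 - ((full (Ar E k i.1) j n η).card : ℝ) / (Ar E k i.1).card) *
            (((nat1 (Br M k i.1 i.2) j δ).card : ℝ) / (Br M k i.1 i.2).card) := by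
      rw [← sum_sub_distrib]
      refine le_trans (sum_le_sum (g := fun j =>
        (1 - ((full (Ar E k i.1) j n η).card : ℝ) / (Ar E k i.1).card) *
            (((nat1 (Br M k i.1 i.2) j δ).card : ℝ) / (Br M k i.1 i.2).card)) ?_) ?_
      · intro j _
        have a1 : 0 ≤ ((full (Ar E k i.1) j n η).card : ℝ) / (Ar E k i.1).card := by positivity
        have a2 := h7 j
        have a3 : ((full (Ar E k i.1) j n η).card : ℝ) / (Ar E k i.1).card *
          (((nat1 (Br M k i.1 i.2) j δ).card : ℝ) / (Br M k i.1 i.2).card) ≤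
          ((full (Ar E k i.1) j n η).card : ℝ) / (Ar E k i.1).card := mul_le_of_le_one_right a1 a2
        have a4 : (1 - ((full (Ar E k i.1) j n η).card : ℝ) / (Ar E k i.1).card) *
            (((nat1 (Br M k i.1 i.2) j δ).card : ℝ) / (Br M k i.1 i.2).card) =
            (((nat1 (Br M k i.1 i.2) j δ).card : ℝ) / (Br M k i.1 i.2).card) -
            ((full (Ar E k i.1) j n η).card : ℝ) / (Ar E k i.1).card *
          (((nat1 (Br M k i.1 i.2) j δ).card : ℝ) / (Br M k i.1 i.2).card) := by ring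
        rw [a4]
        linarith
      · refine sum_le_sum_of_subset_of_nonneg (range_mono (by omega)) (fun j _ _ => ?_)
        have := h6 j
        positivity
    have h9 : Real.log ((Ar E k i.1).card : ℝ) + γ / n *
      (∑ j ∈ range (M * k), (((nat1 (Br M k i.1 i.2) j δ).card : ℝ) / (Br M k i.1 i.2).card) -
        ∑ j ∈ range (M * k), ((full (Ar E k i.1) j n η).card : ℝ) / (Ar E k i.1).card) ≤
        entU (Ar E k i.1 ×ˢ Br M k i.1 i.2) (fun q => (2 ^ i.2.1 * q.1 + q.2) % 3 ^ Q) := by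
      refine le_trans ?_ h5
      have := mul_le_mul_of_nonneg_left h8 (show 0 ≤ γ / n by positivity)
      linarith
    have := mul_le_mul_of_nonneg_left h9 (hlam i hi)
    linarith
  have hs := sum_le_sum key
  rw [sum_sub_distrib, sum_add_distrib, ← mul_sum, ← mul_sum] at hs
  have hmix := mix_ineq hE hW hS hne p hp
  have hlogA := sum_log_Ar (β := β) (M := M) (k := k) hE hW
  have hN := nat_lower hβ hβ1 hM (k := k) hE hEu hnat
  have hF : ∑ i ∈ IX E M k, lam β E M k i *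
      ∑ j ∈ range (M * k), ((full (Ar E k i.1) j n η).card : ℝ) / (Ar E k i.1).card =
      ∑ j ∈ range (M * k), ((full E (k + 1 + j) n η).card : ℝ) / E.card := by
    rw [sum_lam_left hW (fun r => ∑ j ∈ range (M * k), ((full (Ar E k r) j n η).card : ℝ) / (Ar E k r).card)]
    have e1 : ∀ r ∈ E.image (fun θ => θ % 3 ^ (k + 1)), ((Ar E k r).card : ℝ) / E.card *
        ∑ j ∈ range (M * k), ((full (Ar E k r) j n η).card : ℝ) / (Ar E k r).card =
        ∑ j ∈ range (M * k), ((full (Ar E k r) j n η).card : ℝ) / E.card := by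
      intro r hr
      have hA : (0 : ℝ) < (Ar E k r).card := by exact_mod_cast (Ar_nonempty hr).card_pos
      rw [mul_sum]
      refine sum_congr rfl (fun j _ => ?_)
      field_simp
    rw [sum_congr rfl e1, sum_comm]
    refine sum_congr rfl (fun j _ => ?_)
    rw [← sum_div, ← full_card]
  rw [hF] at hs
  set N := ∑ i ∈ IX E M k, lam β E M k i *
        ∑ j ∈ range (M * k), (((nat1 (Br M k i.1 i.2) j δ).card : ℝ) / (Br M k i.1 i.2).card)
  set F := ∑ j ∈ range (M * k), ((full E (k + 1 + j) n η).card : ℝ) / E.card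
  set X := Real.log (S1.card : ℝ) + p * ((Q + 1) * Real.log 3) + Real.log 2
            + Real.log ((E.image (fun θ => θ % 3 ^ (k + 1))).card : ℝ) - Real.log (E.card : ℝ) with hX
  have h1 : γ / n * (N - F) ≤ X := by
    rw [hX]; linarith
  have h2 : N - F ≤ n / γ * X := by
    have e : n / γ * (γ / n * (N - F)) = N - F := by field_simp
    rw [← e]
    exact mul_le_mul_of_nonneg_left h1 (by positivity)
  linarith

end H62w
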