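import Pool.Agent.Lib.H62w.FullC

set_option autoImplicit false
open Finset
namespace H62w

theorem mem_Ar {E : Finset ℕ} {k r x : ℕ} (hr : r < 3 ^ (k + 1)) :
    x ∈ Ar E k r ↔ r + 3 ^ (k + 1) * x ∈ E := by
  unfold Ar
  rw [mem_image]
  constructor
  · rintro ⟨θ, hθ, rfl⟩
    rw [mem_filter] at hθ
    rw [← hθ.2, Nat.mod_add_div]
    exact hθ.1
  · intro h
    refine ⟨r + 3 ^ (k + 1) * x, mem_filter.2 ⟨h, ?_⟩, ?_⟩
    · rw [Nat.add_mul_mod_self_left, Nat.mod_eq_of_lt hr]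
    · rw [Nat.add_mul_div_left _ _ (by positivity), Nat.div_eq_of_lt hr, zero_add]

theorem mod_split (r x k j : ℕ) (hr : r < 3 ^ (k + 1)) :
    (r + 3 ^ (k + 1) * x) % 3 ^ (k + 1 + j) = r + 3 ^ (k + 1) * (x % 3 ^ j) := by
  rw [pow_add 3 (k + 1) j, Nat.mod_mul, Nat.add_mul_mod_self_left, Nat.mod_eq_of_lt hr,
    Nat.add_mul_div_left _ _ (by positivity), Nat.div_eq_of_lt hr, zero_add]

theorem div_split (r x k j : ℕ) (hr : r < 3 ^ (k + 1)) :
    (r + 3 ^ (k + 1) * x) / 3 ^ (k + 1 + j) = x / 3 ^ j := by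
  rw [pow_add 3 (k + 1) j, ← Nat.div_div_eq_div_mul, Nat.add_mul_div_left _ _ (by positivity),
    Nat.div_eq_of_lt hr, zero_add]

theorem cls_split (E : Finset ℕ) (k r j x : ℕ) (hr : r < 3 ^ (k + 1)) :
    cls E (k + 1 + j) (r + 3 ^ (k + 1) * x) = (cls (Ar E k r) j x).image (fun y => r + 3 ^ (k + 1) * y) := by
  ext θ
  simp only [cls, mem_filter, mem_image, mem_Ar hr]
  constructor
  · rintro ⟨h1, h2⟩
    rw [mod_split r x k j hr] at h2
    have h3 : θ % 3 ^ (k + 1) = r := by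
      have := congrArg (fun z => z % 3 ^ (k + 1)) h2
      rw [pow_add 3 (k + 1) j, Nat.mod_mul_right_mod, Nat.add_mul_mod_self_left, Nat.mod_eq_of_lt hr] at this
      exact this
    have h4 : r + 3 ^ (k + 1) * (θ / 3 ^ (k + 1)) = θ := by rw [← h3]; exact Nat.mod_add_div _ _
    refine ⟨θ / 3 ^ (k + 1), ⟨by rw [h4]; exact h1, ?_⟩, h4⟩
    rw [← h4, mod_split r _ k j hr] at h2
    have : 3 ^ (k + 1) * (θ / 3 ^ (k + 1) % 3 ^ j) = 3 ^ (k + 1) * (x % 3 ^ j) := by omega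
    exact Nat.eq_of_mul_eq_mul_left (by positivity) this
  · rintro ⟨y, ⟨h1, h2⟩, rfl⟩
    exact ⟨h1, by rw [mod_split r _ k j hr, mod_split r _ k j hr, h2]⟩

theorem inj_up (r k : ℕ) : Function.Injective (fun y : ℕ => r + 3 ^ (k + 1) * y) := by
  intro a b h
  have h' : 3 ^ (k + 1) * a = 3 ^ (k + 1) * b := by simpa using h
  exact Nat.eq_of_mul_eq_mul_left (by positivity) h'

theorem full_split (E : Finset ℕ) (k r j n : ℕ) (η : ℝ) (hr : r < 3 ^ (k + 1)) :
    (full E (k + 1 + j) n η).filter (fun θ => θ % 3 ^ (k + 1) = r) =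
      (full (Ar E k r) j n η).image (fun y => r + 3 ^ (k + 1) * y) := by
  have hwin : ∀ x w, ((cls E (k + 1 + j) (r + 3 ^ (k + 1) * x)).filter
      (fun y => y / 3 ^ (k + 1 + j) % 3 ^ n = w)).card =
      ((cls (Ar E k r) j x).filter (fun y => y / 3 ^ j % 3 ^ n = w)).card := by
    intro x w
    rw [cls_split E k r j x hr, filter_image, card_image_of_injective _ (inj_up r k)]
    simp only [div_split r _ k j hr]
  have hcls : ∀ x, (cls E (k + 1 + j) (r + 3 ^ (k + 1) * x)).card = (cls (Ar E k r) j x).card := by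
    intro x
    rw [cls_split E k r j x hr, card_image_of_injective _ (inj_up r k)]
  ext θ
  simp only [full, mem_filter, mem_image, mem_Ar hr]
  constructor
  · rintro ⟨⟨h1, h2⟩, h3⟩
    have h4 : r + 3 ^ (k + 1) * (θ / 3 ^ (k + 1)) = θ := by rw [← h3]; exact Nat.mod_add_div _ _
    refine ⟨θ / 3 ^ (k + 1), ⟨by rw [h4]; exact h1, ?_⟩, h4⟩
    intro w hw
    have := h2 w hw
    rw [← h4, hwin, hcls] at this
    exact this
  · rintro ⟨x, ⟨h1, h2⟩, rfl⟩
    refine ⟨⟨h1, ?_⟩, ?_⟩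
    · intro w hw
      rw [hwin, hcls]
      exact h2 w hw
    · rw [Nat.add_mul_mod_self_left, Nat.mod_eq_of_lt hr]

theorem full_sub (E : Finset ℕ) (t n : ℕ) (η : ℝ) : full E t n η ⊆ E := by
  intro x hx
  simp only [full, mem_filter] at hx
  exact hx.1

theorem full_card (E : Finset ℕ) (k j n : ℕ) (η : ℝ) :
    ((full E (k + 1 + j) n η).card : ℝ) =
      ∑ r ∈ E.image (fun θ => θ % 3 ^ (k + 1)), ((full (Ar E k r) j n η).card : ℝ) := by
  have hsub : ∀ θ ∈ full E (k + 1 + j) n η, θ % 3 ^ (k + 1) ∈ E.image (fun θ => θ % 3 ^ (k + 1)) := by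
    intro θ hθ
    exact mem_image_of_mem _ (full_sub _ _ _ _ hθ)
  rw [card_eq_sum_card_fiberwise hsub]
  push_cast
  refine sum_congr rfl (fun r hr => ?_)
  have hr' : r < 3 ^ (k + 1) := by
    obtain ⟨θ, _, rfl⟩ := mem_image.1 hr
    exact Nat.mod_lt _ (by positivity)
  rw [full_split E k r j n η hr', card_image_of_injective _ (inj_up r k)]

theorem Ar_sub {E : Finset ℕ} {k Q r : ℕ} (hE : E ⊆ range (3 ^ (k + Q + 1))) :
    Ar E k r ⊆ range (3 ^ Q) := by
  intro x hx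
  obtain ⟨θ, hθ, rfl⟩ := mem_image.1 hx
  have := mem_range.1 (hE (mem_filter.1 hθ).1)
  rw [mem_range]
  apply Nat.div_lt_of_lt_mul
  rw [← pow_add]
  convert this using 2
  ring

/-- The sum over the keys factors. -/
theorem sum_lam_left {β : ℝ} {E : Finset ℕ} {M k : ℕ} (hW : ∀ θ ∈ E, 0 < W β M k θ) (g : ℕ → ℝ) :
    ∑ i ∈ IX E M k, lam β E M k i * g i.1 =
      ∑ r ∈ E.image (fun θ => θ % 3 ^ (k + 1)), ((Ar E k r).card : ℝ) / E.card * g r := by
  unfold IX
  rw [sum_sigma]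
  refine sum_congr rfl (fun r hr => ?_)
  have hWr : 0 < W β M k r := by
    obtain ⟨θ, hθ, rfl⟩ := mem_image.1 hr
    rw [← W_mod]; exact hW θ hθ
  have : ∀ p ∈ keys M k r, lam β E M k ⟨r, p⟩ * g r =
      qq β M k r p * (((Ar E k r).card : ℝ) / E.card * g r) := by
    intro p _; simp only [lam]; ring
  rw [sum_congr rfl this, ← sum_mul, qq_sum β M k r hWr, one_mul]

theorem sum_Ar_card (E : Finset ℕ) (k : ℕ) :
    ∑ r ∈ E.image (fun θ => θ % 3 ^ (k + 1)), ((Ar E k r).card : ℝ) = E.card := by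
  have := sum_res E k (fun _ _ => 1)
  simpa using this

/-- `H(U | r) >= log |E| - log #r`. -/
theorem sum_log_Ar {β : ℝ} {E : Finset ℕ} {M k : ℕ} (hE : E.Nonempty) (hW : ∀ θ ∈ E, 0 < W β M k θ) :
    Real.log (E.card : ℝ) - Real.log ((E.image (fun θ => θ % 3 ^ (k + 1))).card : ℝ) ≤
      ∑ i ∈ IX E M k, lam β E M k i * Real.log ((Ar E k i.1).card : ℝ) := by
  have hc : (0 : ℝ) < E.card := by exact_mod_cast hE.card_pos
  rw [sum_lam_left hW (fun r => Real.log ((Ar E k r).card : ℝ))]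
  have h1 := nml_sum_le (E.image (fun θ => θ % 3 ^ (k + 1)))
    (fun r => ((Ar E k r).card : ℝ) / E.card) (fun r _ => by positivity)
  have h2 : ∑ r ∈ E.image (fun θ => θ % 3 ^ (k + 1)), ((Ar E k r).card : ℝ) / E.card = 1 := by
    rw [← sum_div, sum_Ar_card, div_self hc.ne']
  rw [h2] at h1
  simp only [one_mul, Real.negMulLog_one, add_zero] at h1
  have h3 : ∀ r ∈ E.image (fun θ => θ % 3 ^ (k + 1)),
      ((Ar E k r).card : ℝ) / E.card * Real.log ((Ar E k r).card : ℝ) =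
      ((Ar E k r).card : ℝ) / E.card * Real.log (E.card : ℝ) -
        Real.negMulLog (((Ar E k r).card : ℝ) / E.card) := by
    intro r hr
    have hA : (0 : ℝ) < (Ar E k r).card := by exact_mod_cast (Ar_nonempty hr).card_pos
    rw [Real.negMulLog, Real.log_div hA.ne' hc.ne']
    ring
  rw [sum_congr rfl h3, sum_sub_distrib, ← sum_mul, h2]
  linarith

end H62w
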