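import Pool.Agent.Lib.H62w.Defs

/-!
Chunk G: unnormalised entropies of functions on finite sets.
`KK s f = |s| * (entropy of f on the uniform space s)`.
-/

set_option autoImplicit false
open Finset
namespace H62w
namespace G2

variable {α β γ : Type}

/-- `t log t`. -/
noncomputable def lam (n : ℕ) : ℝ := (n : ℝ) * Real.log (n : ℝ)

@[simp] theorem lam_zero : lam 0 = 0 := by simp [lam]
@[simp] theorem lam_one : lam 1 = 0 := by simp [lam]

/-- Unnormalised entropy. -/
noncomputable def KK [DecidableEq β] (s : Finset α) (f : α → β) : ℝ :=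
  ∑ a ∈ s, (Real.log (s.card : ℝ) - Real.log ((s.filter (fun b => f b = f a)).card : ℝ))

theorem KK_eq [DecidableEq β] (s : Finset α) (f : α → β) (T : Finset β) (hT : ∀ a ∈ s, f a ∈ T) :
    KK s f = lam s.card - ∑ x ∈ T, lam (s.filter (fun a => f a = x)).card := by
  unfold KK lam
  rw [Finset.sum_sub_distrib, Finset.sum_const, nsmul_eq_mul]
  congr 1
  rw [← Finset.sum_fiberwise_of_maps_to hT]
  refine Finset.sum_congr rfl (fun x _ => ?_)
  rw [Finset.sum_congr rfl (g := fun _ => Real.log ((s.filter (fun a => f a = x)).card : ℝ)), Finset.sum_const,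
    nsmul_eq_mul]
  intro a ha
  rw [(Finset.mem_filter.1 ha).2]

theorem KK_congr [DecidableEq β] [DecidableEq γ] (s : Finset α) (f : α → β) (g : α → γ)
    (h : ∀ a ∈ s, ∀ b ∈ s, (f b = f a ↔ g b = g a)) : KK s f = KK s g := by
  unfold KK
  refine Finset.sum_congr rfl (fun a ha => ?_)
  rw [Finset.filter_congr (fun b hb => h a ha b hb)]

theorem KK_empty [DecidableEq β] (f : α → β) : KK (∅ : Finset α) f = 0 := by simp [KK]

theorem KK_nonneg [DecidableEq β] (s : Finset α) (f : α → β) : 0 ≤ KK s f := by
  unfold KK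
  refine Finset.sum_nonneg (fun a ha => ?_)
  rw [sub_nonneg]
  have h1 : 0 < (s.filter (fun b => f b = f a)).card :=
    Finset.card_pos.2 ⟨a, Finset.mem_filter.2 ⟨ha, rfl⟩⟩
  exact Real.log_le_log (by exact_mod_cast h1) (by exact_mod_cast Finset.card_filter_le _ _)

/-- Injective function. -/
theorem KK_inj [DecidableEq β] (s : Finset α) (f : α → β) (h : ∀ a ∈ s, ∀ b ∈ s, f b = f a → b = a) :
    KK s f = lam s.card := by
  unfold KK lam
  rw [Finset.sum_congr rfl (g := fun _ => Real.log (s.card : ℝ)), Finset.sum_const, nsmul_eq_mul]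
  intro a ha
  have : s.filter (fun b => f b = f a) = {a} := by
    ext b
    simp only [Finset.mem_filter, Finset.mem_singleton]
    constructor
    · rintro ⟨hb, hf⟩
      exact h a ha b hb hf
    · rintro rfl
      exact ⟨ha, rfl⟩
  rw [this]
  simp

/-- Constant function. -/
theorem KK_const [DecidableEq β] (s : Finset α) (f : α → β) (h : ∀ a ∈ s, ∀ b ∈ s, f b = f a) :
    KK s f = 0 := by
  unfold KK
  refine Finset.sum_eq_zero (fun a ha => ?_)
  rw [Finset.filter_true_of_mem (fun b hb => h a ha b hb)]
  ring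

/-- Relation with probabilities. -/
theorem KK_neg [DecidableEq β] (s : Finset α) (f : α → β) (T : Finset β) (hT : ∀ a ∈ s, f a ∈ T) :
    KK s f = s.card * ∑ x ∈ T, Real.negMulLog (((s.filter (fun a => f a = x)).card : ℝ) / s.card) := by
  rcases s.eq_empty_or_nonempty with rfl | hs
  · simp [KK]
  have hN : (0 : ℝ) < s.card := by exact_mod_cast Finset.card_pos.2 hs
  rw [KK_eq s f T hT, Finset.mul_sum]
  have h1 : ∀ x ∈ T, (s.card : ℝ) * Real.negMulLog (((s.filter (fun a => f a = x)).card : ℝ) / s.card)
      = ((s.filter (fun a => f a = x)).card : ℝ) * Real.log s.card - lam (s.filter (fun a => f a = x)).card := by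
    intro x _
    unfold Real.negMulLog lam
    rcases Nat.eq_zero_or_pos (s.filter (fun a => f a = x)).card with h0 | h0
    · rw [h0]; simp
    · rw [Real.log_div (by exact_mod_cast h0.ne') hN.ne']
      field_simp
      ring
  rw [Finset.sum_congr rfl h1, Finset.sum_sub_distrib, ← Finset.sum_mul]
  congr 1
  unfold lam
  congr 1
  have := Finset.card_eq_sum_card_fiberwise (f := f) (s := s) (t := T) hT
  rw [this]
  push_cast
  rfl

theorem KK_entU (s : Finset α) (f : α → ℕ) : (s.card : ℝ) * entU s f = KK s f := by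
  rw [KK_neg s f (s.image f) (fun a ha => Finset.mem_image_of_mem f ha)]
  rfl

/-- Chain rule. -/
theorem KK_chain [DecidableEq β] [DecidableEq γ] (s : Finset α) (f : α → β) (φ : β → γ) (D : Finset γ)
    (hD : ∀ a ∈ s, φ (f a) ∈ D) :
    KK s f - KK s (fun a => φ (f a)) = ∑ c ∈ D, KK (s.filter (fun a => φ (f a) = c)) f := by
  have hT : ∀ a ∈ s, f a ∈ s.image f := fun a ha => Finset.mem_image_of_mem f ha
  rw [KK_eq s f _ hT, KK_eq s (fun a => φ (f a)) D hD]
  have h1 : ∀ c ∈ D, KK (s.filter (fun a => φ (f a) = c)) f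
      = lam (s.filter (fun a => φ (f a) = c)).card
        - ∑ x ∈ s.image f, (if φ x = c then lam (s.filter (fun a => f a = x)).card else 0) := by
    intro c _
    rw [KK_eq _ f (s.image f) (fun a ha => hT a (Finset.mem_filter.1 ha).1)]
    congr 1
    refine Finset.sum_congr rfl (fun x _ => ?_)
    rw [Finset.filter_filter]
    by_cases hx : φ x = c
    · rw [if_pos hx]
      congr 2
      refine Finset.filter_congr (fun a _ => ?_)
      constructor
      · exact fun h => h.2
      · rintro rfl
        exact ⟨hx, rfl⟩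
    · rw [if_neg hx]
      rw [Finset.filter_false_of_mem]
      · simp
      · rintro a _ ⟨h1, rfl⟩
        exact hx h1
  rw [Finset.sum_congr rfl h1, Finset.sum_sub_distrib, Finset.sum_comm]
  have h2 : ∀ x ∈ s.image f, ∑ c ∈ D, (if φ x = c then lam (s.filter (fun a => f a = x)).card else 0)
      = lam (s.filter (fun a => f a = x)).card := by
    intro x hx
    rw [Finset.sum_ite_eq, if_pos]
    obtain ⟨a, ha, rfl⟩ := Finset.mem_image.1 hx
    exact hD a ha
  rw [Finset.sum_congr rfl h2]
  ring

/-- Elementary step of the log-sum inequality. -/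
theorem logsum_step (a b A B : ℝ) (ha : 0 ≤ a) (hab : a ≤ b) (haA : a ≤ A) (hAB : A ≤ B) :
    a * (Real.log b - Real.log a) ≤ a * (Real.log B - Real.log A) + (b * A / B - a) := by
  rcases ha.eq_or_lt with rfl | ha
  · have : 0 ≤ b * A / B := div_nonneg (mul_nonneg hab haA) (haA.trans hAB)
    simpa using this
  have hb : 0 < b := lt_of_lt_of_le ha hab
  have hA : 0 < A := lt_of_lt_of_le ha haA
  have hB : 0 < B := lt_of_lt_of_le hA hAB
  have h := Real.log_le_sub_one_of_pos (show 0 < b * A / (a * B) by positivity)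
  rw [Real.log_div (by positivity) (by positivity), Real.log_mul hb.ne' hA.ne', Real.log_mul ha.ne' hB.ne'] at h
  have h2 : a * (b * A / (a * B) - 1) = b * A / B - a := by
    field_simp
  have h3 := mul_le_mul_of_nonneg_left h ha.le
  rw [h2] at h3
  linarith [h3]

/-- Concavity of the entropy. -/
theorem KK_mix [DecidableEq β] [DecidableEq γ] (s : Finset α) (f : α → β) (h : α → γ) (D : Finset γ)
    (hD : ∀ a ∈ s, h a ∈ D) :
    ∑ c ∈ D, KK (s.filter (fun a => h a = c)) f ≤ KK s f := by
  rcases s.eq_empty_or_nonempty with rfl | hs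
  · simp [KK]
  have hT : ∀ a ∈ s, f a ∈ s.image f := fun a ha => Finset.mem_image_of_mem f ha
  set T := s.image f with hTdef
  have hN : (0 : ℝ) < s.card := by exact_mod_cast Finset.card_pos.2 hs
  -- express through counts
  set N : ℝ := (s.card : ℝ) with hNdef
  set nx : β → ℝ := fun x => ((s.filter (fun a => f a = x)).card : ℝ) with hnx
  set nc : γ → ℝ := fun c => ((s.filter (fun a => h a = c)).card : ℝ) with hnc
  set nn : β → γ → ℝ := fun x c => (((s.filter (fun a => h a = c)).filter (fun a => f a = x)).card : ℝ) with hnn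
  have e1 : ∀ x, ∑ c ∈ D, nn x c = nx x := by
    intro x
    have := Finset.card_eq_sum_card_fiberwise (f := h) (s := s.filter (fun a => f a = x)) (t := D)
      (fun a ha => hD a (Finset.mem_filter.1 ha).1)
    simp only [hnx, hnn]
    rw [this]
    push_cast
    refine Finset.sum_congr rfl (fun c _ => ?_)
    rw [Finset.filter_filter, Finset.filter_filter]
    congr 2
    refine Finset.filter_congr (fun a _ => ?_)
    tauto
  have e2 : ∀ c, ∑ x ∈ T, nn x c = nc c := by
    intro c
    have := Finset.card_eq_sum_card_fiberwise (f := f) (s := s.filter (fun a => h a = c)) (t := T)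
      (fun a ha => hT a (Finset.mem_filter.1 ha).1)
    simp only [hnc, hnn]
    rw [this]
    push_cast
    rfl
  have e3 : ∑ x ∈ T, nx x = N := by
    have := Finset.card_eq_sum_card_fiberwise (f := f) (s := s) (t := T) hT
    simp only [hnx, hNdef]
    rw [this]
    push_cast
    rfl
  have e4 : ∑ c ∈ D, nc c = N := by
    have := Finset.card_eq_sum_card_fiberwise (f := h) (s := s) (t := D) hD
    simp only [hnc, hNdef]
    rw [this]
    push_cast
    rfl
  have hl : ∀ c ∈ D, KK (s.filter (fun a => h a = c)) f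
      = ∑ x ∈ T, nn x c * (Real.log (nc c) - Real.log (nn x c)) := by
    intro c _
    rw [KK_eq _ f T (fun a ha => hT a (Finset.mem_filter.1 ha).1)]
    simp only [mul_sub, Finset.sum_sub_distrib, ← Finset.sum_mul, e2 c]
    rfl
  have hr : KK s f = ∑ x ∈ T, ∑ c ∈ D, nn x c * (Real.log N - Real.log (nx x)) := by
    rw [KK_eq _ f T hT]
    simp only [← Finset.sum_mul, e1, mul_sub, Finset.sum_sub_distrib, e3]
    rfl
  rw [Finset.sum_congr rfl hl, hr, Finset.sum_comm]
  have key : ∀ x ∈ T, ∀ c ∈ D, nn x c * (Real.log (nc c) - Real.log (nn x c))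
      ≤ nn x c * (Real.log N - Real.log (nx x)) + (nc c * nx x / N - nn x c) := by
    intro x _ c _
    apply logsum_step
    · simp only [hnn]; positivity
    · simp only [hnn, hnc]; exact_mod_cast Finset.card_filter_le _ _
    · simp only [hnn, hnx]
      rw [Finset.filter_comm]
      exact_mod_cast Finset.card_filter_le _ _
    · simp only [hnx, hNdef]; exact_mod_cast Finset.card_filter_le _ _
  calc ∑ x ∈ T, ∑ c ∈ D, nn x c * (Real.log (nc c) - Real.log (nn x c))
      ≤ ∑ x ∈ T, ∑ c ∈ D, (nn x c * (Real.log N - Real.log (nx x)) + (nc c * nx x / N - nn x c)) :=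
        Finset.sum_le_sum (fun x hx => Finset.sum_le_sum (fun c hc => key x hx c hc))
    _ = ∑ x ∈ T, ∑ c ∈ D, nn x c * (Real.log N - Real.log (nx x)) := by
        simp only [Finset.sum_add_distrib, Finset.sum_sub_distrib, e1, ← Finset.sum_div, ← Finset.sum_mul, e4,
          ← Finset.mul_sum, e3]
        field_simp
        ring

/-- Conditioning on a finer variable decreases the increment of entropy. -/
theorem KK_sub {δ : Type} [DecidableEq β] [DecidableEq γ] [DecidableEq δ] (s : Finset α) (f : α → β) (φ : β → γ)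
    (h : α → δ) (ψ : δ → γ) (hc : ∀ a ∈ s, φ (f a) = ψ (h a)) (Q : Finset δ)
    (hQ : ∀ a ∈ s, h a ∈ Q) :
    ∑ q ∈ Q, KK (s.filter (fun a => h a = q)) f ≤ KK s f - KK s (fun a => φ (f a)) := by
  set D := s.image (fun a => φ (f a)) ∪ Q.image ψ with hDdef
  rw [KK_chain s f φ D (fun a ha => Finset.mem_union_left _ (Finset.mem_image_of_mem _ ha))]
  have h1 : ∀ c ∈ D, ∑ q ∈ Q, KK ((s.filter (fun a => φ (f a) = c)).filter (fun a => h a = q)) f
      ≤ KK (s.filter (fun a => φ (f a) = c)) f := by
    intro c _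
    exact KK_mix _ f h Q (fun a ha => hQ a (Finset.mem_filter.1 ha).1)
  refine le_trans (le_of_eq ?_) (Finset.sum_le_sum h1)
  rw [Finset.sum_comm]
  refine Finset.sum_congr rfl (fun q hq => ?_)
  rw [Finset.sum_eq_single (ψ q)]
  · congr 1
    rw [Finset.filter_filter]
    refine Finset.filter_congr (fun a ha => ?_)
    constructor
    · intro h1
      exact ⟨by rw [hc a ha, h1], h1⟩
    · exact fun h1 => h1.2
  · intro c _ hne
    rw [Finset.filter_filter, Finset.filter_false_of_mem]
    · exact KK_empty f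
    · rintro a ha ⟨h1, h2⟩
      apply hne
      rw [← h1, hc a ha, h2]
  · intro hn
    exact absurd (Finset.mem_union_right _ (Finset.mem_image_of_mem ψ hq)) hn

end G2
end H62w
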