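import Mathlib

set_option autoImplicit false
open Finset
namespace H62w

/-- Entropy of a function on a finite type. -/
noncomputable def hent {G : Type*} [Fintype G] (a : G → ℝ) : ℝ := ∑ x, Real.negMulLog (a x)

/-- Convolution. -/
noncomputable def cnv {G : Type*} [Fintype G] [AddCommGroup G] (a b : G → ℝ) (g : G) : ℝ :=
  ∑ x, b x * a (g - x)

section
variable {G : Type*} [Fintype G] [AddCommGroup G]

theorem hent_shift (a : G → ℝ) (x : G) : ∑ g, Real.negMulLog (a (g - x)) = hent a := by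
  unfold hent
  exact Fintype.sum_equiv (Equiv.subRight x) _ _ (fun g => rfl)

theorem hent_mix (a b : G → ℝ) (hb1 : ∑ x, b x = 1) :
    ∑ g, ∑ x, b x * Real.negMulLog (a (g - x)) = hent a := by
  rw [Finset.sum_comm]
  have : ∀ x ∈ (univ : Finset G), ∑ g, b x * Real.negMulLog (a (g - x)) = b x * hent a := by
    intro x _
    rw [← Finset.mul_sum, hent_shift]
  rw [Finset.sum_congr rfl this, ← Finset.sum_mul, hb1, one_mul]

theorem cnv_point (a b : G → ℝ) (ha : ∀ x, 0 ≤ a x) (hb : ∀ x, 0 ≤ b x) (hb1 : ∑ x, b x = 1) (g : G) :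
    ∑ x, b x * Real.negMulLog (a (g - x)) ≤ Real.negMulLog (cnv a b g) := by
  have h := Real.concaveOn_negMulLog.le_map_sum (t := (univ : Finset G)) (w := b)
    (p := fun x => a (g - x)) (fun i _ => hb i) hb1 (fun i _ => ha _)
  simpa [cnv, smul_eq_mul] using h

/-- Convolution does not decrease the entropy. -/
theorem hent_cnv_ge (a b : G → ℝ) (ha : ∀ x, 0 ≤ a x) (hb : ∀ x, 0 ≤ b x) (hb1 : ∑ x, b x = 1) :
    hent a ≤ hent (cnv a b) := by
  rw [← hent_mix a b hb1]
  exact Finset.sum_le_sum (fun g _ => cnv_point a b ha hb hb1 g)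

theorem cnv_eq_case (a b : G → ℝ) (ha : ∀ x, 0 ≤ a x) (hb : ∀ x, 0 ≤ b x) (hb1 : ∑ x, b x = 1)
    (h : hent (cnv a b) = hent a) (x y : G) (hx : b x ≠ 0) (hy : b y ≠ 0) (g : G) :
    a (g - x) = a (g - y) := by
  have h1 : ∑ g, ∑ x, b x * Real.negMulLog (a (g - x)) = ∑ g, Real.negMulLog (cnv a b g) := by
    rw [hent_mix a b hb1]; exact h.symm
  have h2 := (Finset.sum_eq_sum_iff_of_le (fun g _ => cnv_point a b ha hb hb1 g)).1 h1 g (mem_univ g)
  have h3 := Real.strictConcaveOn_negMulLog.map_sum_eq_iff' (t := (univ : Finset G)) (w := b)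
    (p := fun x => a (g - x)) (fun i _ => hb i) hb1 (fun i _ => ha _)
  have h4 := h3.1 (by simpa [cnv, smul_eq_mul] using h2.symm)
  exact (h4 x (mem_univ x) hx).trans (h4 y (mem_univ y) hy).symm

theorem hent_cont : Continuous (fun a : G → ℝ => hent a) := by
  unfold hent
  exact continuous_finset_sum _ (fun x _ => Real.continuous_negMulLog.comp (continuous_apply x))

theorem cnv_cont : Continuous (fun p : (G → ℝ) × (G → ℝ) => cnv p.1 p.2) := by
  refine continuous_pi (fun g => ?_)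
  unfold cnv
  exact continuous_finset_sum _ (fun x _ =>
    ((continuous_apply x).comp continuous_snd).mul ((continuous_apply (g - x)).comp continuous_fst))

end

/-- A function on `ZMod (3^n)` invariant under a difference of two elements in different classes mod `3` is constant. -/
theorem const_of_inv (n : ℕ) (a : ZMod (3 ^ n) → ℝ) (x y : ZMod (3 ^ n)) (hxy : x.val % 3 ≠ y.val % 3)
    (h : ∀ g, a (g - x) = a (g - y)) (g g' : ZMod (3 ^ n)) : a g = a g' := by
  set u : ZMod (3 ^ n) := x - y with hu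
  have h1 : ∀ g, a (g + u) = a g := by
    intro g
    have := h (g + x)
    rw [add_sub_cancel_right] at this
    rw [this, hu]
    congr 1
    abel
  have h2 : ∀ k : ℤ, ∀ g, a (g + k • u) = a g := by
    intro k
    induction k using Int.induction_on with
    | zero => intro g; simp
    | succ k ih => intro g; rw [add_smul, one_smul, ← add_assoc, h1]; exact ih g
    | pred k ih =>
      intro g
      have := h1 (g + (-(k : ℤ) - 1) • u)
      rw [← this, add_assoc]
      have e : (-(k : ℤ) - 1) • u + u = (-(k : ℤ)) • u := by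
        rw [sub_smul, one_smul]; abel
      rw [e]; exact ih g
  have hcop : IsCoprime ((x.val : ℤ) - y.val) ((3 : ℤ) ^ n) := by
    apply IsCoprime.pow_right
    have hp : Prime (3 : ℤ) := Int.prime_three
    rw [isCoprime_comm]
    refine (Irreducible.coprime_iff_not_dvd hp.irreducible).2 ?_
    intro hd
    omega
  obtain ⟨k, l, hkl⟩ := hcop
  have h3 : k • u = 1 := by
    have e : ((k * ((x.val : ℤ) - y.val) + l * 3 ^ n : ℤ) : ZMod (3 ^ n)) = ((1 : ℤ) : ZMod (3 ^ n)) := by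
      rw [hkl]
    have e3 : (((3 : ℤ) ^ n : ℤ) : ZMod (3 ^ n)) = 0 := by
      have : (((3 ^ n : ℕ) : ℤ) : ZMod (3 ^ n)) = 0 := by
        rw [Int.cast_natCast]; exact ZMod.natCast_self _
      simpa using this
    rw [Int.cast_add, Int.cast_mul, Int.cast_mul, e3, mul_zero, add_zero, Int.cast_sub,
      Int.cast_natCast, Int.cast_natCast, ZMod.natCast_zmod_val, ZMod.natCast_zmod_val, Int.cast_one] at e
    rw [zsmul_eq_mul]; exact e
  have h4 : ∀ m : ℤ, a ((m : ZMod (3 ^ n))) = a 0 := by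
    intro m
    have := h2 (m * k) 0
    rw [zero_add, mul_smul, h3, zsmul_eq_mul, mul_one] at this
    exact this
  have h5 : ∀ g : ZMod (3 ^ n), a g = a 0 := by
    intro g
    have := h4 (g.val : ℤ)
    rwa [Int.cast_natCast, ZMod.natCast_zmod_val] at this
  rw [h5 g, h5 g']

/-- G1, the window lemma. -/
theorem window (n : ℕ) (η δ : ℝ) (hη : 0 < η) (hδ : 0 < δ) :
    ∃ γ : ℝ, 0 < γ ∧ ∀ a b : ZMod (3 ^ n) → ℝ, (∀ x, 0 ≤ a x) → ∑ x, a x = 1 → (∀ x, 0 ≤ b x) → ∑ x, b x = 1 →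
      (∃ w, η ≤ |a w - 1 / 3 ^ n|) →
      (∀ r ∈ range 3, ∑ x ∈ univ.filter (fun x : ZMod (3 ^ n) => x.val % 3 = r), b x ≤ 1 - δ) →
      hent a + γ ≤ hent (cnv a b) := by
  classical
  let K : Set ((ZMod (3 ^ n) → ℝ) × (ZMod (3 ^ n) → ℝ)) :=
    {p | p.1 ∈ stdSimplex ℝ (ZMod (3 ^ n)) ∧ p.2 ∈ stdSimplex ℝ (ZMod (3 ^ n)) ∧
      (∃ w, η ≤ |p.1 w - 1 / 3 ^ n|) ∧
      (∀ r ∈ range 3, ∑ x ∈ univ.filter (fun x : ZMod (3 ^ n) => x.val % 3 = r), p.2 x ≤ 1 - δ)}
  have hKc : IsCompact K := by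
    have h1 : IsCompact ((stdSimplex ℝ (ZMod (3 ^ n))) ×ˢ (stdSimplex ℝ (ZMod (3 ^ n)))) :=
      (isCompact_stdSimplex ℝ (ZMod (3 ^ n))).prod (isCompact_stdSimplex ℝ (ZMod (3 ^ n)))
    have h2 : IsClosed {p : (ZMod (3 ^ n) → ℝ) × (ZMod (3 ^ n) → ℝ) | ∃ w, η ≤ |p.1 w - 1 / 3 ^ n|} := by
      have : {p : (ZMod (3 ^ n) → ℝ) × (ZMod (3 ^ n) → ℝ) | ∃ w, η ≤ |p.1 w - 1 / 3 ^ n|}
          = ⋃ w : ZMod (3 ^ n), {p | η ≤ |p.1 w - 1 / 3 ^ n|} := by
        ext p; simp
      rw [this]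
      refine isClosed_iUnion_of_finite (fun w => ?_)
      exact isClosed_le continuous_const
        ((((continuous_apply w).comp continuous_fst).sub continuous_const).abs)
    have h3 : IsClosed {p : (ZMod (3 ^ n) → ℝ) × (ZMod (3 ^ n) → ℝ) |
        ∀ r ∈ range 3, ∑ x ∈ univ.filter (fun x : ZMod (3 ^ n) => x.val % 3 = r), p.2 x ≤ 1 - δ} := by
      have : {p : (ZMod (3 ^ n) → ℝ) × (ZMod (3 ^ n) → ℝ) |
        ∀ r ∈ range 3, ∑ x ∈ univ.filter (fun x : ZMod (3 ^ n) => x.val % 3 = r), p.2 x ≤ 1 - δ}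
          = ⋂ r ∈ range 3, {p | ∑ x ∈ univ.filter (fun x : ZMod (3 ^ n) => x.val % 3 = r), p.2 x ≤ 1 - δ} := by
        ext p; simp
      rw [this]
      refine isClosed_biInter (fun r _ => ?_)
      exact isClosed_le (continuous_finset_sum _ (fun x _ => (continuous_apply x).comp continuous_snd))
        continuous_const
    refine (h1.inter_right (h2.inter h3)).of_isClosed_subset ?_ ?_
    · have : K = ((stdSimplex ℝ (ZMod (3 ^ n))) ×ˢ (stdSimplex ℝ (ZMod (3 ^ n)))) ∩
          ({p | ∃ w, η ≤ |p.1 w - 1 / 3 ^ n|} ∩ {p |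
        ∀ r ∈ range 3, ∑ x ∈ univ.filter (fun x : ZMod (3 ^ n) => x.val % 3 = r), p.2 x ≤ 1 - δ}) := by
        ext p
        simp only [K, Set.mem_setOf_eq, Set.mem_inter_iff, Set.mem_prod]
        tauto
      rw [this]
      exact h1.isClosed.inter (h2.inter h3)
    · intro p hp
      exact ⟨⟨hp.1, hp.2.1⟩, hp.2.2.1, hp.2.2.2⟩
  have hfc : Continuous (fun p : (ZMod (3 ^ n) → ℝ) × (ZMod (3 ^ n) → ℝ) =>
      hent (cnv p.1 p.2) - hent p.1) :=
    (hent_cont.comp cnv_cont).sub (hent_cont.comp continuous_fst)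
  rcases K.eq_empty_or_nonempty with hE | hNE
  · refine ⟨1, one_pos, fun a b ha ha1 hb hb1 hw hr => ?_⟩
    exact absurd (show (a, b) ∈ K from ⟨⟨ha, ha1⟩, ⟨hb, hb1⟩, hw, hr⟩) (by rw [hE]; exact Set.notMem_empty _)
  · obtain ⟨p, hpK, hpm⟩ := hKc.exists_isMinOn hNE hfc.continuousOn
    refine ⟨hent (cnv p.1 p.2) - hent p.1, ?_, fun a b ha ha1 hb hb1 hw hr => ?_⟩
    · obtain ⟨⟨ha, ha1⟩, ⟨hb, hb1⟩, ⟨w, hw⟩, hr⟩ := hpK
      have hge := hent_cnv_ge p.1 p.2 ha hb hb1
      rcases hge.lt_or_eq with hlt | heq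
      · linarith
      · exfalso
        obtain ⟨x, hx⟩ : ∃ x, p.2 x ≠ 0 := by
          by_contra hcon
          push Not at hcon
          simp [hcon] at hb1
        obtain ⟨y, hy, hyx⟩ : ∃ y, p.2 y ≠ 0 ∧ y.val % 3 ≠ x.val % 3 := by
          by_contra hcon
          push Not at hcon
          have h1 := hr (x.val % 3) (mem_range.2 (Nat.mod_lt _ (by norm_num)))
          have h2 : ∑ z ∈ univ.filter (fun z : ZMod (3 ^ n) => z.val % 3 = x.val % 3), p.2 z = ∑ z, p.2 z := by
            rw [Finset.sum_filter]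
            refine Finset.sum_congr rfl (fun z _ => ?_)
            by_cases hz : p.2 z = 0
            · simp [hz]
            · rw [if_pos (hcon z hz)]
          rw [h2, hb1] at h1
          linarith
        have hinv : ∀ g, p.1 (g - x) = p.1 (g - y) := fun g =>
          cnv_eq_case p.1 p.2 ha hb hb1 heq.symm x y hx hy g
        have hc := const_of_inv n p.1 x y (fun h => hyx h.symm) hinv
        have hcw : p.1 w = 1 / 3 ^ n := by
          have : ∑ z, p.1 z = (3 ^ n : ℕ) * p.1 w := by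
            rw [Finset.sum_congr rfl (fun z _ => hc z w), Finset.sum_const, Finset.card_univ, ZMod.card,
              nsmul_eq_mul]
          rw [ha1] at this
          push_cast at this
          field_simp
          linarith
        rw [hcw, sub_self, abs_zero] at hw
        linarith
    · have := hpm (show (a, b) ∈ K from ⟨⟨ha, ha1⟩, ⟨hb, hb1⟩, hw, hr⟩)
      simp only [Set.mem_setOf_eq] at this
      linarith

end H62w
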