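import Pool.Agent.Lib.H62w.GEnt
import Pool.Agent.Lib.H62w.Window

/-!
Chunk G2, G3: growth of entropies under convolution, number of non-atomic digits.
-/

set_option autoImplicit false
open Finset
namespace H62w

theorem window_gain (n : ℕ) (η δ : ℝ) (hη : 0 < η) (hδ : 0 < δ) :
    ∃ γ : ℝ, 0 < γ ∧ ∀ a b : ZMod (3 ^ n) → ℝ, (∀ g, 0 ≤ a g) → ∑ g, a g = 1 → (∀ g, 0 ≤ b g) → ∑ g, b g = 1 →
      (∃ w, η < |a w - 1 / 3 ^ n|) →
      (∀ d : ℕ, d < 3 → ∑ g ∈ Finset.univ.filter (fun g : ZMod (3 ^ n) => g.val % 3 = d), b g ≤ 1 - δ) →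
      ∑ g, Real.negMulLog (a g) + γ ≤ ∑ g, Real.negMulLog (∑ h, a (g - h) * b h) := by
  obtain ⟨γ, hγ, H⟩ := window n η δ hη hδ
  refine ⟨γ, hγ, fun a b ha ha1 hb hb1 hw hd => ?_⟩
  obtain ⟨w, hw⟩ := hw
  have := H a b ha ha1 hb hb1 ⟨w, hw.le⟩ (fun r hr => hd r (Finset.mem_range.1 hr))
  unfold hent cnv at this
  simpa only [mul_comm] using this

theorem window_nonneg (n : ℕ) (a b : ZMod (3 ^ n) → ℝ) (ha : ∀ g, 0 ≤ a g)
    (hb : ∀ g, 0 ≤ b g) (hb1 : ∑ g, b g = 1) :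
    ∑ g, Real.negMulLog (a g) ≤ ∑ g, Real.negMulLog (∑ h, a (g - h) * b h) := by
  have := hent_cnv_ge a b ha hb hb1
  unfold hent cnv at this
  simpa only [mul_comm] using this

namespace G2

/-- Class of `A` modulo `3^i`. -/
def cl (A : Finset ℕ) (i u : ℕ) : Finset ℕ := A.filter (fun x => x % 3 ^ i = u)

theorem cls_eq {A : Finset ℕ} {i u θ : ℕ} (h : θ ∈ cl A i u) : cls A i θ = cl A i u := by
  unfold cls cl
  rw [(Finset.mem_filter.1 h).2]

/-- Congruence of windows. -/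
theorem win_iff (i n a b u : ℕ) (x y : ℕ) (hx : x = a + 3 ^ i * u) (hy : y = a + 3 ^ i * b) :
    x % 3 ^ (i + n) = y % 3 ^ (i + n) ↔ ((u : ℕ) : ZMod (3 ^ n)) = ((b : ℕ) : ZMod (3 ^ n)) := by
  rw [ZMod.natCast_eq_natCast_iff]
  subst hx hy
  change _ ≡ _ [MOD _] ↔ _
  rw [pow_add]
  constructor
  · intro h
    have := Nat.ModEq.add_left_cancel' a h
    exact Nat.ModEq.mul_left_cancel' (pow_ne_zero _ (by norm_num)) this
  · intro h
    exact (Nat.ModEq.mul_left' (3 ^ i) h).add_left a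

theorem unit_c (n c : ℕ) (hc : c % 3 ≠ 0) : IsUnit ((c : ℕ) : ZMod (3 ^ n)) := by
  rw [ZMod.isUnit_iff_coprime]
  apply Nat.Coprime.pow_right
  rw [Nat.coprime_comm, Nat.Prime.coprime_iff_not_dvd (by norm_num)]
  omega

/-- Window function. -/
def wf (i n c : ℕ) (x : ℕ) : ZMod (3 ^ n) := ((c : ℕ) : ZMod (3 ^ n)) * ((x / 3 ^ i : ℕ) : ZMod (3 ^ n))

/-- Window function of the sum. -/
def wf2 (i n c : ℕ) (p : ℕ × ℕ) : ZMod (3 ^ n) := wf i n c p.1 + ((p.2 / 3 ^ i : ℕ) : ZMod (3 ^ n))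

theorem KK_one (A : Finset ℕ) (i n c u : ℕ) (hc : c % 3 ≠ 0) :
    KK (cl A i u) (fun x => x % 3 ^ (i + n)) = KK (cl A i u) (wf i n c) := by
  apply KK_congr
  intro a ha b hb
  have ha' := (Finset.mem_filter.1 ha).2
  have hb' := (Finset.mem_filter.1 hb).2
  rw [win_iff i n u (a / 3 ^ i) (b / 3 ^ i) b a
    (by rw [← hb', Nat.mod_add_div]) (by rw [← ha', Nat.mod_add_div])]
  unfold wf
  exact ((unit_c n c hc).mul_right_inj).symm

theorem KK_two (A B : Finset ℕ) (i n c u v : ℕ) :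
    KK (cl A i u ×ˢ cl B i v) (fun p => (c * p.1 + p.2) % 3 ^ (i + n))
      = KK (cl A i u ×ˢ cl B i v) (wf2 i n c) := by
  apply KK_congr
  intro a ha b hb
  obtain ⟨ha1, ha2⟩ := Finset.mem_product.1 ha
  obtain ⟨hb1, hb2⟩ := Finset.mem_product.1 hb
  have e1 := (Finset.mem_filter.1 ha1).2
  have e2 := (Finset.mem_filter.1 ha2).2
  have e3 := (Finset.mem_filter.1 hb1).2
  have e4 := (Finset.mem_filter.1 hb2).2
  have f1 := Nat.mod_add_div a.1 (3 ^ i)
  have f2 := Nat.mod_add_div a.2 (3 ^ i)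
  have f3 := Nat.mod_add_div b.1 (3 ^ i)
  have f4 := Nat.mod_add_div b.2 (3 ^ i)
  rw [e1] at f1
  rw [e2] at f2
  rw [e3] at f3
  rw [e4] at f4
  rw [win_iff i n (c * u + v) (c * (a.1 / 3 ^ i) + a.2 / 3 ^ i) (c * (b.1 / 3 ^ i) + b.2 / 3 ^ i)
    (c * b.1 + b.2) (c * a.1 + a.2) (by nth_rewrite 1 [← f3]; nth_rewrite 1 [← f4]; ring)
    (by nth_rewrite 1 [← f1]; nth_rewrite 1 [← f2]; ring)]
  unfold wf2 wf
  push_cast
  rfl

/-- Law of the window of the first summand. -/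
noncomputable def la (A : Finset ℕ) (i n c : ℕ) (g : ZMod (3 ^ n)) : ℝ :=
  ((A.filter (fun x => wf i n c x = g)).card : ℝ) / A.card

/-- Law of the window of the second summand. -/
noncomputable def lb (B : Finset ℕ) (i n : ℕ) (g : ZMod (3 ^ n)) : ℝ :=
  ((B.filter (fun y => ((y / 3 ^ i : ℕ) : ZMod (3 ^ n)) = g)).card : ℝ) / B.card

theorem la_nonneg (A : Finset ℕ) (i n c : ℕ) (g : ZMod (3 ^ n)) : 0 ≤ la A i n c g := by
  unfold la; positivity

theorem lb_nonneg (B : Finset ℕ) (i n : ℕ) (g : ZMod (3 ^ n)) : 0 ≤ lb B i n g := by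
  unfold lb; positivity

theorem sum_filter_card {α : Type} {n : ℕ} (A : Finset α) (f : α → ZMod (3 ^ n)) :
    ∑ g, ((A.filter (fun x => f x = g)).card : ℝ) = A.card := by
  have := Finset.card_eq_sum_card_fiberwise (f := f) (s := A) (t := Finset.univ) (fun _ _ => Finset.mem_univ _)
  rw [this]
  push_cast
  rfl

theorem la_sum (A : Finset ℕ) (i n c : ℕ) (hA : A.Nonempty) : ∑ g, la A i n c g = 1 := by
  unfold la
  have hN : (A.card : ℝ) ≠ 0 := by exact_mod_cast (Finset.card_pos.2 hA).ne'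
  rw [← Finset.sum_div, sum_filter_card, div_self hN]

theorem lb_sum (B : Finset ℕ) (i n : ℕ) (hB : B.Nonempty) : ∑ g, lb B i n g = 1 := by
  unfold lb
  have hN : (B.card : ℝ) ≠ 0 := by exact_mod_cast (Finset.card_pos.2 hB).ne'
  rw [← Finset.sum_div, sum_filter_card B (fun y => ((y / 3 ^ i : ℕ) : ZMod (3 ^ n))), div_self hN]

theorem conv_eq (A B : Finset ℕ) (i n c : ℕ) (g : ZMod (3 ^ n)) :
    (((A ×ˢ B).filter (fun p => wf2 i n c p = g)).card : ℝ) / (A ×ˢ B).card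
      = ∑ h, la A i n c (g - h) * lb B i n h := by
  unfold la lb
  have h1 : ((A ×ˢ B).filter (fun p => wf2 i n c p = g)).card
      = ∑ h : ZMod (3 ^ n), (A.filter (fun x => wf i n c x = g - h)).card
        * (B.filter (fun y => ((y / 3 ^ i : ℕ) : ZMod (3 ^ n)) = h)).card := by
    rw [Finset.card_eq_sum_card_fiberwise (f := fun p : ℕ × ℕ => ((p.2 / 3 ^ i : ℕ) : ZMod (3 ^ n)))
      (t := Finset.univ) (fun _ _ => Finset.mem_univ _)]
    refine Finset.sum_congr rfl (fun h _ => ?_)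
    rw [← Finset.card_product, ← Finset.filter_product, Finset.filter_filter]
    congr 1
    refine Finset.filter_congr (fun p _ => ?_)
    unfold wf2
    constructor
    · rintro ⟨h1, h2⟩
      refine ⟨?_, h2⟩
      rw [← h1, h2]
      ring
    · rintro ⟨h1, h2⟩
      refine ⟨?_, h2⟩
      rw [h1, h2]
      ring
  rw [h1]
  push_cast
  rw [Finset.card_product]
  push_cast
  rw [Finset.sum_div]
  refine Finset.sum_congr rfl (fun h _ => ?_)
  rw [div_mul_div_comm]

theorem pair_ge (A B : Finset ℕ) (i n c : ℕ) :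
    (B.card : ℝ) * KK A (wf i n c) ≤ KK (A ×ˢ B) (wf2 i n c) := by
  rcases A.eq_empty_or_nonempty with rfl | hA
  · simp [KK]
  rcases B.eq_empty_or_nonempty with rfl | hB
  · simp [KK]
  rw [KK_neg A (wf i n c) Finset.univ (fun _ _ => Finset.mem_univ _),
    KK_neg (A ×ˢ B) (wf2 i n c) Finset.univ (fun _ _ => Finset.mem_univ _)]
  simp only [conv_eq]
  have h := window_nonneg n (la A i n c) (lb B i n) (la_nonneg A i n c) (lb_nonneg B i n)
    (lb_sum B i n hB)
  have h2 : ((A ×ˢ B).card : ℝ) = (B.card : ℝ) * A.card := by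
    rw [Finset.card_product]; push_cast; ring
  rw [h2, mul_assoc]
  refine mul_le_mul_of_nonneg_left ?_ (by positivity)
  exact mul_le_mul_of_nonneg_left h (by positivity)

/-- The class is not uniform. -/
def nonfull (A : Finset ℕ) (i n : ℕ) (η : ℝ) : Prop :=
  ¬ ∀ w ∈ range (3 ^ n), |((A.filter (fun x => x / 3 ^ i % 3 ^ n = w)).card : ℝ) / A.card - 1 / 3 ^ n| ≤ η

/-- The digit is not atomic. -/
def nonat (B : Finset ℕ) (i : ℕ) (δ : ℝ) : Prop :=
  ∀ d ∈ range 3, ((B.filter (fun x => x / 3 ^ i % 3 = d)).card : ℝ) ≤ (1 - δ) * B.card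

theorem pair_gain {n : ℕ} (hn : 1 ≤ n) {η δ γ : ℝ}
    (Hγ : ∀ a b : ZMod (3 ^ n) → ℝ, (∀ g, 0 ≤ a g) → ∑ g, a g = 1 → (∀ g, 0 ≤ b g) → ∑ g, b g = 1 →
      (∃ w, η < |a w - 1 / 3 ^ n|) →
      (∀ d : ℕ, d < 3 → ∑ g ∈ Finset.univ.filter (fun g : ZMod (3 ^ n) => g.val % 3 = d), b g ≤ 1 - δ) →
      ∑ g, Real.negMulLog (a g) + γ ≤ ∑ g, Real.negMulLog (∑ h, a (g - h) * b h))
    (A B : Finset ℕ) (i c : ℕ) (hc : c % 3 ≠ 0) (hf : nonfull A i n η) (hb : nonat B i δ) :
    (B.card : ℝ) * KK A (wf i n c) + γ * ((A.card : ℝ) * B.card) ≤ KK (A ×ˢ B) (wf2 i n c) := by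
  rcases A.eq_empty_or_nonempty with rfl | hA
  · simp [KK]
  rcases B.eq_empty_or_nonempty with rfl | hB
  · simp [KK]
  have hAc : (0 : ℝ) < A.card := by exact_mod_cast Finset.card_pos.2 hA
  have hBc : (0 : ℝ) < B.card := by exact_mod_cast Finset.card_pos.2 hB
  rw [KK_neg A (wf i n c) Finset.univ (fun _ _ => Finset.mem_univ _),
    KK_neg (A ×ˢ B) (wf2 i n c) Finset.univ (fun _ _ => Finset.mem_univ _)]
  simp only [conv_eq]
  have h := Hγ (la A i n c) (lb B i n) (la_nonneg A i n c) (la_sum A i n c hA) (lb_nonneg B i n)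
    (lb_sum B i n hB) ?_ ?_
  · have h2 : ((A ×ˢ B).card : ℝ) = (B.card : ℝ) * A.card := by
      rw [Finset.card_product]; push_cast; ring
    rw [h2]
    have h3 := mul_le_mul_of_nonneg_left h (show (0 : ℝ) ≤ (B.card : ℝ) * A.card by positivity)
    refine le_trans (le_of_eq ?_) h3
    unfold la
    ring
  · unfold nonfull at hf
    push Not at hf
    obtain ⟨w, hw, hw2⟩ := hf
    refine ⟨((c * w : ℕ) : ZMod (3 ^ n)), ?_⟩
    have h5 : A.filter (fun x => wf i n c x = ((c * w : ℕ) : ZMod (3 ^ n)))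
        = A.filter (fun x => x / 3 ^ i % 3 ^ n = w) := by
      refine Finset.filter_congr (fun x _ => ?_)
      unfold wf
      push_cast
      rw [(unit_c n c hc).mul_right_inj, ZMod.natCast_eq_natCast_iff]
      rw [Nat.ModEq, Nat.mod_eq_of_lt (Finset.mem_range.1 hw)]
    unfold la
    rw [h5]
    exact hw2
  · intro d hd
    have h5 : ∑ g ∈ Finset.univ.filter (fun g : ZMod (3 ^ n) => g.val % 3 = d), lb B i n g
        = ((B.filter (fun x => x / 3 ^ i % 3 = d)).card : ℝ) / B.card := by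
      unfold lb
      rw [← Finset.sum_div]
      congr 1
      have := Finset.card_eq_sum_card_fiberwise (f := fun y => ((y / 3 ^ i : ℕ) : ZMod (3 ^ n)))
        (s := B.filter (fun x => x / 3 ^ i % 3 = d))
        (t := Finset.univ.filter (fun g : ZMod (3 ^ n) => g.val % 3 = d)) ?_
      · rw [this]
        push_cast
        refine Finset.sum_congr rfl (fun g hg => ?_)
        rw [Finset.filter_filter]
        congr 2
        refine Finset.filter_congr (fun y _ => ?_)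
        constructor
        · rintro rfl
          refine ⟨?_, rfl⟩
          have := (Finset.mem_filter.1 hg).2
          rw [ZMod.val_natCast, Nat.mod_mod_of_dvd _ (dvd_pow_self 3 (by omega))] at this
          exact this
        · exact fun h => h.2
      · intro y hy
        have hy2 := (Finset.mem_filter.1 hy).2
        simp only [Finset.coe_filter, Finset.mem_univ, true_and, Set.mem_ofPred_eq]
        rw [ZMod.val_natCast, Nat.mod_mod_of_dvd _ (dvd_pow_self 3 (by omega))]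
        exact hy2
    rw [h5, div_le_iff₀ hBc]
    exact hb d (Finset.mem_range.2 hd)

theorem card_cl (A : Finset ℕ) (i : ℕ) : (A.card : ℝ) = ∑ u ∈ range (3 ^ i), ((cl A i u).card : ℝ) := by
  have := Finset.card_eq_sum_card_fiberwise (f := fun x => x % 3 ^ i) (s := A) (t := range (3 ^ i))
    (fun x _ => Finset.mem_coe.2 (Finset.mem_range.2 (Nat.mod_lt _ (by positivity))))
  rw [this]
  push_cast
  rfl

theorem mem_full {A : Finset ℕ} {i n : ℕ} {η : ℝ} {x : ℕ} : x ∈ full A i n η ↔ x ∈ A ∧ ∀ w ∈ range (3 ^ n),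
    |(((cls A i x).filter (fun x => x / 3 ^ i % 3 ^ n = w)).card : ℝ) / (cls A i x).card - 1 / 3 ^ n| ≤ η := by
  unfold full
  simp only [Finset.mem_filter]

theorem mem_nat1 {A : Finset ℕ} {i : ℕ} {δ : ℝ} {x : ℕ} : x ∈ nat1 A i δ ↔ x ∈ A ∧ ∀ d ∈ range 3,
    (((cls A i x).filter (fun x => x / 3 ^ i % 3 = d)).card : ℝ) ≤ (1 - δ) * (cls A i x).card := by
  unfold nat1
  simp only [Finset.mem_filter]

open Classical in
theorem card_nonfull (A : Finset ℕ) (i n : ℕ) (η : ℝ) :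
    ∑ u ∈ range (3 ^ i), (if nonfull (cl A i u) i n η then ((cl A i u).card : ℝ) else 0)
      = A.card - (full A i n η).card := by
  have h1 : ((full A i n η).card : ℝ) = ∑ u ∈ range (3 ^ i), (if nonfull (cl A i u) i n η then 0 else ((cl A i u).card : ℝ)) := by
    have := Finset.card_eq_sum_card_fiberwise (f := fun x => x % 3 ^ i) (s := full A i n η) (t := range (3 ^ i))
      (fun x _ => Finset.mem_coe.2 (Finset.mem_range.2 (Nat.mod_lt _ (by positivity))))
    rw [this]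
    push_cast
    refine Finset.sum_congr rfl (fun u _ => ?_)
    have h2 : (full A i n η).filter (fun x => x % 3 ^ i = u)
        = if nonfull (cl A i u) i n η then ∅ else cl A i u := by
      split_ifs with h
      · apply Finset.filter_eq_empty_iff.2
        intro x hx hxu
        obtain ⟨hxA, hx2⟩ := mem_full.1 hx
        rw [cls_eq (show x ∈ cl A i u from Finset.mem_filter.2 ⟨hxA, hxu⟩)] at hx2
        exact h hx2
      · unfold nonfull at h
        push Not at h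
        ext x
        constructor
        · intro hx
          obtain ⟨hx1, hx2⟩ := Finset.mem_filter.1 hx
          exact Finset.mem_filter.2 ⟨(mem_full.1 hx1).1, hx2⟩
        · intro hx
          obtain ⟨hx1, hx2⟩ := Finset.mem_filter.1 hx
          refine Finset.mem_filter.2 ⟨mem_full.2 ⟨hx1, ?_⟩, hx2⟩
          rw [cls_eq hx]
          exact h
    rw [h2]
    split_ifs
    · simp
    · rfl
  rw [h1, card_cl A i, ← Finset.sum_sub_distrib]
  refine Finset.sum_congr rfl (fun u _ => ?_)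
  split_ifs
  · ring
  · ring

open Classical in
theorem card_nonat (B : Finset ℕ) (i : ℕ) (δ : ℝ) :
    ∑ v ∈ range (3 ^ i), (if nonat (cl B i v) i δ then ((cl B i v).card : ℝ) else 0)
      = (nat1 B i δ).card := by
  have := Finset.card_eq_sum_card_fiberwise (f := fun x => x % 3 ^ i) (s := nat1 B i δ) (t := range (3 ^ i))
    (fun x _ => Finset.mem_coe.2 (Finset.mem_range.2 (Nat.mod_lt _ (by positivity))))
  rw [this]
  push_cast
  refine Finset.sum_congr rfl (fun u _ => ?_)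
  have h2 : (nat1 B i δ).filter (fun x => x % 3 ^ i = u)
      = if nonat (cl B i u) i δ then cl B i u else ∅ := by
    split_ifs with h
    · unfold nonat at h
      ext x
      constructor
      · intro hx
        obtain ⟨hx1, hx2⟩ := Finset.mem_filter.1 hx
        exact Finset.mem_filter.2 ⟨(mem_nat1.1 hx1).1, hx2⟩
      · intro hx
        obtain ⟨hx1, hx2⟩ := Finset.mem_filter.1 hx
        refine Finset.mem_filter.2 ⟨mem_nat1.2 ⟨hx1, ?_⟩, hx2⟩
        rw [cls_eq hx]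
        exact h
    · apply Finset.filter_eq_empty_iff.2
      intro x hx hxu
      obtain ⟨hxA, hx2⟩ := mem_nat1.1 hx
      rw [cls_eq (show x ∈ cl B i u from Finset.mem_filter.2 ⟨hxA, hxu⟩)] at hx2
      exact h hx2
  rw [h2]
  split_ifs
  · rfl
  · simp

/-- The quantity which grows. -/
noncomputable def DD (A B : Finset ℕ) (c j : ℕ) : ℝ :=
  KK (A ×ˢ B) (fun p => (c * p.1 + p.2) % 3 ^ j) - B.card * KK A (fun x => x % 3 ^ j)

theorem DD_step (A B : Finset ℕ) (c : ℕ) (hc : c % 3 ≠ 0) (i n : ℕ) (G : ℕ → ℕ → ℝ)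
    (HG : ∀ u v, (((cl B i v).card : ℕ) : ℝ) * KK (cl A i u) (wf i n c) + G u v
      ≤ KK (cl A i u ×ˢ cl B i v) (wf2 i n c)) :
    DD A B c i + ∑ u ∈ range (3 ^ i), ∑ v ∈ range (3 ^ i), G u v ≤ DD A B c (i + n) := by
  have h1 := KK_sub (A ×ˢ B) (fun p => (c * p.1 + p.2) % 3 ^ (i + n)) (fun x => x % 3 ^ i)
    (fun p => (p.1 % 3 ^ i, p.2 % 3 ^ i)) (fun q => (c * q.1 + q.2) % 3 ^ i)
    (fun p _ => by
      simp only
      rw [Nat.mod_mod_of_dvd _ (pow_dvd_pow 3 (Nat.le_add_right i n))]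
      simp [Nat.add_mod, Nat.mul_mod]) (range (3 ^ i) ×ˢ range (3 ^ i))
    (fun p _ => Finset.mem_product.2 ⟨Finset.mem_range.2 (Nat.mod_lt _ (by positivity)),
      Finset.mem_range.2 (Nat.mod_lt _ (by positivity))⟩)
  have h2 := KK_chain A (fun x => x % 3 ^ (i + n)) (fun x => x % 3 ^ i) (range (3 ^ i))
    (fun x _ => Finset.mem_range.2 (Nat.mod_lt _ (by positivity)))
  have e1 : (fun p : ℕ × ℕ => (c * p.1 + p.2) % 3 ^ (i + n) % 3 ^ i) = (fun p => (c * p.1 + p.2) % 3 ^ i) := by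
    funext p
    exact Nat.mod_mod_of_dvd _ (pow_dvd_pow 3 (Nat.le_add_right i n))
  have e2 : (fun x : ℕ => x % 3 ^ (i + n) % 3 ^ i) = (fun x => x % 3 ^ i) := by
    funext p
    exact Nat.mod_mod_of_dvd _ (pow_dvd_pow 3 (Nat.le_add_right i n))
  rw [e1] at h1
  rw [e2] at h2
  have h3 : ∀ u ∈ range (3 ^ i), KK (A.filter (fun a => a % 3 ^ (i + n) % 3 ^ i = u)) (fun x => x % 3 ^ (i + n))
      = KK (cl A i u) (wf i n c) := by
    intro u _
    rw [← KK_one A i n c u hc]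
    congr 1
    unfold cl
    refine Finset.filter_congr (fun x _ => ?_)
    rw [Nat.mod_mod_of_dvd _ (pow_dvd_pow 3 (Nat.le_add_right i n))]
  rw [Finset.sum_congr rfl h3] at h2
  have h4 : ∀ q ∈ range (3 ^ i) ×ˢ range (3 ^ i),
      KK ((A ×ˢ B).filter (fun p => (p.1 % 3 ^ i, p.2 % 3 ^ i) = q)) (fun p => (c * p.1 + p.2) % 3 ^ (i + n))
      = KK (cl A i q.1 ×ˢ cl B i q.2) (wf2 i n c) := by
    intro q _
    rw [← KK_two A B i n c q.1 q.2]
    congr 1
    unfold cl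
    rw [← Finset.filter_product]
    refine Finset.filter_congr (fun x _ => ?_)
    rw [Prod.ext_iff]
  rw [Finset.sum_congr rfl h4, Finset.sum_product] at h1
  have h5 : ∑ u ∈ range (3 ^ i), ∑ v ∈ range (3 ^ i),
      ((((cl B i v).card : ℕ) : ℝ) * KK (cl A i u) (wf i n c) + G u v)
      ≤ ∑ u ∈ range (3 ^ i), ∑ v ∈ range (3 ^ i), KK (cl A i u ×ˢ cl B i v) (wf2 i n c) :=
    Finset.sum_le_sum (fun u _ => Finset.sum_le_sum (fun v _ => HG u v))
  simp only [Finset.sum_add_distrib, ← Finset.sum_mul, ← Finset.mul_sum] at h5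
  rw [← card_cl B i, ← h2] at h5
  unfold DD
  linarith

theorem DD_mono (A B : Finset ℕ) (c : ℕ) (hc : c % 3 ≠ 0) {i j : ℕ} (hij : i ≤ j) :
    DD A B c i ≤ DD A B c j := by
  obtain ⟨n, rfl⟩ := Nat.exists_eq_add_of_le hij
  have := DD_step A B c hc i n (fun _ _ => 0) (fun u v => by
    rw [add_zero]
    exact pair_ge _ _ _ _ _)
  simpa using this

theorem DD_zero (A B : Finset ℕ) (c : ℕ) : DD A B c 0 = 0 := by
  unfold DD
  rw [KK_const, KK_const]
  · ring
  · intro a _ b _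
    simp [Nat.mod_one]
  · intro a _ b _
    simp [Nat.mod_one]

open Classical in
theorem DD_gain {n : ℕ} (hn : 1 ≤ n) {η δ γ : ℝ}
    (Hγ : ∀ a b : ZMod (3 ^ n) → ℝ, (∀ g, 0 ≤ a g) → ∑ g, a g = 1 → (∀ g, 0 ≤ b g) → ∑ g, b g = 1 →
      (∃ w, η < |a w - 1 / 3 ^ n|) →
      (∀ d : ℕ, d < 3 → ∑ g ∈ Finset.univ.filter (fun g : ZMod (3 ^ n) => g.val % 3 = d), b g ≤ 1 - δ) →
      ∑ g, Real.negMulLog (a g) + γ ≤ ∑ g, Real.negMulLog (∑ h, a (g - h) * b h))
    (A B : Finset ℕ) (i c : ℕ) (hc : c % 3 ≠ 0) :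
    DD A B c i + γ * ((A.card - (full A i n η).card) * (nat1 B i δ).card) ≤ DD A B c (i + n) := by
  have h := DD_step A B c hc i n
    (fun u v => γ * ((if nonfull (cl A i u) i n η then ((cl A i u).card : ℝ) else 0)
      * (if nonat (cl B i v) i δ then ((cl B i v).card : ℝ) else 0))) ?_
  · refine le_trans (le_of_eq ?_) h
    rw [← card_nonfull A i n η, ← card_nonat B i δ, Finset.sum_mul_sum, Finset.mul_sum]
    simp only [Finset.mul_sum]
  · intro u v
    by_cases h1 : nonfull (cl A i u) i n η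
    · by_cases h2 : nonat (cl B i v) i δ
      · rw [if_pos h1, if_pos h2]
        exact pair_gain hn Hγ _ _ i c hc h1 h2
      · rw [if_neg h2]
        simpa using pair_ge (cl A i u) (cl B i v) i n c
    · rw [if_neg h1]
      simpa using pair_ge (cl A i u) (cl B i v) i n c

/-- Telescoping with a step of length `n`. -/
theorem tele (D : ℕ → ℝ) (n Q : ℕ) (hn : n ≤ Q) (h0 : 0 ≤ D 0) (hmono : ∀ i j, i ≤ j → D i ≤ D j) :
    ∑ i ∈ range (Q + 1 - n), (D (i + n) - D i) ≤ n * D Q := by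
  rw [Finset.sum_sub_distrib]
  have h1 : ∑ i ∈ range (Q + 1 - n), D (i + n) = ∑ i ∈ Ico n (Q + 1), D i := by
    rw [Finset.sum_Ico_eq_sum_range]
    refine Finset.sum_congr rfl (fun i _ => ?_)
    rw [add_comm]
  have h2 : ∑ i ∈ Ico n (Q + 1), D i = ∑ i ∈ range (Q + 1), D i - ∑ i ∈ range n, D i := by
    rw [Finset.sum_Ico_eq_sub _ (by omega)]
  have h3 : ∑ i ∈ range (Q + 1), D i = ∑ i ∈ range (Q + 1 - n), D i + ∑ i ∈ Ico (Q + 1 - n) (Q + 1), D i := by
    rw [Finset.range_eq_Ico, Finset.range_eq_Ico, Finset.sum_Ico_consecutive _ (by omega) (by omega)]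
  have h4 : ∑ i ∈ Ico (Q + 1 - n) (Q + 1), D i ≤ ∑ i ∈ Ico (Q + 1 - n) (Q + 1), D Q := by
    refine Finset.sum_le_sum (fun i hi => hmono _ _ ?_)
    have := (Finset.mem_Ico.1 hi).2
    omega
  rw [Finset.sum_const, Nat.card_Ico, nsmul_eq_mul] at h4
  have h5 : ((Q + 1 - (Q + 1 - n) : ℕ) : ℝ) = n := by
    congr 1
    omega
  rw [h5] at h4
  have h6 : 0 ≤ ∑ i ∈ range n, D i := Finset.sum_nonneg (fun i _ => h0.trans (hmono 0 i (Nat.zero_le _)))
  linarith

end G2

/-- Growth of entropy. -/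
theorem growth (n : ℕ) (hn : 1 ≤ n) (η δ : ℝ) (hη : 0 < η) (hδ : 0 < δ) :
    ∃ γ : ℝ, 0 < γ ∧ ∀ (Q c : ℕ) (A B : Finset ℕ), c % 3 ≠ 0 → A.Nonempty → B.Nonempty →
      A ⊆ range (3 ^ Q) → n ≤ Q →
      Real.log (A.card : ℝ) + γ / n * ∑ i ∈ range (Q + 1 - n),
          (1 - ((full A i n η).card : ℝ) / A.card) * (((nat1 B i δ).card : ℝ) / B.card)
        ≤ entU (A ×ˢ B) (fun p => (c * p.1 + p.2) % 3 ^ Q) := by
  obtain ⟨γ, hγ, Hγ⟩ := window_gain n η δ hη hδ
  refine ⟨γ, hγ, fun Q c A B hc hA hB hAQ hnQ => ?_⟩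
  have hAc : (0 : ℝ) < A.card := by exact_mod_cast Finset.card_pos.2 hA
  have hBc : (0 : ℝ) < B.card := by exact_mod_cast Finset.card_pos.2 hB
  have hnr : (0 : ℝ) < n := by exact_mod_cast hn
  have h1 := G2.tele (G2.DD A B c) n Q hnQ (le_of_eq (G2.DD_zero A B c).symm)
    (fun i j hij => G2.DD_mono A B c hc hij)
  have h2 : ∑ i ∈ range (Q + 1 - n), γ * ((A.card - (full A i n η).card) * (nat1 B i δ).card)
      ≤ ∑ i ∈ range (Q + 1 - n), (G2.DD A B c (i + n) - G2.DD A B c i) := by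
    refine Finset.sum_le_sum (fun i _ => ?_)
    have := G2.DD_gain hn Hγ A B i c hc
    linarith
  have h3 : G2.DD A B c Q = (A.card * B.card : ℝ) * (entU (A ×ˢ B) (fun p => (c * p.1 + p.2) % 3 ^ Q)
      - Real.log (A.card : ℝ)) := by
    unfold G2.DD
    rw [← G2.KK_entU, G2.KK_inj A (fun x => x % 3 ^ Q)]
    · rw [Finset.card_product]
      unfold G2.lam
      push_cast
      ring
    · intro a ha b hb h
      have ha' := Finset.mem_range.1 (hAQ ha)
      have hb' := Finset.mem_range.1 (hAQ hb)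
      have hab' : b % 3 ^ Q = a % 3 ^ Q := h
      rw [Nat.mod_eq_of_lt ha', Nat.mod_eq_of_lt hb'] at hab'
      exact hab'
  have h4 := h2.trans h1
  rw [h3] at h4
  have h5 : ∑ i ∈ range (Q + 1 - n), γ * ((A.card - (full A i n η).card) * (nat1 B i δ).card)
      = (A.card * B.card : ℝ) * (γ * ∑ i ∈ range (Q + 1 - n),
          (1 - ((full A i n η).card : ℝ) / A.card) * (((nat1 B i δ).card : ℝ) / B.card)) := by
    rw [Finset.mul_sum, Finset.mul_sum]
    refine Finset.sum_congr rfl (fun i _ => ?_)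
    field_simp
  rw [h5] at h4
  have h6 : (n : ℝ) * ((A.card * B.card : ℝ) * (entU (A ×ˢ B) (fun p => (c * p.1 + p.2) % 3 ^ Q)
      - Real.log (A.card : ℝ))) = (A.card * B.card : ℝ) * (n * (entU (A ×ˢ B) (fun p => (c * p.1 + p.2) % 3 ^ Q)
      - Real.log (A.card : ℝ))) := by ring
  rw [h6] at h4
  have h7 := le_of_mul_le_mul_left h4 (by positivity)
  have h8 : γ / n * ∑ i ∈ range (Q + 1 - n),
          (1 - ((full A i n η).card : ℝ) / A.card) * (((nat1 B i δ).card : ℝ) / B.card)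
      = (γ * ∑ i ∈ range (Q + 1 - n),
          (1 - ((full A i n η).card : ℝ) / A.card) * (((nat1 B i δ).card : ℝ) / B.card)) / n := by ring
  rw [h8]
  have h9 := (div_le_iff₀' hnr).2 h7
  linarith

end H62w
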