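import Pool.Agent.Lib.H62w.Defs
import Pool.Agent.Lib.H62w.SkPaths

set_option autoImplicit false
open Finset
namespace H62w

/-! ### Sums over words -/

theorem L_sum_words_succ (M k : ℕ) (f : List ℕ → ℝ) :
    ∑ l ∈ words M (k + 1), f l = ∑ a ∈ Icc 1 M, ∑ l ∈ words M k, f (a :: l) := by
  rw [words, sum_image, sum_product]
  rintro ⟨a, l⟩ _ ⟨b, m⟩ _ h
  simp only [List.cons.injEq] at h
  exact Prod.ext h.1 h.2

theorem L_sum_words_add (M : ℕ) : ∀ (k n : ℕ) (f : List ℕ → ℝ),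
    ∑ l ∈ words M (k + n), f l = ∑ l ∈ words M k, ∑ l' ∈ words M n, f (l ++ l')
  | 0, n, f => by simp [words]
  | k + 1, n, f => by
      rw [show k + 1 + n = (k + n) + 1 by ring, L_sum_words_succ, L_sum_words_succ]
      refine sum_congr rfl fun a _ => ?_
      rw [L_sum_words_add M k n]
      simp

theorem L_pw_append (M : ℕ) (l l' : List ℕ) : pw M (l ++ l') = pw M l * pw M l' := by
  simp [pw]

theorem L_pa_nonneg (M a : ℕ) : 0 ≤ pa M a := by
  unfold pa; split_ifs <;> positivity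

theorem L_pw_nonneg (M : ℕ) (l : List ℕ) : 0 ≤ pw M l := by
  unfold pw
  apply List.prod_nonneg
  intro x hx
  obtain ⟨a, _, rfl⟩ := List.mem_map.1 hx
  exact L_pa_nonneg M a

theorem L_geom (m : ℕ) : ∑ a ∈ Icc 1 m, ((1 : ℝ) / 2) ^ a = 1 - (1 / 2) ^ m := by
  induction m with
  | zero => simp
  | succ m ih =>
    rw [Finset.sum_Icc_succ_top (by omega), ih, pow_succ]
    ring

theorem L_pa_sum {M : ℕ} (hM : 1 ≤ M) : ∑ a ∈ Icc 1 M, pa M a = 1 := by
  obtain ⟨m, rfl⟩ : ∃ m, M = m + 1 := ⟨M - 1, by omega⟩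
  rw [Finset.sum_Icc_succ_top (by omega)]
  have h1 : ∑ a ∈ Icc 1 m, pa (m + 1) a = ∑ a ∈ Icc 1 m, ((1 : ℝ) / 2) ^ a := by
    refine sum_congr rfl fun a ha => ?_
    rw [mem_Icc] at ha
    unfold pa
    rw [if_pos (by omega)]
  rw [h1, L_geom]
  unfold pa
  simp

theorem pw_sum {M : ℕ} (hM : 1 ≤ M) (k : ℕ) : ∑ l ∈ words M k, pw M l = 1 := by
  induction k with
  | zero => simp [words, pw]
  | succ k ih =>
    rw [L_sum_words_succ]
    have : ∀ a ∈ Icc 1 M, ∑ l ∈ words M k, pw M (a :: l) = pa M a := by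
      intro a _
      have : ∀ l ∈ words M k, pw M (a :: l) = pa M a * pw M l := by
        intro l _; simp [pw]
      rw [sum_congr rfl this, ← mul_sum, ih, mul_one]
    rw [sum_congr rfl this, L_pa_sum hM]

/-! ### Residues -/

instance L_neZero (N : ℕ) : NeZero (3 ^ N) := ⟨by positivity⟩

theorem L_sum_range {N : ℕ} (f : ℕ → ℝ) :
    ∑ y ∈ range (3 ^ N), f y = ∑ z : ZMod (3 ^ N), f z.val := by
  symm
  refine sum_nbij' (fun z => z.val) (fun y => (y : ZMod (3 ^ N))) ?_ ?_ ?_ ?_ ?_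
  · intro z _; exact mem_range.2 (ZMod.val_lt z)
  · intro y _; exact mem_univ _
  · intro z _; exact ZMod.natCast_zmod_val z
  · intro y hy; exact ZMod.val_cast_of_lt (mem_range.1 hy)
  · intro z _; rfl

/-- Inverse of `2`. -/
def L_v (N : ℕ) : ZMod (3 ^ N) := (2 : ZMod (3 ^ N))⁻¹

theorem L_two_v (N : ℕ) : (2 : ZMod (3 ^ N)) * L_v N = 1 := by
  have h : Nat.Coprime 2 (3 ^ N) := Nat.Coprime.pow_right _ (by norm_num)
  have := ZMod.coe_mul_inv_eq_one (n := 3 ^ N) 2 h
  simpa [L_v] using this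

theorem L_two_pow_v (N s : ℕ) : (2 : ZMod (3 ^ N)) ^ s * L_v N ^ s = 1 := by
  rw [← mul_pow, L_two_v, one_pow]

/-- The residue of a word. -/
def L_X (N : ℕ) (l : List ℕ) : ZMod (3 ^ N) := L_v N ^ l.sum * (cc l : ZMod (3 ^ N))

theorem L_XX_iff (N : ℕ) (l : List ℕ) (y : ℕ) :
    2 ^ l.sum * y ≡ cc l [MOD 3 ^ N] ↔ L_X N l = (y : ZMod (3 ^ N)) := by
  rw [← ZMod.natCast_eq_natCast_iff]
  push_cast
  unfold L_X
  have h := L_two_pow_v N l.sum
  constructor
  · intro e
    rw [← e]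
    linear_combination (y : ZMod (3 ^ N)) * h
  · intro e
    rw [← e]
    linear_combination (cc l : ZMod (3 ^ N)) * h


/-- Law of the residue mod `3^N` of a word of length `k` on the event `sum = s`. -/
noncomputable def L_J (M k N s : ℕ) (z : ZMod (3 ^ N)) : ℝ :=
  ∑ l ∈ words M k, if l.sum = s ∧ L_X N l = z then pw M l else 0

/-- Law of the residue mod `3^N` of a word of length `k`. -/
noncomputable def L_Q (M k N : ℕ) (z : ZMod (3 ^ N)) : ℝ :=
  ∑ l ∈ words M k, if L_X N l = z then pw M l else 0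

theorem L_jl_eq (M k n s y : ℕ) : jl M k n s y = L_J M k n s (y : ZMod (3 ^ n)) := by
  unfold jl L_J
  rw [sum_filter]
  refine sum_congr rfl fun l _ => ?_
  simp only [L_XX_iff]

theorem L_mu_eq (M n y : ℕ) : mu M n y = L_Q M n n (y : ZMod (3 ^ n)) := by
  unfold mu L_Q
  rw [sum_filter]
  refine sum_congr rfl fun l _ => ?_
  simp only [L_XX_iff]

theorem L_JJ_nonneg (M k N s : ℕ) (z : ZMod (3 ^ N)) : 0 ≤ L_J M k N s z := by
  unfold L_J
  refine sum_nonneg fun l _ => ?_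
  split_ifs
  · exact L_pw_nonneg M l
  · exact le_rfl

theorem L_QQ_nonneg (M k N : ℕ) (z : ZMod (3 ^ N)) : 0 ≤ L_Q M k N z := by
  unfold L_Q
  refine sum_nonneg fun l _ => ?_
  split_ifs
  · exact L_pw_nonneg M l
  · exact le_rfl

theorem L_sum_le {M k : ℕ} {l : List ℕ} (hl : l ∈ words M k) : l.sum ≤ M * k := by
  rw [mem_words] at hl
  have := List.sum_le_card_nsmul l M (fun a ha => (hl.2 a ha).2)
  rw [hl.1, smul_eq_mul, mul_comm] at this
  exact this

theorem L_QQ_sum {M : ℕ} (hM : 1 ≤ M) (k N : ℕ) : ∑ z, L_Q M k N z = 1 := by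
  unfold L_Q
  rw [sum_comm]
  rw [← pw_sum hM k]
  refine sum_congr rfl fun l _ => ?_
  simp

theorem L_QQ_eq_sum (M k N : ℕ) (z : ZMod (3 ^ N)) :
    L_Q M k N z = ∑ s ∈ range (M * k + 1), L_J M k N s z := by
  unfold L_Q L_J
  rw [sum_comm]
  refine sum_congr rfl fun l hl => ?_
  have h := L_sum_le hl
  by_cases hz : L_X N l = z
  · simp only [hz, and_true, if_true]
    rw [sum_ite_eq (range (M * k + 1)) l.sum (fun _ => pw M l), if_pos (mem_range.2 (by omega))]
  · simp [hz]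

theorem L_JJ_zero {M k N s : ℕ} (hs : M * k < s) (z : ZMod (3 ^ N)) : L_J M k N s z = 0 := by
  unfold L_J
  refine sum_eq_zero fun l hl => ?_
  have h := L_sum_le hl
  rw [if_neg]
  rintro ⟨h1, _⟩
  omega

theorem mu_sum {M : ℕ} (hM : 1 ≤ M) (n : ℕ) : ∑ y ∈ range (3 ^ n), mu M n y = 1 := by
  rw [L_sum_range, ← L_QQ_sum hM n n]
  refine sum_congr rfl fun z _ => ?_
  rw [L_mu_eq, ZMod.natCast_zmod_val]

/-! ### Fibres of the top digit -/

/-- The top digit. -/
def L_T (n : ℕ) : ZMod (3 ^ (n + 1)) := (3 : ZMod (3 ^ (n + 1))) ^ n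

theorem L_three_T (n : ℕ) : 3 * L_T n = 0 := by
  have h : ((3 ^ (n + 1) : ℕ) : ZMod (3 ^ (n + 1))) = 0 := ZMod.natCast_self _
  push_cast at h
  unfold L_T
  rw [← h]; ring

/-- Sum over the fibre. -/
def L_fb {n : ℕ} (f : ZMod (3 ^ (n + 1)) → ℝ) (z : ZMod (3 ^ (n + 1))) : ℝ :=
  f z + f (z + L_T n) + f (z + 2 * L_T n)

/-- Removing the fibre average. -/
noncomputable def L_p0 {n : ℕ} (f : ZMod (3 ^ (n + 1)) → ℝ) (z : ZMod (3 ^ (n + 1))) : ℝ :=
  f z - L_fb f z / 3

theorem L_fib_T {n : ℕ} (f : ZMod (3 ^ (n + 1)) → ℝ) (z : ZMod (3 ^ (n + 1))) :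
    L_fb f (z + L_T n) = L_fb f z := by
  have h := L_three_T n
  unfold L_fb
  rw [show z + L_T n + L_T n = z + 2 * L_T n by ring,
    show z + L_T n + 2 * L_T n = z by linear_combination h]
  ring

theorem L_fib_2T {n : ℕ} (f : ZMod (3 ^ (n + 1)) → ℝ) (z : ZMod (3 ^ (n + 1))) :
    L_fb f (z + 2 * L_T n) = L_fb f z := by
  rw [show z + 2 * L_T n = z + L_T n + L_T n by ring, L_fib_T, L_fib_T]

theorem L_fib_fib {n : ℕ} (f : ZMod (3 ^ (n + 1)) → ℝ) (z : ZMod (3 ^ (n + 1))) :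
    L_fb (L_fb f) z = 3 * L_fb f z := by
  conv_lhs => rw [L_fb]
  rw [L_fib_T, L_fib_2T]
  ring

theorem L_fib_p0 {n : ℕ} (f : ZMod (3 ^ (n + 1)) → ℝ) (z : ZMod (3 ^ (n + 1))) :
    L_fb (L_p0 f) z = 0 := by
  have h : L_fb (L_p0 f) z = L_fb f z - L_fb (L_fb f) z / 3 := by
    simp only [L_fb, L_p0]
    ring
  rw [h, L_fib_fib]
  ring

/-- Indicator identity for the fibre. -/
theorem L_ind {n : ℕ} (x z : ℕ) :
    (if (x : ZMod (3 ^ n)) = z then (1 : ℝ) else 0) =
      L_fb (fun t : ZMod (3 ^ (n + 1)) => if (x : ZMod (3 ^ (n + 1))) = t then (1 : ℝ) else 0) z := by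
  have hT : L_T n = ((3 ^ n : ℕ) : ZMod (3 ^ (n + 1))) := by unfold L_T; push_cast; rfl
  unfold L_fb
  rw [hT]
  have e0 : ∀ c : ℕ, ((x : ZMod (3 ^ (n + 1))) = z + c * ((3 ^ n : ℕ) : ZMod (3 ^ (n + 1)))) ↔
      x ≡ z + c * 3 ^ n [MOD 3 ^ (n + 1)] := by
    intro c
    rw [← ZMod.natCast_eq_natCast_iff]
    push_cast
    rfl
  have e1 := e0 0
  have e2 := e0 1
  have e3 := e0 2
  simp only [Nat.cast_zero, zero_mul, add_zero, Nat.cast_one, one_mul, Nat.cast_ofNat] at e1 e2 e3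
  simp only [e1, e2, e3, ZMod.natCast_eq_natCast_iff]
  have hp : 0 < 3 ^ n := by positivity
  have hpow : 3 ^ (n + 1) = 3 * 3 ^ n := by ring
  rw [hpow]
  generalize 3 ^ n = q at hp
  -- reduce to remainders
  have hx := Nat.div_add_mod x (3 * q)
  have hz := Nat.div_add_mod z (3 * q)
  have key : ∀ c, (x ≡ z + c * q [MOD 3 * q]) ↔
      ((x : ℤ) - z - c * q) % (3 * q) = 0 := by
    intro c
    rw [← Int.natCast_modEq_iff, Int.modEq_comm, Int.modEq_iff_dvd, ← Int.dvd_iff_emod_eq_zero]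
    push_cast
    rw [show ((x : ℤ) - (z + c * q)) = x - z - c * q by ring]
  have key0 : (x ≡ z [MOD q]) ↔ (q : ℤ) ∣ ((x : ℤ) - z) := by
    rw [← Int.natCast_modEq_iff, Int.modEq_comm, Int.modEq_iff_dvd]
  have k0 := key 0
  have k1 := key 1
  have k2 := key 2
  simp only [Nat.cast_zero, zero_mul, sub_zero, add_zero, Nat.cast_one, one_mul, Nat.cast_ofNat] at k0 k1 k2
  simp only [key0, k0, k1, k2]
  have hq : (0 : ℤ) < q := by exact_mod_cast hp
  by_cases hd : (q : ℤ) ∣ ((x : ℤ) - z)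
  · obtain ⟨t, ht⟩ := hd
    rw [ht]
    have r0 : ((q : ℤ) * t) % (3 * q) = q * (t % 3) := by
      rw [mul_comm (3 : ℤ) q, Int.mul_emod_mul_of_pos _ _ hq]
    have r1 : ((q : ℤ) * t - q) % (3 * q) = q * ((t - 1) % 3) := by
      rw [show (q : ℤ) * t - q = q * (t - 1) by ring, mul_comm (3 : ℤ) q, Int.mul_emod_mul_of_pos _ _ hq]
    have r2 : ((q : ℤ) * t - 2 * q) % (3 * q) = q * ((t - 2) % 3) := by
      rw [show (q : ℤ) * t - 2 * q = q * (t - 2) by ring, mul_comm (3 : ℤ) q, Int.mul_emod_mul_of_pos _ _ hq]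
    rw [r0, r1, r2]
    have hq' : (q : ℤ) ≠ 0 := hq.ne'
    simp only [mul_eq_zero, hq', false_or, dvd_mul_right, if_true]
    have : t % 3 = 0 ∨ t % 3 = 1 ∨ t % 3 = 2 := by omega
    rcases this with h | h | h
    · rw [if_pos h, if_neg (by omega), if_neg (by omega)]; norm_num
    · rw [if_neg (by omega), if_pos (by omega), if_neg (by omega)]; norm_num
    · rw [if_neg (by omega), if_neg (by omega), if_pos (by omega)]; norm_num
  · have hq3 : (q : ℤ) ∣ 3 * q := dvd_mul_left _ _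
    have n0 : ¬ ((x : ℤ) - z) % (3 * q) = 0 := fun h =>
      hd (dvd_trans hq3 (Int.dvd_of_emod_eq_zero h))
    have n1 : ¬ ((x : ℤ) - z - q) % (3 * q) = 0 := fun h => by
      have := dvd_trans hq3 (Int.dvd_of_emod_eq_zero h)
      exact hd (by simpa using dvd_add this (dvd_refl (q : ℤ)))
    have n2 : ¬ ((x : ℤ) - z - 2 * q) % (3 * q) = 0 := fun h => by
      have := dvd_trans hq3 (Int.dvd_of_emod_eq_zero h)
      exact hd (by simpa using dvd_add this (dvd_mul_left (q : ℤ) 2))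
    rw [if_neg hd, if_neg n0, if_neg n1, if_neg n2]
    norm_num


theorem L_rep (N : ℕ) (l : List ℕ) : ∃ r : ℕ, ∀ m ≤ N, L_X m l = (r : ZMod (3 ^ m)) := by
  obtain ⟨r, hr, h⟩ := exists_unique_class l N
  refine ⟨r, fun m hm => ?_⟩
  rw [← L_XX_iff]
  exact ((h r).2 (Nat.mod_eq_of_lt hr)).of_dvd (pow_dvd_pow 3 hm)

theorem L_JJ_fib (M k n s y : ℕ) :
    L_J M k n s (y : ZMod (3 ^ n)) = L_fb (L_J M k (n + 1) s) (y : ZMod (3 ^ (n + 1))) := by
  unfold L_J L_fb
  rw [← sum_add_distrib, ← sum_add_distrib]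
  refine sum_congr rfl fun l _ => ?_
  obtain ⟨r, hr⟩ := L_rep (n + 1) l
  rw [hr n (by omega), hr (n + 1) le_rfl]
  have h := L_ind (n := n) r y
  unfold L_fb at h
  by_cases hs : l.sum = s
  · simp only [hs, true_and]
    have e : ∀ (P : Prop) [Decidable P], (if P then pw M l else 0) = pw M l * (if P then (1 : ℝ) else 0) := by
      intro P _; split_ifs <;> simp
    rw [e, e, e, e, h]
    ring
  · simp [hs]

theorem L_QQ_fib (M k n y : ℕ) :
    L_Q M k n (y : ZMod (3 ^ n)) = L_fb (L_Q M k (n + 1)) (y : ZMod (3 ^ (n + 1))) := by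
  unfold L_Q L_fb
  rw [← sum_add_distrib, ← sum_add_distrib]
  refine sum_congr rfl fun l _ => ?_
  obtain ⟨r, hr⟩ := L_rep (n + 1) l
  rw [hr n (by omega), hr (n + 1) le_rfl]
  have h := L_ind (n := n) r y
  unfold L_fb at h
  have e : ∀ (P : Prop) [Decidable P], (if P then pw M l else 0) = pw M l * (if P then (1 : ℝ) else 0) := by
    intro P _; split_ifs <;> simp
  rw [e, e, e, e, h]
  ring

theorem L_XX_append (N : ℕ) (l l' : List ℕ) :
    L_X N (l ++ l') = L_X N l + L_v N ^ l.sum * (3 ^ l.length * L_X N l') := by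
  unfold L_X
  rw [cc_append, List.sum_append]
  push_cast
  have h := L_two_pow_v N l'.sum
  rw [pow_add]
  linear_combination (L_v N ^ l.sum * (cc l : ZMod (3 ^ N))) * h

/-- The last letters do not matter. -/
theorem L_QQ_stable {M : ℕ} (hM : 1 ≤ M) (k n N : ℕ) (hN : N ≤ k) (z : ZMod (3 ^ N)) :
    L_Q M (k + n) N z = L_Q M k N z := by
  unfold L_Q
  rw [L_sum_words_add]
  refine sum_congr rfl fun l hl => ?_
  rw [mem_words] at hl
  have h0 : (3 : ZMod (3 ^ N)) ^ l.length = 0 := by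
    have h : ((3 ^ l.length : ℕ) : ZMod (3 ^ N)) = 0 := by
      rw [ZMod.natCast_eq_zero_iff]
      exact pow_dvd_pow 3 (by omega)
    push_cast at h
    exact h
  have : ∀ l' ∈ words M n, (if L_X N (l ++ l') = z then pw M (l ++ l') else 0) =
      (if L_X N l = z then pw M l else 0) * pw M l' := by
    intro l' _
    rw [L_XX_append, h0, zero_mul, mul_zero, add_zero, L_pw_append]
    split_ifs <;> simp
  rw [sum_congr rfl this, ← mul_sum, pw_sum hM, mul_one]

theorem L_TT_eq {M : ℕ} (hM : 1 ≤ M) (n : ℕ) : TT M n = ∑ z, |L_p0 (L_Q M (n + 1) (n + 1)) z| := by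
  unfold TT
  rw [L_sum_range]
  refine sum_congr rfl fun z _ => ?_
  rw [L_mu_eq, L_mu_eq, ZMod.natCast_zmod_val, ← L_QQ_stable hM n 1 n le_rfl, L_QQ_fib,
    ZMod.natCast_zmod_val]
  rfl

theorem L_tt_eq (M k n : ℕ) :
    tt M k n = ∑ s ∈ range (M * k + 1), ∑ z, |L_p0 (L_J M k (n + 1) s) z| := by
  unfold tt
  refine sum_congr rfl fun s _ => ?_
  rw [L_sum_range]
  refine sum_congr rfl fun z _ => ?_
  rw [L_jl_eq, L_jl_eq, ZMod.natCast_zmod_val, L_JJ_fib, ZMod.natCast_zmod_val]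
  rfl

/-! ### Convolution -/

/-- Multiplication by `3^k` from residues mod `3^(j+1)` to residues mod `3^(k+j+1)`. -/
def L_E (k j : ℕ) (w : ZMod (3 ^ (j + 1))) : ZMod (3 ^ (k + j + 1)) :=
  3 ^ k * (w.val : ZMod (3 ^ (k + j + 1)))

theorem L_E_cast (k j a : ℕ) :
    L_E k j (a : ZMod (3 ^ (j + 1))) = 3 ^ k * (a : ZMod (3 ^ (k + j + 1))) := by
  unfold L_E
  rw [ZMod.val_natCast]
  have h := Nat.div_add_mod a (3 ^ (j + 1))
  have h0 : ((3 ^ (k + j + 1) : ℕ) : ZMod (3 ^ (k + j + 1))) = 0 := ZMod.natCast_self _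
  push_cast at h0
  have h1 : (a : ZMod (3 ^ (k + j + 1))) =
      3 ^ (j + 1) * ((a / 3 ^ (j + 1) : ℕ) : ZMod (3 ^ (k + j + 1))) +
        ((a % 3 ^ (j + 1) : ℕ) : ZMod (3 ^ (k + j + 1))) := by
    conv_lhs => rw [← h]
    push_cast
    rfl
  rw [h1]
  have h2 : (3 : ZMod (3 ^ (k + j + 1))) ^ k * 3 ^ (j + 1) = 0 := by
    rw [← h0]; ring
  linear_combination (-((a / 3 ^ (j + 1) : ℕ) : ZMod (3 ^ (k + j + 1)))) * h2

theorem L_E_add (k j : ℕ) (w w' : ZMod (3 ^ (j + 1))) :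
    L_E k j (w + w') = L_E k j w + L_E k j w' := by
  have e : w + w' = ((w.val + w'.val : ℕ) : ZMod (3 ^ (j + 1))) := by
    push_cast
    rw [ZMod.natCast_zmod_val, ZMod.natCast_zmod_val]
  rw [e, L_E_cast]
  unfold L_E
  push_cast
  ring

theorem L_E_T (k j : ℕ) : L_E k j (L_T j) = L_T (k + j) := by
  have e : L_T j = ((3 ^ j : ℕ) : ZMod (3 ^ (j + 1))) := by unfold L_T; push_cast; rfl
  rw [e, L_E_cast]
  unfold L_T
  push_cast
  exact (pow_add _ _ _).symm

theorem L_E_XX (k j : ℕ) (l : List ℕ) : L_E k j (L_X (j + 1) l) = 3 ^ k * L_X (k + j + 1) l := by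
  obtain ⟨r, hr⟩ := L_rep (k + j + 1) l
  rw [hr (j + 1) (by omega), hr (k + j + 1) le_rfl, L_E_cast]

theorem L_v_T (n s : ℕ) : L_v (n + 1) ^ s * L_T n = L_T n ∨ L_v (n + 1) ^ s * L_T n = 2 * L_T n := by
  induction s with
  | zero => left; simp
  | succ s ih =>
    have h3 := L_three_T n
    have h2 := L_two_v (n + 1)
    have hv : L_v (n + 1) * L_T n = 2 * L_T n := by
      linear_combination (2 * L_T n) * h2 - L_v (n + 1) * h3
    rcases ih with h | h
    · right
      rw [pow_succ (L_v (n + 1)) s, mul_assoc, hv]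
      linear_combination 2 * h
    · left
      rw [pow_succ (L_v (n + 1)) s, mul_assoc, hv]
      linear_combination 2 * h + h3

/-- Twisted convolution. -/
noncomputable def L_C (k j s : ℕ) (J : ZMod (3 ^ (k + j + 1)) → ℝ) (g : ZMod (3 ^ (j + 1)) → ℝ)
    (z : ZMod (3 ^ (k + j + 1))) : ℝ :=
  ∑ w, J (z - L_v (k + j + 1) ^ s * L_E k j w) * g w

theorem L_CC_shift (k j s : ℕ) (J : ZMod (3 ^ (k + j + 1)) → ℝ) (g : ZMod (3 ^ (j + 1)) → ℝ)
    (z : ZMod (3 ^ (k + j + 1))) (c : ZMod (3 ^ (j + 1))) :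
    L_C k j s J (fun w => g (w + c)) z =
      ∑ w, J (z - L_v (k + j + 1) ^ s * L_E k j w + L_v (k + j + 1) ^ s * L_E k j c) * g w := by
  unfold L_C
  rw [← Equiv.sum_comp (Equiv.addRight c) (fun w => J (z - L_v (k + j + 1) ^ s * L_E k j w +
    L_v (k + j + 1) ^ s * L_E k j c) * g w)]
  refine sum_congr rfl fun w _ => ?_
  simp only [Equiv.coe_addRight]
  rw [L_E_add]
  congr 2
  ring

theorem L_CC_fib (k j s : ℕ) (J : ZMod (3 ^ (k + j + 1)) → ℝ) (g : ZMod (3 ^ (j + 1)) → ℝ)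
    (z : ZMod (3 ^ (k + j + 1))) : L_C k j s (L_fb J) g z = L_C k j s J (L_fb g) z := by
  have h1 : L_C k j s J (L_fb g) z = L_C k j s J g z + L_C k j s J (fun w => g (w + L_T j)) z +
      L_C k j s J (fun w => g (w + 2 * L_T j)) z := by
    unfold L_C L_fb
    rw [← sum_add_distrib, ← sum_add_distrib]
    refine sum_congr rfl fun w _ => ?_
    ring
  have e2 : L_E k j (2 * L_T j) = 2 * L_T (k + j) := by
    rw [two_mul, L_E_add, L_E_T, two_mul]
  rw [h1, L_CC_shift, L_CC_shift, e2, L_E_T]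
  unfold L_C
  rw [← sum_add_distrib, ← sum_add_distrib]
  refine sum_congr rfl fun w _ => ?_
  have h3 := L_three_T (k + j)
  rcases L_v_T (k + j) s with h | h
  · rw [mul_left_comm, h]
    unfold L_fb
    ring
  · rw [mul_left_comm, h]
    have : 2 * (2 * L_T (k + j)) = L_T (k + j) := by linear_combination h3
    rw [this]
    unfold L_fb
    ring

theorem L_CC_p0 (k j s : ℕ) (J : ZMod (3 ^ (k + j + 1)) → ℝ) (g : ZMod (3 ^ (j + 1)) → ℝ)
    (z : ZMod (3 ^ (k + j + 1))) : L_p0 (L_C k j s J g) z = L_C k j s J (L_p0 g) z := by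
  have h : L_fb (L_C k j s J g) z = L_C k j s (L_fb J) g z := by
    unfold L_fb L_C
    rw [← sum_add_distrib, ← sum_add_distrib]
    refine sum_congr rfl fun w _ => ?_
    rw [show z + L_T (k + j) - L_v (k + j + 1) ^ s * L_E k j w =
      z - L_v (k + j + 1) ^ s * L_E k j w + L_T (k + j) by ring,
      show z + 2 * L_T (k + j) - L_v (k + j + 1) ^ s * L_E k j w =
      z - L_v (k + j + 1) ^ s * L_E k j w + 2 * L_T (k + j) by ring]
    ring
  unfold L_p0
  rw [h, L_CC_fib]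
  unfold L_C
  rw [sum_div, ← sum_sub_distrib]
  refine sum_congr rfl fun w _ => ?_
  ring

theorem L_CC_p0_p0 (k j s : ℕ) (J : ZMod (3 ^ (k + j + 1)) → ℝ) (g : ZMod (3 ^ (j + 1)) → ℝ)
    (z : ZMod (3 ^ (k + j + 1))) : L_p0 (L_C k j s J g) z = L_C k j s (L_p0 J) (L_p0 g) z := by
  rw [L_CC_p0]
  have h1 : L_C k j s (L_fb J) (L_p0 g) z = 0 := by
    rw [L_CC_fib]
    unfold L_C
    refine sum_eq_zero fun w _ => ?_
    rw [L_fib_p0, mul_zero]
  have h2 : L_C k j s J (L_p0 g) z = L_C k j s (L_p0 J) (L_p0 g) z + L_C k j s (L_fb J) (L_p0 g) z / 3 := by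
    unfold L_C
    rw [sum_div, ← sum_add_distrib]
    refine sum_congr rfl fun w _ => ?_
    unfold L_p0
    ring
  rw [h2, h1]
  ring

theorem L_CC_norm (k j s : ℕ) (J : ZMod (3 ^ (k + j + 1)) → ℝ) (g : ZMod (3 ^ (j + 1)) → ℝ) :
    ∑ z, |L_C k j s J g z| ≤ (∑ z, |J z|) * ∑ w, |g w| := by
  calc ∑ z, |L_C k j s J g z|
      ≤ ∑ z, ∑ w, |J (z - L_v (k + j + 1) ^ s * L_E k j w)| * |g w| := by
        refine sum_le_sum fun z _ => ?_
        unfold L_C
        refine (abs_sum_le_sum_abs _ _).trans (le_of_eq ?_)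
        refine sum_congr rfl fun w _ => abs_mul _ _
    _ = ∑ w, ∑ z, |J (z - L_v (k + j + 1) ^ s * L_E k j w)| * |g w| := sum_comm
    _ = ∑ w, (∑ z, |J z|) * |g w| := by
        refine sum_congr rfl fun w _ => ?_
        rw [← sum_mul]
        congr 1
        exact Equiv.sum_comp (Equiv.subRight (L_v (k + j + 1) ^ s * L_E k j w)) (fun z => |J z|)
    _ = _ := by rw [← mul_sum]

theorem L_conv (M k j : ℕ) (z : ZMod (3 ^ (k + j + 1))) :
    L_Q M (k + (j + 1)) (k + j + 1) z =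
      ∑ s ∈ range (M * k + 1), L_C k j s (L_J M k (k + j + 1) s) (L_Q M (j + 1) (j + 1)) z := by
  unfold L_C L_J
  have h1 : L_Q M (k + (j + 1)) (k + j + 1) z = ∑ l ∈ words M k, ∑ l' ∈ words M (j + 1),
      ∑ s ∈ range (M * k + 1), ∑ w : ZMod (3 ^ (j + 1)),
        (if l.sum = s ∧ L_X (k + j + 1) l = z - L_v (k + j + 1) ^ s * L_E k j w then pw M l else 0) *
          (if L_X (j + 1) l' = w then pw M l' else 0) := by
    unfold L_Q
    rw [L_sum_words_add]
    refine sum_congr rfl fun l hl => sum_congr rfl fun l' _ => ?_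
    have hs := L_sum_le hl
    rw [mem_words] at hl
    rw [L_XX_append, L_pw_append, hl.1]
    have e1 : ∀ s ∈ range (M * k + 1), (∑ w : ZMod (3 ^ (j + 1)),
        (if l.sum = s ∧ L_X (k + j + 1) l = z - L_v (k + j + 1) ^ s * L_E k j w then pw M l else 0) *
          (if L_X (j + 1) l' = w then pw M l' else 0)) =
        if l.sum = s then (if L_X (k + j + 1) l = z - L_v (k + j + 1) ^ s * L_E k j (L_X (j + 1) l')
          then pw M l * pw M l' else 0) else 0 := by
      intro s _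
      simp only [mul_ite, mul_zero]
      rw [sum_ite_eq univ (L_X (j + 1) l') (fun w => (if l.sum = s ∧ L_X (k + j + 1) l =
        z - L_v (k + j + 1) ^ s * L_E k j w then pw M l else 0) * pw M l')]
      rw [if_pos (mem_univ _)]
      by_cases h : l.sum = s
      · simp only [h, true_and, if_true, ite_mul, zero_mul]
      · simp [h]
    rw [sum_congr rfl e1, sum_ite_eq (range (M * k + 1)) l.sum, if_pos (mem_range.2 (by omega)),
      L_E_XX]
    have : (L_X (k + j + 1) l + L_v (k + j + 1) ^ l.sum * (3 ^ k * L_X (k + j + 1) l') = z) ↔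
        (L_X (k + j + 1) l = z - L_v (k + j + 1) ^ l.sum * (3 ^ k * L_X (k + j + 1) l')) :=
      eq_sub_iff_add_eq.symm
    simp only [this]
  rw [h1]
  unfold L_Q
  simp only [sum_mul_sum]
  have h2 : ∀ l ∈ words M k, (∑ l' ∈ words M (j + 1),
      ∑ s ∈ range (M * k + 1), ∑ w : ZMod (3 ^ (j + 1)),
        (if l.sum = s ∧ L_X (k + j + 1) l = z - L_v (k + j + 1) ^ s * L_E k j w then pw M l else 0) *
          (if L_X (j + 1) l' = w then pw M l' else 0)) =
      ∑ s ∈ range (M * k + 1), ∑ w : ZMod (3 ^ (j + 1)), ∑ l' ∈ words M (j + 1),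
        (if l.sum = s ∧ L_X (k + j + 1) l = z - L_v (k + j + 1) ^ s * L_E k j w then pw M l else 0) *
          (if L_X (j + 1) l' = w then pw M l' else 0) := by
    intro l _
    rw [sum_comm]
    refine sum_congr rfl fun s _ => ?_
    rw [sum_comm]
  rw [sum_congr rfl h2, sum_comm]
  refine sum_congr rfl fun s _ => ?_
  rw [sum_comm]

theorem L_p0_sum {n : ℕ} {ι : Type} (S : Finset ι) (f : ι → ZMod (3 ^ (n + 1)) → ℝ)
    (z : ZMod (3 ^ (n + 1))) : L_p0 (fun t => ∑ i ∈ S, f i t) z = ∑ i ∈ S, L_p0 (f i) z := by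
  unfold L_p0 L_fb
  rw [sum_sub_distrib, ← sum_div, sum_add_distrib, sum_add_distrib]

theorem TT_contract {M : ℕ} (hM : 1 ≤ M) (k j : ℕ) : TT M (k + j) ≤ tt M k (k + j) * TT M j := by
  rw [L_TT_eq hM, L_tt_eq, L_TT_eq hM]
  have h : L_Q M (k + j + 1) (k + j + 1) = fun z => ∑ s ∈ range (M * k + 1),
      L_C k j s (L_J M k (k + j + 1) s) (L_Q M (j + 1) (j + 1)) z := by
    funext z
    exact L_conv M k j z
  rw [h]
  calc ∑ z, |L_p0 (fun z => ∑ s ∈ range (M * k + 1),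
          L_C k j s (L_J M k (k + j + 1) s) (L_Q M (j + 1) (j + 1)) z) z|
      ≤ ∑ z, ∑ s ∈ range (M * k + 1), |L_C k j s (L_p0 (L_J M k (k + j + 1) s)) (L_p0 (L_Q M (j + 1) (j + 1))) z| := by
        refine sum_le_sum fun z _ => ?_
        rw [L_p0_sum]
        refine (abs_sum_le_sum_abs _ _).trans (le_of_eq ?_)
        refine sum_congr rfl fun s _ => ?_
        rw [L_CC_p0_p0]
    _ = ∑ s ∈ range (M * k + 1), ∑ z, |L_C k j s (L_p0 (L_J M k (k + j + 1) s)) (L_p0 (L_Q M (j + 1) (j + 1))) z| :=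
        sum_comm
    _ ≤ ∑ s ∈ range (M * k + 1), (∑ z, |L_p0 (L_J M k (k + j + 1) s) z|) *
          ∑ w, |L_p0 (L_Q M (j + 1) (j + 1)) w| := by
        refine sum_le_sum fun s _ => L_CC_norm k j s _ _
    _ = _ := by rw [← sum_mul]


theorem L_JJ_sum_norm {M : ℕ} (hM : 1 ≤ M) (k N : ℕ) :
    ∑ s ∈ range (M * k + 1), ∑ z, |L_J M k N s z| = 1 := by
  rw [← L_QQ_sum hM k N, sum_comm]
  refine sum_congr rfl fun z _ => ?_
  rw [L_QQ_eq_sum]
  exact sum_congr rfl fun s _ => abs_of_nonneg (L_JJ_nonneg M k N s z)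

theorem TT_anti {M : ℕ} (hM : 1 ≤ M) (n : ℕ) : TT M (n + 1) ≤ TT M n := by
  have key : TT M (1 + n) ≤ TT M n := by
    rw [L_TT_eq hM, L_TT_eq hM]
    have h : L_Q M (1 + n + 1) (1 + n + 1) = fun z => ∑ s ∈ range (M * 1 + 1),
        L_C 1 n s (L_J M 1 (1 + n + 1) s) (L_Q M (n + 1) (n + 1)) z := by
      funext z
      exact L_conv M 1 n z
    rw [h]
    calc ∑ z, |L_p0 (fun z => ∑ s ∈ range (M * 1 + 1),
            L_C 1 n s (L_J M 1 (1 + n + 1) s) (L_Q M (n + 1) (n + 1)) z) z|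
        ≤ ∑ z, ∑ s ∈ range (M * 1 + 1), |L_C 1 n s (L_J M 1 (1 + n + 1) s) (L_p0 (L_Q M (n + 1) (n + 1))) z| := by
          refine sum_le_sum fun z _ => ?_
          rw [L_p0_sum]
          refine (abs_sum_le_sum_abs _ _).trans (le_of_eq ?_)
          refine sum_congr rfl fun s _ => ?_
          rw [L_CC_p0]
      _ = ∑ s ∈ range (M * 1 + 1), ∑ z, |L_C 1 n s (L_J M 1 (1 + n + 1) s) (L_p0 (L_Q M (n + 1) (n + 1))) z| :=
          sum_comm
      _ ≤ ∑ s ∈ range (M * 1 + 1), (∑ z, |L_J M 1 (1 + n + 1) s z|) *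
            ∑ w, |L_p0 (L_Q M (n + 1) (n + 1)) w| := by
          refine sum_le_sum fun s _ => L_CC_norm 1 n s _ _
      _ = ∑ w, |L_p0 (L_Q M (n + 1) (n + 1)) w| := by
          rw [← sum_mul, L_JJ_sum_norm hM, one_mul]
  rwa [add_comm] at key

theorem L_JJ_succ (M k N s : ℕ) (z : ZMod (3 ^ N)) :
    L_J M (k + 1) N s z = ∑ a ∈ Icc 1 M, if a ≤ s then
      pa M a * L_J M k N (s - a) (z - 3 ^ k * L_v N ^ s) else 0 := by
  unfold L_J
  rw [L_sum_words_add M k 1]
  have h1 : ∀ l ∈ words M k, (∑ l' ∈ words M 1, if (l ++ l').sum = s ∧ L_X N (l ++ l') = z then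
      pw M (l ++ l') else 0) = ∑ a ∈ Icc 1 M, if a ≤ s then pa M a * (if l.sum = s - a ∧
        L_X N l = z - 3 ^ k * L_v N ^ s then pw M l else 0) else 0 := by
    intro l hl
    rw [mem_words] at hl
    rw [L_sum_words_succ M 0]
    refine sum_congr rfl fun a _ => ?_
    simp only [words, sum_singleton]
    rw [L_XX_append, L_pw_append, hl.1]
    have e1 : L_X N [a] = L_v N ^ a := by
      unfold L_X; simp [cc]
    have e2 : pw M [a] = pa M a := by simp [pw]
    have e3 : (l ++ [a]).sum = l.sum + a := by simp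
    rw [e1, e2, e3]
    by_cases has : a ≤ s
    · rw [if_pos has]
      by_cases hs : l.sum = s - a
      · have hs' : l.sum + a = s := by omega
        have e4 : (L_X N l + L_v N ^ l.sum * (3 ^ k * L_v N ^ a) = z) ↔
            (L_X N l = z - 3 ^ k * L_v N ^ s) := by
          rw [eq_sub_iff_add_eq]
          have : L_v N ^ l.sum * (3 ^ k * L_v N ^ a) = 3 ^ k * L_v N ^ s := by
            rw [← hs', pow_add (L_v N)]; ring
          rw [this]
        have g1 : (l.sum + a = s ∧ L_X N l + L_v N ^ l.sum * (3 ^ k * L_v N ^ a) = z) ↔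
            (l.sum = s - a ∧ L_X N l = z - 3 ^ k * L_v N ^ s) := by
          rw [e4]
          exact ⟨fun h => ⟨hs, h.2⟩, fun h => ⟨hs', h.2⟩⟩
        simp only [g1]
        split_ifs <;> ring
      · have hs' : ¬ l.sum + a = s := by omega
        simp only [hs, hs', false_and, if_false, mul_zero]
    · rw [if_neg has]
      have hs' : ¬ l.sum + a = s := by omega
      simp [hs']
  rw [sum_congr rfl h1, sum_comm]
  refine sum_congr rfl fun a _ => ?_
  split_ifs with has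
  · rw [mul_sum]
  · simp

theorem L_p0_shift {n : ℕ} (f : ZMod (3 ^ (n + 1)) → ℝ) (z c : ZMod (3 ^ (n + 1))) :
    L_p0 (fun t => f (t - c)) z = L_p0 f (z - c) := by
  unfold L_p0 L_fb
  simp only
  rw [show z + L_T n - c = z - c + L_T n by ring, show z + 2 * L_T n - c = z - c + 2 * L_T n by ring]

theorem tt_anti {M : ℕ} (hM : 1 ≤ M) (k n : ℕ) : tt M (k + 1) n ≤ tt M k n := by
  rw [L_tt_eq, L_tt_eq]
  set φ : ℕ → ℝ := fun s => ∑ z, |L_p0 (L_J M k (n + 1) s) z| with hφ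
  have hφ0 : ∀ s, M * k < s → φ s = 0 := by
    intro s hs
    refine sum_eq_zero fun z _ => ?_
    have : L_J M k (n + 1) s = fun _ => 0 := by funext z; exact L_JJ_zero hs z
    rw [this]
    simp [L_p0, L_fb]
  have hφn : ∀ s, 0 ≤ φ s := fun s => sum_nonneg fun z _ => abs_nonneg _
  have h1 : ∀ s, ∑ z, |L_p0 (L_J M (k + 1) (n + 1) s) z| ≤ ∑ a ∈ Icc 1 M, if a ≤ s then pa M a * φ (s - a) else 0 := by
    intro s
    have e : ∀ z, L_p0 (L_J M (k + 1) (n + 1) s) z = ∑ a ∈ Icc 1 M, if a ≤ s then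
        pa M a * L_p0 (L_J M k (n + 1) (s - a)) (z - 3 ^ k * L_v (n + 1) ^ s) else 0 := by
      intro z
      have : L_J M (k + 1) (n + 1) s = fun z => ∑ a ∈ Icc 1 M, (fun t => if a ≤ s then
        pa M a * L_J M k (n + 1) (s - a) (t - 3 ^ k * L_v (n + 1) ^ s) else 0) z := by
        funext z; exact L_JJ_succ M k (n + 1) s z
      rw [this, L_p0_sum]
      refine sum_congr rfl fun a _ => ?_
      split_ifs with has
      · rw [← L_p0_shift]
        unfold L_p0 L_fb
        simp only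
        ring
      · simp [L_p0, L_fb]
    calc ∑ z, |L_p0 (L_J M (k + 1) (n + 1) s) z|
        ≤ ∑ z, ∑ a ∈ Icc 1 M, (if a ≤ s then
            pa M a * |L_p0 (L_J M k (n + 1) (s - a)) (z - 3 ^ k * L_v (n + 1) ^ s)| else 0) := by
          refine sum_le_sum fun z _ => ?_
          rw [e]
          refine (abs_sum_le_sum_abs _ _).trans (le_of_eq ?_)
          refine sum_congr rfl fun a _ => ?_
          split_ifs
          · rw [abs_mul, abs_of_nonneg (L_pa_nonneg M a)]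
          · simp
      _ = ∑ a ∈ Icc 1 M, ∑ z, (if a ≤ s then
            pa M a * |L_p0 (L_J M k (n + 1) (s - a)) (z - 3 ^ k * L_v (n + 1) ^ s)| else 0) := sum_comm
      _ = _ := by
          refine sum_congr rfl fun a _ => ?_
          split_ifs
          · rw [← mul_sum]
            congr 1
            exact Equiv.sum_comp (Equiv.subRight (3 ^ k * L_v (n + 1) ^ s))
              (fun z => |L_p0 (L_J M k (n + 1) (s - a)) z|)
          · simp
  calc ∑ s ∈ range (M * (k + 1) + 1), ∑ z, |L_p0 (L_J M (k + 1) (n + 1) s) z|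
      ≤ ∑ s ∈ range (M * (k + 1) + 1), ∑ a ∈ Icc 1 M, (if a ≤ s then pa M a * φ (s - a) else 0) :=
        sum_le_sum fun s _ => h1 s
    _ = ∑ a ∈ Icc 1 M, ∑ s ∈ range (M * (k + 1) + 1), (if a ≤ s then pa M a * φ (s - a) else 0) := sum_comm
    _ = ∑ a ∈ Icc 1 M, pa M a * ∑ s ∈ range (M * k + 1), φ s := by
        refine sum_congr rfl fun a ha => ?_
        rw [mem_Icc] at ha
        rw [← sum_filter, ← mul_sum]
        congr 1
        have h2 : ∑ s ∈ (range (M * (k + 1) + 1)).filter (fun s => a ≤ s), φ (s - a) =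
            ∑ s ∈ range (M * (k + 1) + 1 - a), φ s := by
          refine sum_nbij' (fun s => s - a) (fun s => s + a) ?_ ?_ ?_ ?_ ?_
          · intro s hs
            simp only [mem_filter, mem_range] at hs ⊢
            omega
          · intro s hs
            simp only [mem_filter, mem_range] at hs ⊢
            omega
          · intro s hs
            simp only [mem_filter, mem_range] at hs
            omega
          · intro s hs
            omega
          · intro s hs; rfl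
        rw [h2]
        symm
        apply sum_subset
        · intro s hs
          rw [mem_range] at hs ⊢
          have : M * (k + 1) = M * k + M := by ring
          omega
        · intro s _ hs
          rw [mem_range] at hs
          exact hφ0 s (by omega)
    _ = ∑ s ∈ range (M * k + 1), φ s := by
        rw [← sum_mul, L_pa_sum hM, one_mul]

/-- `mu` is a martingale up to the `TT`: L1 Cauchy. -/
theorem mu_cauchy {M : ℕ} (hM : 1 ≤ M) (m n : ℕ) (hmn : m ≤ n) :
    ∑ y ∈ range (3 ^ n), |mu M n y - mu M m y / 3 ^ (n - m)| ≤ ∑ j ∈ Ico m n, TT M j := by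
  induction n, hmn using Nat.le_induction with
  | base => simp
  | succ n hmn ih =>
    rw [Finset.sum_Ico_succ_top hmn]
    have hper : ∀ y, mu M n y = mu M n (y % 3 ^ n) := by
      intro y
      rw [L_mu_eq, L_mu_eq]
      congr 1
      rw [ZMod.natCast_mod]
    have hperm : ∀ y, mu M m y = mu M m (y % 3 ^ n) := by
      intro y
      rw [L_mu_eq, L_mu_eq]
      congr 1
      rw [ZMod.natCast_eq_natCast_iff]
      exact ((Nat.mod_modEq y (3 ^ n)).symm).of_dvd (pow_dvd_pow 3 hmn)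
    have hsplit : ∀ f : ℕ → ℝ, (∀ y, f y = f (y % 3 ^ n)) →
        ∑ y ∈ range (3 ^ (n + 1)), f y = 3 * ∑ y ∈ range (3 ^ n), f y := by
      intro f hf
      have e : 3 ^ (n + 1) = 3 ^ n + 3 ^ n + 3 ^ n := by ring
      rw [e, sum_range_add, sum_range_add]
      have h1 : ∀ x ∈ range (3 ^ n), f (3 ^ n + x) = f x := by
        intro x _
        rw [hf (3 ^ n + x), Nat.add_mod_left, ← hf]
      have h2 : ∀ x ∈ range (3 ^ n), f (3 ^ n + 3 ^ n + x) = f x := by
        intro x _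
        rw [hf (3 ^ n + 3 ^ n + x), add_assoc, Nat.add_mod_left, Nat.add_mod_left, ← hf]
      rw [sum_congr rfl h1, sum_congr rfl h2]
      ring
    have hdec : ∀ y, |mu M (n + 1) y - mu M m y / 3 ^ (n + 1 - m)| ≤
        |mu M n y - mu M m y / 3 ^ (n - m)| / 3 + |mu M (n + 1) y - mu M n y / 3| := by
      intro y
      have e : mu M (n + 1) y - mu M m y / 3 ^ (n + 1 - m) =
          (mu M n y - mu M m y / 3 ^ (n - m)) / 3 + (mu M (n + 1) y - mu M n y / 3) := by
        rw [show n + 1 - m = (n - m) + 1 by omega, pow_succ]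
        field_simp
        ring
      rw [e]
      refine (abs_add_le _ _).trans ?_
      rw [abs_div, abs_of_pos (by norm_num : (0 : ℝ) < 3)]
    calc ∑ y ∈ range (3 ^ (n + 1)), |mu M (n + 1) y - mu M m y / 3 ^ (n + 1 - m)|
        ≤ ∑ y ∈ range (3 ^ (n + 1)), (|mu M n y - mu M m y / 3 ^ (n - m)| / 3 +
            |mu M (n + 1) y - mu M n y / 3|) := sum_le_sum fun y _ => hdec y
      _ = ∑ y ∈ range (3 ^ n), |mu M n y - mu M m y / 3 ^ (n - m)| + TT M n := by
          rw [sum_add_distrib, ← sum_div, hsplit]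
          · unfold TT; ring
          · intro y
            rw [hper y, hperm y]
      _ ≤ _ := by linarith

end H62w
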