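import Pool.Agent.Lib.H62w.Defs
import Pool.Agent.Lib.H62w.PathsA

set_option autoImplicit false

/-!
Weights and their multiplicativity. Chunk P2.
-/

open Finset

namespace H62w

theorem mem_PP {M k y : ℕ} {l : List ℕ} : l ∈ PP M k y ↔
    (l.length = k ∧ ∀ a ∈ l, 1 ≤ a ∧ a ≤ M) ∧ va l y ∧ en l y % 3 ≠ 0 ∧ 3 ^ k ≤ 2 ^ l.sum := by
  rw [PP, mem_filter, mem_words]

theorem PP_mod (M k y : ℕ) : PP M k y = PP M k (y % 3 ^ (k + 1)) := by
  ext l
  rw [mem_PP, mem_PP]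
  refine and_congr_right fun hl => ?_
  set r := y % 3 ^ (k + 1) with hr
  have hy : y = r + 3 ^ (l.length + 1) * (y / 3 ^ (k + 1)) := by
    rw [hl.1, hr]
    exact (Nat.mod_add_div y _).symm
  have hva : va l y ↔ va l r := by
    rw [va_iff, va_iff]
    have h1 : y ≡ r [MOD 3 ^ l.length] := by
      have h2 : y ≡ r [MOD 3 ^ (k + 1)] := (Nat.mod_modEq y _).symm
      rw [hl.1]
      exact h2.of_dvd (pow_dvd_pow 3 (Nat.le_succ k))
    have h3 := h1.mul_left (2 ^ l.sum)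
    exact ⟨fun h => h3.symm.trans h, fun h => h3.trans h⟩
  rw [hva]
  refine and_congr_right fun hv => ?_
  have h1 := (en_add l r (y / 3 ^ (k + 1)) hv).2
  rw [← hy] at h1
  rw [h1, mul_assoc, Nat.add_mul_mod_self_left]

theorem W_mod (β : ℝ) (M k y : ℕ) : W β M k y = W β M k (y % 3 ^ (k + 1)) := by
  unfold W
  rw [PP_mod]

theorem wt_pos (β : ℝ) (k : ℕ) (l : List ℕ) : 0 < wt β k l := by
  unfold wt
  positivity

theorem wt_le_one {β : ℝ} (hβ : 0 ≤ β) {M k y : ℕ} {l : List ℕ} (hl : l ∈ PP M k y) :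
    wt β k l ≤ 1 := by
  unfold wt
  apply Real.rpow_le_one (by positivity) _ hβ
  rw [div_le_one (by positivity)]
  have := (mem_PP.1 hl).2.2.2
  exact_mod_cast this

theorem wt_append (β : ℝ) (k n : ℕ) (l l' : List ℕ) :
    wt β (k + n) (l ++ l') = wt β k l * wt β n l' := by
  unfold wt
  rw [← Real.mul_rpow (by positivity) (by positivity)]
  congr 1
  rw [List.sum_append, pow_add, pow_add]
  field_simp

theorem append_mem_PP {M k n y : ℕ} {l l' : List ℕ} (hl : l ∈ PP M k y)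
    (hl' : l' ∈ PP M n (en l y)) : l ++ l' ∈ PP M (k + n) y := by
  rw [mem_PP] at hl hl' ⊢
  obtain ⟨⟨h1, h2⟩, h3, -, h5⟩ := hl
  obtain ⟨⟨h1', h2'⟩, h3', h4', h5'⟩ := hl'
  refine ⟨⟨?_, ?_⟩, ?_, ?_, ?_⟩
  · rw [List.length_append, h1, h1']
  · intro a ha
    rcases List.mem_append.1 ha with ha | ha
    · exact h2 a ha
    · exact h2' a ha
  · rw [va_append]
    exact ⟨h3, h3'⟩
  · rw [en_append]
    exact h4'
  · rw [List.sum_append, pow_add, pow_add]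
    exact Nat.mul_le_mul h5 h5'

theorem W_super (β : ℝ) (M k n y : ℕ) :
    ∑ l ∈ PP M k y, wt β k l * W β M n (en l y) ≤ W β M (k + n) y := by
  classical
  have h1 : ∑ l ∈ PP M k y, wt β k l * W β M n (en l y) =
      ∑ x ∈ (PP M k y).sigma (fun l => PP M n (en l y)), wt β (k + n) (x.1 ++ x.2) := by
    rw [Finset.sum_sigma]
    refine Finset.sum_congr rfl fun l _ => ?_
    unfold W
    rw [Finset.mul_sum]
    exact Finset.sum_congr rfl fun l' _ => (wt_append β k n l l').symm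
  rw [h1]
  have hinj : Set.InjOn (fun x : (_ : List ℕ) × List ℕ => x.1 ++ x.2)
      ((PP M k y).sigma (fun l => PP M n (en l y)) : Set ((_ : List ℕ) × List ℕ)) := by
    rintro ⟨l, l'⟩ hx ⟨m, m'⟩ hx' h
    simp only [coe_sigma, Set.mem_sigma_iff, mem_coe] at hx hx'
    have h2 : l.length = m.length := by
      rw [(mem_PP.1 hx.1).1.1, (mem_PP.1 hx'.1).1.1]
    have h3 : l ++ l' = m ++ m' := h
    obtain ⟨h4, h5⟩ := List.append_inj h3 h2
    rw [h4, h5]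
  rw [← Finset.sum_image (f := fun l => wt β (k + n) l) hinj]
  refine Finset.sum_le_sum_of_subset_of_nonneg ?_ fun l _ _ => (wt_pos _ _ _).le
  intro z hz
  rw [mem_image] at hz
  obtain ⟨⟨l, l'⟩, hx, rfl⟩ := hz
  rw [mem_sigma] at hx
  exact append_mem_PP hx.1 hx.2

/-- From every unit there is a letter in `{2,..,7}` with a unit end point. -/
theorem exists_letter (y : ℕ) (hy : y % 3 ≠ 0) :
    ∃ a, 2 ≤ a ∧ a ≤ 7 ∧ 2 ^ a * y % 3 = 1 ∧ nx a y % 3 ≠ 0 := by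
  have h9 : y % 9 < 9 := Nat.mod_lt _ (by norm_num)
  have hdec : y = 9 * (y / 9) + y % 9 := (Nat.div_add_mod y 9).symm
  set q := y / 9 with hq
  set r := y % 9 with hr
  have key : ∀ a : ℕ, 2 ^ a * y = 9 * (2 ^ a * q) + 2 ^ a * r := fun a => by
    rw [hdec]; ring
  have hr3 : r % 3 ≠ 0 := by omega
  have hcases : r = 1 ∨ r = 2 ∨ r = 4 ∨ r = 5 ∨ r = 7 ∨ r = 8 := by omega
  unfold nx
  rcases hcases with h | h | h | h | h | h
  · refine ⟨2, by norm_num, by norm_num, ?_, ?_⟩ <;> (rw [key, h]; omega)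
  · refine ⟨3, by norm_num, by norm_num, ?_, ?_⟩ <;> (rw [key, h]; omega)
  · refine ⟨2, by norm_num, by norm_num, ?_, ?_⟩ <;> (rw [key, h]; omega)
  · refine ⟨3, by norm_num, by norm_num, ?_, ?_⟩ <;> (rw [key, h]; omega)
  · refine ⟨4, by norm_num, by norm_num, ?_, ?_⟩ <;> (rw [key, h]; omega)
  · refine ⟨5, by norm_num, by norm_num, ?_, ?_⟩ <;> (rw [key, h]; omega)

theorem card_words (M k : ℕ) : (words M k).card ≤ M ^ k := by
  induction k with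
  | zero => simp [words]
  | succ k ih =>
    refine (card_image_le).trans ?_
    rw [card_product, Nat.card_Icc, pow_succ, mul_comm]
    simpa using Nat.mul_le_mul_right M ih

theorem exists_word (k : ℕ) : ∀ y : ℕ, y % 3 ≠ 0 → ∃ l : List ℕ, l.length = k ∧
    (∀ a ∈ l, 2 ≤ a ∧ a ≤ 7) ∧ va l y ∧ en l y % 3 ≠ 0 := by
  induction k with
  | zero => intro y hy; exact ⟨[], rfl, by simp, trivial, hy⟩
  | succ k ih =>
    intro y hy
    obtain ⟨a, h2, h7, hv, hu⟩ := exists_letter y hy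
    obtain ⟨l, h1, h3, h4, h5⟩ := ih _ hu
    refine ⟨a :: l, by simp [h1], ?_, ⟨hv, h4⟩, h5⟩
    intro b hb
    rcases List.mem_cons.1 hb with rfl | hb
    · exact ⟨h2, h7⟩
    · exact h3 b hb

theorem sum_bounds {l : List ℕ} (h : ∀ a ∈ l, 2 ≤ a ∧ a ≤ 7) :
    2 * l.length ≤ l.sum ∧ l.sum ≤ 7 * l.length := by
  induction l with
  | nil => simp
  | cons a l ih =>
    have h1 := ih fun b hb => h b (List.mem_cons_of_mem _ hb)
    have h2 := h a List.mem_cons_self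
    rw [List.sum_cons, List.length_cons]
    omega

theorem W_lower {β : ℝ} (hβ : 0 < β) {M : ℕ} (hM : 7 ≤ M) (k y : ℕ) (hy : y % 3 ≠ 0) :
    ((3 / 128 : ℝ) ^ β) ^ k ≤ W β M k y := by
  obtain ⟨l, h1, h2, h3, h4⟩ := exists_word k y hy
  have hs := sum_bounds h2
  rw [h1] at hs
  have hmem : l ∈ PP M k y := by
    rw [mem_PP]
    refine ⟨⟨h1, fun a ha => ⟨by have := h2 a ha; omega, by have := h2 a ha; omega⟩⟩, h3, h4, ?_⟩
    calc 3 ^ k ≤ 4 ^ k := Nat.pow_le_pow_left (by norm_num) k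
      _ = 2 ^ (2 * k) := by rw [pow_mul]; norm_num
      _ ≤ 2 ^ l.sum := Nat.pow_le_pow_right (by norm_num) hs.1
  have h5 : wt β k l ≤ W β M k y := by
    unfold W
    exact Finset.single_le_sum (f := fun l => wt β k l) (fun l _ => (wt_pos β k l).le) hmem
  refine le_trans ?_ h5
  unfold wt
  rw [← Real.rpow_natCast, ← Real.rpow_mul (by norm_num), mul_comm, Real.rpow_mul (by norm_num),
    Real.rpow_natCast]
  apply Real.rpow_le_rpow (by positivity) _ hβ.le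
  rw [div_pow]
  have h6 : (128 : ℝ) ^ k = 2 ^ (7 * k) := by rw [pow_mul]; norm_num
  rw [h6]
  gcongr
  · norm_num
  · exact hs.2

theorem W_upper {β : ℝ} (hβ : 0 ≤ β) (M k y : ℕ) : W β M k y ≤ (M : ℝ) ^ k := by
  unfold W
  have h1 : ∑ l ∈ PP M k y, wt β k l ≤ ∑ _l ∈ PP M k y, (1 : ℝ) :=
    Finset.sum_le_sum fun l hl => wt_le_one hβ hl
  refine h1.trans ?_
  rw [Finset.sum_const, nsmul_eq_mul, mul_one]
  have h2 : (PP M k y).card ≤ M ^ k := (card_filter_le _ _).trans (card_words M k)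
  exact_mod_cast h2

theorem W_bound {β : ℝ} (hβ : 0 < β) (hβ1 : β ≤ 1) {M : ℕ} (hM : 7 ≤ M) :
    ∃ C : ℝ, 0 ≤ C ∧ ∀ k y : ℕ, y % 3 ≠ 0 →
      0 < W β M k y ∧ |Real.log (W β M k y)| ≤ C * k := by
  set t : ℝ := (3 / 128 : ℝ) ^ β with ht
  have ht0 : 0 < t := by positivity
  have hM0 : (0 : ℝ) < M := by
    have : 0 < M := by omega
    exact_mod_cast this
  refine ⟨|Real.log t| + |Real.log M|, by positivity, fun k y hy => ?_⟩
  have h1 := W_lower hβ hM k y hy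
  have h2 := W_upper hβ.le M k y
  have h0 : 0 < W β M k y := lt_of_lt_of_le (by positivity) h1
  refine ⟨h0, ?_⟩
  have h3 := Real.log_le_log (by positivity) h1
  have h4 := Real.log_le_log h0 h2
  rw [Real.log_pow] at h3 h4
  have hk : (0 : ℝ) ≤ k := Nat.cast_nonneg k
  have e1 := neg_abs_le (Real.log t)
  have e2 := le_abs_self (Real.log (M : ℝ))
  have e3 := abs_nonneg (Real.log t)
  have e4 := abs_nonneg (Real.log (M : ℝ))
  rw [abs_le]
  constructor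
  · nlinarith
  · nlinarith

/-! ### Worst case. Chunk P3. -/

theorem mem_U {k y : ℕ} : y ∈ U k ↔ y < 3 ^ (k + 1) ∧ y % 3 ≠ 0 := by
  rw [U, mem_filter, mem_range]

theorem mod_mem_U (k y : ℕ) (hy : y % 3 ≠ 0) : y % 3 ^ (k + 1) ∈ U k := by
  rw [mem_U]
  refine ⟨Nat.mod_lt _ (pow_pos (by norm_num) _), ?_⟩
  rw [Nat.mod_mod_of_dvd _ (dvd_pow_self 3 (Nat.succ_ne_zero k))]
  exact hy

theorem mm_pos {β : ℝ} (hβ : 0 < β) (hβ1 : β ≤ 1) {M : ℕ} (hM : 7 ≤ M) (k : ℕ) :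
    0 < mm β M k := by
  obtain ⟨C, -, hC⟩ := W_bound hβ hβ1 hM
  unfold mm
  rw [Finset.lt_inf'_iff]
  intro y hy
  exact (hC k y (mem_U.1 hy).2).1

theorem mm_le (β : ℝ) (M k y : ℕ) (hy : y % 3 ≠ 0) : mm β M k ≤ W β M k y := by
  rw [W_mod]
  exact Finset.inf'_le _ (mod_mem_U k y hy)

theorem exists_mm (β : ℝ) (M k : ℕ) : ∃ y ∈ U k, W β M k y = mm β M k := by
  obtain ⟨y, hy, h⟩ := Finset.exists_mem_eq_inf' (U_nonempty k) (W β M k)
  exact ⟨y, hy, h.symm⟩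

theorem mm_super {β : ℝ} (hβ : 0 < β) (hβ1 : β ≤ 1) {M : ℕ} (hM : 7 ≤ M) (k n : ℕ) :
    mm β M k * mm β M n ≤ mm β M (k + n) := by
  obtain ⟨y, hy, h⟩ := exists_mm β M (k + n)
  have hyu := (mem_U.1 hy).2
  rw [← h]
  refine le_trans ?_ (W_super β M k n y)
  have h1 : ∑ l ∈ PP M k y, wt β k l * mm β M n ≤
      ∑ l ∈ PP M k y, wt β k l * W β M n (en l y) := by
    refine Finset.sum_le_sum fun l hl => ?_
    exact mul_le_mul_of_nonneg_left (mm_le β M n _ (mem_PP.1 hl).2.2.1) (wt_pos β k l).le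
  refine le_trans ?_ h1
  rw [← Finset.sum_mul]
  exact mul_le_mul_of_nonneg_right (mm_le β M k y hyu) (mm_pos hβ hβ1 hM n).le

theorem log_mm_bound {β : ℝ} (hβ : 0 < β) (hβ1 : β ≤ 1) {M : ℕ} (hM : 7 ≤ M) :
    ∃ C : ℝ, 0 ≤ C ∧ ∀ k : ℕ, |Real.log (mm β M k)| ≤ C * k := by
  obtain ⟨C, hC0, hC⟩ := W_bound hβ hβ1 hM
  refine ⟨C, hC0, fun k => ?_⟩
  obtain ⟨y, hy, h⟩ := exists_mm β M k
  rw [← h]
  exact (hC k y (mem_U.1 hy).2).2

theorem RR_bddAbove {β : ℝ} (hβ : 0 < β) (hβ1 : β ≤ 1) {M : ℕ} (hM : 7 ≤ M) :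
    BddAbove {x : ℝ | ∃ k : ℕ, 1 ≤ k ∧ x = Real.log (mm β M k) / k} := by
  obtain ⟨C, hC0, hC⟩ := log_mm_bound hβ hβ1 hM
  refine ⟨C, ?_⟩
  rintro x ⟨k, hk, rfl⟩
  have hk0 : (0 : ℝ) < k := by exact_mod_cast hk
  rw [div_le_iff₀ hk0]
  exact (le_abs_self _).trans (hC k)

theorem log_mm_le {β : ℝ} (hβ : 0 < β) (hβ1 : β ≤ 1) {M : ℕ} (hM : 7 ≤ M) (k : ℕ) :
    Real.log (mm β M k) ≤ RR β M * k := by
  rcases Nat.eq_zero_or_pos k with rfl | hk
  · obtain ⟨C, hC0, hC⟩ := log_mm_bound hβ hβ1 hM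
    have h := hC 0
    rw [Nat.cast_zero, mul_zero] at h ⊢
    exact (le_abs_self _).trans h
  · have hk0 : (0 : ℝ) < k := by exact_mod_cast hk
    rw [← div_le_iff₀ hk0]
    exact le_csSup (RR_bddAbove hβ hβ1 hM) ⟨k, hk, rfl⟩

theorem log_mm_mul {β : ℝ} (hβ : 0 < β) (hβ1 : β ≤ 1) {M : ℕ} (hM : 7 ≤ M) (k q r : ℕ) :
    q * Real.log (mm β M k) + Real.log (mm β M r) ≤ Real.log (mm β M (k * q + r)) := by
  induction q with
  | zero => simp
  | succ q ih =>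
    have h1 := mm_super hβ hβ1 hM k (k * q + r)
    have h2 := Real.log_le_log (mul_pos (mm_pos hβ hβ1 hM _) (mm_pos hβ hβ1 hM _)) h1
    rw [Real.log_mul (mm_pos hβ hβ1 hM _).ne' (mm_pos hβ hβ1 hM _).ne'] at h2
    have e : k + (k * q + r) = k * (q + 1) + r := by ring
    rw [e] at h2
    push_cast
    linarith

theorem log_mm_ge {β : ℝ} (hβ : 0 < β) (hβ1 : β ≤ 1) {M : ℕ} (hM : 7 ≤ M) {ε : ℝ} (hε : 0 < ε) :
    ∃ C : ℝ, 0 ≤ C ∧ ∀ k : ℕ, RR β M * k - ε * k - C ≤ Real.log (mm β M k) := by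
  obtain ⟨C₀, hC₀, hC⟩ := log_mm_bound hβ hβ1 hM
  have hne : {x : ℝ | ∃ k : ℕ, 1 ≤ k ∧ x = Real.log (mm β M k) / k}.Nonempty :=
    ⟨_, 1, le_rfl, rfl⟩
  obtain ⟨x, ⟨k₀, hk₀, rfl⟩, hx⟩ := exists_lt_of_lt_csSup hne
    (show RR β M - ε < sSup {x : ℝ | ∃ k : ℕ, 1 ≤ k ∧ x = Real.log (mm β M k) / k} by
      have : RR β M = sSup {x : ℝ | ∃ k : ℕ, 1 ≤ k ∧ x = Real.log (mm β M k) / k} := rfl
      rw [← this]
      linarith)
  have hk₀0 : (0 : ℝ) < k₀ := by exact_mod_cast hk₀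
  rw [lt_div_iff₀ hk₀0] at hx
  refine ⟨(|RR β M - ε| + C₀) * k₀, by positivity, fun k => ?_⟩
  set q := k / k₀ with hq
  set r := k % k₀ with hr
  have hkqr : k₀ * q + r = k := Nat.div_add_mod k k₀
  have hr0 : r < k₀ := Nat.mod_lt _ hk₀
  have h1 := log_mm_mul hβ hβ1 hM k₀ q r
  rw [hkqr] at h1
  have h2 := (abs_le.1 (hC r)).1
  have hrR : (r : ℝ) ≤ k₀ := by exact_mod_cast hr0.le
  have hr00 : (0 : ℝ) ≤ r := Nat.cast_nonneg r
  have hq0 : (0 : ℝ) ≤ q := Nat.cast_nonneg q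
  have h3 : (q : ℝ) * ((RR β M - ε) * k₀) ≤ q * Real.log (mm β M k₀) :=
    mul_le_mul_of_nonneg_left hx.le hq0
  have hkR : (k : ℝ) = k₀ * q + r := by
    rw [← hkqr]
    push_cast
    ring
  have h4 : (RR β M - ε) * r ≤ |RR β M - ε| * k₀ :=
    (mul_le_mul_of_nonneg_right (le_abs_self _) hr00).trans
      (mul_le_mul_of_nonneg_left hrR (abs_nonneg _))
  have h5 : C₀ * r ≤ C₀ * k₀ := mul_le_mul_of_nonneg_left hrR hC₀
  have h6 : RR β M * k - ε * k = q * ((RR β M - ε) * k₀) + (RR β M - ε) * r := by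
    rw [hkR]
    ring
  rw [h6]
  nlinarith

end H62w
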