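import Pool.Agent.Lib.H62w.Source2

set_option autoImplicit false
open Finset
namespace H62w
namespace Src

theorem HH_lower (m k N : ℕ) :
    k * (Real.log 2 * (2 - 2 * (1 / 2) ^ m))
      - (∑ l ∈ (words (m + 1) k).filter (fun l => ¬ cc l < 3 ^ N), pw (m + 1) l) * (1 + k * (m * Real.log 2))
      ≤ HH (m + 1) k N := by
  have h := fib_ent (words (m + 1) k) (range ((m + 1) * k + 1) ×ˢ range (3 ^ N)) (fun l => (l.sum, cl N l))
    (cell_mem (m + 1) k N) (pw (m + 1)) (fun l _ => pw_pos _ _) (pw_sum (by omega) k) (fun l => cc l < 3 ^ N)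
    (fun l hl l' hl' hg hg' he => ?_) (k * (m * Real.log 2)) (neg_log_pw_le m k)
    (by have := Real.log_pos (by norm_num : (1 : ℝ) < 2); positivity)
  · rw [ent_words] at h
    refine le_trans h (le_of_eq ?_)
    rw [HH, ← sum_product (range ((m + 1) * k + 1)) (range (3 ^ N))
      (fun p => Real.negMulLog (jl (m + 1) k N p.1 p.2))]
    apply sum_congr rfl
    intro p hp
    rw [jl_fib _ _ _ p hp]
  · rw [mem_words] at hl hl'
    simp only [Prod.mk.injEq] at he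
    apply cc_inj (hl.1.trans hl'.1.symm) he.1 (fun a ha => (hl.2 a ha).1) (fun a ha => (hl'.2 a ha).1)
    have e1 : 2 ^ l.sum * cl N l ≡ cc l [MOD 3 ^ N] := by
      rw [cl_iff, Nat.mod_eq_of_lt (cl_lt _ _)]
    have e2 : 2 ^ l'.sum * cl N l' ≡ cc l' [MOD 3 ^ N] := by
      rw [cl_iff, Nat.mod_eq_of_lt (cl_lt _ _)]
    rw [← he.1, ← he.2] at e2
    exact Nat.ModEq.eq_of_lt_of_lt (e1.symm.trans e2) hg hg'

theorem bad_mass (m k N : ℕ) (τ G : ℝ) (hτ : 0 < τ) (hτ1 : τ ≤ 1)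
    (hG : ∑ a ∈ Icc 1 (m + 1), pa (m + 1) a * ((2 : ℝ) ^ τ) ^ a ≤ G) (hG3 : (3 : ℝ) ^ τ ≤ G) (hG1 : 1 ≤ G) :
    ∑ l ∈ (words (m + 1) k).filter (fun l => ¬ cc l < 3 ^ N), pw (m + 1) l ≤ k * G ^ k / ((3 : ℝ) ^ N) ^ τ := by
  rw [le_div_iff₀ (by positivity), sum_mul]
  refine le_trans ?_ (cc_moment m k τ G hτ hτ1 hG hG3 hG1)
  refine le_trans (sum_le_sum (g := fun l => pw (m + 1) l * ((cc l : ℕ) : ℝ) ^ τ) ?_)
    (sum_le_sum_of_subset_of_nonneg (filter_subset _ _)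
      (fun l _ _ => mul_nonneg (pw_pos _ _).le (Real.rpow_nonneg (Nat.cast_nonneg _) _)))
  intro l hl
  apply mul_le_mul_of_nonneg_left _ (pw_pos _ _).le
  apply Real.rpow_le_rpow (by positivity) _ hτ.le
  have := (mem_filter.mp hl).2
  push Not at this
  exact_mod_cast this

theorem log3_gt : 1 < Real.log 3 := by
  rw [Real.lt_log_iff_exp_lt (by norm_num)]
  have := Real.exp_one_lt_d9
  linarith

theorem rate (ζ : ℝ) (hζ : 0 < ζ) (hζ1 : ζ ≤ 1) : ∃ ρ : ℝ, 0 ≤ ρ ∧ ρ < 1 ∧ ∀ m k N : ℕ,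
    (2 * Real.log 2 / Real.log 3 + ζ) * k ≤ N →
    ∑ l ∈ (words (m + 1) k).filter (fun l => ¬ cc l < 3 ^ N), pw (m + 1) l ≤ k * ρ ^ k := by
  have hlog3 := log3_gt
  set τ : ℝ := ζ / 2 with hτdef
  have hτ : 0 < τ := by positivity
  have hτ1 : τ ≤ 1 := by rw [hτdef]; linarith
  set t : ℝ := (2 : ℝ) ^ τ with ht
  have ht1 : 1 < t := Real.one_lt_rpow (by norm_num) hτ
  have htle : t ≤ 1 + τ := by
    have := rpow_one_add_le_one_add_mul_self (s := 1) (by norm_num) hτ.le hτ1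
    rw [ht]
    have e : (1 : ℝ) + 1 = 2 := by norm_num
    rw [e] at this
    linarith
  have ht2 : t < 2 := by rw [hτdef] at htle; linarith
  set G : ℝ := (t / 2) / (1 - t / 2) with hGdef
  have hden : 0 < 1 - t / 2 := by linarith
  have hG1 : 1 ≤ G := by rw [hGdef, le_div_iff₀ hden]; linarith
  have hGt : t ^ 2 ≤ G := by
    rw [hGdef, le_div_iff₀ hden]
    nlinarith [mul_nonneg (by linarith : 0 ≤ t) (sq_nonneg (t - 1))]
  have hG3 : (3 : ℝ) ^ τ ≤ G := by
    refine le_trans ?_ hGt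
    have : t ^ 2 = (4 : ℝ) ^ τ := by
      rw [ht, ← Real.rpow_natCast, ← Real.rpow_mul (by norm_num), mul_comm, Real.rpow_mul (by norm_num)]
      norm_num
    rw [this]
    exact Real.rpow_le_rpow (by norm_num) (by norm_num) hτ.le
  have hGm : ∀ m : ℕ, ∑ a ∈ Icc 1 (m + 1), pa (m + 1) a * t ^ a ≤ G := fun m => letter_moment m t ht1.le ht2
  -- the rate
  set x : ℝ := (3 : ℝ) ^ (ζ * τ) with hx
  have hx1 : 1 + ζ * τ ≤ x := by
    rw [hx, Real.rpow_def_of_pos (by norm_num)]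
    have := Real.add_one_le_exp (Real.log 3 * (ζ * τ))
    have h2 : 0 < ζ * τ := by positivity
    nlinarith
  have hxpos : 0 < x := by positivity
  refine ⟨G / (t ^ 2 * x), by positivity, ?_, ?_⟩
  · rw [div_lt_one (by positivity), hGdef, div_lt_iff₀ hden]
    have h1 : t / 2 < t ^ 2 * x * (1 - t / 2) ↔ 1 < t * (2 - t) * x := by
      constructor
      · intro h
        have h' : t * 1 < t * (t * (2 - t) * x) := by nlinarith
        exact lt_of_mul_lt_mul_left h' (by linarith)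
      · intro h
        have h' := mul_lt_mul_of_pos_left h (by linarith : 0 < t)
        nlinarith
    rw [h1]
    have h2 : 1 - τ ^ 2 ≤ t * (2 - t) := by nlinarith
    have h3 : 0 < 1 - τ ^ 2 := by rw [hτdef]; nlinarith
    have h4 : (1 - τ ^ 2) * (1 + ζ * τ) ≤ t * (2 - t) * x :=
      mul_le_mul h2 hx1 (by positivity) (by linarith)
    refine lt_of_lt_of_le ?_ h4
    have h5 : (1 - τ ^ 2) * (1 + ζ * τ) = 1 + ζ ^ 2 / 4 - ζ ^ 4 / 8 := by rw [hτdef]; ring
    rw [h5]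
    have h6 : ζ ^ 4 ≤ ζ ^ 2 := pow_le_pow_of_le_one hζ.le hζ1 (by norm_num)
    have h7 : 0 < ζ ^ 2 := by positivity
    linarith
  · intro m k N hN
    refine le_trans (bad_mass m k N τ G hτ hτ1 (hGm m) hG3 hG1) ?_
    rw [div_pow G (t ^ 2 * x) k, mul_div_assoc]
    apply mul_le_mul_of_nonneg_left _ (Nat.cast_nonneg _)
    apply div_le_div_of_nonneg_left (by positivity) (by positivity)
    -- (t^2 x)^k ≤ (3^N)^τ
    have h1 : (t ^ 2 * x) ^ k = Real.exp (((2 * Real.log 2 / Real.log 3 + ζ) * k) * (τ * Real.log 3)) := by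
      rw [hx, ht, ← Real.rpow_natCast (2 ^ τ) 2, ← Real.rpow_mul (by norm_num), Real.rpow_def_of_pos (by norm_num : (0 : ℝ) < 2),
        Real.rpow_def_of_pos (by norm_num : (0 : ℝ) < 3), ← Real.exp_add, ← Real.exp_nat_mul]
      congr 1
      have : Real.log 3 ≠ 0 := by positivity
      field_simp
      push_cast
      ring
    have h2 : ((3 : ℝ) ^ N) ^ τ = Real.exp (N * (τ * Real.log 3)) := by
      rw [← Real.rpow_natCast, ← Real.rpow_mul (by norm_num), Real.rpow_def_of_pos (by norm_num)]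
      congr 1; ring
    rw [h1, h2]
    apply Real.exp_le_exp.mpr
    apply mul_le_mul_of_nonneg_right hN
    positivity

theorem eventually_small (m : ℕ) (ρ c : ℝ) (hρ0 : 0 ≤ ρ) (hρ : ρ < 1) (hc : 0 < c) :
    ∃ K0 : ℕ, ∀ k : ℕ, K0 ≤ k →
      Real.log 3 + Real.log (((m + 1 : ℕ) : ℝ) * k + 1) + k * ρ ^ k * (1 + k * (m * Real.log 2)) ≤ c * k := by
  have h1 : Filter.Tendsto (fun k : ℕ => ρ ^ k * (1 + k * (m * Real.log 2))) Filter.atTop (nhds 0) := by
    have e1 : Filter.Tendsto (fun k : ℕ => ρ ^ k) Filter.atTop (nhds 0) := tendsto_pow_atTop_nhds_zero_of_lt_one hρ0 hρ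
    have e2 : Filter.Tendsto (fun k : ℕ => (k : ℝ) ^ 1 * ρ ^ k) Filter.atTop (nhds 0) :=
      tendsto_pow_const_mul_const_pow_of_lt_one 1 hρ0 hρ
    have e3 := e1.add (e2.mul_const (m * Real.log 2))
    simp only [zero_mul, add_zero] at e3
    refine e3.congr (fun k => ?_)
    ring
  have h2 : ∀ᶠ k : ℕ in Filter.atTop, ρ ^ k * (1 + k * (m * Real.log 2)) < c / 4 :=
    h1.eventually_lt_const (by positivity)
  obtain ⟨K1, hK1⟩ := Filter.eventually_atTop.mp h2
  set lam : ℝ := c / (4 * (m + 1)) with hlam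
  have hlpos : 0 < lam := by positivity
  obtain ⟨K2, hK2⟩ := exists_nat_ge ((Real.log 3 + (lam - 1 - Real.log lam)) / (c / 4))
  refine ⟨max K1 K2, fun k hk => ?_⟩
  have hk1 : K1 ≤ k := le_trans (le_max_left _ _) hk
  have hk2 : (K2 : ℝ) ≤ k := by exact_mod_cast le_trans (le_max_right _ _) hk
  have e1 := hK1 k hk1
  have e2 : Real.log (((m + 1 : ℕ) : ℝ) * k + 1) ≤ lam * (((m + 1 : ℕ) : ℝ) * k + 1) - 1 - Real.log lam := by
    have hp : (0 : ℝ) < ((m + 1 : ℕ) : ℝ) * k + 1 := by positivity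
    have := Real.log_le_sub_one_of_pos (mul_pos hlpos hp)
    rw [Real.log_mul hlpos.ne' hp.ne'] at this
    linarith
  have e3 : lam * (((m + 1 : ℕ) : ℝ) * k + 1) = c / 4 * k + lam := by
    rw [hlam]; push_cast; field_simp
  have e4 : Real.log 3 + (lam - 1 - Real.log lam) ≤ c / 4 * k := by
    rw [div_le_iff₀ (by positivity)] at hK2
    nlinarith
  have e5 : k * ρ ^ k * (1 + k * (m * Real.log 2)) ≤ c / 4 * k := by
    rw [mul_assoc, mul_comm (c / 4)]
    exact mul_le_mul_of_nonneg_left e1.le (Nat.cast_nonneg _)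
  rw [e3] at e2
  have e6 : 0 ≤ c / 4 * k := by positivity
  linarith

end Src

open Src in
theorem source (ε0 : ℝ) (hε0 : 0 < ε0) : ∃ M0 : ℕ, ∀ M : ℕ, M0 ≤ M → ∃ j0 : ℕ, ∀ j : ℕ, j0 ≤ j →
    ∃ n : ℕ, 11 * j ≤ n ∧ n ≤ 13 * j ∧ tt M (10 * j) n ≤ ε0 := by
  have hlog3 := log3_gt
  have hlog2 : 0 < Real.log 2 := Real.log_pos (by norm_num)
  set e : ℝ := ε0 ^ 2 with he
  have hepos : 0 < e := by positivity
  set ζ : ℝ := min (1 / 200) (e / 1000) with hζdef
  have hζ : 0 < ζ := by rw [hζdef]; positivity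
  have hζ1 : ζ ≤ 1 / 200 := min_le_left _ _
  have hζ2 : ζ ≤ e / 1000 := min_le_right _ _
  obtain ⟨ρ, hρ0, hρ, hrate⟩ := rate ζ hζ (by linarith)
  -- choice of M
  have hm : ∃ m0 : ℕ, ∀ m : ℕ, m0 ≤ m → 2 * Real.log 2 * (1 / 2) ^ m ≤ e / 400 := by
    have h1 : Filter.Tendsto (fun m : ℕ => 2 * Real.log 2 * (1 / 2 : ℝ) ^ m) Filter.atTop (nhds (2 * Real.log 2 * 0)) :=
      (tendsto_pow_atTop_nhds_zero_of_lt_one (by norm_num) (by norm_num)).const_mul _
    rw [mul_zero] at h1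
    obtain ⟨m0, hm0⟩ := Filter.eventually_atTop.mp (h1.eventually_lt_const (by positivity : 0 < e / 400))
    exact ⟨m0, fun m hm => (hm0 m hm).le⟩
  obtain ⟨m0, hm0⟩ := hm
  refine ⟨m0 + 1, fun M hM => ?_⟩
  obtain ⟨m, rfl⟩ : ∃ m, M = m + 1 := ⟨M - 1, by omega⟩
  have hmm := hm0 m (by omega)
  obtain ⟨K0, hK0⟩ := eventually_small m ρ (e / 400) hρ0 hρ (by positivity)
  refine ⟨max K0 10, fun j hj => ?_⟩
  by_contra hcon
  push Not at hcon
  have hj10 : 10 ≤ j := le_trans (le_max_right _ _) hj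
  have hjK : K0 ≤ 10 * j := le_trans (le_trans (le_max_left _ _) hj) (by omega)
  set k : ℕ := 10 * j with hk
  set κ : ℝ := 2 * Real.log 2 / Real.log 3 + ζ with hκ
  have hkr : (k : ℝ) = 10 * j := by rw [hk]; push_cast; ring
  have hjr : (10 : ℝ) ≤ j := by exact_mod_cast hj10
  -- numerical bounds
  have hn1 : 12 * Real.log 3 < 20 * Real.log 2 := by
    have : Real.log (3 ^ 12) < Real.log (2 ^ 20) := Real.log_lt_log (by norm_num) (by norm_num)
    rw [Real.log_pow, Real.log_pow] at this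
    norm_num at this ⊢; exact this
  have hn2 : 200 * Real.log 2 < 127 * Real.log 3 := by
    have : Real.log (2 ^ 200) < Real.log (3 ^ 127) := Real.log_lt_log (by norm_num) (by norm_num)
    rw [Real.log_pow, Real.log_pow] at this
    norm_num at this ⊢; exact this
  have hκ1 : 12 / 10 ≤ κ := by
    have : 12 / 10 ≤ 2 * Real.log 2 / Real.log 3 := by
      rw [le_div_iff₀ (by linarith)]; linarith
    rw [hκ]; linarith
  have hκ2 : κ ≤ 1275 / 1000 := by
    have : 2 * Real.log 2 / Real.log 3 ≤ 127 / 100 := by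
      rw [div_le_iff₀ (by linarith)]; linarith
    rw [hκ]; linarith
  set N : ℕ := ⌈κ * k⌉₊ with hN
  have hN1 : κ * k ≤ N := Nat.le_ceil _
  have hN2 : (N : ℝ) < κ * k + 1 := Nat.ceil_lt_add_one (by positivity)
  have hN3 : N ≤ 13 * j := by
    have : (N : ℝ) ≤ 13 * j := by rw [hkr] at hN2; nlinarith
    exact_mod_cast this
  have hN4 : (12 * j : ℝ) ≤ N := by rw [hkr] at hN1; nlinarith
  have hN5 : 12 * j ≤ N := by exact_mod_cast hN4
  -- deficits
  set D : ℕ → ℝ := fun n => Real.log 3 - (HH (m + 1) k (n + 1) - HH (m + 1) k n) with hD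
  have hDt : ∀ n, (tt (m + 1) k n) ^ 2 ≤ 8 * D n := fun n => tt_sq (by omega) k n
  have hD0 : ∀ n, 0 ≤ D n := fun n => by have := hDt n; nlinarith [sq_nonneg (tt (m + 1) k n)]
  have hsum : ∑ n ∈ range N, D n = N * Real.log 3 - HH (m + 1) k N + HH (m + 1) k 0 := by
    simp only [hD]
    rw [sum_sub_distrib, sum_range_sub]
    simp
    ring
  have hlow : (j : ℝ) * (e / 8) ≤ ∑ n ∈ range N, D n := by
    have h1 : ∑ n ∈ Ico (11 * j) N, D n ≤ ∑ n ∈ range N, D n := by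
      apply sum_le_sum_of_subset_of_nonneg
      · intro n hn
        rw [mem_Ico] at hn
        exact mem_range.mpr hn.2
      · intro n _ _; exact hD0 n
    refine le_trans ?_ h1
    have h2 : ∑ n ∈ Ico (11 * j) N, e / 8 ≤ ∑ n ∈ Ico (11 * j) N, D n := by
      apply sum_le_sum
      intro n hn
      rw [mem_Ico] at hn
      have h3 := hcon n hn.1 (by omega)
      have h4 := hDt n
      have h5 : ε0 ^ 2 ≤ (tt (m + 1) k n) ^ 2 := by
        apply pow_le_pow_left₀ hε0.le h3.le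
      rw [he]; linarith
    refine le_trans ?_ h2
    rw [sum_const, Nat.card_Ico, nsmul_eq_mul]
    apply mul_le_mul_of_nonneg_right _ (by positivity)
    exact Nat.cast_le.mpr (by omega : j ≤ N - 11 * j)
  -- upper bound
  have hbad := hrate m k N hN1
  have hHN := HH_lower m k N
  have hH0 := HH_zero_le (M := m + 1) (by omega) k
  have hsm := hK0 k hjK
  have hmul : (∑ l ∈ (words (m + 1) k).filter (fun l => ¬ cc l < 3 ^ N), pw (m + 1) l) * (1 + k * (m * Real.log 2))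
      ≤ k * ρ ^ k * (1 + k * (m * Real.log 2)) :=
    mul_le_mul_of_nonneg_right hbad (by positivity)
  have hκ3 : κ * k * Real.log 3 = 2 * Real.log 2 * k + ζ * k * Real.log 3 := by
    rw [hκ]; field_simp
  have hN6 : (N : ℝ) * Real.log 3 ≤ 2 * Real.log 2 * k + ζ * k * Real.log 3 + Real.log 3 := by
    rw [← hκ3]; nlinarith
  have hm3 : 2 * Real.log 2 * (1 / 2) ^ m * k ≤ e / 400 * k := mul_le_mul_of_nonneg_right hmm (Nat.cast_nonneg _)
  have hexp : (k : ℝ) * (Real.log 2 * (2 - 2 * (1 / 2) ^ m)) = 2 * Real.log 2 * k - 2 * Real.log 2 * (1 / 2) ^ m * k := by ring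
  have hlog3b : Real.log 3 < 2 := by
    rw [Real.log_lt_iff_lt_exp (by norm_num)]
    have h1 := Real.exp_one_gt_d9
    have h2 : Real.exp 2 = Real.exp 1 * Real.exp 1 := by rw [← Real.exp_add]; norm_num
    rw [h2]; nlinarith
  have hz : ζ * k * Real.log 3 ≤ e / 1000 * k * 2 := by
    have h1 : ζ * k ≤ e / 1000 * k := mul_le_mul_of_nonneg_right hζ2 (Nat.cast_nonneg _)
    have h2 : 0 ≤ ζ * k := by positivity
    nlinarith
  rw [hsum] at hlow
  have hfin : (j : ℝ) * (e / 8) ≤ e / 1000 * k * 2 + e / 400 * k + e / 400 * k := by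
    linarith
  rw [hkr] at hfin
  nlinarith

end H62w
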