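import Pool.Agent.Lib.H62w.SkPaths
import Pool.Agent.Lib.H62w.SkMu

set_option autoImplicit false
open Finset
namespace H62w
namespace Src

/-! Basic facts on the letter law. -/

theorem sum_words_succ {M k : ℕ} (f : List ℕ → ℝ) :
    ∑ l ∈ words M (k + 1), f l = ∑ a ∈ Icc 1 M, ∑ l ∈ words M k, f (a :: l) := by
  rw [words, sum_image, sum_product]
  rintro ⟨a, l⟩ _ ⟨b, l'⟩ _ h
  simp only [List.cons.injEq] at h
  exact Prod.ext h.1 h.2

theorem pa_pos (M a : ℕ) : 0 < pa M a := by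
  unfold pa; split_ifs <;> positivity

theorem pw_pos (M : ℕ) (l : List ℕ) : 0 < pw M l := by
  unfold pw
  apply List.prod_pos
  intro x hx
  rw [List.mem_map] at hx
  obtain ⟨a, _, rfl⟩ := hx
  exact pa_pos M a

theorem pw_cons (M a : ℕ) (l : List ℕ) : pw M (a :: l) = pa M a * pw M l := by
  simp [pw]

theorem sum_Icc_split {m : ℕ} (f : ℕ → ℝ) :
    ∑ a ∈ Icc 1 (m + 1), f a = ∑ a ∈ Icc 1 m, f a + f (m + 1) := by
  rw [Finset.sum_Icc_succ_top (by omega)]

theorem pa_lt {m a : ℕ} (h : a ∈ Icc 1 m) : pa (m + 1) a = (1 / 2) ^ a := by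
  rw [mem_Icc] at h
  unfold pa; rw [if_pos (by omega)]

theorem pa_top (m : ℕ) : pa (m + 1) (m + 1) = (1 / 2) ^ m := by
  unfold pa; rw [if_neg (by omega)]; simp

theorem sum_half (m : ℕ) : ∑ a ∈ Icc 1 m, ((1 : ℝ) / 2) ^ a = 1 - (1 / 2) ^ m := by
  induction m with
  | zero => simp
  | succ m ih => rw [sum_Icc_split, ih, pow_succ]; ring

theorem sum_a_half (m : ℕ) : ∑ a ∈ Icc 1 m, (a : ℝ) * ((1 : ℝ) / 2) ^ a = 2 - (m + 2) * (1 / 2) ^ m := by
  induction m with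
  | zero => simp
  | succ m ih => rw [sum_Icc_split, ih, pow_succ]; push_cast; ring

theorem pa_sum (m : ℕ) : ∑ a ∈ Icc 1 (m + 1), pa (m + 1) a = 1 := by
  rw [sum_Icc_split, sum_congr rfl (fun a ha => pa_lt ha), pa_top, sum_half]; ring

/-- Entropy of one letter. -/
theorem ent_letter (m : ℕ) :
    ∑ a ∈ Icc 1 (m + 1), pa (m + 1) a * (-Real.log (pa (m + 1) a)) = Real.log 2 * (2 - 2 * (1 / 2) ^ m) := by
  have hl : ∀ a : ℕ, -Real.log (((1 : ℝ) / 2) ^ a) = a * Real.log 2 := by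
    intro a
    rw [Real.log_pow, Real.log_div (by norm_num) (by norm_num), Real.log_one]; ring
  rw [sum_Icc_split, sum_congr rfl (fun a ha => by rw [pa_lt ha, hl]), pa_top, hl]
  have : ∑ x ∈ Icc 1 m, ((1 : ℝ) / 2) ^ x * ((x : ℝ) * Real.log 2)
      = Real.log 2 * ∑ x ∈ Icc 1 m, (x : ℝ) * ((1 : ℝ) / 2) ^ x := by
    rw [mul_sum]; apply sum_congr rfl; intro x _; ring
  rw [this, sum_a_half]; ring

/-- Entropy of the word law. -/
theorem ent_words (m k : ℕ) :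
    ∑ l ∈ words (m + 1) k, pw (m + 1) l * (-Real.log (pw (m + 1) l))
      = k * (Real.log 2 * (2 - 2 * (1 / 2) ^ m)) := by
  induction k with
  | zero => simp [words, pw]
  | succ k ih =>
    rw [sum_words_succ]
    have h1 : ∀ a ∈ Icc 1 (m + 1), ∑ l ∈ words (m + 1) k, pw (m + 1) (a :: l) * (-Real.log (pw (m + 1) (a :: l)))
        = pa (m + 1) a * (-Real.log (pa (m + 1) a))
          + pa (m + 1) a * ∑ l ∈ words (m + 1) k, pw (m + 1) l * (-Real.log (pw (m + 1) l)) := by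
      intro a _
      have h2 : ∀ l ∈ words (m + 1) k, pw (m + 1) (a :: l) * (-Real.log (pw (m + 1) (a :: l)))
          = pa (m + 1) a * (-Real.log (pa (m + 1) a)) * pw (m + 1) l
            + pa (m + 1) a * (pw (m + 1) l * (-Real.log (pw (m + 1) l))) := by
        intro l _
        rw [pw_cons, Real.log_mul (pa_pos _ _).ne' (pw_pos _ _).ne']; ring
      rw [sum_congr rfl h2, sum_add_distrib, ← mul_sum, ← mul_sum, pw_sum (by omega)]; ring
    rw [sum_congr rfl h1, sum_add_distrib, ← sum_mul, pa_sum, ih, ent_letter]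
    push_cast; ring

/-- Lower bound for the mass of a letter and a word. -/
theorem neg_log_pa_le {m a : ℕ} : -Real.log (pa (m + 1) a) ≤ m * Real.log 2 := by
  have hl : ∀ a : ℕ, -Real.log (((1 : ℝ) / 2) ^ a) = a * Real.log 2 := by
    intro a
    rw [Real.log_pow, Real.log_div (by norm_num) (by norm_num), Real.log_one]; ring
  have h2 : 0 < Real.log 2 := Real.log_pos (by norm_num)
  unfold pa
  split_ifs with h1
  · rw [hl]
    have : (a : ℝ) ≤ m := by exact_mod_cast (by omega : a ≤ m)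
    nlinarith
  · rw [hl]; simp

theorem neg_log_pw_le (m k : ℕ) : ∀ l ∈ words (m + 1) k, -Real.log (pw (m + 1) l) ≤ k * (m * Real.log 2) := by
  induction k with
  | zero => simp [words, pw]
  | succ k ih =>
    intro l hl
    rw [words, mem_image] at hl
    obtain ⟨⟨a, l'⟩, hp, rfl⟩ := hl
    rw [mem_product] at hp
    rw [pw_cons, Real.log_mul (pa_pos _ _).ne' (pw_pos _ _).ne']
    have := ih l' hp.2
    have := neg_log_pa_le (m := m) (a := a)
    push_cast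
    linarith

/-! Moment bound for `cc`. -/

theorem geo_bound (m : ℕ) (v : ℝ) (hv : 1 / 2 ≤ v) (hv1 : v < 1) :
    ∑ a ∈ Icc 1 m, v ^ a + 2 * v ^ (m + 1) ≤ v / (1 - v) := by
  have h1 : (1 - v) * ∑ a ∈ Icc 1 m, v ^ a = v - v ^ (m + 1) := by
    induction m with
    | zero => simp
    | succ m ih => rw [sum_Icc_split, mul_add, ih, pow_succ v (m + 1)]; ring
  rw [le_div_iff₀ (by linarith)]
  have h2 : 0 < v ^ (m + 1) := by positivity
  nlinarith

/-- `E 2^(τ a) ≤ v/(1-v)`, `v = 2^τ/2`. -/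
theorem letter_moment (m : ℕ) (t : ℝ) (ht : 1 ≤ t) (ht2 : t < 2) :
    ∑ a ∈ Icc 1 (m + 1), pa (m + 1) a * t ^ a ≤ (t / 2) / (1 - t / 2) := by
  rw [sum_Icc_split, sum_congr rfl (fun a ha => by rw [pa_lt ha]), pa_top]
  have h := geo_bound m (t / 2) (by linarith) (by linarith)
  have h1 : ∑ x ∈ Icc 1 m, ((1 : ℝ) / 2) ^ x * t ^ x = ∑ a ∈ Icc 1 m, (t / 2) ^ a := by
    apply sum_congr rfl; intro x _; rw [← mul_pow]; congr 1; ring
  have h2 : ((1 : ℝ) / 2) ^ m * t ^ (m + 1) = 2 * (t / 2) ^ (m + 1) := by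
    rw [pow_succ (t / 2), pow_succ t, div_pow, div_pow, one_pow]; ring
  rw [h1, h2]; exact h

theorem words_moment (m k : ℕ) (t G : ℝ) (ht : 0 ≤ t)
    (hG : ∑ a ∈ Icc 1 (m + 1), pa (m + 1) a * t ^ a ≤ G) :
    ∑ l ∈ words (m + 1) k, pw (m + 1) l * t ^ l.sum ≤ G ^ k := by
  have hG0 : 0 ≤ G := le_trans (sum_nonneg (fun a _ => mul_nonneg (pa_pos _ _).le (pow_nonneg ht _))) hG
  induction k with
  | zero => simp [words, pw]
  | succ k ih =>
    rw [sum_words_succ]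
    have h1 : ∀ a ∈ Icc 1 (m + 1), ∑ l ∈ words (m + 1) k, pw (m + 1) (a :: l) * t ^ (a :: l).sum
        = (pa (m + 1) a * t ^ a) * ∑ l ∈ words (m + 1) k, pw (m + 1) l * t ^ l.sum := by
      intro a _
      rw [mul_sum]
      apply sum_congr rfl
      intro l _
      rw [pw_cons, List.sum_cons, pow_add]; ring
    rw [sum_congr rfl h1, ← sum_mul, pow_succ']
    exact mul_le_mul hG ih (sum_nonneg (fun l _ => mul_nonneg (pw_pos _ _).le (pow_nonneg ht _))) hG0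

theorem cc_moment (m k : ℕ) (τ G : ℝ) (hτ : 0 < τ) (hτ1 : τ ≤ 1)
    (hG : ∑ a ∈ Icc 1 (m + 1), pa (m + 1) a * ((2 : ℝ) ^ τ) ^ a ≤ G) (hG3 : (3 : ℝ) ^ τ ≤ G) (hG1 : 1 ≤ G) :
    ∑ l ∈ words (m + 1) k, pw (m + 1) l * ((cc l : ℕ) : ℝ) ^ τ ≤ k * G ^ k := by
  induction k with
  | zero => simp [words, pw, cc, Real.zero_rpow hτ.ne']
  | succ k ih =>
    rw [sum_words_succ]
    have hS : 0 ≤ ∑ l ∈ words (m + 1) k, pw (m + 1) l * ((cc l : ℕ) : ℝ) ^ τ :=
      sum_nonneg (fun l _ => mul_nonneg (pw_pos _ _).le (Real.rpow_nonneg (Nat.cast_nonneg _) _))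
    have h1 : ∀ a ∈ Icc 1 (m + 1), ∑ l ∈ words (m + 1) k, pw (m + 1) (a :: l) * ((cc (a :: l) : ℕ) : ℝ) ^ τ
        ≤ pa (m + 1) a * (G ^ k + G * (k * G ^ k)) := by
      intro a _
      have h2 : ∀ l ∈ words (m + 1) k, pw (m + 1) (a :: l) * ((cc (a :: l) : ℕ) : ℝ) ^ τ
          ≤ pa (m + 1) a * (pw (m + 1) l * ((2 : ℝ) ^ τ) ^ l.sum + 3 ^ τ * (pw (m + 1) l * ((cc l : ℕ) : ℝ) ^ τ)) := by
        intro l _
        rw [pw_cons, mul_assoc]
        apply mul_le_mul_of_nonneg_left _ (pa_pos _ _).le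
        have h3 : ((cc (a :: l) : ℕ) : ℝ) ^ τ ≤ ((2 : ℝ) ^ τ) ^ l.sum + 3 ^ τ * ((cc l : ℕ) : ℝ) ^ τ := by
          rw [cc]
          push_cast
          calc ((2 : ℝ) ^ l.sum + 3 * (cc l : ℝ)) ^ τ
              ≤ ((2 : ℝ) ^ l.sum) ^ τ + (3 * (cc l : ℝ)) ^ τ :=
                Real.rpow_add_le_add_rpow (by positivity) (by positivity) hτ.le hτ1
            _ = _ := by
                rw [Real.mul_rpow (by norm_num) (Nat.cast_nonneg _), ← Real.rpow_natCast, ← Real.rpow_mul (by norm_num),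
                  ← Real.rpow_natCast, ← Real.rpow_mul (by norm_num), mul_comm (l.sum : ℝ) τ]
        calc pw (m + 1) l * ((cc (a :: l) : ℕ) : ℝ) ^ τ
            ≤ pw (m + 1) l * (((2 : ℝ) ^ τ) ^ l.sum + 3 ^ τ * ((cc l : ℕ) : ℝ) ^ τ) :=
              mul_le_mul_of_nonneg_left h3 (pw_pos _ _).le
          _ = _ := by ring
      calc ∑ l ∈ words (m + 1) k, pw (m + 1) (a :: l) * ((cc (a :: l) : ℕ) : ℝ) ^ τ
          ≤ ∑ l ∈ words (m + 1) k, pa (m + 1) a * (pw (m + 1) l * ((2 : ℝ) ^ τ) ^ l.sum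
              + 3 ^ τ * (pw (m + 1) l * ((cc l : ℕ) : ℝ) ^ τ)) := sum_le_sum h2
        _ = pa (m + 1) a * (∑ l ∈ words (m + 1) k, pw (m + 1) l * ((2 : ℝ) ^ τ) ^ l.sum
              + 3 ^ τ * ∑ l ∈ words (m + 1) k, pw (m + 1) l * ((cc l : ℕ) : ℝ) ^ τ) := by
            rw [← mul_sum, sum_add_distrib, ← mul_sum]
        _ ≤ pa (m + 1) a * (G ^ k + G * (k * G ^ k)) := by
            apply mul_le_mul_of_nonneg_left _ (pa_pos _ _).le
            apply add_le_add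
            · exact words_moment m k _ G (by positivity) hG
            · exact mul_le_mul hG3 ih hS (by linarith)
    refine le_trans (sum_le_sum h1) ?_
    rw [← sum_mul, pa_sum, one_mul]
    push_cast
    have : G ^ k ≤ G ^ (k + 1) := pow_le_pow_right₀ hG1 (by omega)
    rw [pow_succ'] at this ⊢
    nlinarith

end Src
end H62w
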