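import Pool.Agent.Lib.H62w.Source1

set_option autoImplicit false
open Finset
namespace H62w
namespace Src

/-! Pinsker type inequality for three cells. -/

theorem hell {x : ℝ} (hx : 0 ≤ x) (hx3 : x ≤ 3) : x - 1 + (x - 1) ^ 2 / 8 ≤ x * Real.log x := by
  rcases hx.eq_or_lt with rfl | hx
  · norm_num
  have hs : 0 < Real.sqrt x := Real.sqrt_pos.mpr hx
  have hs2 : Real.sqrt x ^ 2 = x := Real.sq_sqrt hx.le
  have h2 : Real.log x = 2 * Real.log (Real.sqrt x) := by
    conv_lhs => rw [← hs2]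
    rw [Real.log_pow]; norm_num
  have h1 : Real.log (1 / Real.sqrt x) ≤ 1 / Real.sqrt x - 1 := Real.log_le_sub_one_of_pos (by positivity)
  have hs3 : Real.sqrt x ≤ 9 / 5 := by
    rw [Real.sqrt_le_left (by norm_num)]; norm_num; linarith
  rw [h2]
  set s := Real.sqrt x with hsdef
  rw [← hs2]
  rw [Real.log_div (by norm_num) hs.ne', Real.log_one] at h1
  have h3 : s ^ 2 * (1 - 1 / s) = s ^ 2 - s := by field_simp
  have h4 : s ^ 2 - s ≤ s ^ 2 * Real.log s := by
    rw [← h3]; apply mul_le_mul_of_nonneg_left _ (by positivity); linarith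
  have h5 : 0 ≤ (s - 1) ^ 2 * (8 - (s + 1) ^ 2) := by
    apply mul_nonneg (sq_nonneg _); nlinarith
  nlinarith

theorem cell1 {q a : ℝ} (hq : 0 < q) (ha : 0 ≤ a) (haq : a ≤ q) :
    3 * (a - q / 3) ^ 2 + 8 * q * (a - q / 3) ≤ 8 * q * (a * Real.log 3 - a * Real.log q - Real.negMulLog a) := by
  have h := hell (x := 3 * a / q) (by positivity) (by rw [div_le_iff₀ hq]; linarith)
  have h1 : 3 * a / q * Real.log (3 * a / q) = 3 / q * (a * Real.log 3 - a * Real.log q - Real.negMulLog a) := by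
    rcases ha.eq_or_lt with rfl | ha
    · simp
    · rw [Real.log_div (by positivity) hq.ne', Real.log_mul (by norm_num) ha.ne', Real.negMulLog]; ring
  rw [h1] at h
  have h2 : 3 * a / q - 1 = 3 / q * (a - q / 3) := by field_simp
  rw [h2] at h
  have h3 := mul_le_mul_of_nonneg_left h (by positivity : 0 ≤ 8 * q ^ 2 / 3)
  have h4 : 8 * q ^ 2 / 3 * (3 / q * (a - q / 3) + (3 / q * (a - q / 3)) ^ 2 / 8)
      = 3 * (a - q / 3) ^ 2 + 8 * q * (a - q / 3) := by field_simp; ring
  have h5 : 8 * q ^ 2 / 3 * (3 / q * (a * Real.log 3 - a * Real.log q - Real.negMulLog a))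
      = 8 * q * (a * Real.log 3 - a * Real.log q - Real.negMulLog a) := by field_simp
  rw [h4, h5] at h3
  exact h3

theorem cell3 {q a b c : ℝ} (ha : 0 ≤ a) (hb : 0 ≤ b) (hc : 0 ≤ c) (hs : a + b + c = q) :
    (|a - q / 3| + |b - q / 3| + |c - q / 3|) ^ 2 ≤
      q * (8 * (q * Real.log 3 + Real.negMulLog q - Real.negMulLog a - Real.negMulLog b - Real.negMulLog c)) := by
  rcases (by linarith : 0 ≤ q).eq_or_lt with h0 | hq
  · have ha0 : a = 0 := by linarith
    have hb0 : b = 0 := by linarith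
    have hc0 : c = 0 := by linarith
    simp [ha0, hb0, hc0, ← h0]
  have h1 := cell1 hq ha (by linarith)
  have h2 := cell1 hq hb (by linarith)
  have h3 := cell1 hq hc (by linarith)
  have h4 : (|a - q / 3| + |b - q / 3| + |c - q / 3|) ^ 2
      ≤ 3 * ((a - q / 3) ^ 2 + (b - q / 3) ^ 2 + (c - q / 3) ^ 2) := by
    have e1 := sq_abs (a - q / 3)
    have e2 := sq_abs (b - q / 3)
    have e3 := sq_abs (c - q / 3)
    nlinarith [sq_nonneg (|a - q / 3| - |b - q / 3|), sq_nonneg (|b - q / 3| - |c - q / 3|),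
      sq_nonneg (|a - q / 3| - |c - q / 3|)]
  have h5 : Real.negMulLog q = -(a + b + c) * Real.log q := by rw [hs]; rfl
  have h6 : (a - q / 3) + (b - q / 3) + (c - q / 3) = 0 := by linarith
  have h7 : 8 * q * (a - q / 3) + 8 * q * (b - q / 3) + 8 * q * (c - q / 3) = 0 := by
    rw [← mul_add, ← mul_add, h6, mul_zero]
  have h8 : q * (8 * (q * Real.log 3 + Real.negMulLog q - Real.negMulLog a - Real.negMulLog b - Real.negMulLog c))
      = 8 * q * (a * Real.log 3 - a * Real.log q - Real.negMulLog a)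
        + 8 * q * (b * Real.log 3 - b * Real.log q - Real.negMulLog b)
        + 8 * q * (c * Real.log 3 - c * Real.log q - Real.negMulLog c) := by
    rw [h5]
    have : q * Real.log 3 = (a + b + c) * Real.log 3 := by rw [hs]
    rw [this]; ring
  rw [h8]
  linarith

/-! Entropy of fibres. -/

theorem fib_ent {ι κ : Type} [DecidableEq ι] [DecidableEq κ] (S : Finset ι) (T : Finset κ) (c : ι → κ)
    (hc : ∀ i ∈ S, c i ∈ T)
    (w : ι → ℝ) (hw : ∀ i ∈ S, 0 < w i) (hsum : ∑ i ∈ S, w i = 1) (good : ι → Prop) [DecidablePred good]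
    (hinj : ∀ i ∈ S, ∀ j ∈ S, good i → good j → c i = c j → i = j) (L : ℝ)
    (hL : ∀ i ∈ S, -Real.log (w i) ≤ L) (_hL0 : 0 ≤ L) :
    ∑ i ∈ S, w i * (-Real.log (w i)) - (∑ i ∈ S.filter (fun i => ¬ good i), w i) * (1 + L)
      ≤ ∑ t ∈ T, Real.negMulLog (∑ i ∈ S.filter (fun i => c i = t), w i) := by
  set J : κ → ℝ := fun t => ∑ i ∈ S.filter (fun i => c i = t), w i with hJ
  have h1 : ∑ t ∈ T, Real.negMulLog (J t) = ∑ i ∈ S, w i * (-Real.log (J (c i))) := by
    rw [← sum_fiberwise_of_maps_to hc (fun i => w i * (-Real.log (J (c i))))]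
    apply sum_congr rfl
    intro t _
    have : ∑ i ∈ S.filter (fun i => c i = t), w i * (-Real.log (J (c i)))
        = ∑ i ∈ S.filter (fun i => c i = t), w i * (-Real.log (J t)) := by
      apply sum_congr rfl
      intro i hi
      rw [(mem_filter.mp hi).2]
    rw [this, ← sum_mul]
    rw [Real.negMulLog]
    simp only [hJ]
    ring
  have hJge : ∀ i ∈ S, w i ≤ J (c i) := by
    intro i hi
    exact single_le_sum (f := w) (s := S.filter (fun j => c j = c i))
      (fun j hj => (hw j (mem_filter.mp hj).1).le) (mem_filter.mpr ⟨hi, rfl⟩)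
  have hJle : ∀ t, J t ≤ 1 := by
    intro t
    rw [← hsum]
    exact sum_le_sum_of_subset_of_nonneg (filter_subset _ _) (fun i hi _ => (hw i hi).le)
  have hpt : ∀ i ∈ S, w i * (-Real.log (w i)) ≤ w i * (-Real.log (J (c i)))
      + (if good i then ∑ j ∈ S.filter (fun j => ¬ good j), (if c j = c i then w j else 0) else 0)
      + (if good i then 0 else w i * L) := by
    intro i hi
    have hwi := hw i hi
    have hJi := hJge i hi
    have hJpos : 0 < J (c i) := lt_of_lt_of_le hwi hJi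
    split_ifs with hg
    · -- good
      have h2 : Real.log (J (c i) / w i) ≤ J (c i) / w i - 1 := Real.log_le_sub_one_of_pos (by positivity)
      rw [Real.log_div hJpos.ne' hwi.ne'] at h2
      have h3 := mul_le_mul_of_nonneg_left h2 hwi.le
      have h4 : w i * (J (c i) / w i - 1) = J (c i) - w i := by field_simp
      rw [h4] at h3
      have h5 : J (c i) - w i = ∑ j ∈ S.filter (fun j => ¬ good j), (if c j = c i then w j else 0) := by
        simp only [hJ]
        rw [← sum_erase_add _ _ (mem_filter.mpr ⟨hi, rfl⟩ : i ∈ S.filter (fun j => c j = c i)), add_sub_cancel_right,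
          ← sum_filter]
        apply sum_congr _ (fun _ _ => rfl)
        ext j
        simp only [mem_erase, mem_filter]
        constructor
        · rintro ⟨hne, hj, hcj⟩
          refine ⟨⟨hj, fun hgj => hne ?_⟩, hcj⟩
          exact hinj j hj i hi hgj hg hcj
        · rintro ⟨⟨hj, hgj⟩, hcj⟩
          refine ⟨?_, hj, hcj⟩
          rintro rfl
          exact hgj hg
      rw [← h5]
      nlinarith
    · have h2 : Real.log (J (c i)) ≤ 0 := Real.log_nonpos hJpos.le (hJle _)
      have h3 := mul_le_mul_of_nonneg_left (hL i hi) hwi.le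
      have h4 : 0 ≤ w i * (-Real.log (J (c i))) := mul_nonneg hwi.le (by linarith)
      linarith
  have h6 := sum_le_sum hpt
  rw [sum_add_distrib, sum_add_distrib] at h6
  have h7 : ∑ i ∈ S, (if good i then ∑ j ∈ S.filter (fun j => ¬ good j), (if c j = c i then w j else 0) else 0)
      ≤ ∑ j ∈ S.filter (fun j => ¬ good j), w j := by
    rw [← sum_filter, sum_comm]
    apply sum_le_sum
    intro j hj
    have hwj := hw j (mem_filter.mp hj).1
    rw [← sum_filter, sum_const]
    have hcard : (filter (fun i => c j = c i) (filter good S)).card ≤ 1 := by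
      rw [card_le_one]
      intro a ha b hb
      simp only [mem_filter] at ha hb
      exact hinj a ha.1.1 b hb.1.1 ha.1.2 hb.1.2 (ha.2.symm.trans hb.2)
    rw [nsmul_eq_mul]
    have : ((filter (fun i => c j = c i) (filter good S)).card : ℝ) ≤ 1 := by exact_mod_cast hcard
    nlinarith
  have h8 : ∑ i ∈ S, (if good i then 0 else w i * L) = (∑ j ∈ S.filter (fun j => ¬ good j), w j) * L := by
    rw [sum_mul, sum_filter]
    apply sum_congr rfl
    intro i _
    by_cases hg : good i <;> simp [hg]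
  rw [h8] at h6
  rw [h1]
  linarith

/-! Residue classes of words. -/

/-- The class of a word. -/
noncomputable def cl (N : ℕ) (l : List ℕ) : ℕ := Classical.choose (exists_unique_class l N)

theorem cl_lt (N : ℕ) (l : List ℕ) : cl N l < 3 ^ N := (Classical.choose_spec (exists_unique_class l N)).1

theorem cl_iff (N : ℕ) (l : List ℕ) (y : ℕ) : 2 ^ l.sum * y ≡ cc l [MOD 3 ^ N] ↔ y % 3 ^ N = cl N l :=
  (Classical.choose_spec (exists_unique_class l N)).2 y

theorem cl_succ (N : ℕ) (l : List ℕ) : cl (N + 1) l % 3 ^ N = cl N l := by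
  rw [← cl_iff]
  have h : 2 ^ l.sum * cl (N + 1) l ≡ cc l [MOD 3 ^ (N + 1)] := by
    rw [cl_iff, Nat.mod_eq_of_lt (cl_lt _ _)]
  exact h.of_dvd (pow_dvd_pow 3 (by omega))

theorem jl_eq (M k n s y : ℕ) :
    jl M k n s y = ∑ l ∈ words M k, if (l.sum = s ∧ y % 3 ^ n = cl n l) then pw M l else 0 := by
  rw [jl, sum_filter]
  apply sum_congr rfl
  intro l _
  simp only [cl_iff]

theorem jl_nonneg (M k n s y : ℕ) : 0 ≤ jl M k n s y :=
  sum_nonneg (fun l _ => (pw_pos M l).le)

theorem jl_mod (M k n s y : ℕ) : jl M k n s (y + 3 ^ n) = jl M k n s y := by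
  rw [jl_eq, jl_eq]
  simp

theorem jl_split (M k n s x : ℕ) (hx : x < 3 ^ n) :
    jl M k (n + 1) s x + jl M k (n + 1) s (x + 3 ^ n) + jl M k (n + 1) s (x + 3 ^ n + 3 ^ n) = jl M k n s x := by
  simp only [jl_eq]
  rw [← sum_add_distrib, ← sum_add_distrib]
  apply sum_congr rfl
  intro l _
  have h3 : (3 : ℕ) ^ (n + 1) = 3 ^ n + 3 ^ n + 3 ^ n := by rw [pow_succ]; ring
  rw [← cl_succ n l, Nat.mod_eq_of_lt (by omega : x < 3 ^ (n + 1)), Nat.mod_eq_of_lt (by omega : x + 3 ^ n < 3 ^ (n + 1)),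
    Nat.mod_eq_of_lt (by omega : x + 3 ^ n + 3 ^ n < 3 ^ (n + 1)), Nat.mod_eq_of_lt hx]
  have hlt := cl_lt (n + 1) l
  set r := cl (n + 1) l
  by_cases hs : l.sum = s
  · simp only [hs, true_and]
    have hdm := Nat.div_add_mod r (3 ^ n)
    have hml := Nat.mod_lt r (by positivity : 0 < 3 ^ n)
    have hd : r / 3 ^ n < 3 := by
      rw [Nat.div_lt_iff_lt_mul (by positivity)]; omega
    interval_cases hd' : r / 3 ^ n
    · by_cases h : x = r % 3 ^ n
      · rw [if_pos (by omega), if_neg (by omega), if_neg (by omega), if_pos h]; ring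
      · rw [if_neg (by omega), if_neg (by omega), if_neg (by omega), if_neg h]; ring
    · by_cases h : x = r % 3 ^ n
      · rw [if_neg (by omega), if_pos (by omega), if_neg (by omega), if_pos h]; ring
      · rw [if_neg (by omega), if_neg (by omega), if_neg (by omega), if_neg h]; ring
    · by_cases h : x = r % 3 ^ n
      · rw [if_neg (by omega), if_neg (by omega), if_pos (by omega), if_pos h]; ring
      · rw [if_neg (by omega), if_neg (by omega), if_neg (by omega), if_neg h]; ring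
  · simp [hs]

theorem sum_range_three (n : ℕ) (f : ℕ → ℝ) :
    ∑ y ∈ range (3 ^ (n + 1)), f y = ∑ x ∈ range (3 ^ n), (f x + f (x + 3 ^ n) + f (x + 3 ^ n + 3 ^ n)) := by
  rw [(by rw [pow_succ]; ring : 3 ^ (n + 1) = 3 ^ n + 3 ^ n + 3 ^ n), Finset.sum_range_add, Finset.sum_range_add,
    sum_add_distrib, sum_add_distrib]
  congr 1
  · congr 1
    apply sum_congr rfl; intro x _; rw [add_comm]
  · apply sum_congr rfl; intro x _; congr 1; ring

/-- Entropy of the joint law at level `n`. -/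
noncomputable def HH (M k n : ℕ) : ℝ :=
  ∑ s ∈ range (M * k + 1), ∑ y ∈ range (3 ^ n), Real.negMulLog (jl M k n s y)

theorem sum_le_words (M k : ℕ) (l : List ℕ) (hl : l ∈ words M k) : l.sum ≤ M * k := by
  rw [mem_words] at hl
  rw [← hl.1, mul_comm]
  exact List.sum_le_card_nsmul l M (fun a ha => (hl.2 a ha).2)

theorem cell_mem (M k n : ℕ) (l : List ℕ) (hl : l ∈ words M k) :
    (l.sum, cl n l) ∈ range (M * k + 1) ×ˢ range (3 ^ n) := by
  rw [mem_product, mem_range, mem_range]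
  exact ⟨Nat.lt_succ_of_le (sum_le_words M k l hl), cl_lt _ _⟩

theorem jl_fib (M k n : ℕ) (p : ℕ × ℕ) (hp : p ∈ range (M * k + 1) ×ˢ range (3 ^ n)) :
    jl M k n p.1 p.2 = ∑ l ∈ (words M k).filter (fun l => (l.sum, cl n l) = p), pw M l := by
  rw [mem_product, mem_range, mem_range] at hp
  rw [jl_eq, sum_filter]
  apply sum_congr rfl
  intro l _
  rw [Nat.mod_eq_of_lt hp.2]
  by_cases h : (l.sum, cl n l) = p
  · rw [if_pos h, if_pos]
    rw [← h]; exact ⟨rfl, rfl⟩
  · rw [if_neg h, if_neg]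
    rintro ⟨h1, h2⟩
    exact h (Prod.ext h1 h2.symm)

theorem jl_mass {M : ℕ} (hM : 1 ≤ M) (k n : ℕ) :
    ∑ p ∈ range (M * k + 1) ×ˢ range (3 ^ n), jl M k n p.1 p.2 = 1 := by
  rw [sum_congr rfl (jl_fib M k n), sum_fiberwise_of_maps_to (cell_mem M k n), pw_sum hM]

theorem tt_sq {M : ℕ} (hM : 1 ≤ M) (k n : ℕ) :
    (tt M k n) ^ 2 ≤ 8 * (Real.log 3 - (HH M k (n + 1) - HH M k n)) := by
  have h1 : tt M k n = ∑ p ∈ range (M * k + 1) ×ˢ range (3 ^ n),
      (|jl M k (n + 1) p.1 p.2 - jl M k n p.1 p.2 / 3| + |jl M k (n + 1) p.1 (p.2 + 3 ^ n) - jl M k n p.1 p.2 / 3|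
        + |jl M k (n + 1) p.1 (p.2 + 3 ^ n + 3 ^ n) - jl M k n p.1 p.2 / 3|) := by
    rw [tt, sum_product]
    apply sum_congr rfl
    intro s _
    rw [sum_range_three]
    apply sum_congr rfl
    intro x _
    simp only [jl_mod M k n]
  have h2 : HH M k (n + 1) = ∑ p ∈ range (M * k + 1) ×ˢ range (3 ^ n),
      (Real.negMulLog (jl M k (n + 1) p.1 p.2) + Real.negMulLog (jl M k (n + 1) p.1 (p.2 + 3 ^ n))
        + Real.negMulLog (jl M k (n + 1) p.1 (p.2 + 3 ^ n + 3 ^ n))) := by
    rw [HH, sum_product]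
    apply sum_congr rfl
    intro s _
    rw [sum_range_three]
  have h3 : HH M k n = ∑ p ∈ range (M * k + 1) ×ˢ range (3 ^ n), Real.negMulLog (jl M k n p.1 p.2) := by
    rw [HH, sum_product]
  have h4 := sum_sq_le_sum_mul_sum_of_sq_le_mul (range (M * k + 1) ×ˢ range (3 ^ n))
    (r := fun p => |jl M k (n + 1) p.1 p.2 - jl M k n p.1 p.2 / 3| + |jl M k (n + 1) p.1 (p.2 + 3 ^ n) - jl M k n p.1 p.2 / 3|
        + |jl M k (n + 1) p.1 (p.2 + 3 ^ n + 3 ^ n) - jl M k n p.1 p.2 / 3|)
    (f := fun p => jl M k n p.1 p.2)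
    (g := fun p => 8 * (jl M k n p.1 p.2 * Real.log 3 + Real.negMulLog (jl M k n p.1 p.2)
      - Real.negMulLog (jl M k (n + 1) p.1 p.2) - Real.negMulLog (jl M k (n + 1) p.1 (p.2 + 3 ^ n))
      - Real.negMulLog (jl M k (n + 1) p.1 (p.2 + 3 ^ n + 3 ^ n))))
    (fun p _ => jl_nonneg _ _ _ _ _) (fun p hp => ?_) (fun p hp => ?_)
  · rw [← h1, jl_mass hM, one_mul, ← mul_sum] at h4
    refine le_trans h4 (le_of_eq ?_)
    congr 1
    rw [h2, h3]
    simp only [sum_sub_distrib, sum_add_distrib, ← sum_mul, jl_mass hM]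
    ring
  · have hx := (mem_product.mp hp).2
    rw [mem_range] at hx
    have h5 := cell3 (jl_nonneg M k (n + 1) p.1 p.2) (jl_nonneg M k (n + 1) p.1 (p.2 + 3 ^ n))
      (jl_nonneg M k (n + 1) p.1 (p.2 + 3 ^ n + 3 ^ n)) (jl_split M k n p.1 p.2 hx)
    rcases (jl_nonneg M k n p.1 p.2).eq_or_lt with h0 | h0
    · have h6 := jl_split M k n p.1 p.2 hx
      have e1 := jl_nonneg M k (n + 1) p.1 p.2
      have e2 := jl_nonneg M k (n + 1) p.1 (p.2 + 3 ^ n)
      have e3 := jl_nonneg M k (n + 1) p.1 (p.2 + 3 ^ n + 3 ^ n)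
      have z1 : jl M k (n + 1) p.1 p.2 = 0 := by linarith
      have z2 : jl M k (n + 1) p.1 (p.2 + 3 ^ n) = 0 := by linarith
      have z3 : jl M k (n + 1) p.1 (p.2 + 3 ^ n + 3 ^ n) = 0 := by linarith
      simp [z1, z2, z3, ← h0]
    · have h7 := le_trans (sq_nonneg _) h5
      exact (mul_nonneg_iff_of_pos_left h0).mp h7
  · have hx := (mem_product.mp hp).2
    rw [mem_range] at hx
    exact cell3 (jl_nonneg M k (n + 1) p.1 p.2) (jl_nonneg M k (n + 1) p.1 (p.2 + 3 ^ n))
      (jl_nonneg M k (n + 1) p.1 (p.2 + 3 ^ n + 3 ^ n)) (jl_split M k n p.1 p.2 hx)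

theorem HH_zero_le {M : ℕ} (hM : 1 ≤ M) (k : ℕ) : HH M k 0 ≤ Real.log (M * k + 1) := by
  have hcard : ((range (M * k + 1)).card : ℝ) = M * k + 1 := by rw [card_range]; push_cast; ring
  have hpos : (0 : ℝ) < M * k + 1 := by positivity
  have h1 : HH M k 0 = ∑ s ∈ range (M * k + 1), Real.negMulLog (jl M k 0 s 0) := by
    rw [HH]; simp
  have h2 : ∑ s ∈ range (M * k + 1), jl M k 0 s 0 = 1 := by
    have := jl_mass hM k 0
    rw [sum_product] at this
    simpa using this
  have h3 := Real.concaveOn_negMulLog.le_map_sum (t := range (M * k + 1)) (w := fun _ => 1 / ((M : ℝ) * k + 1))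
    (p := fun s => jl M k 0 s 0) (fun _ _ => by positivity)
    (by rw [sum_const, nsmul_eq_mul, hcard]; field_simp) (fun s _ => jl_nonneg _ _ _ _ _)
  simp only [smul_eq_mul] at h3
  rw [← mul_sum, ← mul_sum, h2, ← h1] at h3
  rw [Real.negMulLog, mul_one, one_div, Real.log_inv] at h3
  have h4 : ((M : ℝ) * k + 1)⁻¹ * HH M k 0 ≤ ((M : ℝ) * k + 1)⁻¹ * Real.log (M * k + 1) := by
    linarith
  exact le_of_mul_le_mul_left h4 (by positivity)

end Src
end H62w
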