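import Pool.Agent.Lib.H62w.SourceU

set_option autoImplicit false

/-!
Source estimate in polynomial form: `t_{k,n}^2 ≤ C log k / k` for some `n ∈ [1.1 k, 1.19 k]`.
-/

open Finset
namespace H62w
namespace Src

theorem nml_low {g b θ : ℝ} (hg : 0 ≤ g) (hb : 0 ≤ b) (hθ : 0 < θ) (hgθ : g ≤ θ) (h1 : g + b ≤ 1) :
    g * (-Real.log θ) - b ≤ Real.negMulLog (g + b) := by
  rcases (by positivity : 0 ≤ g + b).eq_or_lt with h0 | h0
  · have hg0 : g = 0 := by linarith
    have hb0 : b = 0 := by linarith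
    simp [hg0, hb0]
  · have h2 : Real.log ((g + b) / θ) ≤ (g + b) / θ - 1 := Real.log_le_sub_one_of_pos (by positivity)
    rw [Real.log_div h0.ne' hθ.ne'] at h2
    have h3 : (g + b) / θ - 1 ≤ b / θ := by
      rw [add_div, add_sub_right_comm]
      have : g / θ ≤ 1 := by rw [div_le_one hθ]; exact hgθ
      linarith
    have h4 : Real.log (g + b) ≤ 0 := Real.log_nonpos h0.le h1
    have h5 : g * Real.log (g + b) ≤ g * (Real.log θ + b / θ) := mul_le_mul_of_nonneg_left (by linarith) hg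
    have h6 : g * (b / θ) ≤ b := by
      rw [mul_div_assoc', div_le_iff₀ hθ]
      nlinarith
    have h7 : 0 ≤ b * (-Real.log (g + b)) := mul_nonneg hb (by linarith)
    rw [Real.negMulLog]
    nlinarith

theorem ent_low {ι κ : Type} [DecidableEq ι] [DecidableEq κ] (S : Finset ι) (T : Finset κ) (c : ι → κ)
    (hc : ∀ i ∈ S, c i ∈ T)
    (w : ι → ℝ) (hw : ∀ i ∈ S, 0 < w i) (hsum : ∑ i ∈ S, w i = 1) (good : ι → Prop) [DecidablePred good]
    (θ : ℝ) (hθ : 0 < θ) (hcell : ∀ t ∈ T, ∑ i ∈ S.filter (fun i => c i = t), (if good i then w i else 0) ≤ θ) :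
    (∑ i ∈ S.filter (fun i => good i), w i) * (-Real.log θ) - ∑ i ∈ S.filter (fun i => ¬ good i), w i
      ≤ ∑ t ∈ T, Real.negMulLog (∑ i ∈ S.filter (fun i => c i = t), w i) := by
  have hpt : ∀ t ∈ T, (∑ i ∈ S.filter (fun i => c i = t), (if good i then w i else 0)) * (-Real.log θ)
      - (∑ i ∈ S.filter (fun i => c i = t), (if good i then 0 else w i))
      ≤ Real.negMulLog (∑ i ∈ S.filter (fun i => c i = t), w i) := by
    intro t ht
    have h1 : ∑ i ∈ S.filter (fun i => c i = t), w i = ∑ i ∈ S.filter (fun i => c i = t), (if good i then w i else 0)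
        + ∑ i ∈ S.filter (fun i => c i = t), (if good i then 0 else w i) := by
      rw [← sum_add_distrib]
      apply sum_congr rfl
      intro i _
      split_ifs <;> ring
    have h2 : ∑ i ∈ S.filter (fun i => c i = t), w i ≤ 1 := by
      rw [← hsum]
      exact sum_le_sum_of_subset_of_nonneg (filter_subset _ _) (fun i hi _ => (hw i hi).le)
    rw [h1] at h2 ⊢
    apply nml_low _ _ hθ (hcell t ht) h2
    · apply sum_nonneg
      intro i hi
      split_ifs
      · exact (hw i (mem_filter.mp hi).1).le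
      · exact le_rfl
    · apply sum_nonneg
      intro i hi
      split_ifs
      · exact le_rfl
      · exact (hw i (mem_filter.mp hi).1).le
  refine le_trans (le_of_eq ?_) (sum_le_sum hpt)
  rw [sum_sub_distrib, ← sum_mul, sum_fiberwise_of_maps_to hc (fun i => if good i then w i else 0),
    sum_fiberwise_of_maps_to hc (fun i => if good i then 0 else w i), sum_filter, sum_filter]
  congr 1
  apply sum_congr rfl
  intro i _
  by_cases h : good i <;> simp [h]

/-- Good words. -/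
def gd (M k : ℕ) (l : List ℕ) : Prop := (∀ a ∈ l, a < M) ∧ 19 * k ≤ 10 * l.sum ∧ cc l ≤ k ^ 2 * 2 ^ l.sum

instance (M k : ℕ) : DecidablePred (gd M k) := fun l => by unfold gd; infer_instance

theorem pw_good (M : ℕ) (l : List ℕ) (h : ∀ a ∈ l, a < M) : pw M l = (1 / 2) ^ l.sum := by
  induction l with
  | nil => simp [pw]
  | cons a l ih =>
    rw [pw_cons, ih (fun b hb => h b (List.mem_cons_of_mem _ hb)), List.sum_cons, pow_add]
    congr 1
    unfold pa
    rw [if_pos (h a List.mem_cons_self)]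

theorem pow_cmp {k N s : ℕ} (hN : 100 * N ≤ 119 * k) (hs : 19 * k ≤ 10 * s) : 3 ^ N ≤ 2 ^ s := by
  have h1 : (3 : ℕ) ^ 119 ≤ 2 ^ 190 := by norm_num
  have h2 : ((3 : ℕ) ^ N) ^ 100 ≤ (2 ^ s) ^ 100 := by
    calc ((3 : ℕ) ^ N) ^ 100 = 3 ^ (100 * N) := by rw [← pow_mul, mul_comm]
      _ ≤ 3 ^ (119 * k) := Nat.pow_le_pow_right (by norm_num) hN
      _ = (3 ^ 119) ^ k := by rw [pow_mul]
      _ ≤ (2 ^ 190) ^ k := Nat.pow_le_pow_left h1 k
      _ = 2 ^ (10 * (19 * k)) := by rw [← pow_mul]; congr 1; ring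
      _ ≤ 2 ^ (10 * (10 * s)) := Nat.pow_le_pow_right (by norm_num) (by omega)
      _ = (2 ^ s) ^ 100 := by rw [← pow_mul]; congr 1; ring
  exact le_of_pow_le_pow_left₀ (by norm_num) (by positivity) h2

theorem cell_le {M k N : ℕ} (hN : 100 * N ≤ 119 * k) (t : ℕ × ℕ) :
    ∑ l ∈ (words M k).filter (fun l => (l.sum, cl N l) = t), (if gd M k l then pw M l else 0)
      ≤ ((k : ℝ) ^ 2 + 1) / 3 ^ N := by
  obtain ⟨s, y⟩ := t
  rw [← sum_filter]
  set A := ((words M k).filter (fun l => (l.sum, cl N l) = (s, y))).filter (fun l => gd M k l) with hA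
  have hmem : ∀ l ∈ A, l ∈ words M k ∧ l.sum = s ∧ cl N l = y ∧ gd M k l := by
    intro l hl
    rw [hA, mem_filter, mem_filter, Prod.mk.injEq] at hl
    exact ⟨hl.1.1, hl.1.2.1, hl.1.2.2, hl.2⟩
  rcases A.eq_empty_or_nonempty with hE | ⟨l0, hl0⟩
  · rw [hE, sum_empty]; positivity
  have hs : 19 * k ≤ 10 * s := by
    obtain ⟨_, h2, _, h4⟩ := hmem l0 hl0
    rw [← h2]; exact h4.2.1
  have h32 : (3 : ℕ) ^ N ≤ 2 ^ s := pow_cmp hN hs
  have hcard : A.card ≤ k ^ 2 * 2 ^ s / 3 ^ N + 1 := by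
    rw [← card_range (k ^ 2 * 2 ^ s / 3 ^ N + 1)]
    apply card_le_card_of_injOn (fun l => cc l / 3 ^ N)
    · intro l hl
      rw [mem_coe] at hl
      obtain ⟨_, h2, _, h4⟩ := hmem l hl
      rw [coe_range, Set.mem_Iio]
      apply Nat.lt_succ_of_le
      apply Nat.div_le_div_right
      rw [← h2]; exact h4.2.2
    · intro l hl l' hl' he
      rw [mem_coe] at hl hl'
      obtain ⟨h1, h2, h3, _⟩ := hmem l hl
      obtain ⟨h1', h2', h3', _⟩ := hmem l' hl'
      rw [mem_words] at h1 h1'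
      apply cc_inj (h1.1.trans h1'.1.symm) (h2.trans h2'.symm) (fun a ha => (h1.2 a ha).1) (fun a ha => (h1'.2 a ha).1)
      have e1 : 2 ^ s * y ≡ cc l [MOD 3 ^ N] := by
        rw [← h2, ← h3, cl_iff, Nat.mod_eq_of_lt (cl_lt _ _)]
      have e2 : 2 ^ s * y ≡ cc l' [MOD 3 ^ N] := by
        rw [← h2', ← h3', cl_iff, Nat.mod_eq_of_lt (cl_lt _ _)]
      have e3 : cc l % 3 ^ N = cc l' % 3 ^ N := e1.symm.trans e2
      have e4 := Nat.div_add_mod (cc l) (3 ^ N)
      have e5 := Nat.div_add_mod (cc l') (3 ^ N)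
      simp only at he
      rw [← e4, ← e5, he, e3]
  have hsum : ∑ l ∈ A, pw M l = A.card * (1 / 2 : ℝ) ^ s := by
    rw [sum_congr rfl (fun l hl => by
      obtain ⟨_, h2, _, h4⟩ := hmem l hl
      rw [pw_good M l h4.1, h2]), sum_const, nsmul_eq_mul]
  rw [hsum, one_div, inv_pow, ← div_eq_mul_inv, div_le_div_iff₀ (by positivity) (by positivity)]
  have h1 : A.card * 3 ^ N ≤ (k ^ 2 + 1) * 2 ^ s := by
    calc A.card * 3 ^ N ≤ (k ^ 2 * 2 ^ s / 3 ^ N + 1) * 3 ^ N := Nat.mul_le_mul_right _ hcard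
      _ = k ^ 2 * 2 ^ s / 3 ^ N * 3 ^ N + 3 ^ N := by ring
      _ ≤ k ^ 2 * 2 ^ s + 2 ^ s := Nat.add_le_add (Nat.div_mul_le_self _ _) h32
      _ = (k ^ 2 + 1) * 2 ^ s := by ring
  exact_mod_cast h1

/-! Bad mass. -/

theorem bad_top (m k : ℕ) :
    ∑ l ∈ words (m + 1) k, pw (m + 1) l * (if ∀ a ∈ l, a < m + 1 then 0 else 1) ≤ k * (1 / 2 : ℝ) ^ m := by
  induction k with
  | zero => simp [words]
  | succ k ih =>
    rw [sum_words_succ]
    have h1 : ∀ a ∈ Icc 1 (m + 1), ∑ l ∈ words (m + 1) k, pw (m + 1) (a :: l) *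
          (if ∀ b ∈ a :: l, b < m + 1 then (0 : ℝ) else 1)
        ≤ pa (m + 1) a * (if a < m + 1 then 0 else 1)
          + pa (m + 1) a * ∑ l ∈ words (m + 1) k, pw (m + 1) l * (if ∀ b ∈ l, b < m + 1 then (0 : ℝ) else 1) := by
      intro a _
      have h2 : ∀ l ∈ words (m + 1) k, pw (m + 1) (a :: l) * (if ∀ b ∈ a :: l, b < m + 1 then (0 : ℝ) else 1)
          ≤ pa (m + 1) a * (if a < m + 1 then (0 : ℝ) else 1) * pw (m + 1) l
            + pa (m + 1) a * (pw (m + 1) l * (if ∀ b ∈ l, b < m + 1 then (0 : ℝ) else 1)) := by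
        intro l _
        rw [pw_cons]
        have hp1 := pa_pos (m + 1) a
        have hp2 := pw_pos (m + 1) l
        have hp3 : 0 < pa (m + 1) a * pw (m + 1) l := mul_pos hp1 hp2
        by_cases h3 : a < m + 1
        · by_cases h4 : ∀ b ∈ l, b < m + 1
          · have h5 : ∀ b ∈ a :: l, b < m + 1 := by
              intro b hb
              rcases List.mem_cons.mp hb with rfl | hb
              · exact h3
              · exact h4 b hb
            rw [if_pos h5, if_pos h3, if_pos h4]; simp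
          · rw [if_pos h3, if_neg h4]
            split_ifs
            · simp only [mul_zero, zero_mul, zero_add, mul_one]; exact hp3.le
            · simp only [mul_zero, zero_mul, zero_add, mul_one]; exact le_rfl
        · rw [if_neg h3]
          have h5 : ¬ ∀ b ∈ a :: l, b < m + 1 := fun h => h3 (h a List.mem_cons_self)
          rw [if_neg h5]
          have h6 : 0 ≤ pa (m + 1) a * (pw (m + 1) l * (if ∀ b ∈ l, b < m + 1 then (0 : ℝ) else 1)) := by
            apply mul_nonneg hp1.le (mul_nonneg hp2.le _)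
            split_ifs <;> norm_num
          linarith
      refine le_trans (sum_le_sum h2) (le_of_eq ?_)
      rw [sum_add_distrib, ← mul_sum, ← mul_sum, pw_sum (by omega)]; ring
    refine le_trans (sum_le_sum h1) ?_
    rw [sum_add_distrib, ← sum_mul, pa_sum, one_mul]
    have h3 : ∑ a ∈ Icc 1 (m + 1), pa (m + 1) a * (if a < m + 1 then (0 : ℝ) else 1) = (1 / 2) ^ m := by
      rw [sum_Icc_split, pa_top, if_neg (by omega), sum_eq_zero (fun a ha => ?_)]
      · ring
      · rw [mem_Icc] at ha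
        rw [if_pos (by omega), mul_zero]
    rw [h3]
    push_cast
    linarith

theorem mean_letter_eq (m : ℕ) : ∑ a ∈ Icc 1 (m + 1), pa (m + 1) a * (a : ℝ) = 2 - (1 / 2) ^ m := by
  rw [sum_Icc_split, sum_congr rfl (fun a ha => by rw [pa_lt ha]), pa_top]
  have h := sum_a_half m
  have h1 : ∑ x ∈ Icc 1 m, ((1 : ℝ) / 2) ^ x * (x : ℝ) = ∑ a ∈ Icc 1 m, (a : ℝ) * (1 / 2) ^ a :=
    sum_congr rfl (fun x _ => mul_comm _ _)
  rw [h1, h]
  push_cast
  ring

theorem mean_words_eq (m k : ℕ) : ∑ l ∈ words (m + 1) k, pw (m + 1) l * (l.sum : ℝ) = k * (2 - (1 / 2) ^ m) := by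
  induction k with
  | zero => simp [words]
  | succ k ih =>
    rw [sum_words_succ]
    have h1 : ∀ a ∈ Icc 1 (m + 1), ∑ l ∈ words (m + 1) k, pw (m + 1) (a :: l) * ((a :: l).sum : ℝ)
        = pa (m + 1) a * a + pa (m + 1) a * ∑ l ∈ words (m + 1) k, pw (m + 1) l * (l.sum : ℝ) := by
      intro a _
      have h2 : ∀ l ∈ words (m + 1) k, pw (m + 1) (a :: l) * ((a :: l).sum : ℝ)
          = pa (m + 1) a * a * pw (m + 1) l + pa (m + 1) a * (pw (m + 1) l * (l.sum : ℝ)) := by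
        intro l _
        rw [pw_cons, List.sum_cons, Nat.cast_add]; ring
      rw [sum_congr rfl h2, sum_add_distrib, ← mul_sum, ← mul_sum, pw_sum (by omega)]; ring
    rw [sum_congr rfl h1, sum_add_distrib, ← sum_mul, pa_sum, one_mul, mean_letter_eq, ih, Nat.cast_add, Nat.cast_one]
    ring

/-- Chebyshev for the sum of the letters. -/
theorem bad_sum (m k : ℕ) (hk : 1 ≤ k) :
    ∑ l ∈ words (m + 1) k, pw (m + 1) l * (if 19 * k ≤ 10 * l.sum then 0 else 1)
      ≤ 200 / (k : ℝ) + 400 * (1 / 2) ^ m := by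
  have hkr : (0 : ℝ) < k := by exact_mod_cast hk
  have h1 : ∑ l ∈ words (m + 1) k, pw (m + 1) l * (if 19 * k ≤ 10 * l.sum then (0 : ℝ) else 1)
      ≤ ∑ l ∈ words (m + 1) k, pw (m + 1) l * ((2 * (k : ℝ) - l.sum) ^ 2 * (100 / (k : ℝ) ^ 2)) := by
    apply sum_le_sum
    intro l _
    apply mul_le_mul_of_nonneg_left _ (pw_pos _ _).le
    split_ifs with h
    · positivity
    · push Not at h
      have h2 : (10 * l.sum : ℝ) < 19 * k := by exact_mod_cast h
      rw [mul_div_assoc', le_div_iff₀ (by positivity)]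
      have h3 : (k : ℝ) ≤ 10 * (2 * k - (l.sum : ℝ)) := by linarith
      nlinarith
  refine le_trans h1 ?_
  have h2 : ∑ l ∈ words (m + 1) k, pw (m + 1) l * ((2 * (k : ℝ) - l.sum) ^ 2 * (100 / (k : ℝ) ^ 2))
      = (4 * (k : ℝ) ^ 2 - 4 * k * (k * (2 - (1 / 2) ^ m))
        + ∑ l ∈ words (m + 1) k, pw (m + 1) l * (l.sum : ℝ) ^ 2) * (100 / (k : ℝ) ^ 2) := by
    have h3 : ∀ l ∈ words (m + 1) k, pw (m + 1) l * ((2 * (k : ℝ) - l.sum) ^ 2 * (100 / (k : ℝ) ^ 2))
        = (4 * (k : ℝ) ^ 2 * pw (m + 1) l - 4 * k * (pw (m + 1) l * (l.sum : ℝ))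
          + pw (m + 1) l * (l.sum : ℝ) ^ 2) * (100 / (k : ℝ) ^ 2) := by
      intro l _; ring
    rw [sum_congr rfl h3, ← sum_mul, sum_add_distrib, sum_sub_distrib, ← mul_sum, ← mul_sum, mean_words_eq,
      pw_sum (by omega), mul_one]
  rw [h2]
  have h3 := sq_words m k
  have h4 : 4 * (k : ℝ) ^ 2 - 4 * k * (k * (2 - (1 / 2) ^ m))
        + ∑ l ∈ words (m + 1) k, pw (m + 1) l * (l.sum : ℝ) ^ 2 ≤ 2 * k + 4 * (k : ℝ) ^ 2 * (1 / 2) ^ m := by
    nlinarith
  refine le_trans (mul_le_mul_of_nonneg_right h4 (by positivity)) (le_of_eq ?_)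
  field_simp
  ring

/-- Letter moment `E 2^(-a/2)`, with `v = 2^(-3/2)`. -/
theorem letter_neg_moment (m : ℕ) (hm : 4 ≤ m) (t : ℝ) (ht : 0 ≤ t) (ht2 : t ^ 2 = 1 / 2) :
    ∑ a ∈ Icc 1 (m + 1), pa (m + 1) a * t ^ a ≤ 55 / 100 := by
  have ht1 : t ≤ 7072 / 10000 := by nlinarith
  rw [sum_Icc_split, sum_congr rfl (fun a ha => by rw [pa_lt ha]), pa_top]
  set v : ℝ := t / 2 with hv
  have hv0 : 0 ≤ v := by positivity
  have hv1 : v ≤ 3536 / 10000 := by rw [hv]; linarith
  have h1 : ∑ x ∈ Icc 1 m, ((1 : ℝ) / 2) ^ x * t ^ x = ∑ a ∈ Icc 1 m, v ^ a := by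
    apply sum_congr rfl; intro x _; rw [← mul_pow]; congr 1; ring
  have h2 : ((1 : ℝ) / 2) ^ m * t ^ (m + 1) = 2 * v ^ (m + 1) := by
    rw [hv, pow_succ (t / 2), pow_succ t, div_pow, div_pow, one_pow]; ring
  rw [h1, h2]
  have h3 : (1 - v) * ∑ a ∈ Icc 1 m, v ^ a = v - v ^ (m + 1) := by
    clear h1 h2 hm
    induction m with
    | zero => simp
    | succ m ih => rw [sum_Icc_split, mul_add, ih, pow_succ v (m + 1)]; ring
  have h4 : v ^ (m + 1) ≤ v ^ 5 := pow_le_pow_of_le_one hv0 (by linarith) (by omega)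
  have h5 : v ^ 5 ≤ (3536 / 10000) ^ 5 := pow_le_pow_left₀ hv0 hv1 5
  have h6 : 0 ≤ v ^ (m + 1) := by positivity
  have h7 : (0 : ℝ) < 1 - v := by linarith
  have h8 : (1 - v) * (∑ a ∈ Icc 1 m, v ^ a + 2 * v ^ (m + 1)) ≤ (1 - v) * (55 / 100) := by
    rw [mul_add, h3]
    norm_num at h5
    nlinarith
  exact le_of_mul_le_mul_left h8 h7

theorem sqrt_S_moment (m k : ℕ) (hm : 4 ≤ m) :
    ∑ l ∈ words (m + 1) k, pw (m + 1) l * Real.sqrt ((cc l : ℝ) / 2 ^ l.sum) ≤ 12 := by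
  induction k with
  | zero => simp [words, pw, cc]
  | succ k ih =>
    set t : ℝ := Real.sqrt (1 / 2) with ht
    have ht0 : 0 ≤ t := Real.sqrt_nonneg _
    have ht2 : t ^ 2 = 1 / 2 := Real.sq_sqrt (by norm_num)
    have hlm := letter_neg_moment m hm t ht0 ht2
    have h3s : Real.sqrt 3 ≤ 17321 / 10000 := by
      rw [Real.sqrt_le_left (by norm_num)]; norm_num
    set Sk := ∑ l ∈ words (m + 1) k, pw (m + 1) l * Real.sqrt ((cc l : ℝ) / 2 ^ l.sum) with hSk
    have hSk0 : 0 ≤ Sk := sum_nonneg (fun l _ => mul_nonneg (pw_pos _ _).le (Real.sqrt_nonneg _))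
    rw [sum_words_succ]
    have h1 : ∀ a ∈ Icc 1 (m + 1), ∑ l ∈ words (m + 1) k, pw (m + 1) (a :: l) *
          Real.sqrt ((cc (a :: l) : ℝ) / 2 ^ (a :: l).sum)
        ≤ (pa (m + 1) a * t ^ a) * (1 + 17321 / 10000 * Sk) := by
      intro a _
      have h2 : ∀ l ∈ words (m + 1) k, pw (m + 1) (a :: l) * Real.sqrt ((cc (a :: l) : ℝ) / 2 ^ (a :: l).sum)
          ≤ (pa (m + 1) a * t ^ a) * (pw (m + 1) l + 17321 / 10000 * (pw (m + 1) l * Real.sqrt ((cc l : ℝ) / 2 ^ l.sum))) := by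
        intro l _
        rw [pw_cons]
        have e1 : (cc (a :: l) : ℝ) / 2 ^ (a :: l).sum = (1 / 2) ^ a * (1 + 3 * ((cc l : ℝ) / 2 ^ l.sum)) := by
          rw [cc, List.sum_cons, pow_add]
          push_cast
          rw [one_div, inv_pow]
          field_simp
        have e2 : Real.sqrt ((cc (a :: l) : ℝ) / 2 ^ (a :: l).sum) ≤ t ^ a * (1 + 17321 / 10000 * Real.sqrt ((cc l : ℝ) / 2 ^ l.sum)) := by
          rw [e1, Real.sqrt_mul (by positivity)]
          have e3 : Real.sqrt ((1 / 2 : ℝ) ^ a) = t ^ a := by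
            have e4 : (1 / 2 : ℝ) ^ a = (t ^ a) ^ 2 := by rw [← ht2]; ring
            rw [e4, Real.sqrt_sq (by positivity)]
          rw [e3]
          apply mul_le_mul_of_nonneg_left _ (by positivity)
          have hx : (0 : ℝ) ≤ (cc l : ℝ) / 2 ^ l.sum := by positivity
          calc Real.sqrt (1 + 3 * ((cc l : ℝ) / 2 ^ l.sum)) ≤ 1 + Real.sqrt (3 * ((cc l : ℝ) / 2 ^ l.sum)) := by
                rw [Real.sqrt_le_iff]
                have e5 := Real.sqrt_nonneg (3 * ((cc l : ℝ) / 2 ^ l.sum))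
                have e6 := Real.sq_sqrt (by positivity : 0 ≤ 3 * ((cc l : ℝ) / 2 ^ l.sum))
                constructor
                · linarith
                · nlinarith
            _ = 1 + Real.sqrt 3 * Real.sqrt ((cc l : ℝ) / 2 ^ l.sum) := by
                rw [Real.sqrt_mul (by norm_num)]
            _ ≤ 1 + 17321 / 10000 * Real.sqrt ((cc l : ℝ) / 2 ^ l.sum) := by
                have := mul_le_mul_of_nonneg_right h3s (Real.sqrt_nonneg ((cc l : ℝ) / 2 ^ l.sum))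
                linarith
        calc pa (m + 1) a * pw (m + 1) l * Real.sqrt ((cc (a :: l) : ℝ) / 2 ^ (a :: l).sum)
            ≤ pa (m + 1) a * pw (m + 1) l * (t ^ a * (1 + 17321 / 10000 * Real.sqrt ((cc l : ℝ) / 2 ^ l.sum))) :=
              mul_le_mul_of_nonneg_left e2 (mul_nonneg (pa_pos _ _).le (pw_pos _ _).le)
          _ = _ := by ring
      refine le_trans (sum_le_sum h2) (le_of_eq ?_)
      rw [← mul_sum, sum_add_distrib, ← mul_sum, pw_sum (by omega)]
    refine le_trans (sum_le_sum h1) ?_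
    rw [← sum_mul]
    calc (∑ a ∈ Icc 1 (m + 1), pa (m + 1) a * t ^ a) * (1 + 17321 / 10000 * Sk)
        ≤ 55 / 100 * (1 + 17321 / 10000 * 12) := by
          apply mul_le_mul hlm _ (by positivity) (by norm_num)
          linarith
      _ ≤ 12 := by norm_num

theorem bad_S (m k : ℕ) (hm : 4 ≤ m) (hk : 1 ≤ k) :
    ∑ l ∈ words (m + 1) k, pw (m + 1) l * (if cc l ≤ k ^ 2 * 2 ^ l.sum then 0 else 1) ≤ 12 / (k : ℝ) := by
  have hkr : (0 : ℝ) < k := by exact_mod_cast hk
  rw [le_div_iff₀ hkr, sum_mul]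
  refine le_trans (sum_le_sum (fun l _ => ?_)) (sqrt_S_moment m k hm)
  rw [mul_assoc]
  apply mul_le_mul_of_nonneg_left _ (pw_pos _ _).le
  split_ifs with h
  · rw [zero_mul]; exact Real.sqrt_nonneg _
  · rw [one_mul]
    apply Real.le_sqrt_of_sq_le
    push Not at h
    rw [le_div_iff₀ (by positivity)]
    exact_mod_cast h.le

theorem ind3 (p : ℝ) (hp : 0 ≤ p) (P Q R : Prop) [Decidable P] [Decidable Q] [Decidable R] :
    (if ¬ (P ∧ Q ∧ R) then p else 0) ≤
      p * (if P then 0 else 1) + p * (if Q then 0 else 1) + p * (if R then 0 else 1) := by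
  by_cases a1 : P <;> by_cases a2 : Q <;> by_cases a3 : R <;> simp [a1, a2, a3] <;> linarith

theorem bad_total (m k : ℕ) (hm : 4 ≤ m) (hk : 1 ≤ k) :
    ∑ l ∈ (words (m + 1) k).filter (fun l => ¬ gd (m + 1) k l), pw (m + 1) l
      ≤ (k + 400) * (1 / 2) ^ m + 212 / (k : ℝ) := by
  have h1 := bad_top m k
  have h2 := bad_sum m k hk
  have h3 := bad_S m k hm hk
  have h4 : ∑ l ∈ (words (m + 1) k).filter (fun l => ¬ gd (m + 1) k l), pw (m + 1) l
      ≤ ∑ l ∈ words (m + 1) k, pw (m + 1) l * (if ∀ a ∈ l, a < m + 1 then (0 : ℝ) else 1)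
        + ∑ l ∈ words (m + 1) k, pw (m + 1) l * (if 19 * k ≤ 10 * l.sum then (0 : ℝ) else 1)
        + ∑ l ∈ words (m + 1) k, pw (m + 1) l * (if cc l ≤ k ^ 2 * 2 ^ l.sum then (0 : ℝ) else 1) := by
    rw [← sum_add_distrib, ← sum_add_distrib, sum_filter]
    apply sum_le_sum
    intro l _
    exact ind3 _ (pw_pos (m + 1) l).le _ _ _
  refine le_trans h4 ?_
  have : 200 / (k : ℝ) + 12 / k = 212 / k := by ring
  linarith

theorem HH_lower_P (m k N : ℕ) (hN : 100 * N ≤ 119 * k) :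
    (1 - ∑ l ∈ (words (m + 1) k).filter (fun l => ¬ gd (m + 1) k l), pw (m + 1) l)
        * (N * Real.log 3 - Real.log ((k : ℝ) ^ 2 + 1))
      - ∑ l ∈ (words (m + 1) k).filter (fun l => ¬ gd (m + 1) k l), pw (m + 1) l
      ≤ HH (m + 1) k N := by
  have h := ent_low (words (m + 1) k) (range ((m + 1) * k + 1) ×ˢ range (3 ^ N)) (fun l => (l.sum, cl N l))
    (cell_mem (m + 1) k N) (pw (m + 1)) (fun l _ => pw_pos _ _) (pw_sum (by omega) k) (fun l => gd (m + 1) k l)
    (((k : ℝ) ^ 2 + 1) / 3 ^ N) (by positivity) (fun t _ => cell_le hN t)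
  have h1 : ∑ l ∈ (words (m + 1) k).filter (fun l => gd (m + 1) k l), pw (m + 1) l
      = 1 - ∑ l ∈ (words (m + 1) k).filter (fun l => ¬ gd (m + 1) k l), pw (m + 1) l := by
    rw [← pw_sum (by omega : 1 ≤ m + 1) k, ← sum_filter_add_sum_filter_not (words (m + 1) k) (fun l => gd (m + 1) k l)]
    ring
  have h2 : -Real.log (((k : ℝ) ^ 2 + 1) / 3 ^ N) = N * Real.log 3 - Real.log ((k : ℝ) ^ 2 + 1) := by
    rw [Real.log_div (by positivity) (by positivity), Real.log_pow]; ring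
  rw [h1, h2] at h
  refine le_trans h (le_of_eq ?_)
  rw [HH, ← sum_product (range ((m + 1) * k + 1)) (range (3 ^ N))
    (fun p => Real.negMulLog (jl (m + 1) k N p.1 p.2))]
  apply sum_congr rfl
  intro p hp
  rw [jl_fib _ _ _ p hp]

theorem pow_big (k : ℕ) (hk : 20 ≤ k) : (k + 400) * k ≤ 2 ^ (k - 1) := by
  induction k, hk using Nat.le_induction with
  | base => norm_num
  | succ k hk ih =>
    have : 2 ^ (k + 1 - 1) = 2 * 2 ^ (k - 1) := by
      rw [← pow_succ']; congr 1; omega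
    rw [this]
    nlinarith

end Src

open Src in
/-- Source estimate in polynomial form. -/
theorem source_poly : ∃ C0 : ℝ, 0 < C0 ∧ ∃ k0 : ℕ, ∀ k : ℕ, k0 ≤ k → ∀ M : ℕ, k ≤ M →
    ∃ n : ℕ, 11 * k ≤ 10 * n ∧ 100 * n ≤ 119 * k ∧ (tt M k n) ^ 2 ≤ C0 * Real.log k / k := by
  refine ⟨50000, by norm_num, 50, fun k hk M hM => ?_⟩
  obtain ⟨m, rfl⟩ : ∃ m, M = m + 1 := ⟨M - 1, by omega⟩
  have hkr : (50 : ℝ) ≤ k := by exact_mod_cast hk
  have hlogk : 1 ≤ Real.log k := by
    rw [Real.le_log_iff_exp_le (by linarith)]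
    have := Real.exp_one_lt_d9
    linarith
  have hlog3 := log3_gt
  have hlog3b : Real.log 3 < 11 / 10 := by
    have h1 : Real.log 3 < 11 / 10 ↔ 3 < Real.exp (11 / 10) := Real.log_lt_iff_lt_exp (by norm_num)
    rw [h1]
    have h2 : Real.exp (11 / 10) = Real.exp 1 * Real.exp (1 / 10) := by rw [← Real.exp_add]; norm_num
    have h3 := Real.exp_one_gt_d9
    have h4 : 1 + 1 / 10 + (1 / 10) ^ 2 / 2 ≤ Real.exp (1 / 10) := Real.quadratic_le_exp_of_nonneg (by norm_num)
    rw [h2]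
    nlinarith
  by_contra hcon
  push Not at hcon
  set N : ℕ := 119 * k / 100 with hN
  set n1 : ℕ := (11 * k + 9) / 10 with hn1
  have hN1 : 100 * N ≤ 119 * k := by omega
  have hNr : (N : ℝ) ≤ 119 / 100 * k := by
    have : (100 * N : ℝ) ≤ 119 * k := by exact_mod_cast hN1
    linarith
  -- deficits
  set D : ℕ → ℝ := fun n => Real.log 3 - (HH (m + 1) k (n + 1) - HH (m + 1) k n) with hD
  have hDt : ∀ n, (tt (m + 1) k n) ^ 2 ≤ 8 * D n := fun n => tt_sq (by omega) k n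
  have hD0 : ∀ n, 0 ≤ D n := fun n => by have := hDt n; nlinarith [sq_nonneg (tt (m + 1) k n)]
  have hsum : ∑ n ∈ range N, D n = N * Real.log 3 - HH (m + 1) k N + HH (m + 1) k 0 := by
    simp only [hD]
    rw [sum_sub_distrib, sum_range_sub]
    simp
    ring
  have hlow : (k : ℝ) / 20 * (50000 * Real.log k / k / 8) ≤ ∑ n ∈ range N, D n := by
    have h1 : ∑ n ∈ Ico n1 N, D n ≤ ∑ n ∈ range N, D n := by
      apply sum_le_sum_of_subset_of_nonneg
      · intro n hn
        rw [mem_Ico] at hn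
        exact mem_range.mpr hn.2
      · intro n _ _; exact hD0 n
    refine le_trans ?_ h1
    have h2 : ∑ n ∈ Ico n1 N, (50000 * Real.log k / k / 8) ≤ ∑ n ∈ Ico n1 N, D n := by
      apply sum_le_sum
      intro n hn
      rw [mem_Ico] at hn
      have h3 := hcon n (by omega) (by omega)
      have h4 := hDt n
      linarith
    refine le_trans ?_ h2
    rw [sum_const, Nat.card_Ico, nsmul_eq_mul]
    apply mul_le_mul_of_nonneg_right _ (by positivity)
    have h5 : k ≤ 20 * (N - n1) := by omega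
    have h6 : (k : ℝ) ≤ 20 * ((N - n1 : ℕ) : ℝ) := by exact_mod_cast h5
    linarith
  have hlow2 : (k : ℝ) / 20 * (50000 * Real.log k / k / 8) = 625 / 2 * Real.log k := by
    field_simp
    ring
  -- the bad mass
  have hbt := bad_total m k (by omega) (by omega)
  have hHN := HH_lower_P m k N hN1
  have hH0 := HH_zero_le' m k (by omega)
  set bm := ∑ l ∈ (words (m + 1) k).filter (fun l => ¬ gd (m + 1) k l), pw (m + 1) l with hbm
  have hbm0 : 0 ≤ bm := sum_nonneg (fun l _ => (pw_pos _ _).le)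
  have hbm1 : bm ≤ 213 / k := by
    refine le_trans hbt ?_
    have h1 : ((k : ℝ) + 400) * (1 / 2) ^ m ≤ 1 / k := by
      rw [le_div_iff₀ (by linarith)]
      have h2 : (1 / 2 : ℝ) ^ m ≤ (1 / 2) ^ (k - 1) :=
        pow_le_pow_of_le_one (by norm_num) (by norm_num) (by omega)
      have h3 : (((k + 400) * k : ℕ) : ℝ) ≤ ((2 ^ (k - 1) : ℕ) : ℝ) := by exact_mod_cast pow_big k (by omega)
      push_cast at h3
      have h4 : (2 : ℝ) ^ (k - 1) * (1 / 2) ^ (k - 1) = 1 := by rw [← mul_pow]; norm_num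
      have h5 : (0 : ℝ) < (1 / 2) ^ (k - 1) := by positivity
      calc ((k : ℝ) + 400) * (1 / 2) ^ m * k = (((k : ℝ) + 400) * k) * (1 / 2) ^ m := by ring
        _ ≤ 2 ^ (k - 1) * (1 / 2) ^ (k - 1) := mul_le_mul h3 h2 (by positivity) (by positivity)
        _ = 1 := h4
    have h2 : 213 / (k : ℝ) = 1 / k + 212 / k := by ring
    rw [h2]
    linarith
  have hA : bm * (N * Real.log 3 + 1) ≤ 300 := by
    have h1 : (N : ℝ) * Real.log 3 ≤ 119 / 100 * k * (11 / 10) :=
      mul_le_mul hNr hlog3b.le (by linarith) (by positivity)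
    have h2 : (N : ℝ) * Real.log 3 + 1 ≤ 14 / 10 * k := by nlinarith
    calc bm * (N * Real.log 3 + 1) ≤ 213 / k * (14 / 10 * k) :=
          mul_le_mul hbm1 h2 (by positivity) (by positivity)
      _ = 213 * 14 / 10 := by field_simp
      _ ≤ 300 := by norm_num
  have hB : 0 ≤ bm * Real.log ((k : ℝ) ^ 2 + 1) :=
    mul_nonneg hbm0 (Real.log_nonneg (by nlinarith))
  have hC : Real.log ((k : ℝ) ^ 2 + 1) ≤ 3 * Real.log k := by
    have h1 : (3 : ℝ) * Real.log k = Real.log ((k : ℝ) ^ 3) := by rw [Real.log_pow]; norm_num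
    rw [h1]
    apply Real.log_le_log (by positivity)
    nlinarith [sq_nonneg (k : ℝ)]
  have hE : Real.log (2 * (k : ℝ) + 1) ≤ 2 * Real.log k := by
    have h1 : (2 : ℝ) * Real.log k = Real.log ((k : ℝ) ^ 2) := by rw [Real.log_pow]; norm_num
    rw [h1]
    apply Real.log_le_log (by positivity)
    nlinarith
  rw [hsum, hlow2] at hlow
  nlinarith

end H62w
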