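import Pool.Agent.Lib.H62w.Source

set_option autoImplicit false

/-!
Uniform (in `M`) version of the source estimate.
-/

open Finset
namespace H62w
namespace Src

theorem sum_sq_half (m : ℕ) : ∑ a ∈ Icc 1 m, (a : ℝ) ^ 2 * ((1 : ℝ) / 2) ^ a =
    6 - ((m : ℝ) ^ 2 + 4 * m + 6) * (1 / 2) ^ m := by
  induction m with
  | zero => norm_num
  | succ m ih => rw [sum_Icc_split, ih, pow_succ ((1 : ℝ) / 2)]; push_cast; ring

theorem mean_letter (m : ℕ) : ∑ a ∈ Icc 1 (m + 1), pa (m + 1) a * (a : ℝ) ≤ 2 := by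
  rw [sum_Icc_split, sum_congr rfl (fun a ha => by rw [pa_lt ha]), pa_top]
  have h := sum_a_half m
  have h1 : ∑ x ∈ Icc 1 m, ((1 : ℝ) / 2) ^ x * (x : ℝ) = ∑ a ∈ Icc 1 m, (a : ℝ) * (1 / 2) ^ a :=
    sum_congr rfl (fun x _ => mul_comm _ _)
  rw [h1, h]
  push_cast
  have : (0 : ℝ) < (1 / 2) ^ m := by positivity
  nlinarith

theorem sq_letter (m : ℕ) : ∑ a ∈ Icc 1 (m + 1), pa (m + 1) a * (a : ℝ) ^ 2 ≤ 6 := by
  rw [sum_Icc_split, sum_congr rfl (fun a ha => by rw [pa_lt ha]), pa_top]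
  have h := sum_sq_half m
  have h1 : ∑ x ∈ Icc 1 m, ((1 : ℝ) / 2) ^ x * (x : ℝ) ^ 2 = ∑ a ∈ Icc 1 m, (a : ℝ) ^ 2 * (1 / 2) ^ a :=
    sum_congr rfl (fun x _ => mul_comm _ _)
  rw [h1, h]
  push_cast
  have : (0 : ℝ) < (1 / 2) ^ m := by positivity
  have h2 : (0 : ℝ) ≤ m := Nat.cast_nonneg m
  nlinarith [mul_nonneg h2 this.le]

theorem mean_words (m k : ℕ) : ∑ l ∈ words (m + 1) k, pw (m + 1) l * (l.sum : ℝ) ≤ 2 * k := by
  induction k with
  | zero => simp [words]
  | succ k ih =>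
    rw [sum_words_succ]
    have h1 : ∀ a ∈ Icc 1 (m + 1), ∑ l ∈ words (m + 1) k, pw (m + 1) (a :: l) * ((a :: l).sum : ℝ)
        = pa (m + 1) a * a + pa (m + 1) a * ∑ l ∈ words (m + 1) k, pw (m + 1) l * (l.sum : ℝ) := by
      intro a _
      have h2 : ∀ l ∈ words (m + 1) k, pw (m + 1) (a :: l) * ((a :: l).sum : ℝ)
          = pa (m + 1) a * a * pw (m + 1) l + pa (m + 1) a * (pw (m + 1) l * (l.sum : ℝ)) := by
        intro l _
        rw [pw_cons, List.sum_cons, Nat.cast_add]; ring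
      rw [sum_congr rfl h2, sum_add_distrib, ← mul_sum, ← mul_sum, pw_sum (by omega)]; ring
    rw [sum_congr rfl h1, sum_add_distrib, ← sum_mul, pa_sum, one_mul]
    have := mean_letter m
    rw [Nat.cast_add, Nat.cast_one]
    linarith

theorem mean_words_nonneg (m k : ℕ) : 0 ≤ ∑ l ∈ words (m + 1) k, pw (m + 1) l * (l.sum : ℝ) :=
  sum_nonneg (fun l _ => mul_nonneg (pw_pos _ _).le (Nat.cast_nonneg _))

theorem sq_words (m k : ℕ) : ∑ l ∈ words (m + 1) k, pw (m + 1) l * (l.sum : ℝ) ^ 2 ≤ 4 * k ^ 2 + 2 * k := by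
  induction k with
  | zero => simp [words]
  | succ k ih =>
    rw [sum_words_succ]
    have h1 : ∀ a ∈ Icc 1 (m + 1), ∑ l ∈ words (m + 1) k, pw (m + 1) (a :: l) * ((a :: l).sum : ℝ) ^ 2
        = pa (m + 1) a * (a : ℝ) ^ 2
          + 2 * (pa (m + 1) a * a) * ∑ l ∈ words (m + 1) k, pw (m + 1) l * (l.sum : ℝ)
          + pa (m + 1) a * ∑ l ∈ words (m + 1) k, pw (m + 1) l * (l.sum : ℝ) ^ 2 := by
      intro a _
      have h2 : ∀ l ∈ words (m + 1) k, pw (m + 1) (a :: l) * ((a :: l).sum : ℝ) ^ 2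
          = pa (m + 1) a * (a : ℝ) ^ 2 * pw (m + 1) l + 2 * (pa (m + 1) a * a) * (pw (m + 1) l * (l.sum : ℝ))
            + pa (m + 1) a * (pw (m + 1) l * (l.sum : ℝ) ^ 2) := by
        intro l _
        rw [pw_cons, List.sum_cons, Nat.cast_add]; ring
      rw [sum_congr rfl h2, sum_add_distrib, sum_add_distrib, ← mul_sum, ← mul_sum, ← mul_sum, pw_sum (by omega)]; ring
    rw [sum_congr rfl h1, sum_add_distrib, sum_add_distrib, ← sum_mul, ← sum_mul, pa_sum, one_mul, ← mul_sum]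
    have e1 := sq_letter m
    have e2 := mean_letter m
    have e3 := mean_words m k
    have e4 := mean_words_nonneg m k
    have e5 : (∑ a ∈ Icc 1 (m + 1), pa (m + 1) a * (a : ℝ)) * (∑ l ∈ words (m + 1) k, pw (m + 1) l * (l.sum : ℝ))
        ≤ 2 * (2 * k) := mul_le_mul e2 e3 e4 (by norm_num)
    rw [Nat.cast_add, Nat.cast_one]
    nlinarith

theorem neg_log_pa_le' {M a : ℕ} : -Real.log (pa M a) ≤ a * Real.log 2 := by
  have hl : ∀ a : ℕ, -Real.log (((1 : ℝ) / 2) ^ a) = a * Real.log 2 := by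
    intro a
    rw [Real.log_pow, Real.log_div (by norm_num) (by norm_num), Real.log_one]; ring
  have h2 : 0 < Real.log 2 := Real.log_pos (by norm_num)
  unfold pa
  split_ifs with h1
  · rw [hl]
  · rw [hl]
    have : ((M - 1 : ℕ) : ℝ) ≤ a := by exact_mod_cast (by omega : M - 1 ≤ a)
    nlinarith

theorem neg_log_pw_le' (M : ℕ) (l : List ℕ) : -Real.log (pw M l) ≤ l.sum * Real.log 2 := by
  induction l with
  | nil => simp [pw]
  | cons a l ih =>
    rw [pw_cons, Real.log_mul (pa_pos _ _).ne' (pw_pos _ _).ne', List.sum_cons]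
    have := neg_log_pa_le' (M := M) (a := a)
    rw [Nat.cast_add]
    linarith

/-! Entropy of fibres, without a uniform bound for the information of a point. -/

theorem fib_ent' {ι κ : Type} [DecidableEq ι] [DecidableEq κ] (S : Finset ι) (T : Finset κ) (c : ι → κ)
    (hc : ∀ i ∈ S, c i ∈ T)
    (w : ι → ℝ) (hw : ∀ i ∈ S, 0 < w i) (hsum : ∑ i ∈ S, w i = 1) (good : ι → Prop) [DecidablePred good]
    (hinj : ∀ i ∈ S, ∀ j ∈ S, good i → good j → c i = c j → i = j) :
    ∑ i ∈ S, w i * (-Real.log (w i)) - ∑ i ∈ S.filter (fun i => ¬ good i), w i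
        - ∑ i ∈ S.filter (fun i => ¬ good i), w i * (-Real.log (w i))
      ≤ ∑ t ∈ T, Real.negMulLog (∑ i ∈ S.filter (fun i => c i = t), w i) := by
  set J : κ → ℝ := fun t => ∑ i ∈ S.filter (fun i => c i = t), w i with hJ
  have h1 : ∑ t ∈ T, Real.negMulLog (J t) = ∑ i ∈ S, w i * (-Real.log (J (c i))) := by
    rw [← sum_fiberwise_of_maps_to hc (fun i => w i * (-Real.log (J (c i))))]
    apply sum_congr rfl
    intro t _
    have : ∑ i ∈ S.filter (fun i => c i = t), w i * (-Real.log (J (c i)))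
        = ∑ i ∈ S.filter (fun i => c i = t), w i * (-Real.log (J t)) := by
      apply sum_congr rfl
      intro i hi
      rw [(mem_filter.mp hi).2]
    rw [this, ← sum_mul]
    rw [Real.negMulLog]
    simp only [hJ]
    ring
  have hJge : ∀ i ∈ S, w i ≤ J (c i) := by
    intro i hi
    exact single_le_sum (f := w) (s := S.filter (fun j => c j = c i))
      (fun j hj => (hw j (mem_filter.mp hj).1).le) (mem_filter.mpr ⟨hi, rfl⟩)
  have hJle : ∀ t, J t ≤ 1 := by
    intro t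
    rw [← hsum]
    exact sum_le_sum_of_subset_of_nonneg (filter_subset _ _) (fun i hi _ => (hw i hi).le)
  have hpt : ∀ i ∈ S, w i * (-Real.log (w i)) ≤ w i * (-Real.log (J (c i)))
      + (if good i then ∑ j ∈ S.filter (fun j => ¬ good j), (if c j = c i then w j else 0) else 0)
      + (if good i then 0 else w i * (-Real.log (w i))) := by
    intro i hi
    have hwi := hw i hi
    have hJi := hJge i hi
    have hJpos : 0 < J (c i) := lt_of_lt_of_le hwi hJi
    split_ifs with hg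
    · -- good
      have h2 : Real.log (J (c i) / w i) ≤ J (c i) / w i - 1 := Real.log_le_sub_one_of_pos (by positivity)
      rw [Real.log_div hJpos.ne' hwi.ne'] at h2
      have h3 := mul_le_mul_of_nonneg_left h2 hwi.le
      have h4 : w i * (J (c i) / w i - 1) = J (c i) - w i := by field_simp
      rw [h4] at h3
      have h5 : J (c i) - w i = ∑ j ∈ S.filter (fun j => ¬ good j), (if c j = c i then w j else 0) := by
        simp only [hJ]
        rw [← sum_erase_add _ _ (mem_filter.mpr ⟨hi, rfl⟩ : i ∈ S.filter (fun j => c j = c i)), add_sub_cancel_right,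
          ← sum_filter]
        apply sum_congr _ (fun _ _ => rfl)
        ext j
        simp only [mem_erase, mem_filter]
        constructor
        · rintro ⟨hne, hj, hcj⟩
          refine ⟨⟨hj, fun hgj => hne ?_⟩, hcj⟩
          exact hinj j hj i hi hgj hg hcj
        · rintro ⟨⟨hj, hgj⟩, hcj⟩
          refine ⟨?_, hj, hcj⟩
          rintro rfl
          exact hgj hg
      rw [← h5]
      nlinarith
    · have h2 : Real.log (J (c i)) ≤ 0 := Real.log_nonpos hJpos.le (hJle _)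
      have h4 : 0 ≤ w i * (-Real.log (J (c i))) := mul_nonneg hwi.le (by linarith)
      linarith
  have h6 := sum_le_sum hpt
  rw [sum_add_distrib, sum_add_distrib] at h6
  have h7 : ∑ i ∈ S, (if good i then ∑ j ∈ S.filter (fun j => ¬ good j), (if c j = c i then w j else 0) else 0)
      ≤ ∑ j ∈ S.filter (fun j => ¬ good j), w j := by
    rw [← sum_filter, sum_comm]
    apply sum_le_sum
    intro j hj
    have hwj := hw j (mem_filter.mp hj).1
    rw [← sum_filter, sum_const]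
    have hcard : (filter (fun i => c j = c i) (filter good S)).card ≤ 1 := by
      rw [card_le_one]
      intro a ha b hb
      simp only [mem_filter] at ha hb
      exact hinj a ha.1.1 b hb.1.1 ha.1.2 hb.1.2 (ha.2.symm.trans hb.2)
    rw [nsmul_eq_mul]
    have : ((filter (fun i => c j = c i) (filter good S)).card : ℝ) ≤ 1 := by exact_mod_cast hcard
    nlinarith
  have h8 : ∑ i ∈ S, (if good i then 0 else w i * (-Real.log (w i)))
      = ∑ j ∈ S.filter (fun j => ¬ good j), w j * (-Real.log (w j)) := by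
    rw [sum_filter]
    apply sum_congr rfl
    intro i _
    by_cases hg : good i <;> simp [hg]
  rw [h8] at h6
  rw [h1]
  linarith

/-- Mass of the bad words. -/
noncomputable def bad (M k N : ℕ) : ℝ := ∑ l ∈ (words M k).filter (fun l => ¬ cc l < 3 ^ N), pw M l

theorem bad_nonneg (M k N : ℕ) : 0 ≤ bad M k N := sum_nonneg (fun l _ => (pw_pos M l).le)

theorem bad_info (m k N : ℕ) :
    ∑ l ∈ (words (m + 1) k).filter (fun l => ¬ cc l < 3 ^ N), pw (m + 1) l * (-Real.log (pw (m + 1) l))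
      ≤ Real.log 2 * Real.sqrt ((4 * k ^ 2 + 2 * k) * bad (m + 1) k N) := by
  have hlog2 : 0 < Real.log 2 := Real.log_pos (by norm_num)
  set S := (words (m + 1) k).filter (fun l => ¬ cc l < 3 ^ N) with hS
  have h1 : ∑ l ∈ S, pw (m + 1) l * (-Real.log (pw (m + 1) l))
      ≤ Real.log 2 * ∑ l ∈ S, pw (m + 1) l * (l.sum : ℝ) := by
    rw [mul_sum]
    apply sum_le_sum
    intro l _
    have h2 := mul_le_mul_of_nonneg_left (neg_log_pw_le' (m + 1) l) (pw_pos (m + 1) l).le
    linarith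
  refine le_trans h1 (mul_le_mul_of_nonneg_left ?_ hlog2.le)
  have hnn : 0 ≤ ∑ l ∈ S, pw (m + 1) l * (l.sum : ℝ) :=
    sum_nonneg (fun l _ => mul_nonneg (pw_pos _ _).le (Nat.cast_nonneg _))
  rw [← Real.sqrt_sq hnn]
  apply Real.sqrt_le_sqrt
  have h3 := sum_sq_le_sum_mul_sum_of_sq_le_mul S (r := fun l => pw (m + 1) l * (l.sum : ℝ))
    (f := fun l => pw (m + 1) l * (l.sum : ℝ) ^ 2) (g := fun l => pw (m + 1) l)
    (fun l _ => mul_nonneg (pw_pos _ _).le (by positivity)) (fun l _ => (pw_pos _ _).le)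
    (fun l _ => le_of_eq (by ring))
  refine le_trans h3 (mul_le_mul_of_nonneg_right ?_ (bad_nonneg _ _ _))
  refine le_trans (sum_le_sum_of_subset_of_nonneg (filter_subset _ _)
    (fun l _ _ => mul_nonneg (pw_pos _ _).le (by positivity))) (sq_words m k)

theorem HH_lower' (m k N : ℕ) :
    k * (Real.log 2 * (2 - 2 * (1 / 2) ^ m)) - bad (m + 1) k N
      - Real.log 2 * Real.sqrt ((4 * k ^ 2 + 2 * k) * bad (m + 1) k N)
      ≤ HH (m + 1) k N := by
  have h := fib_ent' (words (m + 1) k) (range ((m + 1) * k + 1) ×ˢ range (3 ^ N)) (fun l => (l.sum, cl N l))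
    (cell_mem (m + 1) k N) (pw (m + 1)) (fun l _ => pw_pos _ _) (pw_sum (by omega) k) (fun l => cc l < 3 ^ N)
    (fun l hl l' hl' hg hg' he => ?_)
  · rw [ent_words] at h
    have hb := bad_info m k N
    have h2 : ∑ t ∈ range ((m + 1) * k + 1) ×ˢ range (3 ^ N),
        Real.negMulLog (∑ i ∈ words (m + 1) k with (i.sum, cl N i) = t, pw (m + 1) i) = HH (m + 1) k N := by
      rw [HH, ← sum_product (range ((m + 1) * k + 1)) (range (3 ^ N))
        (fun p => Real.negMulLog (jl (m + 1) k N p.1 p.2))]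
      apply sum_congr rfl
      intro p hp
      rw [jl_fib _ _ _ p hp]
    rw [h2] at h
    have h3 : bad (m + 1) k N = ∑ l ∈ (words (m + 1) k).filter (fun l => ¬ cc l < 3 ^ N), pw (m + 1) l := rfl
    rw [← h3] at h
    linarith
  · rw [mem_words] at hl hl'
    simp only [Prod.mk.injEq] at he
    apply cc_inj (hl.1.trans hl'.1.symm) he.1 (fun a ha => (hl.2 a ha).1) (fun a ha => (hl'.2 a ha).1)
    have e1 : 2 ^ l.sum * cl N l ≡ cc l [MOD 3 ^ N] := by
      rw [cl_iff, Nat.mod_eq_of_lt (cl_lt _ _)]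
    have e2 : 2 ^ l'.sum * cl N l' ≡ cc l' [MOD 3 ^ N] := by
      rw [cl_iff, Nat.mod_eq_of_lt (cl_lt _ _)]
    rw [← he.1, ← he.2] at e2
    exact Nat.ModEq.eq_of_lt_of_lt (e1.symm.trans e2) hg hg'

theorem jl_zero (M k s : ℕ) : jl M k 0 s 0 = ∑ l ∈ (words M k).filter (fun l => l.sum = s), pw M l := by
  rw [jl]
  apply sum_congr _ (fun _ _ => rfl)
  ext l
  simp [Nat.modEq_one]

theorem jl_zero_mean (m k : ℕ) : ∑ s ∈ range ((m + 1) * k + 1), jl (m + 1) k 0 s 0 * (s : ℝ) ≤ 2 * k := by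
  refine le_trans (le_of_eq ?_) (mean_words m k)
  rw [← sum_fiberwise_of_maps_to (s := words (m + 1) k) (t := range ((m + 1) * k + 1)) (g := fun l => l.sum)
    (fun l hl => by
      rw [mem_range]
      exact Nat.lt_succ_of_le (sum_le_words (m + 1) k l hl))
    (fun l => pw (m + 1) l * (l.sum : ℝ))]
  apply sum_congr rfl
  intro s _
  rw [jl_zero, sum_mul]
  apply sum_congr rfl
  intro l hl
  rw [(mem_filter.mp hl).2]

/-- Entropy of the sum of the letters. -/
theorem HH_zero_le' (m k : ℕ) (hk : 1 ≤ k) : HH (m + 1) k 0 ≤ Real.log (2 * k + 1) + 1 := by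
  have hkr : (1 : ℝ) ≤ k := by exact_mod_cast hk
  have h1 : HH (m + 1) k 0 = ∑ s ∈ range ((m + 1) * k + 1), Real.negMulLog (jl (m + 1) k 0 s 0) := by
    rw [HH]; simp
  have h2 : ∑ s ∈ range ((m + 1) * k + 1), jl (m + 1) k 0 s 0 = 1 := by
    have := jl_mass (M := m + 1) (by omega) k 0
    rw [sum_product] at this
    simpa using this
  set x : ℝ := 2 * k / (2 * k + 1) with hx
  have hx0 : 0 < x := by positivity
  have hx1 : x < 1 := by rw [hx, div_lt_one (by positivity)]; linarith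
  have hx2 : 1 - x = 1 / (2 * k + 1) := by rw [hx]; field_simp; ring
  have hlx : -Real.log x ≤ 1 / (2 * k) := by
    have := Real.log_le_sub_one_of_pos (by positivity : 0 < x⁻¹)
    rw [Real.log_inv] at this
    refine le_trans this (le_of_eq ?_)
    rw [hx]; field_simp; ring
  have hpt : ∀ s ∈ range ((m + 1) * k + 1), Real.negMulLog (jl (m + 1) k 0 s 0) ≤
      (jl (m + 1) k 0 s 0 * Real.log (2 * k + 1) + (jl (m + 1) k 0 s 0 * s) * (1 / (2 * k)))
        + ((1 - x) * x ^ s - jl (m + 1) k 0 s 0) := by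
    intro s _
    set q := jl (m + 1) k 0 s 0 with hq
    have hq0 : 0 ≤ q := jl_nonneg _ _ _ _ _
    have hr : 0 < (1 - x) * x ^ s := mul_pos (by linarith) (by positivity)
    rcases hq0.eq_or_lt with h0 | h0
    · rw [← h0]
      simp only [Real.negMulLog_zero, zero_mul, zero_add, sub_zero]
      exact hr.le
    · have h3 := Real.log_le_sub_one_of_pos (by positivity : 0 < ((1 - x) * x ^ s) / q)
      rw [Real.log_div hr.ne' h0.ne', Real.log_mul (by linarith) (by positivity), Real.log_pow, hx2,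
        one_div, Real.log_inv, ← one_div, ← hx2] at h3
      have h4 := mul_le_mul_of_nonneg_left h3 h0.le
      have h5 : q * ((1 - x) * x ^ s / q - 1) = (1 - x) * x ^ s - q := by field_simp
      rw [h5] at h4
      have h6 : (q * s) * (-Real.log x) ≤ (q * s) * (1 / (2 * k)) :=
        mul_le_mul_of_nonneg_left hlx (by positivity)
      rw [Real.negMulLog]
      nlinarith
  have h3 := sum_le_sum hpt
  rw [← h1, sum_add_distrib, sum_add_distrib, ← sum_mul, ← sum_mul, sum_sub_distrib, h2, ← mul_sum] at h3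
  have h4 : (1 - x) * ∑ s ∈ range ((m + 1) * k + 1), x ^ s ≤ 1 := by
    have h5 := mul_neg_geom_sum x ((m + 1) * k + 1)
    have h6 : (1 - x) * ∑ s ∈ range ((m + 1) * k + 1), x ^ s = 1 - x ^ ((m + 1) * k + 1) := h5
    rw [h6]
    have : 0 < x ^ ((m + 1) * k + 1) := by positivity
    linarith
  have h5 := jl_zero_mean m k
  have h6 : (∑ s ∈ range ((m + 1) * k + 1), jl (m + 1) k 0 s 0 * (s : ℝ)) * (1 / (2 * k)) ≤ (2 * k) * (1 / (2 * k)) :=
    mul_le_mul_of_nonneg_right h5 (by positivity)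
  have h7 : (2 * (k : ℝ)) * (1 / (2 * k)) = 1 := by field_simp
  linarith

theorem eventually_small' (ρ c : ℝ) (hρ0 : 0 ≤ ρ) (hρ : ρ < 1) (hc : 0 < c) :
    ∃ K0 : ℕ, ∀ k : ℕ, K0 ≤ k →
      Real.log 3 + (Real.log (2 * k + 1) + 1) + k * ρ ^ k
        + Real.log 2 * Real.sqrt ((4 * k ^ 2 + 2 * k) * (k * ρ ^ k)) ≤ c * k := by
  have hlog2 : 0 < Real.log 2 := Real.log_pos (by norm_num)
  -- `k ρ^k → 0`
  have e2 : Filter.Tendsto (fun k : ℕ => (k : ℝ) ^ 1 * ρ ^ k) Filter.atTop (nhds 0) :=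
    tendsto_pow_const_mul_const_pow_of_lt_one 1 hρ0 hρ
  set d : ℝ := min (c / 4) ((c / 4) ^ 2 / 6) with hd
  have hdpos : 0 < d := by rw [hd]; positivity
  obtain ⟨K1, hK1⟩ := Filter.eventually_atTop.mp (e2.eventually_lt_const hdpos)
  set lam : ℝ := c / 8 with hlam
  have hlpos : 0 < lam := by positivity
  obtain ⟨K2, hK2⟩ := exists_nat_ge ((Real.log 3 + 1 + (lam - 1 - Real.log lam)) / (c / 4))
  refine ⟨max (max K1 K2) 1, fun k hk => ?_⟩
  have hk1 : K1 ≤ k := le_trans (le_trans (le_max_left _ _) (le_max_left _ _)) hk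
  have hk2 : (K2 : ℝ) ≤ k := by exact_mod_cast le_trans (le_trans (le_max_right _ _) (le_max_left _ _)) hk
  have hk3 : (1 : ℝ) ≤ k := by exact_mod_cast le_trans (le_max_right _ _) hk
  have e1 := hK1 k hk1
  rw [pow_one] at e1
  have e3 : k * ρ ^ k ≤ c / 4 * k := by
    have : k * ρ ^ k ≤ c / 4 := e1.le.trans (min_le_left _ _)
    nlinarith
  have e4 : Real.log (2 * k + 1) ≤ lam * (2 * k + 1) - 1 - Real.log lam := by
    have hp : (0 : ℝ) < 2 * k + 1 := by positivity
    have := Real.log_le_sub_one_of_pos (mul_pos hlpos hp)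
    rw [Real.log_mul hlpos.ne' hp.ne'] at this
    linarith
  have e5 : Real.log 3 + 1 + (lam - 1 - Real.log lam) ≤ c / 4 * k := by
    rw [div_le_iff₀ (by positivity)] at hK2
    nlinarith
  have e6 : Real.log 2 * Real.sqrt ((4 * k ^ 2 + 2 * k) * (k * ρ ^ k)) ≤ c / 4 * k := by
    have h1 : (4 * (k : ℝ) ^ 2 + 2 * k) * (k * ρ ^ k) ≤ (c / 4 * k) ^ 2 := by
      have h2 : (k : ℝ) * ρ ^ k ≤ (c / 4) ^ 2 / 6 := e1.le.trans (min_le_right _ _)
      have h3 : 4 * (k : ℝ) ^ 2 + 2 * k ≤ 6 * k ^ 2 := by nlinarith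
      have h4 : 0 ≤ (k : ℝ) * ρ ^ k := by positivity
      calc (4 * (k : ℝ) ^ 2 + 2 * k) * (k * ρ ^ k) ≤ (6 * k ^ 2) * ((c / 4) ^ 2 / 6) :=
            mul_le_mul h3 h2 h4 (by positivity)
        _ = (c / 4 * k) ^ 2 := by ring
    have h5 := Real.sqrt_le_sqrt h1
    rw [Real.sqrt_sq (by positivity)] at h5
    have h6 : Real.log 2 ≤ 1 := by
      have := Real.log_two_lt_d9
      linarith
    calc Real.log 2 * Real.sqrt ((4 * k ^ 2 + 2 * k) * (k * ρ ^ k))
        ≤ 1 * (c / 4 * k) := mul_le_mul h6 h5 (Real.sqrt_nonneg _) (by norm_num)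
      _ = _ := one_mul _
  have e7 : lam * (2 * k + 1) = c / 4 * k + lam := by rw [hlam]; ring
  rw [e7] at e4
  linarith

end Src

open Src in
/-- Source estimate, with `j0` independent of `M`. -/
theorem source_unif (ε0 : ℝ) (hε0 : 0 < ε0) : ∃ M0 j0 : ℕ, ∀ M : ℕ, M0 ≤ M → ∀ j : ℕ, j0 ≤ j →
    ∃ n : ℕ, 11 * j ≤ n ∧ n ≤ 13 * j ∧ tt M (10 * j) n ≤ ε0 := by
  have hlog3 := log3_gt
  have hlog2 : 0 < Real.log 2 := Real.log_pos (by norm_num)
  set e : ℝ := ε0 ^ 2 with he
  have hepos : 0 < e := by positivity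
  set ζ : ℝ := min (1 / 200) (e / 1000) with hζdef
  have hζ : 0 < ζ := by rw [hζdef]; positivity
  have hζ1 : ζ ≤ 1 / 200 := min_le_left _ _
  have hζ2 : ζ ≤ e / 1000 := min_le_right _ _
  obtain ⟨ρ, hρ0, hρ, hrate⟩ := rate ζ hζ (by linarith)
  -- choice of M
  have hm : ∃ m0 : ℕ, ∀ m : ℕ, m0 ≤ m → 2 * Real.log 2 * (1 / 2) ^ m ≤ e / 400 := by
    have h1 : Filter.Tendsto (fun m : ℕ => 2 * Real.log 2 * (1 / 2 : ℝ) ^ m) Filter.atTop (nhds (2 * Real.log 2 * 0)) :=
      (tendsto_pow_atTop_nhds_zero_of_lt_one (by norm_num) (by norm_num)).const_mul _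
    rw [mul_zero] at h1
    obtain ⟨m0, hm0⟩ := Filter.eventually_atTop.mp (h1.eventually_lt_const (by positivity : 0 < e / 400))
    exact ⟨m0, fun m hm => (hm0 m hm).le⟩
  obtain ⟨m0, hm0⟩ := hm
  obtain ⟨K0, hK0⟩ := eventually_small' ρ (e / 400) hρ0 hρ (by positivity)
  refine ⟨m0 + 1, max K0 10, fun M hM j hj => ?_⟩
  obtain ⟨m, rfl⟩ : ∃ m, M = m + 1 := ⟨M - 1, by omega⟩
  have hmm := hm0 m (by omega)
  by_contra hcon
  push Not at hcon
  have hj10 : 10 ≤ j := le_trans (le_max_right _ _) hj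
  have hjK : K0 ≤ 10 * j := le_trans (le_trans (le_max_left _ _) hj) (by omega)
  set k : ℕ := 10 * j with hk
  set κ : ℝ := 2 * Real.log 2 / Real.log 3 + ζ with hκ
  have hkr : (k : ℝ) = 10 * j := by rw [hk]; push_cast; ring
  have hjr : (10 : ℝ) ≤ j := by exact_mod_cast hj10
  -- numerical bounds
  have hn1 : 12 * Real.log 3 < 20 * Real.log 2 := by
    have : Real.log (3 ^ 12) < Real.log (2 ^ 20) := Real.log_lt_log (by norm_num) (by norm_num)
    rw [Real.log_pow, Real.log_pow] at this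
    norm_num at this ⊢; exact this
  have hn2 : 200 * Real.log 2 < 127 * Real.log 3 := by
    have : Real.log (2 ^ 200) < Real.log (3 ^ 127) := Real.log_lt_log (by norm_num) (by norm_num)
    rw [Real.log_pow, Real.log_pow] at this
    norm_num at this ⊢; exact this
  have hκ1 : 12 / 10 ≤ κ := by
    have : 12 / 10 ≤ 2 * Real.log 2 / Real.log 3 := by
      rw [le_div_iff₀ (by linarith)]; linarith
    rw [hκ]; linarith
  have hκ2 : κ ≤ 1275 / 1000 := by
    have : 2 * Real.log 2 / Real.log 3 ≤ 127 / 100 := by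
      rw [div_le_iff₀ (by linarith)]; linarith
    rw [hκ]; linarith
  set N : ℕ := ⌈κ * k⌉₊ with hN
  have hN1 : κ * k ≤ N := Nat.le_ceil _
  have hN2 : (N : ℝ) < κ * k + 1 := Nat.ceil_lt_add_one (by positivity)
  have hN3 : N ≤ 13 * j := by
    have : (N : ℝ) ≤ 13 * j := by rw [hkr] at hN2; nlinarith
    exact_mod_cast this
  have hN4 : (12 * j : ℝ) ≤ N := by rw [hkr] at hN1; nlinarith
  have hN5 : 12 * j ≤ N := by exact_mod_cast hN4
  -- deficits
  set D : ℕ → ℝ := fun n => Real.log 3 - (HH (m + 1) k (n + 1) - HH (m + 1) k n) with hD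
  have hDt : ∀ n, (tt (m + 1) k n) ^ 2 ≤ 8 * D n := fun n => tt_sq (by omega) k n
  have hD0 : ∀ n, 0 ≤ D n := fun n => by have := hDt n; nlinarith [sq_nonneg (tt (m + 1) k n)]
  have hsum : ∑ n ∈ range N, D n = N * Real.log 3 - HH (m + 1) k N + HH (m + 1) k 0 := by
    simp only [hD]
    rw [sum_sub_distrib, sum_range_sub]
    simp
    ring
  have hlow : (j : ℝ) * (e / 8) ≤ ∑ n ∈ range N, D n := by
    have h1 : ∑ n ∈ Ico (11 * j) N, D n ≤ ∑ n ∈ range N, D n := by
      apply sum_le_sum_of_subset_of_nonneg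
      · intro n hn
        rw [mem_Ico] at hn
        exact mem_range.mpr hn.2
      · intro n _ _; exact hD0 n
    refine le_trans ?_ h1
    have h2 : ∑ n ∈ Ico (11 * j) N, e / 8 ≤ ∑ n ∈ Ico (11 * j) N, D n := by
      apply sum_le_sum
      intro n hn
      rw [mem_Ico] at hn
      have h3 := hcon n hn.1 (by omega)
      have h4 := hDt n
      have h5 : ε0 ^ 2 ≤ (tt (m + 1) k n) ^ 2 := by
        apply pow_le_pow_left₀ hε0.le h3.le
      rw [he]; linarith
    refine le_trans ?_ h2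
    rw [sum_const, Nat.card_Ico, nsmul_eq_mul]
    apply mul_le_mul_of_nonneg_right _ (by positivity)
    exact Nat.cast_le.mpr (by omega : j ≤ N - 11 * j)
  -- upper bound
  have hbad : bad (m + 1) k N ≤ k * ρ ^ k := hrate m k N hN1
  have hHN := HH_lower' m k N
  have hH0 := HH_zero_le' m k (by omega)
  have hsm := hK0 k hjK
  have hmul : Real.log 2 * Real.sqrt ((4 * k ^ 2 + 2 * k) * bad (m + 1) k N)
      ≤ Real.log 2 * Real.sqrt ((4 * k ^ 2 + 2 * k) * (k * ρ ^ k)) := by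
    apply mul_le_mul_of_nonneg_left _ hlog2.le
    apply Real.sqrt_le_sqrt
    exact mul_le_mul_of_nonneg_left hbad (by positivity)
  have hκ3 : κ * k * Real.log 3 = 2 * Real.log 2 * k + ζ * k * Real.log 3 := by
    rw [hκ]; field_simp
  have hN6 : (N : ℝ) * Real.log 3 ≤ 2 * Real.log 2 * k + ζ * k * Real.log 3 + Real.log 3 := by
    rw [← hκ3]; nlinarith
  have hm3 : 2 * Real.log 2 * (1 / 2) ^ m * k ≤ e / 400 * k := mul_le_mul_of_nonneg_right hmm (Nat.cast_nonneg _)
  have hexp : (k : ℝ) * (Real.log 2 * (2 - 2 * (1 / 2) ^ m)) = 2 * Real.log 2 * k - 2 * Real.log 2 * (1 / 2) ^ m * k := by ring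
  have hlog3b : Real.log 3 < 2 := by
    rw [Real.log_lt_iff_lt_exp (by norm_num)]
    have h1 := Real.exp_one_gt_d9
    have h2 : Real.exp 2 = Real.exp 1 * Real.exp 1 := by rw [← Real.exp_add]; norm_num
    rw [h2]; nlinarith
  have hz : ζ * k * Real.log 3 ≤ e / 1000 * k * 2 := by
    have h1 : ζ * k ≤ e / 1000 * k := mul_le_mul_of_nonneg_right hζ2 (Nat.cast_nonneg _)
    have h2 : 0 ≤ ζ * k := by positivity
    nlinarith
  rw [hsum] at hlow
  have hfin : (j : ℝ) * (e / 8) ≤ e / 1000 * k * 2 + e / 400 * k + e / 400 * k := by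
    linarith
  rw [hkr] at hfin
  nlinarith

end H62w
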