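import Pool.Agent.Lib.H62w.Mu
import Pool.Agent.Lib.H62w.SkSource0

set_option autoImplicit false
open Finset
namespace H62w

theorem S_TT_nonneg (M n : ℕ) : 0 ≤ TT M n := by
  unfold TT
  exact sum_nonneg fun _ _ => abs_nonneg _

/-- A nonnegative antitone sequence with `a (13 j) ≤ a j / 26` for large `j` has bounded partial sums. -/
theorem S_bounded (a : ℕ → ℝ) (h0 : ∀ n, 0 ≤ a n) (ha : Antitone a) (j0 : ℕ)
    (h : ∀ j, j0 ≤ j → a (13 * j) ≤ a j / 26) : ∃ B : ℝ, ∀ J : ℕ, ∑ j ∈ range J, a j ≤ B := by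
  refine ⟨26 * (j0 * a 0), fun J => ?_⟩
  have h1 : ∀ J, ∑ i ∈ range (13 * J), a i ≤ 13 * ∑ j ∈ range J, a (13 * j) := by
    intro J
    induction J with
    | zero => simp
    | succ J ih =>
      rw [show 13 * (J + 1) = 13 * J + 13 by ring, sum_range_add, sum_range_succ (fun j => a (13 * j)) J]
      have : ∑ x ∈ range 13, a (13 * J + x) ≤ ∑ x ∈ range 13, a (13 * J) :=
        sum_le_sum fun x _ => ha (by omega)
      rw [sum_const, card_range] at this
      simp only [nsmul_eq_mul] at this
      push_cast at this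
      linarith
  have h2 : ∑ j ∈ range J, a (13 * j) ≤ j0 * a 0 + (∑ j ∈ range J, a j) / 26 := by
    have e : ∀ j ∈ range J, a (13 * j) ≤ (if j < j0 then a 0 else 0) + a j / 26 := by
      intro j _
      split_ifs with hj
      · have := ha (Nat.zero_le (13 * j))
        have := h0 j
        linarith
      · have := h j (by omega)
        linarith
    refine (sum_le_sum e).trans ?_
    rw [sum_add_distrib, ← sum_div]
    have : ∑ j ∈ range J, (if j < j0 then a 0 else 0) ≤ j0 * a 0 := by
      rw [← sum_filter, sum_const, nsmul_eq_mul]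
      refine mul_le_mul_of_nonneg_right ?_ (h0 0)
      have : ((range J).filter (fun j => j < j0)).card ≤ (range j0).card := by
        apply card_le_card
        intro x hx
        simp only [mem_filter, mem_range] at hx ⊢
        exact hx.2
      rw [card_range] at this
      exact_mod_cast this
    linarith
  have h3 : ∑ j ∈ range J, a j ≤ ∑ j ∈ range (13 * J), a j :=
    sum_le_sum_of_subset_of_nonneg (range_mono (by omega)) fun _ _ _ => h0 _
  have h4 := h1 J
  linarith

theorem TT_summable : ∃ M0 : ℕ, ∀ M : ℕ, M0 ≤ M → ∃ B : ℝ, ∀ J : ℕ, ∑ j ∈ range J, TT M j ≤ B := by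
  obtain ⟨M0, hM0⟩ := source (1 / 26) (by norm_num)
  refine ⟨M0 + 1, fun M hM => ?_⟩
  obtain ⟨j0, hj0⟩ := hM0 M (by omega)
  have hM1 : 1 ≤ M := by omega
  have hanti : Antitone (TT M) := antitone_nat_of_succ_le (TT_anti hM1)
  have htt : ∀ n, Antitone (fun k => tt M k n) := fun n => antitone_nat_of_succ_le fun k => tt_anti hM1 k n
  refine S_bounded (TT M) (S_TT_nonneg M) hanti j0 fun j hj => ?_
  obtain ⟨n, hn1, hn2, hn⟩ := hj0 j hj
  have e : n - j + j = n := by omega
  have hc := TT_contract hM1 (n - j) j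
  rw [e] at hc
  have h1 : tt M (n - j) n ≤ tt M (10 * j) n := htt n (by omega)
  have h2 : TT M (13 * j) ≤ TT M n := hanti hn2
  have h3 := S_TT_nonneg M j
  calc TT M (13 * j) ≤ tt M (n - j) n * TT M j := h2.trans hc
    _ ≤ 1 / 26 * TT M j := mul_le_mul_of_nonneg_right (h1.trans hn) h3
    _ = TT M j / 26 := by ring

end H62w
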