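import Pool.Agent.Lib.H62w.Mu
import Pool.Agent.Lib.H62w.SourceU

set_option autoImplicit false

/-!
Superpolynomial decay of `t_{n+1,n}`, uniformly in the truncation `M`.
-/

open Finset
namespace H62w

/-- Joint convolution formula. -/
theorem L_jconv (M k k' j S : ℕ) (z : ZMod (3 ^ (k + j + 1))) :
    L_J M (k + k') (k + j + 1) S z =
      ∑ s ∈ range (M * k + 1), if s ≤ S then
        L_C k j s (L_J M k (k + j + 1) s) (L_J M k' (j + 1) (S - s)) z else 0 := by
  have h1 : L_J M (k + k') (k + j + 1) S z = ∑ l ∈ words M k, ∑ l' ∈ words M k',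
      ∑ s ∈ range (M * k + 1), if s ≤ S then ∑ w : ZMod (3 ^ (j + 1)),
        (if l.sum = s ∧ L_X (k + j + 1) l = z - L_v (k + j + 1) ^ s * L_E k j w then pw M l else 0) *
          (if l'.sum = S - s ∧ L_X (j + 1) l' = w then pw M l' else 0) else 0 := by
    conv_lhs => rw [L_J]
    rw [L_sum_words_add]
    refine sum_congr rfl fun l hl => sum_congr rfl fun l' _ => ?_
    have hs := L_sum_le hl
    rw [mem_words] at hl
    rw [L_XX_append, L_pw_append, hl.1, List.sum_append]
    have e1 : ∀ s ∈ range (M * k + 1), (if s ≤ S then ∑ w : ZMod (3 ^ (j + 1)),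
        (if l.sum = s ∧ L_X (k + j + 1) l = z - L_v (k + j + 1) ^ s * L_E k j w then pw M l else 0) *
          (if l'.sum = S - s ∧ L_X (j + 1) l' = w then pw M l' else 0) else 0) =
        if l.sum = s then (if l.sum + l'.sum = S ∧
          L_X (k + j + 1) l = z - L_v (k + j + 1) ^ l.sum * L_E k j (L_X (j + 1) l')
          then pw M l * pw M l' else 0) else 0 := by
      intro s _
      by_cases hsS : s ≤ S
      · rw [if_pos hsS]
        by_cases h : l.sum = s
        · by_cases h' : l'.sum = S - s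
          · have h2 : l.sum + l'.sum = S := by omega
            simp only [h', true_and, mul_ite, mul_zero]
            rw [sum_ite_eq univ (L_X (j + 1) l') (fun w => (if l.sum = s ∧ L_X (k + j + 1) l =
              z - L_v (k + j + 1) ^ s * L_E k j w then pw M l else 0) * pw M l'), if_pos (mem_univ _)]
            have h3 : s + (S - s) = S := by omega
            simp only [h, h3, true_and, if_true, ite_mul, zero_mul]
          · have h2 : ¬ l.sum + l'.sum = S := by omega
            simp [h', h2]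
        · simp [h]
      · rw [if_neg hsS]
        by_cases h : l.sum = s
        · have h2 : ¬ l.sum + l'.sum = S := by omega
          simp [h2]
        · simp [h]
    rw [sum_congr rfl e1, sum_ite_eq (range (M * k + 1)) l.sum, if_pos (mem_range.2 (by omega)),
      L_E_XX]
    have : (L_X (k + j + 1) l + L_v (k + j + 1) ^ l.sum * (3 ^ k * L_X (k + j + 1) l') = z) ↔
        (L_X (k + j + 1) l = z - L_v (k + j + 1) ^ l.sum * (3 ^ k * L_X (k + j + 1) l')) :=
      eq_sub_iff_add_eq.symm
    simp only [this]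
  rw [h1]
  have h2 : ∀ l ∈ words M k, (∑ l' ∈ words M k',
      ∑ s ∈ range (M * k + 1), if s ≤ S then ∑ w : ZMod (3 ^ (j + 1)),
        (if l.sum = s ∧ L_X (k + j + 1) l = z - L_v (k + j + 1) ^ s * L_E k j w then pw M l else 0) *
          (if l'.sum = S - s ∧ L_X (j + 1) l' = w then pw M l' else 0) else 0) =
      ∑ s ∈ range (M * k + 1), if s ≤ S then ∑ w : ZMod (3 ^ (j + 1)), ∑ l' ∈ words M k',
        (if l.sum = s ∧ L_X (k + j + 1) l = z - L_v (k + j + 1) ^ s * L_E k j w then pw M l else 0) *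
          (if l'.sum = S - s ∧ L_X (j + 1) l' = w then pw M l' else 0) else 0 := by
    intro l _
    rw [sum_comm]
    refine sum_congr rfl fun s _ => ?_
    split_ifs with h
    · rw [sum_comm]
    · simp
  rw [sum_congr rfl h2, sum_comm]
  refine sum_congr rfl fun s _ => ?_
  split_ifs with h
  · unfold L_C L_J
    rw [sum_comm]
    refine sum_congr rfl fun w _ => ?_
    rw [sum_mul_sum]
  · simp

/-- The norm used in `tt`. -/
noncomputable def L_phi (M k n s : ℕ) : ℝ := ∑ z, |L_p0 (L_J M k (n + 1) s) z|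

theorem L_phi_nonneg (M k n s : ℕ) : 0 ≤ L_phi M k n s := sum_nonneg fun z _ => abs_nonneg _

theorem L_phi_zero {M k n s : ℕ} (hs : M * k < s) : L_phi M k n s = 0 := by
  refine sum_eq_zero fun z _ => ?_
  have : L_J M k (n + 1) s = fun _ => 0 := by funext z; exact L_JJ_zero hs z
  rw [this]
  simp [L_p0, L_fb]

theorem L_tt_phi (M k n : ℕ) : tt M k n = ∑ s ∈ range (M * k + 1), L_phi M k n s := L_tt_eq M k n

theorem tt_nonneg (M k n : ℕ) : 0 ≤ tt M k n := by
  rw [L_tt_phi]
  exact sum_nonneg fun s _ => L_phi_nonneg M k n s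

/-- A double sum bound. -/
theorem L_dsum (a b : ℕ) (f g : ℕ → ℝ) (hf : ∀ s, 0 ≤ f s) (hg : ∀ s, 0 ≤ g s) (hg0 : ∀ s, b < s → g s = 0) (c : ℕ) :
    ∑ S ∈ range (c + 1), ∑ s ∈ range (a + 1), (if s ≤ S then f s * g (S - s) else 0) ≤
      (∑ s ∈ range (a + 1), f s) * ∑ s ∈ range (b + 1), g s := by
  rw [sum_comm, sum_mul]
  refine sum_le_sum fun s _ => ?_
  rw [← sum_filter, ← mul_sum]
  refine mul_le_mul_of_nonneg_left ?_ (hf s)
  have h2 : ∑ S ∈ (range (c + 1)).filter (fun S => s ≤ S), g (S - s) =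
      ∑ t ∈ range (c + 1 - s), g t := by
    refine sum_nbij' (fun S => S - s) (fun t => t + s) ?_ ?_ ?_ ?_ ?_
    · intro S hS
      simp only [mem_filter, mem_range] at hS ⊢
      omega
    · intro t ht
      simp only [mem_filter, mem_range] at ht ⊢
      omega
    · intro S hS
      simp only [mem_filter, mem_range] at hS
      omega
    · intro t ht
      omega
    · intro S hS; rfl
  rw [h2]
  have h3 : ∑ t ∈ range (c + 1 - s), g t ≤ ∑ t ∈ range (max (c + 1 - s) (b + 1)), g t :=
    sum_le_sum_of_subset_of_nonneg (range_mono (le_max_left _ _)) fun _ _ _ => hg _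
  refine h3.trans (le_of_eq ?_)
  symm
  apply sum_subset (range_mono (le_max_right _ _))
  intro t _ ht
  rw [mem_range] at ht
  exact hg0 t (by omega)

theorem L_p0_ite {n : ℕ} (P : Prop) [Decidable P] (f : ZMod (3 ^ (n + 1)) → ℝ) (z : ZMod (3 ^ (n + 1))) :
    L_p0 (fun t => if P then f t else 0) z = if P then L_p0 f z else 0 := by
  split_ifs
  · rfl
  · simp [L_p0, L_fb]

/-- (C'). -/
theorem tt_mul (M k k' j : ℕ) : tt M (k + k') (k + j) ≤ tt M k (k + j) * tt M k' j := by
  rw [L_tt_phi, L_tt_phi M k, L_tt_phi M k']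
  refine le_trans (sum_le_sum fun S _ => ?_)
    (L_dsum (M * k) (M * k') (L_phi M k (k + j)) (L_phi M k' j) (L_phi_nonneg _ _ _) (L_phi_nonneg _ _ _)
      (fun s hs => L_phi_zero hs) (M * (k + k')))
  have h : L_J M (k + k') (k + j + 1) S = fun z => ∑ s ∈ range (M * k + 1), (fun t => if s ≤ S then
        L_C k j s (L_J M k (k + j + 1) s) (L_J M k' (j + 1) (S - s)) t else 0) z := by
    funext z
    exact L_jconv M k k' j S z
  calc L_phi M (k + k') (k + j) S = ∑ z, |L_p0 (L_J M (k + k') (k + j + 1) S) z| := rfl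
    _ ≤ ∑ z, ∑ s ∈ range (M * k + 1), (if s ≤ S then
        |L_C k j s (L_p0 (L_J M k (k + j + 1) s)) (L_p0 (L_J M k' (j + 1) (S - s))) z| else 0) := by
        refine sum_le_sum fun z _ => ?_
        rw [h, L_p0_sum]
        refine (abs_sum_le_sum_abs _ _).trans (le_of_eq ?_)
        refine sum_congr rfl fun s _ => ?_
        rw [L_p0_ite]
        split_ifs
        · rw [L_CC_p0_p0]
        · simp
    _ = ∑ s ∈ range (M * k + 1), ∑ z, (if s ≤ S then
        |L_C k j s (L_p0 (L_J M k (k + j + 1) s)) (L_p0 (L_J M k' (j + 1) (S - s))) z| else 0) := sum_comm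
    _ ≤ _ := by
        refine sum_le_sum fun s _ => ?_
        split_ifs
        · exact L_CC_norm k j s _ _
        · simp

/-- (M0). -/
theorem tt_diag {M : ℕ} (hM : 1 ≤ M) (k j : ℕ) : tt M (k + 1) (j + 1) ≤ tt M k j := by
  have key : tt M (1 + k) (1 + j) ≤ tt M k j := by
    rw [L_tt_phi, L_tt_phi M k]
    have hJ : ∀ s, M * 1 < s → (∑ z, |L_J M 1 (1 + j + 1) s z|) = 0 := by
      intro s hs
      refine sum_eq_zero fun z _ => ?_
      rw [L_JJ_zero hs, abs_zero]
    have hd := L_dsum (M * 1) (M * k) (fun s => ∑ z, |L_J M 1 (1 + j + 1) s z|) (L_phi M k j)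
      (fun s => sum_nonneg fun z _ => abs_nonneg _) (L_phi_nonneg _ _ _)
      (fun s hs => L_phi_zero hs) (M * (1 + k))
    rw [L_JJ_sum_norm hM, one_mul] at hd
    refine le_trans (sum_le_sum fun S _ => ?_) hd
    have h : L_J M (1 + k) (1 + j + 1) S = fun z => ∑ s ∈ range (M * 1 + 1), (fun t => if s ≤ S then
          L_C 1 j s (L_J M 1 (1 + j + 1) s) (L_J M k (j + 1) (S - s)) t else 0) z := by
      funext z
      exact L_jconv M 1 k j S z
    calc L_phi M (1 + k) (1 + j) S = ∑ z, |L_p0 (L_J M (1 + k) (1 + j + 1) S) z| := rfl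
      _ ≤ ∑ z, ∑ s ∈ range (M * 1 + 1), (if s ≤ S then
          |L_C 1 j s (L_J M 1 (1 + j + 1) s) (L_p0 (L_J M k (j + 1) (S - s))) z| else 0) := by
          refine sum_le_sum fun z _ => ?_
          rw [h, L_p0_sum]
          refine (abs_sum_le_sum_abs _ _).trans (le_of_eq ?_)
          refine sum_congr rfl fun s _ => ?_
          rw [L_p0_ite]
          split_ifs
          · rw [L_CC_p0]
          · simp
      _ = ∑ s ∈ range (M * 1 + 1), ∑ z, (if s ≤ S then
          |L_C 1 j s (L_J M 1 (1 + j + 1) s) (L_p0 (L_J M k (j + 1) (S - s))) z| else 0) := sum_comm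
      _ ≤ _ := by
          refine sum_le_sum fun s _ => ?_
          split_ifs
          · exact L_CC_norm 1 j s _ _
          · simp
  rwa [add_comm 1 k, add_comm 1 j] at key

theorem tt_zero_le (M n : ℕ) (hM : 1 ≤ M) : tt M (n + 1) n ≤ 2 := by
  have h1 : ∀ m, tt M (m + 1) m ≤ tt M 1 0 := by
    intro m
    induction m with
    | zero => exact le_rfl
    | succ m ih => exact (tt_diag hM (m + 1) m).trans ih
  refine (h1 n).trans ((tt_anti hM 0 0).trans ?_)
  unfold tt jl
  simp only [words, mul_zero, zero_add, sum_range_one]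
  have e : ∀ y : ℕ, (∑ l ∈ ({[]} : Finset (List ℕ)).filter
      (fun l => l.sum = 0 ∧ 2 ^ l.sum * y ≡ cc l [MOD 3 ^ 1]), pw M l) = if y ≡ 0 [MOD 3] then 1 else 0 := by
    intro y
    rw [filter_singleton]
    have : ([] : List ℕ).sum = 0 ∧ 2 ^ ([] : List ℕ).sum * y ≡ cc [] [MOD 3 ^ 1] ↔ y ≡ 0 [MOD 3] := by
      simp [cc]
    by_cases h : y ≡ 0 [MOD 3]
    · rw [if_pos (this.2 h), if_pos h]; simp [pw]
    · rw [if_neg (fun h' => h (this.1 h')), if_neg h]; simp
  have e0 : ∀ y : ℕ, (∑ l ∈ ({[]} : Finset (List ℕ)).filter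
      (fun l => l.sum = 0 ∧ 2 ^ l.sum * y ≡ cc l [MOD 3 ^ 0]), pw M l) = 1 := by
    intro y
    rw [filter_singleton, if_pos]
    · simp [pw]
    · simp [cc, Nat.modEq_one]
  simp only [e, e0]
  norm_num [sum_range_succ, Nat.ModEq]

/-- Superpolynomial decay, uniform in `M`. -/
theorem tt_super (A : ℕ) : ∃ K : ℝ, ∀ M n : ℕ, 2 * n ≤ M → tt M (n + 1) n ≤ K / ((n : ℝ) + 1) ^ A := by
  obtain ⟨M0, j0, h0⟩ := source_unif (1 / 13 ^ A) (by positivity)
  set K : ℝ := |tt 0 1 0| + 2 * ((M0 : ℝ) + 1) ^ A + 2 * (13 * ((j0 : ℝ) + 1) + 1) ^ A with hK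
  have hK1 : |tt 0 1 0| ≤ K := by rw [hK]; have : (0 : ℝ) ≤ ((M0 : ℝ) + 1) ^ A := by positivity
                                  have : (0 : ℝ) ≤ (13 * ((j0 : ℝ) + 1) + 1) ^ A := by positivity
                                  linarith
  have hK2 : 2 * ((M0 : ℝ) + 1) ^ A ≤ K := by
    have := abs_nonneg (tt 0 1 0)
    have : (0 : ℝ) ≤ (13 * ((j0 : ℝ) + 1) + 1) ^ A := by positivity
    rw [hK]; linarith
  have hK3 : 2 * (13 * ((j0 : ℝ) + 1) + 1) ^ A ≤ K := by
    have := abs_nonneg (tt 0 1 0)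
    have : (0 : ℝ) ≤ ((M0 : ℝ) + 1) ^ A := by positivity
    rw [hK]; linarith
  have hK0 : 0 ≤ K := (abs_nonneg _).trans hK1
  refine ⟨K, fun M n hn => ?_⟩
  rcases Nat.eq_zero_or_pos M with hM | hM
  · subst hM
    have : n = 0 := by omega
    subst this
    simpa using (le_abs_self _).trans hK1
  by_cases hMM : M < M0
  · rw [le_div_iff₀ (by positivity)]
    have h1 := tt_zero_le M n hM
    have h2 : ((n : ℝ) + 1) ^ A ≤ ((M0 : ℝ) + 1) ^ A := by
      apply pow_le_pow_left₀ (by positivity)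
      have : (n : ℝ) ≤ M0 := by exact_mod_cast (show n ≤ M0 by omega)
      linarith
    calc tt M (n + 1) n * ((n : ℝ) + 1) ^ A ≤ 2 * ((M0 : ℝ) + 1) ^ A :=
          mul_le_mul h1 h2 (by positivity) (by norm_num)
      _ ≤ K := hK2
  · have hMM : M0 ≤ M := by omega
    have hanti : Antitone (fun m => tt M (m + 1) m) := antitone_nat_of_succ_le fun m => tt_diag hM (m + 1) m
    have htt : ∀ n, Antitone (fun k => tt M k n) := fun n => antitone_nat_of_succ_le fun k => tt_anti hM k n
    have hrec : ∀ j, j0 ≤ j → tt M (13 * j + 1) (13 * j) ≤ 1 / 13 ^ A * tt M (j + 1) j := by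
      intro j hj
      obtain ⟨m, hm1, hm2, hm⟩ := h0 M hMM j hj
      have h1 : tt M (13 * j + 1) (13 * j) ≤ tt M (m + 1) m := hanti hm2
      have h2 := tt_mul M (10 * j) (m - 10 * j + 1) (m - 10 * j)
      rw [show 10 * j + (m - 10 * j + 1) = m + 1 by omega, show 10 * j + (m - 10 * j) = m by omega] at h2
      have h3 : tt M (m - 10 * j + 1) (m - 10 * j) ≤ tt M (j + 1) j := hanti (show j ≤ m - 10 * j by omega)
      calc tt M (13 * j + 1) (13 * j) ≤ tt M (10 * j) m * tt M (m - 10 * j + 1) (m - 10 * j) := h1.trans h2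
        _ ≤ 1 / 13 ^ A * tt M (j + 1) j :=
          mul_le_mul hm h3 (tt_nonneg _ _ _) (by positivity)
    clear hn
    induction n using Nat.strong_induction_on with
    | _ n ih =>
      rw [le_div_iff₀ (by positivity)]
      by_cases hn : n < 13 * (j0 + 1)
      · have h1 := tt_zero_le M n hM
        have h2 : ((n : ℝ) + 1) ^ A ≤ (13 * ((j0 : ℝ) + 1) + 1) ^ A := by
          apply pow_le_pow_left₀ (by positivity)
          have : (n : ℝ) ≤ ((13 * (j0 + 1) : ℕ) : ℝ) := by exact_mod_cast hn.le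
          push_cast at this
          linarith
        calc tt M (n + 1) n * ((n : ℝ) + 1) ^ A ≤ 2 * (13 * ((j0 : ℝ) + 1) + 1) ^ A :=
              mul_le_mul h1 h2 (by positivity) (by norm_num)
          _ ≤ K := hK3
      · have hj : j0 ≤ n / 13 := by omega
        have hlt : n / 13 < n := by omega
        have h1 := ih (n / 13) hlt
        rw [le_div_iff₀ (by positivity)] at h1
        have h2 : tt M (n + 1) n ≤ tt M (13 * (n / 13) + 1) (13 * (n / 13)) := hanti (show 13 * (n / 13) ≤ n by omega)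
        have h3 := hrec (n / 13) hj
        have h4 : ((n : ℝ) + 1) ^ A ≤ 13 ^ A * (((n / 13 : ℕ) : ℝ) + 1) ^ A := by
          rw [← mul_pow]
          apply pow_le_pow_left₀ (by positivity)
          have : n + 1 ≤ 13 * (n / 13 + 1) := by omega
          exact_mod_cast this
        calc tt M (n + 1) n * ((n : ℝ) + 1) ^ A
            ≤ (1 / 13 ^ A * tt M (n / 13 + 1) (n / 13)) * (13 ^ A * (((n / 13 : ℕ) : ℝ) + 1) ^ A) :=
              mul_le_mul (h2.trans h3) h4 (by positivity) (mul_nonneg (by positivity) (tt_nonneg _ _ _))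
          _ = tt M (n / 13 + 1) (n / 13) * (((n / 13 : ℕ) : ℝ) + 1) ^ A := by
              field_simp
          _ ≤ K := h1

end H62w
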