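import Pool.Agent.Lib.H62w.TypD
import Pool.Agent.Lib.H62w.SkSource

set_option autoImplicit false
open Finset
namespace H62w

/-! Chunk Y: typical growth. -/

/-- Waiting recursion, good classes. -/
theorem Y_iter {β g : ℝ} (hβ : 0 < β) (hβ1 : β < 1) (hg : 0 < g) {M : ℕ} (hM : 7 ≤ M) {m n0 : ℕ}
    (hm : 1 ≤ m) (hmn0 : m ≤ n0) {η : ℝ} (hη : 0 < η) (r : ℕ → ℕ)
    (hr : ∀ n, n0 ≤ n → r n < 3 ^ m ∧ r n % 3 ≠ 0 ∧
      (((range (3 ^ (n + 1))).filter (fun y => y % 3 ^ m = r n ∧ 3 ^ n * VG β g M n y < 1 / 24)).card : ℝ)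
        ≤ η * (3 ^ (n + 1) / 3 ^ m)) (T : ℕ) :
    ∀ n : ℕ, n0 + m * T ≤ n → ∀ θ : ℝ, 0 ≤ θ →
      θ ≤ (Yw β m) ^ T * Real.exp (2 * g * ((n : ℝ) - m * T)) / 24 →
      Fc β M n (r n % 3) θ ≤ (η + (1 - 3 / 3 ^ m) ^ T) * 3 ^ n := by
  have h3m : (3 : ℝ) ≤ 3 ^ m := by
    calc (3 : ℝ) = 3 ^ 1 := by norm_num
      _ ≤ 3 ^ m := pow_le_pow_right₀ (by norm_num) hm
  have hq0 : (0 : ℝ) ≤ 1 - 3 / 3 ^ m := by
    rw [sub_nonneg, div_le_one (by positivity)]
    exact h3m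
  induction T with
  | zero =>
    intro n _ θ _ _
    have h1 := Fc_le β M n (v := r n % 3) (Nat.mod_lt _ (by norm_num)) θ
    have h2 : (0 : ℝ) < 3 ^ n := by positivity
    rw [pow_zero]
    nlinarith
  | succ T ih =>
    intro n hn θ hθ hθ2
    have hmT : m * (T + 1) = m * T + m := by ring
    have hn0 : n0 ≤ n := by omega
    have hmn : m ≤ n := by omega
    have hn' : n0 + m * T ≤ n - m := by omega
    have hn0' : n0 ≤ n - m := by omega
    obtain ⟨hr1, hr2, hr3⟩ := hr n hn0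
    obtain ⟨hr1', hr2', _⟩ := hr (n - m) hn0'
    have hv' : r (n - m) % 3 = 1 ∨ r (n - m) % 3 = 2 := by omega
    have hwpos := Yw_pos β m
    have hwle := Yw_le_one hβ m
    have hwT : (Yw β m) ^ (T + 1) ≤ 1 := pow_le_one₀ hwpos.le hwle
    have hmTn : (m : ℝ) * (T + 1 : ℕ) ≤ n := by
      have : m * (T + 1) ≤ n := by omega
      exact_mod_cast this
    have hexp : Real.exp (2 * g * ((n : ℝ) - m * (T + 1 : ℕ))) ≤ Real.exp (2 * g * n) := by
      refine Real.exp_le_exp.mpr ?_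
      have : (0 : ℝ) ≤ m * (T + 1 : ℕ) := by positivity
      nlinarith
    have hθ3 : θ ≤ Real.exp (2 * g * n) / 24 := by
      refine le_trans hθ2 ?_
      refine div_le_div_of_nonneg_right ?_ (by norm_num)
      calc Yw β m ^ (T + 1) * Real.exp (2 * g * ((n : ℝ) - m * (T + 1 : ℕ)))
          ≤ 1 * Real.exp (2 * g * n) := mul_le_mul hwT hexp (Real.exp_pos _).le (by norm_num)
        _ = _ := one_mul _
    have hstep := Y_step2 (θ := θ) hβ hβ1 hg hM hm hmn hr1 hr2 hv' hθ hθ3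
    have hih := ih (n - m) hn' (θ / Yw β m) (by positivity) (by
      rw [div_le_iff₀ hwpos]
      refine le_trans hθ2 (le_of_eq ?_)
      have h1 : ((n - m : ℕ) : ℝ) - m * T = (n : ℝ) - m * (T + 1 : ℕ) := by
        rw [Nat.cast_sub hmn]
        push_cast
        ring
      rw [h1, pow_succ]
      ring)
    have h3 : (3 : ℝ) ^ n = 3 ^ m * 3 ^ (n - m) := by
      rw [← pow_add]
      congr 1
      omega
    have h4 : (0 : ℝ) ≤ 3 ^ m - 3 := by linarith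
    have h5 : (3 ^ m - 3) * Fc β M (n - m) (r (n - m) % 3) (θ / Yw β m) ≤
        (3 ^ m - 3) * ((η + (1 - 3 / 3 ^ m) ^ T) * 3 ^ (n - m)) := mul_le_mul_of_nonneg_left hih h4
    have h6 : η * (3 ^ (n + 1) / 3 ^ m) + (3 ^ m - 3) * ((η + (1 - 3 / 3 ^ m) ^ T) * 3 ^ (n - m)) =
        (η + (1 - 3 / 3 ^ m) ^ (T + 1)) * (3 : ℝ) ^ n := by
      have h7 : (3 : ℝ) ^ m - 3 = 3 ^ m * (1 - 3 / 3 ^ m) := by field_simp
      have h8 : (3 : ℝ) ^ (n + 1) / 3 ^ m = 3 * 3 ^ (n - m) := by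
        rw [pow_succ, h3]
        field_simp
      have h9 : (3 : ℝ) = 3 ^ m - 3 ^ m * (1 - 3 / 3 ^ m) := by rw [← h7]; ring
      rw [h7, h8, pow_succ (1 - 3 / (3 : ℝ) ^ m), h3]
      set q : ℝ := 1 - 3 / 3 ^ m with hq
      have h10 : (3 : ℝ) = 3 ^ m - 3 ^ m * q := h9
      have h11 : η * (3 * 3 ^ (n - m)) = η * ((3 ^ m - 3 ^ m * q) * (3 : ℝ) ^ (n - m)) := by
        rw [← h10]
      rw [h11]
      ring
    linarith

theorem typical {β : ℝ} (hβ : 0 < β) (hβ1 : β < 1) :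
    ∃ g : ℝ, 0 < g ∧ ∃ M0 : ℕ, ∀ M : ℕ, M0 ≤ M → ∀ η : ℝ, 0 < η → ∃ n0 : ℕ, ∀ n : ℕ, n0 ≤ n →
      ∀ v : ℕ, v = 1 ∨ v = 2 →
        (((range (3 ^ (n + 1))).filter (fun y => y % 3 = v ∧ W β M n y < Real.exp (g * n))).card : ℝ)
          ≤ η * 3 ^ n := by
  obtain ⟨g, hg, M1, hM1⟩ := Y_chernoff hβ1
  obtain ⟨M2, hM2⟩ := TT_summable
  refine ⟨g, hg, max 7 (max M1 M2), fun M hM η hη => ?_⟩
  have hM7 : 7 ≤ M := le_trans (le_max_left _ _) hM
  have hMM1 : M1 ≤ M := le_trans (le_trans (le_max_left _ _) (le_max_right _ _)) hM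
  have hMM2 : M2 ≤ M := le_trans (le_trans (le_max_right _ _) (le_max_right _ _)) hM
  obtain ⟨ρ, hρ0, hρ1, hρ⟩ := hM1 M hMM1
  obtain ⟨B, hB⟩ := hM2 M hMM2
  obtain ⟨m, hm, n0, hmn0, hsel⟩ := Y_select (by omega : 1 ≤ M) hρ0 hρ1 hρ hB (η / 2) (by positivity)
  have hsel' : ∀ n : ℕ, ∃ r : ℕ, n0 ≤ n → r < 3 ^ m ∧ r % 3 ≠ 0 ∧
      (((range (3 ^ (n + 1))).filter (fun y => y % 3 ^ m = r ∧ 3 ^ n * VG β g M n y < 1 / 24)).card : ℝ)
        ≤ η / 2 * (3 ^ (n + 1) / 3 ^ m) := by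
    intro n
    by_cases h : n0 ≤ n
    · obtain ⟨r, hr⟩ := hsel n h
      exact ⟨r, fun _ => hr⟩
    · exact ⟨0, fun h' => absurd h' h⟩
  choose r hr using hsel'
  have h3m : (3 : ℝ) ≤ 3 ^ m := by
    calc (3 : ℝ) = 3 ^ 1 := by norm_num
      _ ≤ 3 ^ m := pow_le_pow_right₀ (by norm_num) hm
  have hq0 : (0 : ℝ) ≤ 1 - 3 / 3 ^ m := by
    rw [sub_nonneg, div_le_one (by positivity)]
    exact h3m
  have hq1 : (1 : ℝ) - 3 / 3 ^ m < 1 := by
    have : (0 : ℝ) < 3 / 3 ^ m := by positivity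
    linarith
  have hevT : ∀ᶠ T : ℕ in Filter.atTop, ((1 : ℝ) - 3 / 3 ^ m) ^ T < η / 2 :=
    (tendsto_pow_atTop_nhds_zero_of_lt_one hq0 hq1).eventually_lt_const (by positivity)
  obtain ⟨T, hT⟩ := hevT.exists
  have hwpos := Yw_pos β m
  -- size condition
  have hevn : ∀ᶠ n : ℕ in Filter.atTop,
      24 / (Yw β m) ^ (T + 1) * Real.exp (2 * g * (m * (T + 1))) ≤ Real.exp (g * n) := by
    have h1 : Filter.Tendsto (fun n : ℕ => Real.exp (g * n)) Filter.atTop Filter.atTop :=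
      Real.tendsto_exp_atTop.comp (tendsto_natCast_atTop_atTop.const_mul_atTop hg)
    exact h1.eventually_ge_atTop _
  obtain ⟨n1, hn1⟩ := Filter.eventually_atTop.mp hevn
  refine ⟨max n1 (n0 + m * (T + 1)), fun n hn v hv => ?_⟩
  have hnn1 : n1 ≤ n := le_trans (le_max_left _ _) hn
  have hnn0 : n0 + m * (T + 1) ≤ n := le_trans (le_max_right _ _) hn
  have hmT : m * (T + 1) = m * T + m := by ring
  have hmn : m ≤ n := by omega
  have hn0' : n0 ≤ n - m := by omega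
  obtain ⟨_, hr2', _⟩ := hr (n - m) hn0'
  have hv' : r (n - m) % 3 = 1 ∨ r (n - m) % 3 = 2 := by omega
  have hstep := Y_step1 (M := M) (θ := Real.exp (g * n)) hβ hM7 hm hmn hv hv' (Real.exp_pos _).le
  have hiter := Y_iter hβ hβ1 hg hM7 hm hmn0 (by positivity : 0 < η / 2) r hr T (n - m) (by omega)
    (Real.exp (g * n) / Yw β m) (by positivity) (by
      have h1 := hn1 n hnn1
      rw [div_le_iff₀ hwpos]
      have h2 : ((n - m : ℕ) : ℝ) - m * T = (n : ℝ) - m * (T + 1) := by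
        rw [Nat.cast_sub hmn]
        ring
      rw [h2]
      have h3 : Real.exp (2 * g * ((n : ℝ) - m * (T + 1))) * Real.exp (2 * g * (m * (T + 1))) =
          Real.exp (g * n) * Real.exp (g * n) := by
        rw [← Real.exp_add, ← Real.exp_add]
        congr 1
        ring
      have h4 : Yw β m ^ T * Real.exp (2 * g * ((n : ℝ) - m * (T + 1))) / 24 * Yw β m =
          Real.exp (2 * g * ((n : ℝ) - m * (T + 1))) * (Yw β m ^ (T + 1) / 24) := by
        rw [pow_succ]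
        ring
      rw [h4]
      set E1 := Real.exp (2 * g * ((n : ℝ) - m * (T + 1)))
      set E2 := Real.exp (2 * g * (m * (T + 1)))
      have hE2 : 0 < E2 := Real.exp_pos _
      have hE3 : 0 < Real.exp (g * n) := Real.exp_pos _
      rw [div_mul_eq_mul_div, div_le_iff₀ (by positivity)] at h1
      have h5 : Real.exp (g * n) * E2 ≤ E1 * (Yw β m ^ (T + 1) / 24) * E2 := by
        have h6 : E1 * (Yw β m ^ (T + 1) / 24) * E2 = (E1 * E2) * (Yw β m ^ (T + 1) / 24) := by ring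
        rw [h6, h3]
        have h7 : Real.exp (g * n) * E2 * 24 ≤ Real.exp (g * n) * (Real.exp (g * n) * Yw β m ^ (T + 1)) := by
          rw [mul_assoc]
          refine mul_le_mul_of_nonneg_left ?_ hE3.le
          linarith
        linarith
      exact le_of_mul_le_mul_right h5 hE2)
  have h3 : (3 : ℝ) ^ n = 3 ^ m * 3 ^ (n - m) := by
    rw [← pow_add]
    congr 1
    omega
  have hfin : Fc β M n v (Real.exp (g * n)) ≤ η * 3 ^ n := by
    calc Fc β M n v (Real.exp (g * n)) ≤ _ := hstep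
      _ ≤ 3 ^ m * ((η / 2 + (1 - 3 / 3 ^ m) ^ T) * 3 ^ (n - m)) :=
          mul_le_mul_of_nonneg_left hiter (by positivity)
      _ ≤ 3 ^ m * ((η / 2 + η / 2) * 3 ^ (n - m)) := by
          gcongr
      _ = η * 3 ^ n := by rw [h3]; ring
  exact hfin

end H62w
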