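import Pool.Agent.Lib.H62w.SkPaths

set_option autoImplicit false
open Finset
namespace H62w

/-! Chunk Y, part A: letter law, large deviation. -/

theorem Y_pa_pos (M a : ℕ) : 0 < pa M a := by
  unfold pa
  split <;> positivity

theorem Y_geo (N : ℕ) : ∑ a ∈ range N, ((1 : ℝ) / 2) ^ (a + 1) = 1 - (1 / 2) ^ N := by
  induction N with
  | zero => simp
  | succ N ih =>
    rw [sum_range_succ, ih, pow_succ]
    ring

theorem Y_geo1 (N : ℕ) : ∑ a ∈ range N, ((1 : ℝ) / 2) ^ (a + 1) * ((a : ℝ) + 1) = 2 - (N + 2) * (1 / 2) ^ N := by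
  induction N with
  | zero => simp
  | succ N ih =>
    rw [sum_range_succ, ih, pow_succ]
    push_cast
    ring

theorem Y_Icc_sum (M : ℕ) (f : ℕ → ℝ) : ∑ a ∈ Icc 1 (M + 1), f a = ∑ a ∈ range (M + 1), f (a + 1) := by
  rw [Finset.range_eq_Ico, Finset.sum_Ico_add' f 0 (M + 1) 1]
  rfl

theorem Y_pa_sum {M : ℕ} (hM : 1 ≤ M) : ∑ a ∈ Icc 1 M, pa M a = 1 := by
  obtain ⟨N, rfl⟩ : ∃ N, M = N + 1 := ⟨M - 1, by omega⟩
  rw [Y_Icc_sum, sum_range_succ]
  have h1 : ∑ a ∈ range N, pa (N + 1) (a + 1) = ∑ a ∈ range N, ((1 : ℝ) / 2) ^ (a + 1) := by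
    refine sum_congr rfl fun a ha => ?_
    rw [mem_range] at ha
    unfold pa
    rw [if_pos (by omega)]
  have h2 : pa (N + 1) (N + 1) = (1 / 2) ^ N := by
    unfold pa
    rw [if_neg (by omega)]
    simp
  rw [h1, h2, Y_geo]
  ring

theorem Y_pa_mean {M : ℕ} (hM : 1 ≤ M) :
    ∑ a ∈ Icc 1 M, pa M a * (a : ℝ) = 2 - (1 / 2) ^ (M - 1) := by
  obtain ⟨N, rfl⟩ : ∃ N, M = N + 1 := ⟨M - 1, by omega⟩
  rw [Y_Icc_sum N (fun a => pa (N + 1) a * (a : ℝ)), sum_range_succ]
  have h1 : ∑ a ∈ range N, pa (N + 1) (a + 1) * ((a + 1 : ℕ) : ℝ)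
      = ∑ a ∈ range N, ((1 : ℝ) / 2) ^ (a + 1) * ((a : ℝ) + 1) := by
    refine sum_congr rfl fun a ha => ?_
    rw [mem_range] at ha
    unfold pa
    rw [if_pos (by omega)]
    push_cast
    rfl
  have h2 : pa (N + 1) (N + 1) = (1 / 2) ^ N := by
    unfold pa
    rw [if_neg (by omega)]
    simp
  rw [h1, h2, Y_geo1]
  push_cast
  ring

/-- Sum of a product function over words. -/
theorem Y_words_prod (M : ℕ) (F : ℕ → ℝ) (k : ℕ) :
    ∑ l ∈ words M k, (l.map F).prod = (∑ a ∈ Icc 1 M, F a) ^ k := by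
  induction k with
  | zero => simp [words]
  | succ k ih =>
    rw [words, sum_image, sum_product, pow_succ, mul_comm, ← ih, sum_mul]
    · refine sum_congr rfl fun a _ => ?_
      rw [mul_sum]
      refine sum_congr rfl fun l _ => ?_
      simp
    · rintro ⟨a, l⟩ _ ⟨b, l'⟩ _ h
      simp only [List.cons.injEq] at h
      simp [h.1, h.2]

theorem Y_pw_pos (M : ℕ) (l : List ℕ) : 0 < pw M l := by
  unfold pw
  induction l with
  | nil => simp
  | cons a l ih =>
    rw [List.map_cons, List.prod_cons]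
    exact mul_pos (Y_pa_pos M a) ih

/-- The per letter quotient. -/
noncomputable def Yk (β g : ℝ) (M a : ℕ) : ℝ := Real.exp (2 * g) * (3 * pa M a) * ((2 : ℝ) ^ a / 3) ^ β

theorem Yk_pos (β g : ℝ) (M a : ℕ) : 0 < Yk β g M a := by
  unfold Yk
  have := Y_pa_pos M a
  positivity

theorem Yk_prod (β g : ℝ) (M : ℕ) (l : List ℕ) :
    (l.map (Yk β g M)).prod = Real.exp (2 * g * l.length) * (3 ^ l.length * pw M l) / wt β l.length l := by
  induction l with
  | nil => simp [pw, wt]
  | cons a l ih =>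
    rw [List.map_cons, List.prod_cons, ih]
    have hw : wt β (a :: l).length (a :: l) = ((3 : ℝ) / 2 ^ a) ^ β * wt β l.length l := by
      unfold wt
      rw [← Real.mul_rpow (by positivity) (by positivity)]
      congr 1
      rw [List.length_cons, List.sum_cons, pow_succ, pow_add]
      field_simp
    have hp : pw M (a :: l) = pa M a * pw M l := by
      unfold pw
      rw [List.map_cons, List.prod_cons]
    rw [hw, hp, List.length_cons, pow_succ]
    have he : Real.exp (2 * g * ((l.length + 1 : ℕ) : ℝ)) = Real.exp (2 * g) * Real.exp (2 * g * l.length) := by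
      rw [← Real.exp_add]
      congr 1
      push_cast
      ring
    rw [he]
    have h3 : ((2 : ℝ) ^ a / 3) ^ β * ((3 : ℝ) / 2 ^ a) ^ β = 1 := by
      rw [← Real.mul_rpow (by positivity) (by positivity)]
      have : ((2 : ℝ) ^ a / 3) * ((3 : ℝ) / 2 ^ a) = 1 := by
        field_simp
      rw [this, Real.one_rpow]
    have hwp : 0 < wt β l.length l := wt_pos β _ l
    have h4 : 0 < ((3 : ℝ) / 2 ^ a) ^ β := by positivity
    unfold Yk
    rw [eq_div_iff (by positivity)]
    field_simp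
    linear_combination (pa M a * pw M l) * h3

theorem Yk_log (β g : ℝ) {M : ℕ} (a : ℕ) :
    Real.log (Yk β g M a) = 2 * g + (1 - β) * Real.log 3 + (Real.log (pa M a) + β * Real.log 2 * a) := by
  have hp := Y_pa_pos M a
  unfold Yk
  rw [Real.log_mul (by positivity) (by positivity), Real.log_mul (by positivity) (by positivity),
    Real.log_exp, Real.log_mul (by norm_num) hp.ne', Real.log_rpow (by positivity),
    Real.log_div (by positivity) (by norm_num), Real.log_pow]
  ring

theorem Y_pa_log {M : ℕ} (hM : 1 ≤ M) :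
    ∑ a ∈ Icc 1 M, pa M a * Real.log (pa M a) = - Real.log 2 * (2 - 2 * (1 / 2) ^ (M - 1)) := by
  have h : ∀ a ∈ Icc 1 M, pa M a * Real.log (pa M a) =
      - Real.log 2 * (pa M a * (a : ℝ)) + (if a = M then Real.log 2 * (1 / 2) ^ (M - 1) else 0) := by
    intro a ha
    rw [mem_Icc] at ha
    by_cases haM : a = M
    · subst haM
      have h1 : pa a a = (1 / 2) ^ (a - 1) := by
        unfold pa
        rw [if_neg (by omega)]
      rw [if_pos rfl, h1, Real.log_pow, one_div, Real.log_inv]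
      have h2 : ((a - 1 : ℕ) : ℝ) = (a : ℝ) - 1 := by
        rw [Nat.cast_sub ha.1]
        simp
      rw [h2]
      ring
    · have h1 : pa M a = (1 / 2) ^ a := by
        unfold pa
        rw [if_pos (by omega)]
      rw [if_neg haM, h1, Real.log_pow, one_div, Real.log_inv]
      ring
  rw [sum_congr rfl h, sum_add_distrib, ← mul_sum, Y_pa_mean hM, sum_ite_eq' (Icc 1 M) M]
  rw [if_pos (mem_Icc.mpr ⟨hM, le_refl _⟩)]
  ring

theorem Y_drift (β g : ℝ) {M : ℕ} (hM : 1 ≤ M) :
    ∑ a ∈ Icc 1 M, pa M a * Real.log (Yk β g M a) =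
      2 * g - (1 - β) * Real.log (4 / 3) + (2 - β) * Real.log 2 * (1 / 2) ^ (M - 1) := by
  have h : ∀ a ∈ Icc 1 M, pa M a * Real.log (Yk β g M a) =
      (2 * g + (1 - β) * Real.log 3) * pa M a + (pa M a * Real.log (pa M a) +
        β * Real.log 2 * (pa M a * (a : ℝ))) := by
    intro a _
    rw [Yk_log]
    ring
  have h4 : Real.log (4 / 3) = 2 * Real.log 2 - Real.log 3 := by
    rw [Real.log_div (by norm_num) (by norm_num)]
    have : (4 : ℝ) = 2 ^ 2 := by norm_num
    rw [this, Real.log_pow]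
    norm_num
  rw [sum_congr rfl h, sum_add_distrib, sum_add_distrib, ← mul_sum, ← mul_sum, Y_pa_sum hM, Y_pa_log hM,
    Y_pa_mean hM, h4]
  ring

/-- Exponential moment below one from a negative drift. -/
theorem Y_moment (M : ℕ) (p κ : ℕ → ℝ) (hp : ∀ a, 0 < p a) (hκ : ∀ a, 0 < κ a)
    (hs : ∑ a ∈ Icc 1 M, p a = 1) (hD : ∑ a ∈ Icc 1 M, p a * Real.log (κ a) < 0) :
    ∃ s : ℝ, 0 < s ∧ ∑ a ∈ Icc 1 M, p a * (κ a) ^ s < 1 := by
  set L : ℝ := 1 + ∑ a ∈ Icc 1 M, |Real.log (κ a)| with hL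
  set D : ℝ := -∑ a ∈ Icc 1 M, p a * Real.log (κ a) with hDdef
  have hDpos : 0 < D := by linarith
  have hsum0 : 0 ≤ ∑ a ∈ Icc 1 M, |Real.log (κ a)| := sum_nonneg fun a _ => abs_nonneg _
  have hL1 : 1 ≤ L := by linarith
  have hLa : ∀ a ∈ Icc 1 M, |Real.log (κ a)| ≤ L := by
    intro a ha
    have := single_le_sum (f := fun a => |Real.log (κ a)|) (fun a _ => abs_nonneg _) ha
    linarith
  have hpa1 : ∀ a ∈ Icc 1 M, p a ≤ 1 := by
    intro a ha
    have := single_le_sum (f := p) (fun a _ => (hp a).le) ha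
    linarith
  have hDL : D ≤ L := by
    have : D ≤ ∑ a ∈ Icc 1 M, |Real.log (κ a)| := by
      rw [hDdef, ← sum_neg_distrib]
      refine sum_le_sum fun a ha => ?_
      have h1 := neg_abs_le (Real.log (κ a))
      have h2 := abs_nonneg (Real.log (κ a))
      nlinarith [hp a, hpa1 a ha]
    linarith
  refine ⟨D / (2 * L ^ 2), by positivity, ?_⟩
  set s : ℝ := D / (2 * L ^ 2) with hsdef
  have hspos : 0 < s := by positivity
  have hsL : s * L ≤ 1 := by
    rw [hsdef, div_mul_eq_mul_div, div_le_one (by positivity)]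
    nlinarith
  have hterm : ∀ a ∈ Icc 1 M, p a * (κ a) ^ s ≤ p a + s * (p a * Real.log (κ a)) + (s ^ 2 * L ^ 2) * p a := by
    intro a ha
    have h1 : (κ a) ^ s = Real.exp (s * Real.log (κ a)) := by
      rw [Real.rpow_def_of_pos (hκ a), mul_comm]
    have h2 : |s * Real.log (κ a)| ≤ 1 := by
      rw [abs_mul, abs_of_pos hspos]
      have := hLa a ha
      nlinarith
    have h3 := Real.abs_exp_sub_one_sub_id_le h2
    have h4 := (abs_le.mp h3).2
    have h5 : (s * Real.log (κ a)) ^ 2 ≤ s ^ 2 * L ^ 2 := by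
      rw [mul_pow]
      have h6 : (Real.log (κ a)) ^ 2 ≤ L ^ 2 := by
        rw [← sq_abs]
        exact pow_le_pow_left₀ (abs_nonneg _) (hLa a ha) 2
      nlinarith [sq_nonneg s]
    rw [h1]
    have h7 : Real.exp (s * Real.log (κ a)) ≤ 1 + s * Real.log (κ a) + s ^ 2 * L ^ 2 := by linarith
    nlinarith [hp a]
  have hle := sum_le_sum hterm
  rw [sum_add_distrib, sum_add_distrib, ← mul_sum, ← mul_sum, hs] at hle
  have h8 : s * ∑ a ∈ Icc 1 M, p a * Real.log (κ a) = - (s * D) := by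
    rw [hDdef]; ring
  have h9 : s ^ 2 * L ^ 2 = s * D / 2 := by
    rw [hsdef]
    field_simp
  rw [h8, h9] at hle
  nlinarith [mul_pos hspos hDpos]

/-- Large deviation: bad words have exponentially small mass. -/
theorem Y_chernoff {β : ℝ} (hβ1 : β < 1) :
    ∃ g : ℝ, 0 < g ∧ ∃ M0 : ℕ, ∀ M : ℕ, M0 ≤ M → ∃ ρ : ℝ, 0 ≤ ρ ∧ ρ < 1 ∧ ∀ n : ℕ,
      ∑ l ∈ (words M n).filter (fun l => wt β n l < Real.exp (2 * g * n) * (3 ^ n * pw M l)), pw M l ≤ ρ ^ n := by
  have hlog : 0 < Real.log (4 / 3) := Real.log_pos (by norm_num)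
  set G : ℝ := (1 - β) * Real.log (4 / 3) with hG
  have hGpos : 0 < G := mul_pos (by linarith) hlog
  refine ⟨G / 8, by positivity, ?_⟩
  have htend : Filter.Tendsto (fun n : ℕ => ((1 : ℝ) / 2) ^ n) Filter.atTop (nhds 0) :=
    tendsto_pow_atTop_nhds_zero_of_lt_one (by norm_num) (by norm_num)
  have hev : ∀ᶠ n : ℕ in Filter.atTop, (2 - β) * Real.log 2 * (1 / 2) ^ n < G / 4 := by
    have h := htend.const_mul ((2 - β) * Real.log 2)
    rw [mul_zero] at h
    exact h.eventually_lt_const (by positivity)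
  obtain ⟨N0, hN0⟩ := Filter.eventually_atTop.mp hev
  refine ⟨N0 + 1, fun M hM => ?_⟩
  have hM1 : 1 ≤ M := by omega
  have hdrift : ∑ a ∈ Icc 1 M, pa M a * Real.log (Yk β (G / 8) M a) < 0 := by
    rw [Y_drift β (G / 8) hM1]
    have := hN0 (M - 1) (by omega)
    rw [← hG]
    linarith
  obtain ⟨s, hs, hlt⟩ := Y_moment M (pa M) (Yk β (G / 8) M) (Y_pa_pos M) (Yk_pos β (G / 8) M)
    (Y_pa_sum hM1) hdrift
  refine ⟨∑ a ∈ Icc 1 M, pa M a * (Yk β (G / 8) M a) ^ s, ?_, hlt, fun n => ?_⟩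
  · refine sum_nonneg fun a _ => ?_
    have h1 := Y_pa_pos M a
    have h2 := Yk_pos β (G / 8) M a
    positivity
  · rw [← Y_words_prod]
    refine le_trans (b := ∑ l ∈ (words M n).filter
      (fun l => wt β n l < Real.exp (2 * (G / 8) * n) * (3 ^ n * pw M l)),
        (l.map (fun a => pa M a * (Yk β (G / 8) M a) ^ s)).prod) ?_ ?_
    · refine sum_le_sum fun l hl => ?_
      rw [mem_filter, mem_words] at hl
      have h1 : (l.map (fun a => pa M a * (Yk β (G / 8) M a) ^ s)).prod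
          = pw M l * ((l.map (Yk β (G / 8) M)).prod) ^ s := by
        clear hl
        induction l with
        | nil => simp [pw]
        | cons a l ih =>
          rw [List.map_cons, List.prod_cons, ih, List.map_cons, List.prod_cons]
          have h2 : 0 ≤ (l.map (Yk β (G / 8) M)).prod := by
            refine List.prod_nonneg fun x hx => ?_
            rw [List.mem_map] at hx
            obtain ⟨b, _, rfl⟩ := hx
            exact (Yk_pos _ _ _ _).le
          rw [Real.mul_rpow (Yk_pos _ _ _ _).le h2]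
          have h3 : pw M (a :: l) = pa M a * pw M l := by
            unfold pw
            rw [List.map_cons, List.prod_cons]
          rw [h3]
          ring
      rw [h1, Yk_prod, hl.1.1]
      have hw : 0 < wt β n l := wt_pos β n l
      have h4 : 1 ≤ (Real.exp (2 * (G / 8) * n) * (3 ^ n * pw M l) / wt β n l) ^ s := by
        refine Real.one_le_rpow ?_ hs.le
        rw [le_div_iff₀ hw, one_mul]
        exact hl.2.le
      have := Y_pw_pos M l
      nlinarith
    · refine sum_le_sum_of_subset_of_nonneg (filter_subset _ _) fun l _ _ => ?_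
      refine List.prod_nonneg fun x hx => ?_
      rw [List.mem_map] at hx
      obtain ⟨b, _, rfl⟩ := hx
      have h1 := Y_pa_pos M b
      have h2 := Yk_pos β (G / 8) M b
      positivity

end H62w
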