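import Pool.Agent.Lib.H62w.TypA
import Pool.Agent.Lib.H62w.SkMu

set_option autoImplicit false
open Finset
namespace H62w

/-! Chunk Y, part B: selection of a good class. -/

theorem Y_split (a b : ℕ) (ha : 0 < a) (f : ℕ → ℝ) :
    ∑ y ∈ range (a * b), f y = ∑ r ∈ range a, ∑ u ∈ range b, f (r + a * u) := by
  rw [← sum_product']
  symm
  refine sum_nbij' (fun p => p.1 + a * p.2) (fun y => (y % a, y / a)) ?_ ?_ ?_ ?_ ?_
  · rintro ⟨r, u⟩ h
    rw [mem_product, mem_range, mem_range] at h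
    rw [mem_range]
    have h1 : u + 1 ≤ b := h.2
    calc r + a * u < a + a * u := by have := h.1; simp only at this; omega
      _ = a * (u + 1) := by ring
      _ ≤ a * b := Nat.mul_le_mul_left a h1
  · intro y hy
    rw [mem_range] at hy
    rw [mem_product, mem_range, mem_range]
    exact ⟨Nat.mod_lt y ha, Nat.div_lt_of_lt_mul hy⟩
  · rintro ⟨r, u⟩ h
    rw [mem_product, mem_range, mem_range] at h
    have h1 : r < a := h.1
    simp only [Prod.mk.injEq]
    refine ⟨?_, ?_⟩
    · rw [Nat.add_mul_mod_self_left, Nat.mod_eq_of_lt h1]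
    · rw [Nat.add_mul_div_left _ _ ha, Nat.div_eq_of_lt h1, zero_add]
  · intro y _
    exact Nat.mod_add_div y a
  · rintro ⟨r, u⟩ _
    rfl

theorem Y_card_sum (s : Finset ℕ) (P : ℕ → Prop) [DecidablePred P] :
    ((s.filter P).card : ℝ) = ∑ y ∈ s, if P y then (1 : ℝ) else 0 := by
  rw [Finset.card_filter]
  push_cast
  rfl

/-- Good mass. -/
noncomputable def VG (β g : ℝ) (M n y : ℕ) : ℝ :=
  ∑ l ∈ (words M n).filter (fun l => va l y ∧ en l y % 3 ≠ 0 ∧
    Real.exp (2 * g * n) * (3 ^ n * pw M l) ≤ wt β n l), pw M l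
/-- Total unit mass. -/
noncomputable def VV (M n y : ℕ) : ℝ :=
  ∑ l ∈ (words M n).filter (fun l => va l y ∧ en l y % 3 ≠ 0), pw M l
/-- Bad mass. -/
noncomputable def VB (β g : ℝ) (M n y : ℕ) : ℝ :=
  ∑ l ∈ (words M n).filter (fun l => va l y ∧
    wt β n l < Real.exp (2 * g * n) * (3 ^ n * pw M l)), pw M l

theorem Y_VV_le (β g : ℝ) (M n y : ℕ) : VV M n y ≤ VG β g M n y + VB β g M n y := by
  unfold VV VG VB
  rw [sum_filter, sum_filter, sum_filter, ← sum_add_distrib]
  refine sum_le_sum fun l _ => ?_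
  have hp := (Y_pw_pos M l).le
  by_cases h1 : va l y
  · by_cases h2 : en l y % 3 ≠ 0
    · by_cases h3 : Real.exp (2 * g * n) * (3 ^ n * pw M l) ≤ wt β n l
      · rw [if_pos ⟨h1, h2⟩, if_pos ⟨h1, h2, h3⟩, if_neg (fun h => absurd h3 (not_le.mpr h.2))]
        linarith
      · rw [if_pos ⟨h1, h2⟩, if_neg (fun h => h3 h.2.2), if_pos ⟨h1, not_le.mp h3⟩]
        linarith
    · rw [if_neg (fun h => h2 h.2), if_neg (fun h => h2 h.2.1)]
      rw [zero_add]
      split
      · exact hp
      · exact le_refl _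
  · rw [if_neg (fun h => h1 h.1), if_neg (fun h => h1 h.1), if_neg (fun h => h1 h.1)]
    simp

theorem Y_pa_ge (M a : ℕ) (ha : a ≤ M) : ((1 : ℝ) / 2) ^ a ≤ pa M a := by
  unfold pa
  split
  · exact le_refl _
  · exact pow_le_pow_of_le_one (by norm_num) (by norm_num) (by omega)

theorem Y_pw_ge (M : ℕ) (l : List ℕ) (h : ∀ a ∈ l, a ≤ M) : ((1 : ℝ) / 2) ^ l.sum ≤ pw M l := by
  induction l with
  | nil => simp [pw]
  | cons a l ih =>
    have h1 := ih (fun b hb => h b (List.mem_cons_of_mem _ hb))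
    have h2 := Y_pa_ge M a (h a List.mem_cons_self)
    have h3 : pw M (a :: l) = pa M a * pw M l := by
      unfold pw
      rw [List.map_cons, List.prod_cons]
    rw [h3, List.sum_cons, pow_add]
    exact mul_le_mul h2 h1 (by positivity) (Y_pa_pos M a).le

theorem Y_W_ge {β g : ℝ} (hβ1 : β < 1) (hg : 0 < g) (M n y : ℕ) :
    Real.exp (2 * g * n) * (3 ^ n * VG β g M n y) ≤ W β M n y := by
  unfold VG W
  rw [mul_sum, mul_sum]
  have hsub : (words M n).filter (fun l => va l y ∧ en l y % 3 ≠ 0 ∧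
      Real.exp (2 * g * n) * (3 ^ n * pw M l) ≤ wt β n l) ⊆ PP M n y := by
    intro l hl
    rw [mem_filter] at hl
    unfold PP
    rw [mem_filter]
    refine ⟨hl.1, hl.2.1, hl.2.2.1, ?_⟩
    by_contra hcon
    push Not at hcon
    have hx : (1 : ℝ) < (3 : ℝ) ^ n / 2 ^ l.sum := by
      rw [one_lt_div (by positivity)]
      exact_mod_cast hcon
    have hmem := mem_words.mp hl.1
    have h1 : (3 : ℝ) ^ n / 2 ^ l.sum ≤ 3 ^ n * pw M l := by
      have := Y_pw_ge M l (fun a ha => (hmem.2 a ha).2)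
      rw [one_div, inv_pow] at this
      rw [div_eq_mul_inv]
      exact mul_le_mul_of_nonneg_left this (by positivity)
    have h2 : wt β n l < (3 : ℝ) ^ n / 2 ^ l.sum := by
      unfold wt
      exact Real.rpow_lt_self_of_one_lt hx hβ1
    have h3 : (1 : ℝ) ≤ Real.exp (2 * g * n) := by
      rw [← Real.exp_zero]
      exact Real.exp_le_exp.mpr (by positivity)
    have h4 := hl.2.2.2
    have h5 : (3 : ℝ) ^ n * pw M l ≤ Real.exp (2 * g * n) * (3 ^ n * pw M l) := by
      have : 0 ≤ (3 : ℝ) ^ n * pw M l := by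
        have := Y_pw_pos M l
        positivity
      nlinarith
    linarith
  refine le_trans (sum_le_sum fun l hl => ?_) (sum_le_sum_of_subset_of_nonneg hsub fun l _ _ => (wt_pos β n l).le)
  rw [mem_filter] at hl
  exact hl.2.2.2

theorem Y_words_snoc (M n : ℕ) :
    words M (n + 1) = ((words M n) ×ˢ (Icc 1 M)).image (fun p => p.1 ++ [p.2]) := by
  ext l
  rw [mem_words, mem_image]
  constructor
  · rintro ⟨hlen, hall⟩
    have hne : l ≠ [] := by
      intro h
      rw [h] at hlen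
      simp at hlen
    refine ⟨(l.dropLast, l.getLast hne), ?_, List.dropLast_append_getLast hne⟩
    rw [mem_product, mem_words, mem_Icc]
    refine ⟨⟨?_, ?_⟩, ?_⟩
    · simp [hlen]
    · intro a ha
      exact hall a (List.mem_of_mem_dropLast ha)
    · exact hall _ (List.getLast_mem hne)
  · rintro ⟨⟨l', a⟩, h, rfl⟩
    rw [mem_product, mem_words, mem_Icc] at h
    refine ⟨by simp [h.1.1], ?_⟩
    intro b hb
    rw [List.mem_append, List.mem_singleton] at hb
    rcases hb with hb | hb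
    · exact h.1.2 b hb
    · rw [hb]
      exact h.2

theorem Y_mu_eq (M n y : ℕ) : mu M n y = ∑ l ∈ (words M n).filter (fun l => va l y), pw M l := by
  unfold mu
  refine sum_congr ?_ fun _ _ => rfl
  refine filter_congr fun l hl => ?_
  rw [va_iff, (mem_words.mp hl).1]

theorem Y_mu_le_VV {M : ℕ} (hM : 1 ≤ M) (n y : ℕ) : mu M (n + 1) y ≤ VV M n y := by
  rw [Y_mu_eq, Y_words_snoc, sum_filter, sum_image, sum_product]
  · unfold VV
    rw [sum_filter]
    refine sum_le_sum fun l _ => ?_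
    have hpw : ∀ a, pw M (l ++ [a]) = pw M l * pa M a := by
      intro a
      unfold pw
      simp
    have hp := Y_pw_pos M l
    by_cases h : va l y ∧ en l y % 3 ≠ 0
    · rw [if_pos h]
      calc ∑ a ∈ Icc 1 M, (if va (l ++ [a]) y then pw M (l ++ [a]) else 0)
          ≤ ∑ a ∈ Icc 1 M, pw M l * pa M a := by
            refine sum_le_sum fun a _ => ?_
            have := Y_pa_pos M a
            split
            · rw [hpw]
            · positivity
        _ = pw M l := by rw [← mul_sum, Y_pa_sum hM, mul_one]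
    · rw [if_neg h]
      refine le_of_eq (sum_eq_zero fun a _ => ?_)
      rw [if_neg]
      intro hva
      simp only at hva
      rw [va_append] at hva
      refine h ⟨hva.1, ?_⟩
      intro h0
      have h1 : 2 ^ a * en l y % 3 = 1 := hva.2.1
      rw [Nat.mul_mod, h0] at h1
      simp at h1
  · rintro ⟨l, a⟩ _ ⟨l', b⟩ _ h
    simp only at h
    have h1 := List.append_inj' h (by simp)
    have h2 := h1.2
    simp only [List.cons.injEq, and_true] at h2
    rw [h1.1, h2]

theorem Y_mu_nonneg (M n y : ℕ) : 0 ≤ mu M n y :=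
  sum_nonneg fun l _ => (Y_pw_pos M l).le

theorem Y_mu_mod (M n y : ℕ) : mu M n y = mu M n (y % 3 ^ n) := by
  unfold mu
  refine sum_congr ?_ fun _ _ => rfl
  refine filter_congr fun l _ => ?_
  have h : 2 ^ l.sum * (y % 3 ^ n) ≡ 2 ^ l.sum * y [MOD 3 ^ n] := Nat.ModEq.mul_left _ (Nat.mod_modEq y _)
  exact ⟨fun h1 => h.trans h1, fun h1 => h.symm.trans h1⟩

theorem Y_mu_le_one {M : ℕ} (hM : 1 ≤ M) (n y : ℕ) : mu M n y ≤ 1 := by
  rw [Y_mu_mod, ← mu_sum hM n]
  exact single_le_sum (f := mu M n) (fun z _ => Y_mu_nonneg M n z)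
    (mem_range.mpr (Nat.mod_lt _ (by positivity)))

theorem Y_TT_nonneg (M n : ℕ) : 0 ≤ TT M n := sum_nonneg fun _ _ => abs_nonneg _

/-- A class that carries mass consists of units. -/
theorem Y_unit_of_mu {M m y : ℕ} (hm : 1 ≤ m) (h : 0 < mu M m y) : y % 3 ≠ 0 := by
  rw [Y_mu_eq] at h
  obtain ⟨l, hl, _⟩ := exists_ne_zero_of_sum_ne_zero h.ne'
  rw [mem_filter, mem_words] at hl
  rcases l with _ | ⟨a, l⟩
  · simp at hl
    omega
  · have h1 : 2 ^ a * y % 3 = 1 := hl.2.1
    intro h0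
    rw [Nat.mul_mod, h0] at h1
    simp at h1

/-- Total bad mass. -/
theorem Y_VB_sum (β g : ℝ) (M n : ℕ) :
    ∑ y ∈ range (3 ^ (n + 1)), VB β g M n y =
      3 * ∑ l ∈ (words M n).filter (fun l => wt β n l < Real.exp (2 * g * n) * (3 ^ n * pw M l)), pw M l := by
  have hcount : ∀ l ∈ words M n, ∑ y ∈ range (3 ^ (n + 1)), (if va l y then (1 : ℝ) else 0) = 3 := by
    intro l hl
    obtain ⟨r, hr, huniq⟩ := exists_unique_class l n
    have hlen := (mem_words.mp hl).1
    have hiff : ∀ y, va l y ↔ y % 3 ^ n = r := by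
      intro y
      rw [va_iff, hlen]
      exact huniq y
    rw [pow_succ, Y_split (3 ^ n) 3 (by positivity)]
    have hin : ∀ s ∈ range (3 ^ n), ∑ u ∈ range 3, (if va l (s + 3 ^ n * u) then (1 : ℝ) else 0)
        = if s = r then 3 else 0 := by
      intro s hs
      rw [mem_range] at hs
      have h1 : ∀ u, (va l (s + 3 ^ n * u) ↔ s = r) := by
        intro u
        rw [hiff, Nat.add_mul_mod_self_left, Nat.mod_eq_of_lt hs]
      simp only [h1]
      by_cases h2 : s = r
      · simp [h2]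
      · simp [h2]
    rw [sum_congr rfl hin, sum_ite_eq' (range (3 ^ n)) r, if_pos (mem_range.mpr hr)]
  unfold VB
  simp only [sum_filter]
  rw [sum_comm, mul_sum]
  refine sum_congr rfl fun l hl => ?_
  by_cases h : wt β n l < Real.exp (2 * g * n) * (3 ^ n * pw M l)
  · have h1 : ∀ y ∈ range (3 ^ (n + 1)), (if va l y ∧ wt β n l < Real.exp (2 * g * n) * (3 ^ n * pw M l)
        then pw M l else 0) = pw M l * (if va l y then (1 : ℝ) else 0) := by
      intro y _
      by_cases h2 : va l y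
      · rw [if_pos ⟨h2, h⟩, if_pos h2, mul_one]
      · rw [if_neg (fun h3 => h2 h3.1), if_neg h2, mul_zero]
    rw [sum_congr rfl h1, ← mul_sum, hcount l hl, if_pos h]
    ring
  · rw [if_neg h, mul_zero]
    refine sum_eq_zero fun y _ => ?_
    rw [if_neg (fun h3 => h h3.2)]

end H62w
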