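import Pool.Agent.Lib.H62w.TypB

set_option autoImplicit false
open Finset
namespace H62w

/-! Chunk Y, part C: selection of a good class. -/

/-- Tails of a bounded nonnegative series. -/
theorem Y_tail (f : ℕ → ℝ) (hf : ∀ n, 0 ≤ f n) (B : ℝ) (hB : ∀ J : ℕ, ∑ j ∈ range J, f j ≤ B)
    (ε : ℝ) (hε : 0 < ε) : ∃ m0 : ℕ, ∀ m : ℕ, m0 ≤ m → ∀ n : ℕ, ∑ j ∈ Ico m n, f j ≤ ε := by
  have hs : Summable f := summable_of_sum_range_le hf hB
  have hc := hs.hasSum.tendsto_sum_nat.cauchySeq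
  rw [Metric.cauchySeq_iff'] at hc
  obtain ⟨N, hN⟩ := hc ε hε
  refine ⟨N, fun m hm n => ?_⟩
  rcases le_or_gt m n with hmn | hmn
  · have h1 := hN n (le_trans hm hmn)
    rw [Real.dist_eq] at h1
    have h2 : ∑ j ∈ Ico m n, f j = ∑ j ∈ range n, f j - ∑ j ∈ range m, f j := sum_Ico_eq_sub f hmn
    have h3 : ∑ j ∈ range N, f j ≤ ∑ j ∈ range m, f j :=
      sum_le_sum_of_subset_of_nonneg (range_mono hm) fun _ _ _ => hf _
    have h4 := (abs_lt.mp h1).2
    linarith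
  · rw [Ico_eq_empty (by omega), sum_empty]
    exact hε.le

/-- The set of classes with density at least one half. -/
noncomputable def YS (M m : ℕ) : Finset ℕ := (range (3 ^ m)).filter (fun y => 1 / 2 ≤ 3 ^ m * mu M m y)

theorem Y_mass {M : ℕ} (hM : 1 ≤ M) (B : ℝ) (hB : ∀ J : ℕ, ∑ j ∈ range J, TT M j ≤ B) :
    ∃ c : ℝ, 0 < c ∧ ∃ m1 : ℕ, ∀ m : ℕ, m1 ≤ m → c * 3 ^ m ≤ ((YS M m).card : ℝ) := by
  obtain ⟨m1, hm1⟩ := Y_tail (TT M) (Y_TT_nonneg M) B hB (1 / 8) (by norm_num)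
  refine ⟨3 / 8 / 3 ^ m1, by positivity, m1, fun m hm => ?_⟩
  have h1 : ∑ y ∈ YS M m, mu M m y ≥ 1 / 2 := by
    have h2 := mu_sum hM m
    rw [← sum_filter_add_sum_filter_not (range (3 ^ m)) (fun y => 1 / 2 ≤ 3 ^ m * mu M m y)] at h2
    have h3 : ∑ y ∈ (range (3 ^ m)).filter (fun y => ¬ 1 / 2 ≤ 3 ^ m * mu M m y), mu M m y ≤ 1 / 2 := by
      calc ∑ y ∈ (range (3 ^ m)).filter (fun y => ¬ 1 / 2 ≤ 3 ^ m * mu M m y), mu M m y
          ≤ ∑ y ∈ (range (3 ^ m)).filter (fun y => ¬ 1 / 2 ≤ 3 ^ m * mu M m y), (1 / 2 / 3 ^ m : ℝ) := by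
            refine sum_le_sum fun y hy => ?_
            rw [mem_filter] at hy
            have := hy.2
            push Not at this
            rw [le_div_iff₀ (by positivity)]
            linarith
        _ ≤ ∑ y ∈ range (3 ^ m), (1 / 2 / 3 ^ m : ℝ) :=
            sum_le_sum_of_subset_of_nonneg (filter_subset _ _) fun _ _ _ => by positivity
        _ = 1 / 2 := by
            rw [sum_const, card_range, nsmul_eq_mul]
            push_cast
            field_simp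
    unfold YS
    linarith
  have h4 : ∑ y ∈ YS M m, mu M m1 y / 3 ^ (m - m1) ≥ 3 / 8 := by
    have h5 : ∑ y ∈ YS M m, (mu M m y - mu M m1 y / 3 ^ (m - m1)) ≤ 1 / 8 := by
      calc ∑ y ∈ YS M m, (mu M m y - mu M m1 y / 3 ^ (m - m1))
          ≤ ∑ y ∈ YS M m, |mu M m y - mu M m1 y / 3 ^ (m - m1)| := sum_le_sum fun _ _ => le_abs_self _
        _ ≤ ∑ y ∈ range (3 ^ m), |mu M m y - mu M m1 y / 3 ^ (m - m1)| :=
            sum_le_sum_of_subset_of_nonneg (filter_subset _ _) fun _ _ _ => abs_nonneg _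
        _ ≤ ∑ j ∈ Ico m1 m, TT M j := mu_cauchy hM m1 m hm
        _ ≤ 1 / 8 := hm1 m1 (le_refl _) m
    rw [sum_sub_distrib] at h5
    linarith
  have h6 : ∑ y ∈ YS M m, mu M m1 y / 3 ^ (m - m1) ≤ (YS M m).card * (1 / 3 ^ (m - m1)) := by
    rw [← nsmul_eq_mul]
    refine sum_le_card_nsmul _ _ _ fun y _ => ?_
    exact div_le_div_of_nonneg_right (Y_mu_le_one hM m1 y) (by positivity)
  have h7 : (3 : ℝ) ^ m = 3 ^ (m - m1) * 3 ^ m1 := by
    rw [← pow_add]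
    congr 1
    omega
  have h8 : 3 / 8 ≤ ((YS M m).card : ℝ) * (1 / 3 ^ (m - m1)) := le_trans h4 h6
  rw [mul_one_div, le_div_iff₀ (by positivity)] at h8
  rw [h7]
  calc 3 / 8 / 3 ^ m1 * (3 ^ (m - m1) * (3 : ℝ) ^ m1) = 3 / 8 * 3 ^ (m - m1) := by field_simp
    _ ≤ _ := h8

theorem Y_select {β g ρ B : ℝ} {M : ℕ} (hM : 1 ≤ M) (hρ0 : 0 ≤ ρ) (hρ1 : ρ < 1)
    (hρ : ∀ n : ℕ, ∑ l ∈ (words M n).filter
      (fun l => wt β n l < Real.exp (2 * g * n) * (3 ^ n * pw M l)), pw M l ≤ ρ ^ n)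
    (hB : ∀ J : ℕ, ∑ j ∈ range J, TT M j ≤ B) (η : ℝ) (hη : 0 < η) :
    ∃ m : ℕ, 1 ≤ m ∧ ∃ n0 : ℕ, m ≤ n0 ∧ ∀ n : ℕ, n0 ≤ n → ∃ r : ℕ, r < 3 ^ m ∧ r % 3 ≠ 0 ∧
      (((range (3 ^ (n + 1))).filter (fun y => y % 3 ^ m = r ∧ 3 ^ n * VG β g M n y < 1 / 24)).card : ℝ)
        ≤ η * (3 ^ (n + 1) / 3 ^ m) := by
  obtain ⟨c, hc, m1, hm1⟩ := Y_mass hM B hB
  obtain ⟨m2, hm2⟩ := Y_tail (TT M) (Y_TT_nonneg M) B hB (c * η / 8) (by positivity)
  set m := max 1 (max m1 m2) with hmdef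
  have hm1' : 1 ≤ m := le_max_left _ _
  have hmm1 : m1 ≤ m := le_trans (le_max_left _ _) (le_max_right _ _)
  have hmm2 : m2 ≤ m := le_trans (le_max_right _ _) (le_max_right _ _)
  have hev : ∀ᶠ n : ℕ in Filter.atTop, 24 * ρ ^ n < c * η / 2 := by
    have h := (tendsto_pow_atTop_nhds_zero_of_lt_one hρ0 hρ1).const_mul 24
    rw [mul_zero] at h
    exact h.eventually_lt_const (by positivity)
  obtain ⟨n1, hn1⟩ := Filter.eventually_atTop.mp hev
  refine ⟨m, hm1', max m n1, le_max_left _ _, fun n hn => ?_⟩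
  have hmn : m ≤ n := le_trans (le_max_left _ _) hn
  have hn1' : n1 ≤ n := le_trans (le_max_right _ _) hn
  have hcard := hm1 m hmm1
  have hne : (YS M m).Nonempty := by
    rw [← card_pos]
    have : (0 : ℝ) < ((YS M m).card : ℝ) := lt_of_lt_of_le (by positivity) hcard
    exact_mod_cast this
  set Bad := (range (3 ^ (n + 1))).filter
    (fun y => 1 / 2 ≤ 3 ^ m * mu M m y ∧ 3 ^ n * VG β g M n y < 1 / 24) with hBad
  have hbad : (Bad.card : ℝ) ≤ 3 ^ (n + 1) * (c * η) := by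
    have h1 : (Bad.card : ℝ) ≤ ∑ y ∈ range (3 ^ (n + 1)),
        (4 * (3 ^ (n + 1) * |mu M (n + 1) y - mu M m y / 3 ^ (n + 1 - m)|) +
          24 * (3 ^ n * VB β g M n y)) := by
      rw [hBad, Y_card_sum]
      refine sum_le_sum fun y _ => ?_
      have hVB : 0 ≤ VB β g M n y := sum_nonneg fun l _ => (Y_pw_pos M l).le
      have hnn : 0 ≤ 4 * (3 ^ (n + 1) * |mu M (n + 1) y - mu M m y / 3 ^ (n + 1 - m)|) +
          24 * (3 ^ n * VB β g M n y) := by positivity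
      by_cases h : 1 / 2 ≤ 3 ^ m * mu M m y ∧ 3 ^ n * VG β g M n y < 1 / 24
      · rw [if_pos h]
        have h2 := Y_mu_le_VV hM n y
        have h3 := Y_VV_le β g M n y
        have h4 : (3 : ℝ) ^ (n + 1) * |mu M (n + 1) y - mu M m y / 3 ^ (n + 1 - m)| ≥
            3 ^ m * mu M m y - 3 * (3 ^ n * mu M (n + 1) y) := by
          have h5 := neg_abs_le (mu M (n + 1) y - mu M m y / 3 ^ (n + 1 - m))
          have h6 : (3 : ℝ) ^ m * mu M m y = 3 ^ (n + 1) * (mu M m y / 3 ^ (n + 1 - m)) := by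
            have h7 : (3 : ℝ) ^ (n + 1) = 3 ^ m * 3 ^ (n + 1 - m) := by
              rw [← pow_add]
              congr 1
              omega
            rw [h7]
            field_simp
          rw [h6, pow_succ]
          have : (0 : ℝ) < 3 ^ n := by positivity
          nlinarith
        have h8 : (3 : ℝ) ^ n * mu M (n + 1) y ≤ 3 ^ n * VG β g M n y + 3 ^ n * VB β g M n y := by
          rw [← mul_add]
          exact mul_le_mul_of_nonneg_left (le_trans h2 h3) (by positivity)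
        have h15 : 0 ≤ 3 ^ n * VB β g M n y := by positivity
        linarith [h.1, h.2]
      · rw [if_neg h]
        exact hnn
    rw [sum_add_distrib, ← mul_sum, ← mul_sum, ← mul_sum, ← mul_sum, Y_VB_sum] at h1
    have h9 := mu_cauchy hM m (n + 1) (by omega)
    have h10 := hm2 m hmm2 (n + 1)
    have h11 := hρ n
    have h12 := hn1 n hn1'
    have h13 : ∑ y ∈ range (3 ^ (n + 1)), |mu M (n + 1) y - mu M m y / 3 ^ (n + 1 - m)| ≤ c * η / 8 :=
      le_trans h9 h10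
    have h14 : (0 : ℝ) < 3 ^ n := by positivity
    calc (Bad.card : ℝ) ≤ _ := h1
      _ ≤ 4 * (3 ^ (n + 1) * (c * η / 8)) + 24 * (3 ^ n * (3 * ρ ^ n)) := by
          gcongr
      _ = 3 ^ (n + 1) * (c * η / 2) + 3 ^ (n + 1) * (24 * ρ ^ n) := by
          rw [pow_succ]; ring
      _ ≤ 3 ^ (n + 1) * (c * η / 2) + 3 ^ (n + 1) * (c * η / 2) := by
          gcongr
      _ = _ := by ring
  have hpig : ((Bad.card : ℕ) : ℝ) ≤ (YS M m).card • (η * (3 ^ (n + 1) / 3 ^ m)) := by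
    rw [nsmul_eq_mul]
    calc (Bad.card : ℝ) ≤ 3 ^ (n + 1) * (c * η) := hbad
      _ = c * 3 ^ m * (η * (3 ^ (n + 1) / 3 ^ m)) := by field_simp
      _ ≤ _ := mul_le_mul_of_nonneg_right hcard (by positivity)
  obtain ⟨r, hr, hfib⟩ := exists_card_fiber_le_of_card_le_nsmul (f := fun y => y % 3 ^ m) hne hpig
  unfold YS at hr
  rw [mem_filter, mem_range] at hr
  refine ⟨r, hr.1, ?_, ?_⟩
  · refine Y_unit_of_mu (M := M) hm1' ?_
    have h1 := hr.2
    by_contra hcon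
    push Not at hcon
    have : (3 : ℝ) ^ m * mu M m r ≤ 0 := mul_nonpos_of_nonneg_of_nonpos (by positivity) hcon
    linarith
  · refine le_trans ?_ hfib
    have hsub : (range (3 ^ (n + 1))).filter (fun y => y % 3 ^ m = r ∧ 3 ^ n * VG β g M n y < 1 / 24) ⊆
        Bad.filter (fun y => y % 3 ^ m = r) := by
      intro y hy
      rw [mem_filter] at hy
      rw [mem_filter, hBad, mem_filter]
      refine ⟨⟨hy.1, ?_, hy.2.2⟩, hy.2.1⟩
      rw [Y_mu_mod, hy.2.1]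
      exact hr.2
    exact_mod_cast card_le_card hsub

end H62w
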