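import Pool.Agent.Lib.H62w.TypC

set_option autoImplicit false
open Finset
namespace H62w

/-! Chunk Y, part D: waiting for the good class. -/

theorem Y_letter {y v : ℕ} (hy : y % 3 ≠ 0) (hv : v = 1 ∨ v = 2) :
    ∃ a, 2 ≤ a ∧ a ≤ 7 ∧ 2 ^ a * y % 3 = 1 ∧ nx a y % 3 = v := by
  have h9 : y % 9 = 1 ∨ y % 9 = 2 ∨ y % 9 = 4 ∨ y % 9 = 5 ∨ y % 9 = 7 ∨ y % 9 = 8 := by omega
  unfold nx
  rcases hv with rfl | rfl
  · rcases h9 with h | h | h | h | h | h
    · exact ⟨2, by norm_num, by norm_num, by omega, by omega⟩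
    · exact ⟨7, by norm_num, by norm_num, by omega, by omega⟩
    · exact ⟨6, by norm_num, by norm_num, by omega, by omega⟩
    · exact ⟨3, by norm_num, by norm_num, by omega, by omega⟩
    · exact ⟨4, by norm_num, by norm_num, by omega, by omega⟩
    · exact ⟨5, by norm_num, by norm_num, by omega, by omega⟩
  · rcases h9 with h | h | h | h | h | h
    · exact ⟨4, by norm_num, by norm_num, by omega, by omega⟩
    · exact ⟨3, by norm_num, by norm_num, by omega, by omega⟩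
    · exact ⟨2, by norm_num, by norm_num, by omega, by omega⟩
    · exact ⟨5, by norm_num, by norm_num, by omega, by omega⟩
    · exact ⟨6, by norm_num, by norm_num, by omega, by omega⟩
    · exact ⟨7, by norm_num, by norm_num, by omega, by omega⟩

theorem Y_path0 {M : ℕ} (hM : 7 ≤ M) (m : ℕ) : ∀ y v : ℕ, y % 3 ≠ 0 → (v = 1 ∨ v = 2) →
    ∃ l ∈ words M (m + 1), va l y ∧ en l y % 3 = v ∧ 2 * (m + 1) ≤ l.sum ∧ l.sum ≤ 7 * (m + 1) := by
  induction m with
  | zero =>
    intro y v hy hv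
    obtain ⟨a, h2, h7, h1, hn⟩ := Y_letter hy hv
    refine ⟨[a], ?_, ⟨h1, trivial⟩, hn, ?_, ?_⟩
    · rw [mem_words]
      refine ⟨rfl, ?_⟩
      intro b hb
      rw [List.mem_singleton] at hb
      omega
    · simp only [List.sum_cons, List.sum_nil]; omega
    · simp only [List.sum_cons, List.sum_nil]; omega
  | succ m ih =>
    intro y v hy hv
    obtain ⟨a, h2, h7, h1, hn⟩ := Y_letter hy (Or.inl rfl : (1 : ℕ) = 1 ∨ (1 : ℕ) = 2)
    obtain ⟨l, hl, hva, hen, hs1, hs2⟩ := ih (nx a y) v (by omega) hv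
    refine ⟨a :: l, ?_, ⟨h1, hva⟩, hen, ?_, ?_⟩
    · rw [mem_words] at hl ⊢
      refine ⟨by rw [List.length_cons, hl.1], ?_⟩
      intro b hb
      rw [List.mem_cons] at hb
      rcases hb with hb | hb
      · omega
      · exact hl.2 b hb
    · rw [List.sum_cons]; omega
    · rw [List.sum_cons]; omega

/-- The cost of a waiting path. -/
noncomputable def Yw (β : ℝ) (m : ℕ) : ℝ := (((3 : ℝ) / 128) ^ m) ^ β

theorem Yw_pos (β : ℝ) (m : ℕ) : 0 < Yw β m := by unfold Yw; positivity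

theorem Yw_le_one {β : ℝ} (hβ : 0 < β) (m : ℕ) : Yw β m ≤ 1 := by
  unfold Yw
  exact Real.rpow_le_one (by positivity) (pow_le_one₀ (by norm_num) (by norm_num)) hβ.le

theorem Y_path {β : ℝ} (hβ : 0 < β) {M : ℕ} (hM : 7 ≤ M) {m : ℕ} (hm : 1 ≤ m) {y v : ℕ}
    (hy : y % 3 ≠ 0) (hv : v = 1 ∨ v = 2) :
    ∃ l ∈ PP M m y, en l y % 3 = v ∧ Yw β m ≤ wt β m l := by
  obtain ⟨k, rfl⟩ : ∃ k, m = k + 1 := ⟨m - 1, by omega⟩
  obtain ⟨l, hl, hva, hen, hs1, hs2⟩ := Y_path0 hM k y v hy hv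
  refine ⟨l, ?_, hen, ?_⟩
  · unfold PP
    rw [mem_filter]
    refine ⟨hl, hva, by omega, ?_⟩
    calc 3 ^ (k + 1) ≤ 4 ^ (k + 1) := Nat.pow_le_pow_left (by norm_num) _
      _ = 2 ^ (2 * (k + 1)) := by rw [pow_mul]; norm_num
      _ ≤ 2 ^ l.sum := Nat.pow_le_pow_right (by norm_num) hs1
  · unfold Yw wt
    refine Real.rpow_le_rpow (by positivity) ?_ hβ.le
    rw [div_pow]
    refine div_le_div_of_nonneg_left (by positivity) (by positivity) ?_
    calc (2 : ℝ) ^ l.sum ≤ 2 ^ (7 * (k + 1)) := pow_le_pow_right₀ (by norm_num) hs2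
      _ = 128 ^ (k + 1) := by rw [pow_mul]; norm_num

theorem Y_PP_len {M m y : ℕ} {l : List ℕ} (hl : l ∈ PP M m y) : l.length = m := by
  unfold PP at hl
  rw [mem_filter] at hl
  exact (mem_words.mp hl.1).1

theorem Y_fresh {β : ℝ} {M m n r : ℕ} (hmn : m ≤ n) {l : List ℕ} (hl : l ∈ PP M m r) (θ : ℝ) :
    ((range (3 ^ (n - m))).filter (fun u => W β M n (r + 3 ^ (m + 1) * u) < θ)).card ≤
      ((range (3 ^ (n - m + 1))).filter (fun z => z % 3 = en l r % 3 ∧
        W β M (n - m) z < θ / wt β m l)).card := by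
  have hlen := Y_PP_len hl
  have hva : va l r := by
    unfold PP at hl
    rw [mem_filter] at hl
    exact hl.2.1
  have hdvd : 3 ∣ 3 ^ (n - m + 1) := dvd_pow_self 3 (by omega)
  refine card_le_card_of_injOn (fun u => (en l r + 3 * 2 ^ l.sum * u) % 3 ^ (n - m + 1)) ?_ ?_
  · intro u hu
    rw [mem_coe, mem_filter] at hu
    rw [mem_coe, mem_filter, mem_range]
    refine ⟨Nat.mod_lt _ (by positivity), ?_, ?_⟩
    · simp only
      rw [Nat.mod_mod_of_dvd _ hdvd, mul_assoc, Nat.add_mul_mod_self_left]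
    · simp only
      rw [← W_mod, lt_div_iff₀ (wt_pos β m l)]
      refine lt_of_le_of_lt ?_ hu.2
      have h1 : l ∈ PP M m (r + 3 ^ (m + 1) * u) := by
        rw [PP_mod, Nat.add_mul_mod_self_left, ← PP_mod]
        exact hl
      have h2 := en_add l r u hva
      rw [hlen] at h2
      have h3 := W_super β M m (n - m) (r + 3 ^ (m + 1) * u)
      have h4 : m + (n - m) = n := by omega
      rw [h4] at h3
      refine le_trans ?_ h3
      have h5 : ∀ l' ∈ PP M m (r + 3 ^ (m + 1) * u), 0 ≤ wt β m l' *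
          W β M (n - m) (en l' (r + 3 ^ (m + 1) * u)) := by
        intro l' _
        refine mul_nonneg (wt_pos β m l').le ?_
        exact sum_nonneg fun l'' _ => (wt_pos β _ l'').le
      have h6 := single_le_sum h5 h1
      rw [h2.2, mul_comm] at h6
      exact h6
  · intro u hu u' hu' h
    rw [mem_coe, mem_filter, mem_range] at hu hu'
    simp only at h
    have h1 : en l r + 3 * 2 ^ l.sum * u ≡ en l r + 3 * 2 ^ l.sum * u' [MOD 3 ^ (n - m + 1)] := h
    have h2 := Nat.ModEq.add_left_cancel' _ h1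
    rw [mul_assoc, mul_assoc, pow_succ', Nat.ModEq, Nat.mul_mod_mul_left, Nat.mul_mod_mul_left] at h2
    have h3 : 2 ^ l.sum * u ≡ 2 ^ l.sum * u' [MOD 3 ^ (n - m)] := Nat.eq_of_mul_eq_mul_left (by norm_num) h2
    have h4 : u ≡ u' [MOD 3 ^ (n - m)] := by
      refine Nat.ModEq.cancel_left_of_coprime ?_ h3
      exact Nat.Coprime.pow _ _ (by norm_num)
    have h5 : u % 3 ^ (n - m) = u' % 3 ^ (n - m) := h4
    rwa [Nat.mod_eq_of_lt hu.1, Nat.mod_eq_of_lt hu'.1] at h5

/-- Number of points in class `v` with small weight. -/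
noncomputable def Fc (β : ℝ) (M n v : ℕ) (θ : ℝ) : ℝ :=
  (((range (3 ^ (n + 1))).filter (fun y => y % 3 = v ∧ W β M n y < θ)).card : ℝ)

/-- The same below a given residue. -/
noncomputable def Nr (β : ℝ) (M m n r : ℕ) (θ : ℝ) : ℝ :=
  (((range (3 ^ (n - m))).filter (fun u => W β M n (r + 3 ^ (m + 1) * u) < θ)).card : ℝ)

theorem Fc_nonneg (β : ℝ) (M n v : ℕ) (θ : ℝ) : 0 ≤ Fc β M n v θ := by unfold Fc; positivity

theorem Fc_mono (β : ℝ) (M n v : ℕ) {θ θ' : ℝ} (h : θ ≤ θ') : Fc β M n v θ ≤ Fc β M n v θ' := by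
  unfold Fc
  have : (range (3 ^ (n + 1))).filter (fun y => y % 3 = v ∧ W β M n y < θ) ⊆
      (range (3 ^ (n + 1))).filter (fun y => y % 3 = v ∧ W β M n y < θ') := by
    intro y hy
    rw [mem_filter] at hy ⊢
    exact ⟨hy.1, hy.2.1, lt_of_lt_of_le hy.2.2 h⟩
  exact_mod_cast card_le_card this

theorem Y_count_class {m v : ℕ} (hv : v < 3) :
    ((range (3 ^ (m + 1))).filter (fun y => y % 3 = v)).card = 3 ^ m := by
  have h : (range (3 ^ (m + 1))).filter (fun y => y % 3 = v) = (range (3 ^ m)).image (fun u => v + 3 * u) := by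
    ext y
    rw [mem_filter, mem_range, mem_image, pow_succ]
    constructor
    · rintro ⟨h1, h2⟩
      refine ⟨y / 3, mem_range.mpr ?_, ?_⟩
      · omega
      · omega
    · rintro ⟨u, hu, rfl⟩
      rw [mem_range] at hu
      omega
  rw [h, card_image_of_injective, card_range]
  intro a b hab
  simp only at hab
  omega

theorem Y_count_top {m r : ℕ} (hr : r < 3 ^ m) :
    ((range (3 ^ (m + 1))).filter (fun y => y % 3 ^ m = r)).card = 3 := by
  have hpos : 0 < 3 ^ m := by positivity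
  have h : (range (3 ^ (m + 1))).filter (fun y => y % 3 ^ m = r) = (range 3).image (fun u => r + 3 ^ m * u) := by
    ext y
    rw [mem_filter, mem_range, mem_image]
    constructor
    · rintro ⟨h1, h2⟩
      refine ⟨y / 3 ^ m, mem_range.mpr ?_, ?_⟩
      · rw [pow_succ] at h1
        exact Nat.div_lt_of_lt_mul h1
      · rw [← h2]
        exact Nat.mod_add_div y (3 ^ m)
    · rintro ⟨u, hu, rfl⟩
      rw [mem_range] at hu
      refine ⟨?_, ?_⟩
      · rw [pow_succ]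
        calc r + 3 ^ m * u < 3 ^ m + 3 ^ m * u := by omega
          _ = 3 ^ m * (u + 1) := by ring
          _ ≤ 3 ^ m * 3 := Nat.mul_le_mul_left _ (by omega)
      · rw [Nat.add_mul_mod_self_left, Nat.mod_eq_of_lt hr]
  rw [h, card_image_of_injective, card_range]
  intro a b hab
  simp only at hab
  exact Nat.eq_of_mul_eq_mul_left hpos (by omega)

theorem Fc_le (β : ℝ) (M n : ℕ) {v : ℕ} (hv : v < 3) (θ : ℝ) : Fc β M n v θ ≤ 3 ^ n := by
  unfold Fc
  have h1 : (range (3 ^ (n + 1))).filter (fun y => y % 3 = v ∧ W β M n y < θ) ⊆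
      (range (3 ^ (n + 1))).filter (fun y => y % 3 = v) := by
    intro y hy
    rw [mem_filter] at hy ⊢
    exact ⟨hy.1, hy.2.1⟩
  have h2 := card_le_card h1
  rw [Y_count_class hv] at h2
  exact_mod_cast h2

theorem Fc_split {β : ℝ} {M m n v : ℕ} (hmn : m ≤ n) (θ : ℝ) :
    Fc β M n v θ = ∑ r ∈ (range (3 ^ (m + 1))).filter (fun r => r % 3 = v), Nr β M m n r θ := by
  unfold Fc Nr
  rw [Y_card_sum]
  have h1 : 3 ^ (n + 1) = 3 ^ (m + 1) * 3 ^ (n - m) := by
    rw [← pow_add]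
    congr 1
    omega
  rw [h1, Y_split _ _ (by positivity), sum_filter]
  refine sum_congr rfl fun r _ => ?_
  have h2 : ∀ u, (r + 3 ^ (m + 1) * u) % 3 = r % 3 := by
    intro u
    rw [pow_succ', mul_assoc, Nat.add_mul_mod_self_left]
  by_cases h : r % 3 = v
  · rw [if_pos h, Y_card_sum]
    refine sum_congr rfl fun u _ => ?_
    rw [h2]
    by_cases h3 : W β M n (r + 3 ^ (m + 1) * u) < θ
    · rw [if_pos ⟨h, h3⟩, if_pos h3]
    · rw [if_neg (fun h4 => h3 h4.2), if_neg h3]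
  · rw [if_neg h]
    refine sum_eq_zero fun u _ => ?_
    rw [if_neg]
    rw [h2]
    exact fun h3 => h h3.1

theorem Nr_le {β : ℝ} (hβ : 0 < β) {M : ℕ} (hM : 7 ≤ M) {m n r v : ℕ} (hm : 1 ≤ m) (hmn : m ≤ n)
    (hr : r % 3 ≠ 0) (hv : v = 1 ∨ v = 2) {θ : ℝ} (hθ : 0 ≤ θ) :
    Nr β M m n r θ ≤ Fc β M (n - m) v (θ / Yw β m) := by
  obtain ⟨l, hl, hen, hw⟩ := Y_path hβ hM hm hr hv
  have h1 := Y_fresh (β := β) hmn hl θ
  rw [hen] at h1
  have h2 : Nr β M m n r θ ≤ Fc β M (n - m) v (θ / wt β m l) := by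
    unfold Nr Fc
    exact_mod_cast h1
  refine le_trans h2 (Fc_mono _ _ _ _ ?_)
  exact div_le_div_of_nonneg_left hθ (Yw_pos β m) hw

/-- Any class reduces to any class. -/
theorem Y_step1 {β : ℝ} (hβ : 0 < β) {M : ℕ} (hM : 7 ≤ M) {m n v v' : ℕ} (hm : 1 ≤ m) (hmn : m ≤ n)
    (hv : v = 1 ∨ v = 2) (hv' : v' = 1 ∨ v' = 2) {θ : ℝ} (hθ : 0 ≤ θ) :
    Fc β M n v θ ≤ 3 ^ m * Fc β M (n - m) v' (θ / Yw β m) := by
  rw [Fc_split hmn]
  have h1 : ∀ r ∈ (range (3 ^ (m + 1))).filter (fun r => r % 3 = v),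
      Nr β M m n r θ ≤ Fc β M (n - m) v' (θ / Yw β m) := by
    intro r hr
    rw [mem_filter] at hr
    exact Nr_le hβ hM hm hmn (by omega) hv' hθ
  have h2 := sum_le_card_nsmul _ _ _ h1
  rw [Y_count_class (by omega), nsmul_eq_mul] at h2
  exact_mod_cast h2

/-- The class of the good residue. -/
theorem Y_step2 {β g : ℝ} (hβ : 0 < β) (hβ1 : β < 1) (hg : 0 < g) {M : ℕ} (hM : 7 ≤ M) {m n r v' : ℕ}
    (hm : 1 ≤ m) (hmn : m ≤ n) (hr : r < 3 ^ m) (hr3 : r % 3 ≠ 0) (hv' : v' = 1 ∨ v' = 2) {θ : ℝ}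
    (hθ : 0 ≤ θ) (hθ2 : θ ≤ Real.exp (2 * g * n) / 24) :
    Fc β M n (r % 3) θ ≤
      (((range (3 ^ (n + 1))).filter (fun y => y % 3 ^ m = r ∧ 3 ^ n * VG β g M n y < 1 / 24)).card : ℝ) +
        (3 ^ m - 3) * Fc β M (n - m) v' (θ / Yw β m) := by
  rw [Fc_split hmn, ← sum_filter_add_sum_filter_not _ (fun s => s % 3 ^ m = r)]
  have hmod : ∀ s, s % 3 ^ m % 3 = s % 3 := fun s => Nat.mod_mod_of_dvd s (dvd_pow_self 3 (by omega))
  refine add_le_add ?_ ?_
  · rw [Y_card_sum]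
    have h1 : 3 ^ (n + 1) = 3 ^ (m + 1) * 3 ^ (n - m) := by
      rw [← pow_add]
      congr 1
      omega
    rw [h1, Y_split _ _ (by positivity), filter_filter, sum_filter]
    refine sum_le_sum fun s _ => ?_
    have hnn : 0 ≤ ∑ u ∈ range (3 ^ (n - m)), (if (s + 3 ^ (m + 1) * u) % 3 ^ m = r ∧
        3 ^ n * VG β g M n (s + 3 ^ (m + 1) * u) < 1 / 24 then (1 : ℝ) else 0) := by
      refine sum_nonneg fun u _ => ?_
      split
      · norm_num
      · exact le_refl _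
    by_cases h : s % 3 = r % 3 ∧ s % 3 ^ m = r
    · rw [if_pos h]
      unfold Nr
      rw [Y_card_sum]
      refine sum_le_sum fun u _ => ?_
      by_cases h3 : W β M n (s + 3 ^ (m + 1) * u) < θ
      · rw [if_pos h3, if_pos]
        refine ⟨?_, ?_⟩
        · rw [pow_succ, mul_assoc, Nat.add_mul_mod_self_left]
          exact h.2
        · have h4 := Y_W_ge (β := β) hβ1 hg M n (s + 3 ^ (m + 1) * u)
          have h5 : Real.exp (2 * g * n) * (3 ^ n * VG β g M n (s + 3 ^ (m + 1) * u)) <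
              Real.exp (2 * g * n) * (1 / 24) := by
            calc _ ≤ _ := h4
              _ < θ := h3
              _ ≤ _ := hθ2
              _ = _ := by ring
          exact lt_of_mul_lt_mul_left h5 (Real.exp_pos _).le
      · rw [if_neg h3]
        split
        · norm_num
        · exact le_refl _
    · rw [if_neg h]
      exact hnn
  · have h1 : ∀ s ∈ ((range (3 ^ (m + 1))).filter (fun s => s % 3 = r % 3)).filter (fun s => ¬ s % 3 ^ m = r),
        Nr β M m n s θ ≤ Fc β M (n - m) v' (θ / Yw β m) := by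
      intro s hs
      rw [mem_filter, mem_filter] at hs
      exact Nr_le hβ hM hm hmn (by rw [hs.1.2]; exact hr3) hv' hθ
    have h2 := sum_le_card_nsmul _ _ _ h1
    refine le_trans h2 ?_
    rw [nsmul_eq_mul]
    refine mul_le_mul_of_nonneg_right ?_ (Fc_nonneg _ _ _ _ _)
    have h3 := card_filter_add_card_filter_not (s := (range (3 ^ (m + 1))).filter (fun s => s % 3 = r % 3))
      (fun s => s % 3 ^ m = r)
    have h4 : ((range (3 ^ (m + 1))).filter (fun s => s % 3 = r % 3)).filter (fun s => s % 3 ^ m = r) =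
        (range (3 ^ (m + 1))).filter (fun s => s % 3 ^ m = r) := by
      ext s
      rw [mem_filter, mem_filter, mem_filter]
      constructor
      · rintro ⟨⟨h5, _⟩, h6⟩
        exact ⟨h5, h6⟩
      · rintro ⟨h5, h6⟩
        refine ⟨⟨h5, ?_⟩, h6⟩
        rw [← hmod, h6]
    rw [h4, Y_count_top hr, Y_count_class (Nat.mod_lt _ (by norm_num))] at h3
    have h5 : ((((range (3 ^ (m + 1))).filter (fun s => s % 3 = r % 3)).filter
        (fun s => ¬ s % 3 ^ m = r)).card : ℝ) = 3 ^ m - 3 := by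
      have h6 : (3 : ℝ) + ((((range (3 ^ (m + 1))).filter (fun s => s % 3 = r % 3)).filter
        (fun s => ¬ s % 3 ^ m = r)).card : ℝ) = 3 ^ m := by exact_mod_cast h3
      linarith
    rw [h5]

end H62w
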